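import Mathlib
import Pool.Agent.W_MP_25fb88_lc.TSMain

/-!
# Uniform finiteness of semialgebraic sets along a variable
-/

namespace U78

open Set Pool.Agent.W_MP_25fb88_lc

/-- number of separating points of a sign diagram -/
def dlen {V : Type} : TS.Diag V → ℕ
  | .last _ => 0
  | .cons _ _ D => dlen D + 1

lemma realizes_roots {V : Type} {I : ℝ → V → Prop} (D : TS.Diag V) :
    ∀ {a : WithBot ℝ}, TS.Realizes I I a D →
      ∃ E : Finset ℝ, E.card ≤ dlen D ∧ ∀ x y : ℝ, a < x → x ≤ y → (∀ z ∈ E, z ∉ Icc x y) →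
        ∃ σ, I x σ ∧ I y σ := by
  classical
  induction D with
  | last σ =>
    intro a h
    exact ⟨∅, by simp, fun x y hx hxy _ =>
      ⟨σ, h x hx, h y (lt_of_lt_of_le hx (by exact_mod_cast hxy))⟩⟩
  | cons σ τ D ih =>
    rintro a ⟨r, h1, h2, h3, h4⟩
    obtain ⟨E, hE, hE3⟩ := ih h4
    refine ⟨insert r E, (Finset.card_insert_le _ _).trans ?_, ?_⟩
    · show E.card + 1 ≤ dlen D + 1
      omega
    · intro x y hx hxy hz
      have hr : r ∉ Icc x y := hz r (Finset.mem_insert_self _ _)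
      rcases lt_trichotomy r x with h5 | h5 | h5
      · exact hE3 x y (by exact_mod_cast h5) hxy fun z hz' => hz z (Finset.mem_insert_of_mem hz')
      · exact absurd ⟨h5.ge, h5.trans_le hxy⟩ hr
      · have h6 : y < r := by
          by_contra h7
          exact hr ⟨h5.le, not_lt.1 h7⟩
        exact ⟨σ, h2 x hx h5, h2 y (lt_of_lt_of_le hx (by exact_mod_cast hxy)) h6⟩

lemma pw_bound {Pr : Set (ℕ → ℝ) → Prop} {X : Set (ℕ → ℝ)} (h : PW Pr X)
    (Q : ℕ → (ℕ → ℝ) → Prop) (hQ : ∀ M M' m, M ≤ M' → Q M m → Q M' m)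
    (h' : ∀ Y, Pr Y → ∃ M, ∀ m ∈ Y, Q M m) : ∃ M, ∀ m ∈ X, Q M m := by
  induction h with
  | leaf h => exact h' _ h
  | @split X Z hZ _ _ ih1 ih2 =>
    obtain ⟨M1, h1⟩ := ih1
    obtain ⟨M2, h2⟩ := ih2
    refine ⟨max M1 M2, fun m hm => ?_⟩
    by_cases hmZ : m ∈ Z
    · exact hQ _ _ _ (le_max_left _ _) (h1 m ⟨hm, hmZ⟩)
    · exact hQ _ _ _ (le_max_right _ _) (h2 m ⟨hm, hmZ⟩)

/-- UNIFORM FINITENESS. PROOF. `SA.signs h i` gives a finite set `F` of polynomials and a predicate `φ`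
on sign vectors; `qe_all F : PW (QE F) univ` is a finite case distinction, on every leaf there is one
diagram `D` realised for all parameters `m` of the leaf; let `M` be the maximum of the numbers of
`cons` nodes of the diagrams. For `m` in a leaf with diagram `D`, `TS.Realizes (IF F m) (IF F m) ⊥ D` gives
the roots `r₁ < r₂ < ... < r_k`; take `E = {r₁, ..., r_k}`. Between consecutive roots the sign vector is
constant. (Prove first by induction on `D`: for `a : WithBot ℝ`, a realised diagram gives `E` with at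
most `length D` elements, all `> a`, such that for `a < x ≤ y` with no element of `E` in `[x,y]` there
is `σ` with `I x σ` and `I y σ`. Then `PW` induction for the uniform bound: prove
`PW (fun Y => ∃ M, ∀ m ∈ Y, ...)`, and that `PW Pr univ` for this monotone property gives the
property for `univ` by taking the maximum at each split.) -/
theorem SA_uf {s : Set (ℕ → ℝ)} (h : SA s) (i : ℕ) : ∃ M : ℕ, ∀ m : ℕ → ℝ, ∃ E : Finset ℝ,
    E.card ≤ M ∧ ∀ x y : ℝ, x ≤ y → (∀ z ∈ E, z ∉ Icc x y) →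
      (Function.update m i x ∈ s ↔ Function.update m i y ∈ s) := by
  obtain ⟨F, φ, h1⟩ := h.signs i
  obtain ⟨M, hM⟩ := pw_bound (qe_all F) (fun M m => ∃ E : Finset ℝ,
    E.card ≤ M ∧ ∀ x y : ℝ, x ≤ y → (∀ z ∈ E, z ∉ Icc x y) →
      (Function.update m i x ∈ s ↔ Function.update m i y ∈ s))
    (fun M M' m hMM ⟨E, hE, hE2⟩ => ⟨E, hE.trans hMM, hE2⟩) (by
      rintro Y ⟨D, hD⟩
      refine ⟨dlen D, fun m hm => ?_⟩
      obtain ⟨E, hE, hE3⟩ := realizes_roots D (hD m hm)
      refine ⟨E, hE, fun x y hxy hz => ?_⟩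
      obtain ⟨σ, h2, h3⟩ := hE3 x y (WithBot.bot_lt_coe x) hxy hz
      rw [h1 m x σ h2, h1 m y σ h3])
  exact ⟨M, fun m => hM m (mem_univ m)⟩

end U78
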