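import Mathlib
import Pool.Agent.W_78bee8_h33.Uf

/-!
# Definable relations on real tuples (on top of the Tarski–Seidenberg theorem of the team library)
-/

namespace U78

open Set Pool.Agent.W_MP_25fb88_lc

/-- substitution of polynomials -/
theorem SA_sub {s : Set (ℕ → ℝ)} (h : SA s) (g : ℕ → MvPolynomial ℕ ℤ) :
    SA {m | (fun i => MvPolynomial.aeval m (g i)) ∈ s} := by
  induction h with
  | pos p =>
    have h1 := SA.pos (MvPolynomial.bind₁ g p)
    have h2 : {m : ℕ → ℝ | 0 < MvPolynomial.aeval m (MvPolynomial.bind₁ g p)} =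
        {m : ℕ → ℝ | (fun i => MvPolynomial.aeval m (g i)) ∈
          {m : ℕ → ℝ | 0 < MvPolynomial.aeval m p}} := by
      ext m
      simp only [mem_ofPred_eq]
      rw [MvPolynomial.aeval_bind₁]
    rwa [h2] at h1
  | compl _ ih => exact ih.compl
  | inter _ _ ih1 ih2 => exact ih1.inter ih2

/-- renaming of variables (induction on `SA`; `MvPolynomial.rename σ`) -/
theorem SA_comp {s : Set (ℕ → ℝ)} (h : SA s) (σ : ℕ → ℕ) : SA {m | (fun i => m (σ i)) ∈ s} := by
  have h1 := SA_sub h (fun i => MvPolynomial.X (σ i))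
  simpa using h1

/-- a relation on real tuples indexed by `κ` is definable (without parameters) -/
def Df {κ : Type} (P : (κ → ℝ) → Prop) : Prop :=
  ∃ f : κ → ℕ, Function.Injective f ∧ SA {m : ℕ → ℝ | P (fun i => m (f i))}

/-- the injection is irrelevant: PROOF: for `f` injective choose `σ : ℕ → ℕ` with `σ (f i) = g i`
(`Function.extend f g 0`) and apply `SA_comp`. -/
theorem Df.sa {κ : Type} {P : (κ → ℝ) → Prop} (h : Df P) (g : κ → ℕ) :
    SA {m : ℕ → ℝ | P (fun i => m (g i))} := by
  obtain ⟨f, hf, hs⟩ := h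
  have h1 := SA_comp hs (Function.extend f g (fun _ => 0))
  have h2 : {m : ℕ → ℝ | (fun i => m (Function.extend f g (fun _ => 0) i)) ∈
      {m : ℕ → ℝ | P (fun i => m (f i))}} = {m : ℕ → ℝ | P (fun i => m (g i))} := by
    ext m
    simp only [mem_ofPred_eq]
    have h3 : (fun i => m (Function.extend f g (fun _ => 0) (f i))) = fun i => m (g i) := by
      funext i
      rw [hf.extend_apply]
    rw [h3]
  rwa [h2] at h1

theorem Df.not {κ : Type} {P : (κ → ℝ) → Prop} (h : Df P) : Df (fun v => ¬ P v) := by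
  obtain ⟨f, hf, hs⟩ := h
  exact ⟨f, hf, hs.compl⟩

theorem Df.and {κ : Type} {P Q : (κ → ℝ) → Prop} (h : Df P) (h' : Df Q) :
    Df (fun v => P v ∧ Q v) := by
  obtain ⟨f, hf, hs⟩ := h
  exact ⟨f, hf, hs.inter (h'.sa f)⟩

theorem Df.congr {κ : Type} {P Q : (κ → ℝ) → Prop} (h : Df P) (h' : ∀ v, P v ↔ Q v) : Df Q := by
  have : P = Q := by
    funext v
    exact propext (h' v)
  rwa [this] at h

theorem Df.or {κ : Type} {P Q : (κ → ℝ) → Prop} (h : Df P) (h' : Df Q) :
    Df (fun v => P v ∨ Q v) :=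
  ((h.not.and h'.not).not).congr fun v => by tauto

theorem Df.imp {κ : Type} {P Q : (κ → ℝ) → Prop} (h : Df P) (h' : Df Q) :
    Df (fun v => P v → Q v) :=
  ((h.not).or h').congr fun v => by tauto

theorem Df.const {κ : Type} [Countable κ] (p : Prop) : Df (fun _ : κ → ℝ => p) := by
  obtain ⟨f, hf⟩ := exists_injective_nat κ
  refine ⟨f, hf, ?_⟩
  by_cases hp : p
  · simpa [hp] using Pool.Agent.W_MP_25fb88_lc.sa_univ
  · simpa [hp] using sa_empty

/-- finite conjunctions -/
theorem Df.forall_fin {κ α : Type} [Countable κ] [Finite α] {P : α → (κ → ℝ) → Prop}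
    (h : ∀ a, Df (P a)) : Df (fun v => ∀ a, P a v) := by
  classical
  have := Fintype.ofFinite α
  have h1 : ∀ s : Finset α, Df (fun v => ∀ a ∈ s, P a v) := by
    intro s
    induction s using Finset.induction_on with
    | empty => exact (Df.const True).congr fun v => by simp
    | insert a s _ ih => exact ((h a).and ih).congr fun v => by simp
  exact (h1 Finset.univ).congr fun v => by simp

/-- finite disjunctions -/
theorem Df.exists_fin {κ α : Type} [Countable κ] [Finite α] {P : α → (κ → ℝ) → Prop}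
    (h : ∀ a, Df (P a)) : Df (fun v => ∃ a, P a v) :=
  (Df.forall_fin fun a => (h a).not).not.congr fun v => by push Not; rfl

/-- polynomial functions with integral coefficients -/
def PolyFun {κ : Type} (f : (κ → ℝ) → ℝ) : Prop :=
  ∃ p : MvPolynomial κ ℤ, ∀ v, f v = MvPolynomial.aeval v p

theorem PolyFun.var {κ : Type} (i : κ) : PolyFun (fun v : κ → ℝ => v i) :=
  ⟨MvPolynomial.X i, fun v => by simp⟩

theorem PolyFun.const {κ : Type} (z : ℤ) : PolyFun (fun _ : κ → ℝ => (z : ℝ)) :=
  ⟨MvPolynomial.C z, fun v => by simp⟩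

theorem PolyFun.add {κ : Type} {f g : (κ → ℝ) → ℝ} (hf : PolyFun f) (hg : PolyFun g) :
    PolyFun (fun v => f v + g v) := by
  obtain ⟨p, hp⟩ := hf
  obtain ⟨q, hq⟩ := hg
  exact ⟨p + q, fun v => by simp [hp, hq]⟩

theorem PolyFun.sub {κ : Type} {f g : (κ → ℝ) → ℝ} (hf : PolyFun f) (hg : PolyFun g) :
    PolyFun (fun v => f v - g v) := by
  obtain ⟨p, hp⟩ := hf
  obtain ⟨q, hq⟩ := hg
  exact ⟨p - q, fun v => by simp [hp, hq]⟩

theorem PolyFun.mul {κ : Type} {f g : (κ → ℝ) → ℝ} (hf : PolyFun f) (hg : PolyFun g) :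
    PolyFun (fun v => f v * g v) := by
  obtain ⟨p, hp⟩ := hf
  obtain ⟨q, hq⟩ := hg
  exact ⟨p * q, fun v => by simp [hp, hq]⟩

theorem PolyFun.pow {κ : Type} {f : (κ → ℝ) → ℝ} (hf : PolyFun f) (n : ℕ) :
    PolyFun (fun v => f v ^ n) := by
  obtain ⟨p, hp⟩ := hf
  exact ⟨p ^ n, fun v => by simp [hp]⟩

theorem PolyFun.sum {κ α : Type} (s : Finset α) {f : α → (κ → ℝ) → ℝ} (hf : ∀ a, PolyFun (f a)) :
    PolyFun (fun v => ∑ a ∈ s, f a v) := by
  choose p hp using hf
  exact ⟨∑ a ∈ s, p a, fun v => by simp [hp]⟩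

theorem PolyFun.prod {κ α : Type} (s : Finset α) {f : α → (κ → ℝ) → ℝ} (hf : ∀ a, PolyFun (f a)) :
    PolyFun (fun v => ∏ a ∈ s, f a v) := by
  choose p hp using hf
  exact ⟨∏ a ∈ s, p a, fun v => by simp [hp]⟩

/-- PROOF: `SA.pos` for the renamed difference of the polynomials -/
theorem Df.lt {κ : Type} [Countable κ] {f g : (κ → ℝ) → ℝ} (hf : PolyFun f) (hg : PolyFun g) :
    Df (fun v => f v < g v) := by
  obtain ⟨e, he⟩ := exists_injective_nat κ
  obtain ⟨p, hp⟩ := hf
  obtain ⟨q, hq⟩ := hg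
  refine ⟨e, he, ?_⟩
  have h1 := SA.pos (MvPolynomial.rename e (q - p))
  have h2 : {m : ℕ → ℝ | 0 < MvPolynomial.aeval m (MvPolynomial.rename e (q - p))} =
      {m : ℕ → ℝ | f (fun i => m (e i)) < g (fun i => m (e i))} := by
    ext m
    simp only [mem_ofPred_eq]
    rw [MvPolynomial.aeval_rename, map_sub, sub_pos, hp, hq]
    rfl
  rwa [h2] at h1

theorem Df.le {κ : Type} [Countable κ] {f g : (κ → ℝ) → ℝ} (hf : PolyFun f) (hg : PolyFun g) :
    Df (fun v => f v ≤ g v) :=
  (Df.lt hg hf).not.congr fun _ => not_lt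

theorem Df.eq {κ : Type} [Countable κ] {f g : (κ → ℝ) → ℝ} (hf : PolyFun f) (hg : PolyFun g) :
    Df (fun v => f v = g v) :=
  ((Df.le hf hg).and (Df.le hg hf)).congr fun _ => le_antisymm_iff.symm

/-- substitution of polynomial functions. PROOF: `SA` is stable under `m ↦ (fun i => aeval m (g i))`
(induction on `SA`, `MvPolynomial.bind₁` / `aeval_bind₁`, as for `SA_comp`). -/
theorem Df.subst {κ κ' : Type} [Countable κ'] {P : (κ → ℝ) → Prop} (h : Df P)
    {g : κ → (κ' → ℝ) → ℝ} (hg : ∀ i, PolyFun (g i)) : Df (fun v => P (fun i => g i v)) := by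
  obtain ⟨e, he⟩ := exists_injective_nat κ'
  obtain ⟨f, hf, hs⟩ := h
  choose p hp using hg
  refine ⟨e, he, ?_⟩
  have h1 := SA_sub hs (Function.extend f (fun i => MvPolynomial.rename e (p i)) (fun _ => 0))
  have h2 : {m : ℕ → ℝ | (fun i => MvPolynomial.aeval m
      (Function.extend f (fun i => MvPolynomial.rename e (p i)) (fun _ => 0) i)) ∈
      {m : ℕ → ℝ | P (fun i => m (f i))}} =
      {m : ℕ → ℝ | P (fun i => g i (fun j => m (e j)))} := by
    ext m
    simp only [mem_ofPred_eq]
    have h3 : (fun i => MvPolynomial.aeval m (Function.extend f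
        (fun i => MvPolynomial.rename e (p i)) (fun _ => 0) (f i))) =
        fun i => g i (fun j => m (e j)) := by
      funext i
      rw [hf.extend_apply, MvPolynomial.aeval_rename, hp]
      rfl
    rw [h3]
  rwa [h2] at h1

/-- renaming -/
theorem Df.comap {κ κ' : Type} [Countable κ'] {P : (κ → ℝ) → Prop} (h : Df P) (g : κ → κ') :
    Df (fun v : κ' → ℝ => P (fun i => v (g i))) :=
  h.subst fun i => PolyFun.var (g i)

/-- one real quantifier. PROOF: `SA.proj` for the variable `f none`. -/
theorem Df.ex {κ : Type} {P : (Option κ → ℝ) → Prop} (h : Df P) :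
    Df (fun v : κ → ℝ => ∃ t : ℝ, P (fun o => o.elim t v)) := by
  obtain ⟨f, hf, hs⟩ := h
  refine ⟨fun i => f (some i), fun i j hij => Option.some_injective _ (hf hij), ?_⟩
  have h1 := SA.proj hs (f none)
  have h2 : {m : ℕ → ℝ | ∃ t : ℝ, Function.update m (f none) t ∈
      {m : ℕ → ℝ | P (fun i => m (f i))}} =
      {m : ℕ → ℝ | ∃ t : ℝ, P (fun o => o.elim t (fun i => m (f (some i))))} := by
    ext m
    simp only [mem_ofPred_eq]
    refine exists_congr fun t => ?_
    have h3 : (fun i => Function.update m (f none) t (f i)) =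
        fun o : Option κ => o.elim t (fun i => m (f (some i))) := by
      funext o
      cases o with
      | none => simp
      | some i =>
        rw [Function.update_of_ne]
        · rfl
        · intro h4
          exact absurd (hf h4) (by simp)
    rw [h3]
  rwa [h2] at h1

theorem Df.all {κ : Type} {P : (Option κ → ℝ) → Prop} (h : Df P) :
    Df (fun v : κ → ℝ => ∀ t : ℝ, P (fun o => o.elim t v)) :=
  h.not.ex.not.congr fun v => by push Not; rfl

/-- `n` real quantifiers. PROOF: induction on `n`: `κ ⊕ Fin (n+1) ≃ Option κ ⊕ Fin n` or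
`≃ Option (κ ⊕ Fin n)`, `Df.comap` along the equivalence and `Df.ex`. -/
theorem Df.exV {κ : Type} [Countable κ] {n : ℕ} {P : (κ ⊕ Fin n → ℝ) → Prop} (h : Df P) :
    Df (fun v : κ → ℝ => ∃ u : Fin n → ℝ, P (Sum.elim v u)) := by
  induction n generalizing κ with
  | zero =>
    have h1 := h.comap (κ' := κ) (Sum.elim id Fin.elim0)
    refine h1.congr fun v => ?_
    have h2 : ∀ u : Fin 0 → ℝ, (fun i => v ((Sum.elim id Fin.elim0 : κ ⊕ Fin 0 → κ) i)) =
        Sum.elim v u := by
      intro u
      funext i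
      rcases i with i | i
      · rfl
      · exact i.elim0
    constructor
    · intro h3
      exact ⟨Fin.elim0, by rwa [← h2]⟩
    · rintro ⟨u, hu⟩
      rwa [h2 u]
  | succ n ih =>
    -- the new variable
    let g : κ ⊕ Fin (n + 1) → Option κ ⊕ Fin n :=
      Sum.elim (fun i => Sum.inl (some i)) (Fin.cons (Sum.inl none) (fun j => Sum.inr j))
    have h1 := (ih (κ := Option κ) (h.comap g)).ex
    refine h1.congr fun v => ?_
    have h2 : ∀ (t : ℝ) (u : Fin n → ℝ),
        (fun i => Sum.elim (fun o : Option κ => o.elim t v) u (g i)) =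
          Sum.elim v (Fin.cons t u : Fin (n + 1) → ℝ) := by
      intro t u
      funext i
      rcases i with i | i
      · rfl
      · refine Fin.cases ?_ (fun j => ?_) i
        · rfl
        · rfl
    constructor
    · rintro ⟨t, u, hu⟩
      rw [h2] at hu
      exact ⟨_, hu⟩
    · rintro ⟨u, hu⟩
      refine ⟨u 0, fun j => u j.succ, ?_⟩
      rw [h2]
      have h3 : (Fin.cons (u 0) (fun j => u (Fin.succ j)) : Fin (n + 1) → ℝ) = u := by
        funext i
        refine Fin.cases rfl (fun j => rfl) i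
      rwa [h3]

theorem Df.allV {κ : Type} [Countable κ] {n : ℕ} {P : (κ ⊕ Fin n → ℝ) → Prop} (h : Df P) :
    Df (fun v : κ → ℝ => ∀ u : Fin n → ℝ, P (Sum.elim v u)) :=
  h.not.exV.not.congr fun v => by push Not; rfl

/-- uniform finiteness for definable relations. PROOF: `SA_uf` for the variable `f none`, with the
assignment `m` given by `m (f (some i)) = v i`. -/
theorem Df.uf {κ : Type} {P : (Option κ → ℝ) → Prop} (h : Df P) : ∃ M : ℕ, ∀ v : κ → ℝ,
    ∃ E : Finset ℝ, E.card ≤ M ∧ ∀ x y : ℝ, x ≤ y → (∀ z ∈ E, z ∉ Icc x y) →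
      (P (fun o => o.elim x v) ↔ P (fun o => o.elim y v)) := by
  obtain ⟨f, hf, hs⟩ := h
  obtain ⟨M, hM⟩ := SA_uf hs (f none)
  refine ⟨M, fun v => ?_⟩
  obtain ⟨E, hE, hE2⟩ := hM (Function.extend (fun i => f (some i)) v 0)
  refine ⟨E, hE, fun x y hxy hz => ?_⟩
  have h1 := hE2 x y hxy hz
  have hf' : Function.Injective (fun i : κ => f (some i)) :=
    fun i j hij => Option.some_injective _ (hf hij)
  have h2 : ∀ t : ℝ, (fun i => Function.update (Function.extend (fun i => f (some i)) v 0)
      (f none) t (f i)) = fun o : Option κ => o.elim t v := by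
    intro t
    funext o
    cases o with
    | none => simp
    | some i =>
      rw [Function.update_of_ne]
      · exact hf'.extend_apply v 0 i
      · intro h4
        exact absurd (hf h4) (by simp)
  simp only [mem_ofPred_eq] at h1
  rwa [h2, h2] at h1

lemma SA_isGδ {s : Set (ℕ → ℝ)} (h : SA s) : IsGδ s ∧ IsGδ sᶜ := by
  induction h with
  | pos p =>
    have hc : Continuous (fun m : ℕ → ℝ => (MvPolynomial.aeval m p : ℝ)) := by
      induction p using MvPolynomial.induction_on with
      | C a => simpa using continuous_const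
      | add p q hp hq =>
        simp only [map_add]
        exact hp.add hq
      | mul_X p j hp =>
        simp only [map_mul, MvPolynomial.aeval_X]
        exact hp.mul (continuous_apply j)
    refine ⟨(isOpen_lt continuous_const hc).isGδ, ?_⟩
    have h1 : {m : ℕ → ℝ | 0 < MvPolynomial.aeval m p}ᶜ =
        {m : ℕ → ℝ | MvPolynomial.aeval m p ≤ 0} := by
      ext m
      simp
    rw [h1]
    exact (isClosed_le hc continuous_const).isGδ
  | compl _ ih => exact ⟨ih.2, by rw [compl_compl]; exact ih.1⟩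
  | inter _ _ ih1 ih2 =>
    refine ⟨ih1.1.inter ih2.1, ?_⟩
    rw [compl_inter]
    exact ih1.2.union ih2.2

/-- definable sets and their complements are `Gδ`. PROOF: the same for `SA` sets by induction (open
sets and closed sets are `Gδ` in the metrisable space `ℕ → ℝ`, `IsGδ.union`, `IsGδ.inter`); then
preimage under the continuous map `v ↦ (Function.extend f v 0)`. -/
theorem Df.isGδ {κ : Type} {P : (κ → ℝ) → Prop} (h : Df P) :
    IsGδ {v | P v} ∧ IsGδ {v | ¬ P v} := by
  obtain ⟨f, hf, hs⟩ := h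
  have hc : Continuous (fun v : κ → ℝ => (Function.extend f v 0 : ℕ → ℝ)) := by
    refine continuous_pi fun n => ?_
    by_cases hn : ∃ i, f i = n
    · obtain ⟨i, rfl⟩ := hn
      simp only [hf.extend_apply]
      exact continuous_apply i
    · simp only [Function.extend_apply' _ _ _ hn]
      exact continuous_const
  have h1 := SA_isGδ hs
  have h2 : ∀ v : κ → ℝ, (fun i => (Function.extend f v 0 : ℕ → ℝ) (f i)) = v := by
    intro v
    funext i
    exact hf.extend_apply v 0 i
  constructor
  · have h3 := h1.1.preimage hc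
    have h4 : (fun v : κ → ℝ => (Function.extend f v 0 : ℕ → ℝ)) ⁻¹'
        {m : ℕ → ℝ | P (fun i => m (f i))} = {v | P v} := by
      ext v
      simp only [mem_preimage, mem_ofPred_eq]
      rw [h2]
    rwa [h4] at h3
  · have h3 := h1.2.preimage hc
    have h4 : (fun v : κ → ℝ => (Function.extend f v 0 : ℕ → ℝ)) ⁻¹'
        {m : ℕ → ℝ | P (fun i => m (f i))}ᶜ = {v | ¬ P v} := by
      ext v
      simp only [mem_preimage, mem_compl_iff, mem_ofPred_eq]
      rw [h2]
    rwa [h4] at h3

end U78
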