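import Mathlib

/-!
# The finite Ramsey theorem for `k`-subsets
-/

namespace U78

/-- the finite Ramsey theorem for subsets of linear orders -/
def Ramsey_R (k : ℕ) (κ : Type) : Prop :=
  ∀ t : ℕ, ∃ N : ℕ, ∀ (α : Type) [LinearOrder α] (S : Finset α), N ≤ S.card →
    ∀ c : Finset α → κ, ∃ T ⊆ S, T.card = t ∧ ∃ a : κ, ∀ s ⊆ T, s.card = k → c s = a

/-- colour depends only on the smallest element -/
def Ramsey_P (k : ℕ) (κ : Type) : Prop :=
  ∀ m : ℕ, ∃ N : ℕ, ∀ (α : Type) [LinearOrder α] (S : Finset α), N ≤ S.card →
    ∀ c : Finset α → κ, ∃ T ⊆ S, T.card = m ∧ ∃ f : α → κ,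
      ∀ s ⊆ T, s.card = k + 1 → ∀ x ∈ s, (∀ y ∈ s, x ≤ y) → c s = f x

theorem Ramsey_step {k : ℕ} {κ : Type} (h : Ramsey_R k κ) : Ramsey_P k κ := by
  classical
  intro m
  induction m with
  | zero =>
    refine ⟨0, fun α _ S _ c => ⟨∅, Finset.empty_subset _, rfl, fun _ => c ∅, ?_⟩⟩
    intro s hs hk
    have h1 := Finset.card_le_card hs
    rw [hk, Finset.card_empty] at h1
    omega
  | succ m ih =>
    obtain ⟨Nm, hm⟩ := ih
    obtain ⟨Nk, hk⟩ := h Nm
    refine ⟨Nk + 1, fun α _ S hS c => ?_⟩
    have hne : S.Nonempty := by
      rw [← Finset.card_pos]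
      omega
    have hx : S.min' hne ∈ S := Finset.min'_mem S hne
    have hmin : ∀ y ∈ S, S.min' hne ≤ y := fun y hy => Finset.min'_le S y hy
    generalize S.min' hne = x at hx hmin
    obtain ⟨T₁, hT₁, hc₁, a, ha⟩ := hk α (S.erase x)
      (by rw [Finset.card_erase_of_mem hx]; omega) (fun s => c (insert x s))
    obtain ⟨T, hT, hcT, f, hf⟩ := hm α T₁ (le_of_eq hc₁.symm) c
    have hxT : x ∉ T := fun h1 => (Finset.mem_erase.1 (hT₁ (hT h1))).1 rfl
    refine ⟨insert x T, ?_, ?_, Function.update f x a, ?_⟩
    · intro y hy
      rcases Finset.mem_insert.1 hy with rfl | hy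
      · exact hx
      · exact Finset.mem_of_mem_erase (hT₁ (hT hy))
    · rw [Finset.card_insert_of_notMem hxT, hcT]
    · intro s hs hks z hz hzmin
      by_cases hxs : x ∈ s
      · have hzx : z = x := by
          have h1 := hzmin x hxs
          rcases Finset.mem_insert.1 (hs hz) with h2 | h2
          · exact h2
          · exact le_antisymm h1 (hmin z (Finset.mem_of_mem_erase (hT₁ (hT h2))))
        rw [hzx, Function.update_self]
        have h2 := ha (s.erase x) ?_ ?_
        · simp only [Finset.insert_erase hxs] at h2
          exact h2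
        · intro y hy
          rw [Finset.mem_erase] at hy
          rcases Finset.mem_insert.1 (hs hy.2) with h3 | h3
          · exact absurd h3 hy.1
          · exact hT h3
        · rw [Finset.card_erase_of_mem hxs, hks]
          rfl
      · have hsT : s ⊆ T := by
          intro y hy
          rcases Finset.mem_insert.1 (hs hy) with h3 | h3
          · exact absurd (h3 ▸ hy) hxs
          · exact h3
        have hzx : z ≠ x := fun h3 => hxs (h3 ▸ hz)
        rw [Function.update_of_ne hzx]
        exact hf s hsT hks z hz hzmin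

theorem Ramsey_all (k : ℕ) (κ : Type) [Finite κ] : Ramsey_R k κ := by
  classical
  induction k with
  | zero =>
    intro t
    refine ⟨t, fun α _ S hS c => ?_⟩
    obtain ⟨T, hT, hc⟩ := Finset.exists_subset_card_eq hS
    refine ⟨T, hT, hc, c ∅, fun s _ hs => ?_⟩
    rw [Finset.card_eq_zero.1 hs]
  | succ k ih =>
    intro t
    have := Fintype.ofFinite κ
    obtain ⟨N, hN⟩ := Ramsey_step ih (Fintype.card κ * t)
    refine ⟨N, fun α _ S hS c => ?_⟩
    obtain ⟨T, hT, hcT, f, hf⟩ := hN α S hS c
    have hne : (Finset.univ : Finset κ).Nonempty := ⟨c ∅, Finset.mem_univ _⟩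
    obtain ⟨a, _, ha⟩ := Finset.exists_le_card_fiber_of_mul_le_card_of_maps_to
      (s := T) (t := (Finset.univ : Finset κ)) (f := f) (n := t)
      (fun x _ => Finset.mem_univ _) hne (by rw [Finset.card_univ, hcT])
    obtain ⟨T', hT', hc'⟩ := Finset.exists_subset_card_eq ha
    refine ⟨T', fun x hx => hT (Finset.mem_filter.1 (hT' hx)).1, hc', a, fun s hs hks => ?_⟩
    have hsne : s.Nonempty := by
      rw [← Finset.card_pos]
      omega
    have h1 := hf s (fun x hx => (Finset.mem_filter.1 (hT' (hs hx))).1) hks (s.min' hsne)
      (Finset.min'_mem s hsne) (fun y hy => Finset.min'_le s y hy)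
    rw [h1]
    exact (Finset.mem_filter.1 (hT' (hs (Finset.min'_mem s hsne)))).2

/-- Finite Ramsey theorem: for every finite set of colours and all `k`, `t` there is `N` such that
every colouring of the `k`-subsets of `Fin N` (given by their increasing enumerations) has a
homogeneous subset of size `t`.

PROOF (standard). Induction on `k`. `k = 0`: there is one embedding `Fin 0 ↪o Fin N`; take `N = t`.
Step `k → k + 1`: call a sequence `x_0 < x_1 < ... < x_{m-1}` PRE-HOMOGENEOUS if the colour of a
`(k+1)`-subset `{x_{i_0} < ... < x_{i_k}}` does not depend on its largest element (depends only on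
`i_0 < ... < i_{k-1}`) -- or, more conveniently, does not depend on anything but its SMALLEST
element. It is convenient to prove the following statement by induction on `m`, for all `m`:
for every `m` there is `N` such that every colouring of the `(k+1)`-subsets of every finite set
`S ⊆ ℕ` with at least `N` elements has an increasing sequence of `m` elements of `S` such that the
colour of a `(k+1)`-subset of the sequence depends only on its smallest element (take the smallest
element `x` of `S`, colour the `k`-subsets of `S \ {x}` by the colour of their union with `{x}`,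
apply the theorem for `k` to get a large subset `S'` on which this is constant, continue in `S'`).
Then apply the pigeonhole principle to the `m = |κ| * t + 1` (plus `k`) smallest elements.
Feel free to work with finite sets of natural numbers (`Finset ℕ`, `Finset.powersetCard`) and to
translate at the end (`Finset.orderEmbOfFin`). -/
theorem ramsey (k : ℕ) (κ : Type) [Finite κ] (t : ℕ) : ∃ N : ℕ, ∀ χ : (Fin k ↪o Fin N) → κ,
    ∃ e : Fin t ↪o Fin N, ∀ s s' : Fin k ↪o Fin t, χ (s.trans e) = χ (s'.trans e) := by
  classical
  rcases isEmpty_or_nonempty κ with hκ | hκ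
  · refine ⟨k, fun χ => ?_⟩
    exact (hκ.false (χ (OrderIso.refl (Fin k)).toOrderEmbedding)).elim
  · obtain ⟨N, hN⟩ := Ramsey_all k κ t
    refine ⟨N, fun χ => ?_⟩
    obtain ⟨T, _, hcT, a, ha⟩ := hN (Fin N) Finset.univ (by simp)
      (fun s => if h : s.card = k then χ (s.orderEmbOfFin h) else Classical.arbitrary κ)
    refine ⟨T.orderEmbOfFin hcT, ?_⟩
    have key : ∀ s : Fin k ↪o Fin t, χ (s.trans (T.orderEmbOfFin hcT)) = a := by
      intro s
      have hc : (Finset.univ.map (s.trans (T.orderEmbOfFin hcT)).toEmbedding).card = k := by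
        rw [Finset.card_map, Finset.card_univ, Fintype.card_fin]
      have h1 := ha (Finset.univ.map (s.trans (T.orderEmbOfFin hcT)).toEmbedding) ?_ hc
      · simp only [dif_pos hc] at h1
        rw [← h1]
        congr 1
        exact Finset.orderEmbOfFin_unique' hc fun x =>
          Finset.mem_map_of_mem _ (Finset.mem_univ x)
      · intro y hy
        obtain ⟨x, _, rfl⟩ := Finset.mem_map.1 hy
        exact Finset.orderEmbOfFin_mem T hcT (s x)
    intro s s'
    rw [key, key]

end U78
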