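import Mathlib

/-!
# Unions of Minkowski sums of disjoint convex bodies: definitions

All bodies live in `V = Fin 3 → ℝ` (with the sup norm, which induces the usual topology).
-/

namespace U78

open Set Pointwise

/-- three-space -/
abbrev V : Type := Fin 3 → ℝ

/-- `S` is a semialgebraic set described by `s` polynomials of degree at most `b`: membership of
`x` is determined by the signs at `x` of the `s` polynomials -/
def IsSA (s b : ℕ) (S : Set V) : Prop :=
  ∃ (p : Fin s → MvPolynomial (Fin 3) ℝ) (T : Set (Fin s → SignType)),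
    (∀ i, (p i).totalDegree ≤ b) ∧
      S = {x | (fun i => SignType.sign (MvPolynomial.eval x (p i))) ∈ T}

/-- `w` lies on the boundaries of the three distinct sets `K i`, `K j`, `K k` and in no other set
of the family -/
def FreePoint {ι : Type} (K : ι → Set V) (i j k : ι) (w : V) : Prop :=
  i ≠ j ∧ i ≠ k ∧ j ≠ k ∧ w ∈ frontier (K i) ∧ w ∈ frontier (K j) ∧ w ∈ frontier (K k) ∧
    ∀ l, l ≠ i → l ≠ j → l ≠ k → w ∉ K l

/-- the status of a point relative to a set: `0` inside, `1` outside, `2` on the frontier,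
`3` no condition -/
def St (K : Set V) (w : V) (σ : Fin 4) : Prop :=
  (σ = 0 → w ∈ K) ∧ (σ = 1 → w ∉ K) ∧ (σ = 2 → w ∈ frontier K)

/-- the points `w` with prescribed status relative to the sums `A i + B`, at distance at most `ε`
from `x`, on the plane `m w = e` (`m = 0`, `e = 0`: no plane) -/
def Reg {q : ℕ} (A : Fin q → Set V) (B : Set V) (σ : Fin q → Fin 4) (x : V) (ε : ℝ)
    (m : V →ₗ[ℝ] ℝ) (e : ℝ) : Set V :=
  {w | (∀ i, St (A i + B) w (σ i)) ∧ ‖w - x‖ ≤ ε ∧ m w = e}

/-- a family of sets in which all the regions `Reg` are uniformly tame -/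
structure TameFam (F : Set (Set V)) : Prop where
  /-- the family is invariant under affine bijections -/
  aff : ∀ S ∈ F, ∀ (L : V ≃ₗ[ℝ] V) (v : V), (fun x => L x + v) '' S ∈ F
  /-- the values of a linear functional on a region: boundedly many boundary points -/
  proj : ∀ q : ℕ, ∃ M : ℕ, ∀ (A : Fin q → Set V) (B : Set V), (∀ i, A i ∈ F) → B ∈ F →
    ∀ (σ : Fin q → Fin 4) (x : V) (ε : ℝ) (m : V →ₗ[ℝ] ℝ) (e : ℝ) (l : V →ₗ[ℝ] ℝ),
      ∃ E : Finset ℝ, E.card ≤ M ∧ ∀ c c' : ℝ, c ≤ c' → (∀ z ∈ E, z ∉ Icc c c') →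
        ((∃ w ∈ Reg A B σ x ε m e, l w = c) ↔ (∃ w ∈ Reg A B σ x ε m e, l w = c'))
  /-- continuous selections over the intervals between boundedly many exceptional values -/
  sel : ∀ q : ℕ, ∃ M : ℕ, ∀ (A : Fin q → Set V) (B : Set V), (∀ i, A i ∈ F) → B ∈ F →
    ∀ (σ : Fin q → Fin 4) (x : V) (ε : ℝ) (m : V →ₗ[ℝ] ℝ) (e : ℝ) (l : V →ₗ[ℝ] ℝ),
      ∃ E : Finset ℝ, E.card ≤ M ∧ ∀ c c' : ℝ, (∀ z ∈ E, z ∉ Ioo c c') →
        (∃ d ∈ Ioo c c', ∃ w ∈ Reg A B σ x ε m e, l w = d) →
        ∃ f : ℝ → V, ContinuousOn f (Ioo c c') ∧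
          ∀ d ∈ Ioo c c', f d ∈ Reg A B σ x ε m e ∧ l (f d) = d

/-- a complete tripartite configuration of free points: three classes of `t` bodies `A a i` and,
for every `v` (one index for each class), a point `τ v` on the frontiers of the three sums
`A a (v a) + B` and outside all other sums -/
structure Cfg (F : Set (Set V)) (B : Set V) (t : ℕ) where
  A : Fin 3 → Fin t → Set V
  τ : (Fin 3 → Fin t) → V
  mem : ∀ a i, A a i ∈ F
  cpt : ∀ a i, IsCompact (A a i)
  cvx : ∀ a i, Convex ℝ (A a i)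
  disj : ∀ a i a' i', (a, i) ≠ (a', i') → Disjoint (A a i) (A a' i')
  fr : ∀ v a, τ v ∈ frontier (A a (v a) + B)
  out : ∀ v a i, v a ≠ i → τ v ∉ A a i + B

/-- a subarray is given by three order embeddings -/
abbrev Emb (t T : ℕ) : Type := Fin 3 → Fin t ↪o Fin T

/-- reindexing of an index vector -/
def Emb.ap {t T : ℕ} (e : Emb t T) (v : Fin 3 → Fin t) : Fin 3 → Fin T := fun a => e a (v a)

/-- composition of subarrays -/
def Emb.comp {t T U : ℕ} (e : Emb t T) (f : Emb T U) : Emb t U := fun a => (e a).trans (f a)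

@[simp] lemma Emb.comp_ap {t T U : ℕ} (e : Emb t T) (f : Emb T U) (v : Fin 3 → Fin t) :
    (e.comp f).ap v = f.ap (e.ap v) := rfl

lemma Emb.ap_injective {t T : ℕ} (e : Emb t T) : Function.Injective e.ap := by
  intro v v' h
  funext a
  exact (e a).injective (congrFun h a)

/-- the subconfiguration -/
def Cfg.sub {F : Set (Set V)} {B : Set V} {t T : ℕ} (X : Cfg F B T) (e : Emb t T) : Cfg F B t where
  A a i := X.A a (e a i)
  τ v := X.τ (e.ap v)
  mem a i := X.mem a _
  cpt a i := X.cpt a _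
  cvx a i := X.cvx a _
  disj a i a' i' h := X.disj _ _ _ _ (by
    intro h'
    apply h
    rw [Prod.mk.injEq] at h' ⊢
    obtain ⟨rfl, h2⟩ := h'
    exact ⟨rfl, (e a).injective h2⟩)
  fr v a := X.fr (e.ap v) a
  out v a i h := X.out (e.ap v) a _ (fun h' => h ((e a).injective h'))

/-- the points of a configuration are distinct -/
lemma Cfg.τ_injective {F : Set (Set V)} {B : Set V} (hB : IsCompact B) {t : ℕ} (X : Cfg F B t) :
    Function.Injective X.τ := by
  intro v v' h
  funext a
  by_contra hne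
  refine X.out v' a (v a) (fun h' => hne h'.symm) ?_
  rw [← h]
  have hc : IsClosed (X.A a (v a) + B) := ((X.cpt a _).add hB).isClosed
  exact hc.frontier_subset (X.fr v a)

/-- class `a` is the major class for the function `f` on the array -/
def Maj {t : ℕ} {α : Type} [LT α] (a : Fin 3) (f : (Fin 3 → Fin t) → α) : Prop :=
  (∀ v v', v a < v' a → f v < f v') ∨ (∀ v v', v a < v' a → f v' < f v)

/-- the normalisation of the convex body `B` -/
structure Nice (B : Set V) : Prop where
  cpt : IsCompact B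
  cvx : Convex ℝ B
  zero : (0 : V) ∈ B
  le : ∀ b ∈ B, ‖b‖ ≤ 1
  fat : Metric.closedBall (fun _ => (1 / 4 : ℝ)) (1 / 12) ⊆ B

end U78
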