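import Mathlib
import Pool.Agent.W_78bee8_h33.Defs

/-!
# The complexity of a union: definitions
-/

namespace U78

open Set Pointwise

/-- the points of the boundary of the union of the `K i` which lie in `K i` for `i ∈ I` and in no
other set of the family -/
def stratum {n : ℕ} (K : Fin n → Set V) (I : Finset (Fin n)) : Set V :=
  {w | w ∈ frontier (⋃ i, K i) ∧ ∀ i, w ∈ K i ↔ i ∈ I}

/-- the complexity of the union: the number of all vertices, edges and two-dimensional faces of its
boundary, i.e. of the connected components of all strata -/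
noncomputable def complexity {n : ℕ} (K : Fin n → Set V) : ℕ∞ :=
  ∑ I : Finset (Fin n), ENat.card (ConnectedComponents (stratum K I))

/-- lexicographic order of points -/
def LexLe (w' w : V) : Prop :=
  w' 0 < w 0 ∨ (w' 0 = w 0 ∧ (w' 1 < w 1 ∨ (w' 1 = w 1 ∧ w' 2 ≤ w 2)))

/-- the local lexicographic maxima of a set -/
def LLM (S : Set V) : Set V := {w | w ∈ S ∧ ∃ ρ : ℝ, 0 < ρ ∧ ∀ w' ∈ S, ‖w' - w‖ < ρ → LexLe w' w}

/-- the points which lie in all bodies marked `true`, on the boundary of the union of these bodies,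
and at distance at least `η` from every body marked `false` -/
def Loc {q : ℕ} (K : Fin q → Set V) (σ : Fin q → Bool) (η : ℝ) : Set V :=
  {w | (∀ i, σ i = true → w ∈ K i) ∧ w ∈ frontier {x | ∃ i, σ i = true ∧ x ∈ K i} ∧
    ∀ i, σ i = false → ∀ y ∈ K i, η ≤ ‖w - y‖}

/-- the same for two sets of bodies of a family -/
def LocF {n : ℕ} (K : Fin n → Set V) (I J : Finset (Fin n)) (η : ℝ) : Set V :=
  {w | (∀ i ∈ I, w ∈ K i) ∧ w ∈ frontier {x | ∃ i ∈ I, x ∈ K i} ∧
    ∀ l ∈ J, ∀ y ∈ K l, η ≤ ‖w - y‖}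

/-- in the regions of at most three sums the number of local lexicographic maxima is bounded -/
def TameLex (F : Set (Set V)) : Prop :=
  ∃ M : ℕ, ∀ (A : Fin 3 → Set V) (B : Set V), (∀ i, A i ∈ F) → B ∈ F →
    ∀ (σ : Fin 3 → Bool) (η : ℝ), Bornology.IsBounded (Loc (fun i => A i + B) σ η) →
      (LLM (Loc (fun i => A i + B) σ η)).Finite ∧ (LLM (Loc (fun i => A i + B) σ η)).ncard ≤ M

/-- the pairs `(I, J)` which occur: at most two bodies, or three bodies with a free point -/
def Adm {n : ℕ} (K : Fin n → Set V) (I J : Finset (Fin n)) : Prop :=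
  I.Nonempty ∧ Disjoint I J ∧
    ((I ∪ J).card ≤ 2 ∨ ∃ i j k w, FreePoint K i j k w ∧ I ∪ J = {i, j, k})

end U78
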