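import Mathlib
import Pool.Agent.W_78bee8_h33.Comp

/-!
# For small `η` only admissible pairs occur
-/

namespace U78

open Set

theorem AdmA_pair {n : ℕ} (K : Fin n → Set V) (hK : ∀ i, IsCompact (K i))
    (hgp : ∀ w, {i | w ∈ frontier (K i)}.ncard ≤ 3) (I J : Finset (Fin n)) (hI : I.Nonempty)
    (hd : Disjoint I J) (hA : ¬ Adm K I J) : ∃ η₀ : ℝ, 0 < η₀ ∧ ∀ η : ℝ, 0 < η → η ≤ η₀ →
      ∀ w ∈ LocF K I Iᶜ η, ¬ ∀ l ∈ J, ∃ y ∈ K l, ‖w - y‖ ≤ η := by
  by_contra hcon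
  push Not at hcon
  have hseq : ∀ m : ℕ, ∃ η : ℝ, ∃ w : V, 0 < η ∧ η ≤ 1 / ((m : ℝ) + 1) ∧ w ∈ LocF K I Iᶜ η ∧
      ∀ l ∈ J, ∃ y ∈ K l, ‖w - y‖ ≤ η := by
    intro m
    obtain ⟨η, h1, h2, w, h3, h4⟩ := hcon (1 / ((m : ℝ) + 1)) (by positivity)
    exact ⟨η, w, h1, h2, h3, h4⟩
  choose η w hη0 hη1 hw hJ using hseq
  obtain ⟨i₀, hi₀⟩ := hI
  obtain ⟨a, ha, φ, hφ, hlim⟩ := (hK i₀).tendsto_subseq (x := w) fun m => (hw m).1 i₀ hi₀
  have hη : Filter.Tendsto (fun m => η (φ m)) Filter.atTop (nhds 0) := by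
    refine squeeze_zero (fun m => (hη0 _).le) (fun m => hη1 _) ?_
    exact (tendsto_one_div_add_atTop_nhds_zero_nat (𝕜 := ℝ)).comp hφ.tendsto_atTop
  have f1 : ∀ i ∈ I, a ∈ frontier (K i) := by
    intro i hi
    refine isClosed_frontier.mem_of_tendsto hlim (Filter.Eventually.of_forall fun m => ?_)
    have h1 := (hw (φ m)).1 i hi
    have h2 : w (φ m) ∉ interior {x | ∃ i ∈ I, x ∈ K i} := (hw (φ m)).2.1.2
    have h4 : K i ⊆ {x | ∃ i ∈ I, x ∈ K i} := fun x hx => ⟨i, hi, hx⟩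
    exact ⟨subset_closure h1, fun h3 => h2 (interior_mono h4 h3)⟩
  have f2 : ∀ l, l ∉ I → a ∈ K l → a ∈ frontier (K l) := by
    intro l hl hal
    rw [frontier_eq_closure_inter_closure]
    refine ⟨subset_closure hal, mem_closure_of_tendsto hlim (Filter.Eventually.of_forall fun m => ?_)⟩
    intro h1
    have h2 := (hw (φ m)).2.2 l (Finset.mem_compl.2 hl) _ h1
    rw [Function.comp_apply, sub_self, norm_zero] at h2
    exact absurd (hη0 (φ m)) (not_lt.2 h2)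
  have f3 : ∀ l ∈ J, a ∈ K l := by
    intro l hl
    choose y hy1 hy2 using fun m => hJ m l hl
    have h1 : Filter.Tendsto (fun m => y (φ m)) Filter.atTop (nhds a) := by
      have h2 : Filter.Tendsto (fun m => w (φ m) - y (φ m)) Filter.atTop (nhds 0) :=
        squeeze_zero_norm (fun m => hy2 (φ m)) hη
      have h3 := hlim.sub h2
      rw [sub_zero] at h3
      refine h3.congr fun m => ?_
      show w (φ m) - (w (φ m) - y (φ m)) = y (φ m)
      rw [sub_sub_cancel]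
    exact (hK l).isClosed.mem_of_tendsto h1 (Filter.Eventually.of_forall fun m => hy1 _)
  have f4 : ∀ l, a ∈ K l → a ∈ frontier (K l) := by
    intro l hl
    by_cases h1 : l ∈ I
    · exact f1 l h1
    · exact f2 l h1 hl
  have f5 : ∀ l ∈ I ∪ J, a ∈ frontier (K l) := by
    intro l hl
    rcases Finset.mem_union.1 hl with h1 | h1
    · exact f1 l h1
    · exact f4 l (f3 l h1)
  refine hA ⟨⟨i₀, hi₀⟩, hd, ?_⟩
  by_cases h2 : (I ∪ J).card ≤ 2
  · exact Or.inl h2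
  right
  have hfin : ({i | a ∈ frontier (K i)} : Set (Fin n)).Finite := Set.toFinite _
  have key : ∀ S : Finset (Fin n), (∀ l ∈ S, a ∈ frontier (K l)) → S.card ≤ 3 := by
    intro S hS
    rw [← Set.ncard_coe_finset]
    exact (Set.ncard_le_ncard (fun l hl => hS l hl) hfin).trans (hgp a)
  have h3 : (I ∪ J).card = 3 := le_antisymm (key _ f5) (by omega)
  obtain ⟨i, j, k, hij, hik, hjk, hE⟩ := Finset.card_eq_three.1 h3
  refine ⟨i, j, k, a, ⟨hij, hik, hjk, ?_, ?_, ?_, ?_⟩, hE⟩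
  · exact f5 i (by rw [hE]; simp)
  · exact f5 j (by rw [hE]; simp)
  · exact f5 k (by rw [hE]; simp)
  · intro l hi hj hk hl
    have h4 : l ∉ I ∪ J := by
      rw [hE]
      simp only [Finset.mem_insert, Finset.mem_singleton, not_or]
      exact ⟨hi, hj, hk⟩
    have h5 := key (insert l (I ∪ J)) (by
      intro l' hl'
      rcases Finset.mem_insert.1 hl' with h6 | h6
      · rw [h6]
        exact f4 l hl
      · exact f5 l' h6)
    rw [Finset.card_insert_of_notMem h4] at h5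
    omega

/-- PROOF. There are finitely many pairs `(I, J)`, so it suffices to find `η₀` for a fixed pair with
`Disjoint I J`, `I` nonempty, that is not admissible. Suppose there is none: for every `m : ℕ` there are
`η m ∈ (0, 1/(m+1)]` and `w m ∈ LocF K I Iᶜ (η m)` such that every `K l`, `l ∈ J`, has a point at distance
`≤ η m` from `w m`. The `w m` are in the compact set `K i`, `i ∈ I`; pass to a convergent
subsequence with limit `w`. For `i ∈ I`: `w m ∈ K i` and `w m ∉ interior (K i)` (`w m` is in the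
frontier of the union of the `K i`, `i ∈ I`, hence not in its interior), so `w ∈ frontier (K i)` (a
closed set). For `l ∉ I`: `w m ∉ K l`, so if `w ∈ K l` then `w ∈ frontier (K l)`. For `l ∈ J`: `w ∈ K l`.
So `Q = {l | w ∈ K l} ⊆ {l | w ∈ frontier (K l)}` has at most three elements and contains `I ∪ J`.
If `(I ∪ J).card ≤ 2` the pair is admissible; otherwise `(I ∪ J).card = 3`, `Q = I ∪ J = {i, j, k}`
and `FreePoint K i j k w`: admissible. -/
theorem small_eta {n : ℕ} (K : Fin n → Set V) (hK : ∀ i, IsCompact (K i))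
    (hgp : ∀ w, {i | w ∈ frontier (K i)}.ncard ≤ 3) : ∃ η₀ : ℝ, 0 < η₀ ∧ ∀ η : ℝ, 0 < η → η ≤ η₀ →
      ∀ I J : Finset (Fin n), I.Nonempty → Disjoint I J → ∀ w ∈ LocF K I Iᶜ η,
        (∀ l ∈ J, ∃ y ∈ K l, ‖w - y‖ ≤ η) → Adm K I J := by
  classical
  have h1 : ∀ p : Finset (Fin n) × Finset (Fin n), ∃ η₀ : ℝ, 0 < η₀ ∧ ∀ η : ℝ, 0 < η → η ≤ η₀ →
      p.1.Nonempty → Disjoint p.1 p.2 → ∀ w ∈ LocF K p.1 p.1ᶜ η,
        (∀ l ∈ p.2, ∃ y ∈ K l, ‖w - y‖ ≤ η) → Adm K p.1 p.2 := by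
    rintro ⟨I, J⟩
    by_cases h2 : I.Nonempty ∧ Disjoint I J ∧ ¬ Adm K I J
    · obtain ⟨η₀, h3, h4⟩ := AdmA_pair K hK hgp I J h2.1 h2.2.1 h2.2.2
      exact ⟨η₀, h3, fun η h5 h6 _ _ w hw hl => absurd hl (h4 η h5 h6 w hw)⟩
    · refine ⟨1, one_pos, fun η _ _ h5 h6 w _ _ => ?_⟩
      by_contra h7
      exact h2 ⟨h5, h6, h7⟩
  choose e he0 he using h1
  obtain ⟨p, -, hp⟩ := Finset.exists_min_image (Finset.univ : Finset (Finset (Fin n) × Finset (Fin n)))
    e ⟨(∅, ∅), Finset.mem_univ _⟩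
  refine ⟨e p, he0 p, fun η h2 h3 I J hI hd w hw hl => ?_⟩
  exact he (I, J) η h2 (h3.trans (hp (I, J) (Finset.mem_univ _))) hI hd w hw hl

end U78
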