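import Mathlib

/-!
# Functions with a Borel graph of low complexity are continuous somewhere
-/

namespace U78

open Set

/-- BAIRE. Let `G ⊆ ℝ × ℝ` be such that its complement is `Gδ`, and let `G` be over `(p,q)` the graph
of `f`. Then `f` is continuous on some nonempty open subinterval.
PROOF. `G = ⋃ F n` with closed `F n`. Let
`K n k = F n ∩ (Icc (p + 1/(k+1)) (q - 1/(k+1)) ×ˢ Icc (-k) k)`, compact, and `P n k` its
first projection, compact. The `P n k` cover `(p,q)` (and are contained in it), so by Baire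
(`nonempty_interior_of_iUnion_of_closed` applied to the sets `P n k ∪ (complement of Ioo p q)`, or
in the Baire space `Ioo p q`) one of them has an interior point in `(p,q)`, hence contains an open
interval `(p',q')`. For `x` in it there is `y` with `(x,y) ∈ K n k`, so `y = f x`. So over `(p',q')` the
graph of `f` is the compact set `K n k`, closed in `(p',q') × Icc (-k) k`, and `f` is continuous
(`isClosed graph` + compact target: `continuousOn` via sequences, or
`IsClosed.continuous_of_compact...`/`isClosed_graph`...). -/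
theorem baire_cont (f : ℝ → ℝ) (p q : ℝ) (hpq : p < q) (G : Set (ℝ × ℝ)) (hG : IsGδ Gᶜ)
    (h : ∀ x ∈ Ioo p q, ∀ y, (x, y) ∈ G ↔ y = f x) :
    ∃ p' q', p ≤ p' ∧ p' < q' ∧ q' ≤ q ∧ ContinuousOn f (Ioo p' q') := by
  classical
  obtain ⟨O, hO, hGO⟩ := isGδ_iff_eq_iInter_nat.1 hG
  have hFc : ∀ n, IsClosed (O n)ᶜ := fun n => (hO n).isClosed_compl
  have hGF : ∀ z : ℝ × ℝ, z ∈ G ↔ ∃ n, z ∈ (O n)ᶜ := by
    intro z
    constructor
    · intro hz
      by_contra hcon
      push Not at hcon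
      have : z ∈ Gᶜ := by
        rw [hGO, mem_iInter]
        intro n
        have := hcon n
        rwa [mem_compl_iff, not_not] at this
      exact this hz
    · rintro ⟨n, hn⟩
      by_contra hz
      have : z ∈ Gᶜ := hz
      rw [hGO, mem_iInter] at this
      exact hn (this n)
  let K : ℕ × ℕ → Set (ℝ × ℝ) := fun i =>
    (O i.1)ᶜ ∩ (Icc (p + 1 / ((i.2 : ℝ) + 1)) (q - 1 / ((i.2 : ℝ) + 1)) ×ˢ
      Icc (-(i.2 : ℝ)) (i.2 : ℝ))
  have hKcpt : ∀ i, IsCompact (K i) := fun i =>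
    (isCompact_Icc.prod isCompact_Icc).inter_left (hFc i.1)
  let P : ℕ × ℕ → Set ℝ := fun i => Prod.fst '' K i
  have hPcl : ∀ i, IsClosed (P i) := fun i => ((hKcpt i).image continuous_fst).isClosed
  have hcover : ∀ x ∈ Ioo p q, ∃ i, x ∈ P i := by
    intro x hx
    have h1 : (x, f x) ∈ G := (h x hx (f x)).2 rfl
    obtain ⟨n, hn⟩ := (hGF _).1 h1
    obtain ⟨k1, hk1⟩ := exists_nat_one_div_lt (sub_pos.2 hx.1)
    obtain ⟨k2, hk2⟩ := exists_nat_one_div_lt (sub_pos.2 hx.2)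
    obtain ⟨k3, hk3⟩ := exists_nat_ge |f x|
    let k := max k1 (max k2 k3)
    have hkk1 : (k1 : ℝ) ≤ k := by exact_mod_cast le_max_left _ _
    have hkk2 : (k2 : ℝ) ≤ k := by
      exact_mod_cast (le_max_left k2 k3).trans (le_max_right k1 _)
    have hkk3 : (k3 : ℝ) ≤ k := by
      exact_mod_cast (le_max_right k2 k3).trans (le_max_right k1 _)
    have e1 : 1 / ((k : ℝ) + 1) ≤ 1 / ((k1 : ℝ) + 1) :=
      one_div_le_one_div_of_le (by positivity) (by linarith)
    have e2 : 1 / ((k : ℝ) + 1) ≤ 1 / ((k2 : ℝ) + 1) :=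
      one_div_le_one_div_of_le (by positivity) (by linarith)
    have e3 := abs_le.1 hk3
    refine ⟨(n, k), (x, f x), ⟨hn, ?_⟩, rfl⟩
    refine ⟨⟨?_, ?_⟩, ⟨?_, ?_⟩⟩
    · show p + 1 / ((k : ℝ) + 1) ≤ x
      linarith
    · show x ≤ q - 1 / ((k : ℝ) + 1)
      linarith
    · show -(k : ℝ) ≤ f x
      linarith [e3.1]
    · show f x ≤ (k : ℝ)
      linarith [e3.2]
  let S : ℕ × ℕ → Set ℝ := fun i => P i ∪ (Ioo p q)ᶜ
  have hScl : ∀ i, IsClosed (S i) := fun i => (hPcl i).union isOpen_Ioo.isClosed_compl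
  have hSU : ⋃ i, S i = univ := by
    rw [eq_univ_iff_forall]
    intro x
    rw [mem_iUnion]
    by_cases hx : x ∈ Ioo p q
    · obtain ⟨i, hi⟩ := hcover x hx
      exact ⟨i, Or.inl hi⟩
    · exact ⟨(0, 0), Or.inr hx⟩
  have hdense := dense_iUnion_interior_of_closed hScl hSU
  obtain ⟨x, hxI, hxS⟩ := hdense.exists_mem_open isOpen_Ioo (nonempty_Ioo.2 hpq)
  rw [mem_iUnion] at hxI
  obtain ⟨i, hi⟩ := hxI
  have hnhds : interior (S i) ∩ Ioo p q ∈ nhds x :=
    Filter.inter_mem (isOpen_interior.mem_nhds hi) (isOpen_Ioo.mem_nhds hxS)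
  obtain ⟨p', q', hx', hsub⟩ := mem_nhds_iff_exists_Ioo_subset.1 hnhds
  have hlt : p' < q' := hx'.1.trans hx'.2
  have hsubI : Ioo p' q' ⊆ Ioo p q := fun z hz => (hsub hz).2
  have hle : p ≤ p' ∧ q' ≤ q := (Ioo_subset_Ioo_iff hlt).1 hsubI
  have hK : ∀ z ∈ Ioo p' q', (z, f z) ∈ K i := by
    intro z hz
    have hz1 := interior_subset (hsub hz).1
    rcases hz1 with hz1 | hz1
    · obtain ⟨w, hw, hwz⟩ := hz1
      have h3 : w ∈ G := (hGF _).2 ⟨i.1, hw.1⟩
      have h4 : w = (z, w.2) := by rw [← hwz]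
      have h5 : w.2 = f z := (h z (hsubI hz) w.2).1 (by rw [← h4]; exact h3)
      rw [← h5, ← h4]
      exact hw
    · exact absurd (hsubI hz) hz1
  refine ⟨p', q', hle.1, hlt, hle.2, ?_⟩
  intro z hz
  apply ContinuousAt.continuousWithinAt
  have hmem : Ioo p' q' ∈ nhds z := isOpen_Ioo.mem_nhds hz
  show Filter.map f (nhds z) ≤ nhds (f z)
  refine isCompact_Icc.le_nhds_of_unique_clusterPt
    (s := Icc (-(i.2 : ℝ)) (i.2 : ℝ)) ?_ ?_
  · refine Filter.mem_of_superset (Filter.image_mem_map hmem) ?_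
    rintro _ ⟨w, hw, rfl⟩
    exact (hK w hw).2.2
  · intro y _ hy
    obtain ⟨U, hU, hUy⟩ := mapClusterPt_iff_ultrafilter.1 hy
    have ht : Filter.Tendsto (fun w => (w, f w)) U (nhds (z, y)) := by
      rw [nhds_prod_eq]
      exact Filter.Tendsto.prodMk hU hUy
    have hev : ∀ᶠ w in (U : Filter ℝ), (w, f w) ∈ K i := by
      filter_upwards [hU hmem] with w hw
      exact hK w hw
    have hmemK : (z, y) ∈ K i := (hKcpt i).isClosed.mem_of_tendsto ht hev
    exact (h z (hsubI hz) y).1 ((hGF _).2 ⟨i.1, hmemK.1⟩)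

end U78
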