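import Mathlib

/-!
# The Erdős box theorem for 3-uniform 3-partite hypergraphs
-/

namespace U78

open Finset

/-- the number of maps `Fin t → α` that are not injective -/
lemma box_noninj {α : Type} [Fintype α] [DecidableEq α] (t : ℕ) :
    (univ.filter (fun f : Fin t → α => ¬ Function.Injective f)).card ≤
      t ^ 2 * (Fintype.card α) ^ (t - 1) := by
  classical
  have hsub : univ.filter (fun f : Fin t → α => ¬ Function.Injective f) ⊆
      (univ : Finset (Fin t × Fin t)).biUnion
        (fun p => univ.filter (fun f : Fin t → α => p.1 ≠ p.2 ∧ f p.1 = f p.2)) := by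
    intro f hf
    rw [mem_filter] at hf
    have h := hf.2
    rw [Function.Injective] at h
    push Not at h
    obtain ⟨a, b, hab, hne⟩ := h
    rw [mem_biUnion]
    exact ⟨(a, b), mem_univ _, by simp [hab, hne]⟩
  refine (card_le_card hsub).trans (card_biUnion_le.trans ?_)
  have hone : ∀ p ∈ (univ : Finset (Fin t × Fin t)),
      (univ.filter (fun f : Fin t → α => p.1 ≠ p.2 ∧ f p.1 = f p.2)).card ≤
        (Fintype.card α) ^ (t - 1) := by
    rintro ⟨a, b⟩ -
    by_cases hab : a = b
    · subst hab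
      simp
    · have hcard : Fintype.card ({i : Fin t // i ≠ b} → α) = (Fintype.card α) ^ (t - 1) := by
        rw [Fintype.card_fun]
        congr 1
        simp [Fintype.card_subtype_compl]
      rw [← hcard, ← Finset.card_univ (α := ({i : Fin t // i ≠ b} → α))]
      refine Finset.card_le_card_of_injOn (fun f i => f i.1) (fun _ _ => by simp) ?_
      intro f hf g hg hfg
      simp only [coe_filter, mem_univ, true_and, Set.mem_ofPred_eq] at hf hg
      funext i
      by_cases hi : i = b
      · subst hi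
        rw [← hf.2, ← hg.2]
        exact congrFun hfg ⟨a, hab⟩
      · exact congrFun hfg ⟨i, hi⟩
  refine (Finset.sum_le_card_nsmul _ _ _ hone).trans (le_of_eq ?_)
  simp [sq]

/-- one step of the induction -/
lemma box_step {α β : Type} [Fintype α] [Fintype β] [DecidableEq α] [DecidableEq β]
    (H : Finset (α × β)) (t : ℕ) (M : ℝ) (hM0 : 0 ≤ M)
    (hM : ∀ I : Finset α, I.card = t + 1 →
      ((univ.filter (fun b : β => ∀ i ∈ I, (i, b) ∈ H)).card : ℝ) ≤ M) :
    (H.card : ℝ) ^ (t + 1) ≤ (Fintype.card β : ℝ) ^ t *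
      ((Fintype.card α : ℝ) ^ (t + 1) * M +
        ((t : ℝ) + 1) ^ 2 * (Fintype.card α : ℝ) ^ t * Fintype.card β) := by
  classical
  set d : β → ℕ := fun b => (univ.filter (fun a : α => (a, b) ∈ H)).card with hd
  have h1 : H.card = ∑ b : β, d b := by
    rw [Finset.card_eq_sum_card_fiberwise (f := fun p : α × β => p.2) (t := univ)
      (fun _ _ => by simp)]
    refine Finset.sum_congr rfl fun b _ => ?_
    rw [hd]
    refine Finset.card_bij (fun p _ => p.1) ?_ ?_ ?_
    · rintro ⟨a, b'⟩ hp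
      simp only [mem_filter] at hp
      simp only [mem_filter, mem_univ, true_and]
      rw [← hp.2]
      exact hp.1
    · rintro ⟨a, b'⟩ hp ⟨a', b''⟩ hp' h
      simp only [mem_filter] at hp hp'
      simp only at h
      rw [Prod.mk.injEq]
      exact ⟨h, hp.2.trans hp'.2.symm⟩
    · intro a ha
      simp only [mem_filter, mem_univ, true_and] at ha
      exact ⟨(a, b), by simp [ha], rfl⟩
  have h2 : (∑ b : β, (d b : ℝ)) ^ (t + 1) ≤
      (Fintype.card β : ℝ) ^ t * ∑ b : β, (d b : ℝ) ^ (t + 1) :=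
    pow_sum_le_card_mul_sum_pow (s := (univ : Finset β)) (fun _ _ => Nat.cast_nonneg _) t
  have h3 : ∀ b : β, (d b) ^ (t + 1) =
      (univ.filter (fun f : Fin (t + 1) → α => ∀ i, (f i, b) ∈ H)).card := by
    intro b
    have : univ.filter (fun f : Fin (t + 1) → α => ∀ i, (f i, b) ∈ H) =
        Fintype.piFinset (fun _ : Fin (t + 1) => univ.filter (fun a : α => (a, b) ∈ H)) := by
      ext f
      simp [Fintype.mem_piFinset]
    rw [this, Fintype.card_piFinset]
    simp [hd]
  have h4 : ∑ b : β, (univ.filter (fun f : Fin (t + 1) → α => ∀ i, (f i, b) ∈ H)).card =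
      ∑ f : Fin (t + 1) → α, (univ.filter (fun b : β => ∀ i, (f i, b) ∈ H)).card := by
    simp_rw [Finset.card_filter]
    rw [Finset.sum_comm]
  have h5 : ∀ f : Fin (t + 1) → α, ((univ.filter (fun b : β => ∀ i, (f i, b) ∈ H)).card : ℝ) ≤
      M + if ¬ Function.Injective f then (Fintype.card β : ℝ) else 0 := by
    intro f
    by_cases hf : Function.Injective f
    · simp only [hf, not_true_eq_false, if_false, add_zero]
      refine le_trans (le_of_eq ?_) (hM (univ.image f) ?_)
      · congr 2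
        ext b
        simp
      · rw [card_image_of_injective _ hf]
        simp
    · simp only [hf, not_false_eq_true, if_true]
      have : ((univ.filter (fun b : β => ∀ i, (f i, b) ∈ H)).card : ℝ) ≤ Fintype.card β := by
        exact_mod_cast card_le_univ _
      linarith
  have h6 : (∑ f : Fin (t + 1) → α,
      ((univ.filter (fun b : β => ∀ i, (f i, b) ∈ H)).card : ℝ)) ≤
      (Fintype.card α : ℝ) ^ (t + 1) * M +
        ((t : ℝ) + 1) ^ 2 * (Fintype.card α : ℝ) ^ t * Fintype.card β := by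
    refine (Finset.sum_le_sum fun f _ => h5 f).trans ?_
    rw [Finset.sum_add_distrib]
    refine add_le_add ?_ ?_
    · simp
    · rw [← Finset.sum_filter, Finset.sum_const, nsmul_eq_mul]
      refine mul_le_mul_of_nonneg_right ?_ (Nat.cast_nonneg _)
      have := box_noninj (α := α) (t + 1)
      simp only [Nat.add_sub_cancel] at this
      exact_mod_cast this
  rw [h1]
  push_cast
  refine h2.trans ?_
  refine mul_le_mul_of_nonneg_left ?_ (by positivity)
  refine le_trans (le_of_eq ?_) h6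
  have h7 : (∑ b : β, (d b : ℝ) ^ (t + 1)) = ((∑ b : β, (d b) ^ (t + 1) : ℕ) : ℝ) := by
    push_cast
    rfl
  rw [h7]
  simp_rw [h3]
  rw [h4]
  push_cast
  rfl

/-- Kővári–Sós–Turán -/
lemma box_kst (t n : ℕ) (G : Finset (Fin n × Fin n))
    (hG : ¬ ∃ J K : Finset (Fin n), J.card = t + 1 ∧ K.card = t + 1 ∧
      ∀ j ∈ J, ∀ k ∈ K, (j, k) ∈ G) :
    (G.card : ℝ) ^ (t + 1) ≤ ((t : ℝ) + 2) ^ 3 * (n : ℝ) ^ (2 * t + 1) := by
  have h := box_step G t (t : ℝ) (Nat.cast_nonneg _) ?_
  · rw [Fintype.card_fin] at h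
    refine h.trans ?_
    have e1 : (n : ℝ) ^ t * ((n : ℝ) ^ (t + 1) * t + ((t : ℝ) + 1) ^ 2 * (n : ℝ) ^ t * n) =
        (t + (t + 1) ^ 2) * (n : ℝ) ^ (2 * t + 1) := by ring
    rw [e1]
    refine mul_le_mul_of_nonneg_right ?_ (by positivity)
    have : (0 : ℝ) ≤ t := Nat.cast_nonneg _
    nlinarith [mul_nonneg this this, mul_nonneg this (mul_nonneg this this)]
  · intro J hJ
    by_contra hcon
    push Not at hcon
    have hc : t < (univ.filter (fun k : Fin n => ∀ j ∈ J, (j, k) ∈ G)).card := by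
      have hcon' := hcon
      norm_cast at hcon'
      convert hcon'
    obtain ⟨K, hK, hKc⟩ := Finset.exists_subset_card_eq (Nat.succ_le_of_lt hc)
    refine hG ⟨J, K, hJ, hKc, ?_⟩
    intro j hj k hk
    have := hK hk
    rw [mem_filter] at this
    exact this.2 j hj

/-- Erdős (1964), three classes of size `n`. For every `t ≥ 1` there are `C` and `δ > 0` such that a
set `H` of triples without a complete tripartite `t × t × t` subsystem has at most `C * n ^ (3 - δ)`
elements.

PROOF. (a) Kővári–Sós–Turán: for every `t ≥ 1` there are `C₂`, `δ₂ > 0` (`δ₂ = 1/t`) such that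
`G ⊆ Fin n × Fin n` without `t × t` has at most `C₂ n^(2-δ₂)` elements. (b) Let
`d (j,k) = #{i : (i,j,k) ∈ H}`. The number of pairs (t-subset `I` of `Fin n`, `(j,k)`) with
`I × {(j,k)} ⊆ H` is `∑ C(d(j,k), t) ≥ n² * C(|H|/n², t)` by convexity, or, to avoid convexity of
binomial coefficients, `≥ ∑ ((d - t)^+)^t / t!` and Jensen / the power mean inequality
(`inner_le_Lp_mul_Lq`, `Finset.inner_mul_le_norm_mul_norm`, `inner_le...` or
`Real.pow_arith_mean_le_arith_mean_pow`). For every `I` the graph `{(j,k) : I × {(j,k)} ⊆ H}` has no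
`t × t`, so it has at most `C₂ n^(2-δ₂)` elements; hence the number of pairs is at most
`n^t * C₂ n^(2-δ₂)`. If `|H| ≥ 2 t n²` this gives `n² (|H|/(2n²))^t / t! ≤ C₂ n^(t+2-δ₂)`, i.e.
`|H| ≤ C n^(3 - δ₂/t)`. (a) is proved in the same way from the one-dimensional statement
(a set without `t` elements has at most `t - 1 ≤ t n^0` elements, `δ₁ = 1`).
Any proof with any `δ > 0` is fine. -/
theorem box (t : ℕ) : ∃ C δ : ℝ, 0 < C ∧ 0 < δ ∧ ∀ (n : ℕ) (H : Finset (Fin n × Fin n × Fin n)),
    (¬ ∃ I J K : Finset (Fin n), I.card = t ∧ J.card = t ∧ K.card = t ∧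
      ∀ i ∈ I, ∀ j ∈ J, ∀ k ∈ K, (i, j, k) ∈ H) →
    (H.card : ℝ) ≤ C * (n : ℝ) ^ (3 - δ) := by
  rcases t with _ | t
  · refine ⟨1, 1, one_pos, one_pos, ?_⟩
    intro n H hH
    exact absurd ⟨∅, ∅, ∅, rfl, rfl, rfl, by simp⟩ hH
  -- `s = t + 1`; `δ = 1 / s ^ 2`
  set s : ℝ := (t : ℝ) + 1 with hs
  have hs0 : 0 < s := by positivity
  have hs1 : 1 ≤ s := by
    have : (0 : ℝ) ≤ t := Nat.cast_nonneg _
    linarith
  set D : ℝ := (((t : ℝ) + 2) ^ 3) ^ (1 / s) with hD
  have hD0 : 0 < D := by positivity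
  refine ⟨(D + s ^ 2) ^ (1 / s), 1 / s ^ 2, by positivity, by positivity, ?_⟩
  intro n H hH
  rcases Nat.eq_zero_or_pos n with hn | hn
  · subst hn
    have : H = ∅ := by
      ext ⟨i, _⟩
      exact i.elim0
    rw [this]
    simp only [card_empty, Nat.cast_zero]
    positivity
  have hn0 : (0 : ℝ) < n := by exact_mod_cast hn
  have hn1 : (1 : ℝ) ≤ n := by exact_mod_cast hn
  set M : ℝ := D * (n : ℝ) ^ (2 - 1 / s) with hM
  have hM0 : 0 ≤ M := by positivity
  have hstep := box_step H t M hM0 ?_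
  · rw [Fintype.card_prod, Fintype.card_fin] at hstep
    have hfin : (H.card : ℝ) ^ (t + 1) ≤ (D + s ^ 2) * (n : ℝ) ^ (3 * s - 1 / s) := by
      refine hstep.trans ?_
      push_cast
      have e1 : ((n : ℝ) * n) ^ t * ((n : ℝ) ^ (t + 1) * M + ((t : ℝ) + 1) ^ 2 * (n : ℝ) ^ t *
          ((n : ℝ) * n)) = D * ((n : ℝ) ^ (3 * t + 1) * (n : ℝ) ^ (2 - 1 / s)) +
            s ^ 2 * (n : ℝ) ^ (3 * t + 2) := by
        rw [hM, hs]
        ring
      rw [e1, add_mul]
      have e2 : (n : ℝ) ^ (3 * t + 1) * (n : ℝ) ^ (2 - 1 / s) = (n : ℝ) ^ (3 * s - 1 / s) := by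
        rw [← Real.rpow_natCast, ← Real.rpow_add hn0]
        congr 1
        rw [hs]
        push_cast
        ring
      have e3 : (n : ℝ) ^ (3 * t + 2) ≤ (n : ℝ) ^ (3 * s - 1 / s) := by
        rw [← Real.rpow_natCast]
        refine Real.rpow_le_rpow_of_exponent_le hn1 ?_
        have : 1 / s ≤ 1 := by
          rw [div_le_one hs0]
          exact hs1
        push_cast
        linarith
      rw [e2]
      have : s ^ 2 * (n : ℝ) ^ (3 * t + 2) ≤ s ^ 2 * (n : ℝ) ^ (3 * s - 1 / s) :=
        mul_le_mul_of_nonneg_left e3 (by positivity)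
      linarith
    have hroot : (H.card : ℝ) = ((H.card : ℝ) ^ (t + 1)) ^ (1 / s) := by
      rw [← Real.rpow_natCast, ← Real.rpow_mul (Nat.cast_nonneg _)]
      have : ((t + 1 : ℕ) : ℝ) * (1 / s) = 1 := by
        push_cast
        rw [← hs]
        field_simp
      rw [this, Real.rpow_one]
    rw [hroot]
    refine (Real.rpow_le_rpow (pow_nonneg (Nat.cast_nonneg _) _) hfin (by positivity)).trans (le_of_eq ?_)
    have key : (3 * s - 1 / s) * (1 / s) = 3 - 1 / s ^ 2 := by
      clear_value s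
      field_simp
    rw [Real.mul_rpow (by positivity) (by positivity), ← Real.rpow_mul hn0.le, key]
  · intro I hI
    set G : Finset (Fin n × Fin n) := univ.filter (fun b => ∀ i ∈ I, (i, b) ∈ H) with hG
    have hk := box_kst t n G ?_
    · have hGM : (G.card : ℝ) ≤ M := ?_
      · convert hGM
      have hroot : (G.card : ℝ) = ((G.card : ℝ) ^ (t + 1)) ^ (1 / s) := by
        rw [← Real.rpow_natCast, ← Real.rpow_mul (Nat.cast_nonneg _)]
        have : ((t + 1 : ℕ) : ℝ) * (1 / s) = 1 := by
          push_cast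
          rw [← hs]
          field_simp
        rw [this, Real.rpow_one]
      rw [hroot]
      refine (Real.rpow_le_rpow (pow_nonneg (Nat.cast_nonneg _) _) hk (by positivity)).trans (le_of_eq ?_)
      rw [Real.mul_rpow (by positivity) (by positivity), ← Real.rpow_natCast (n : ℝ),
        ← Real.rpow_mul hn0.le, hM, hD]
      congr 2
      push_cast
      rw [hs]
      field_simp
      ring
    · rintro ⟨J, K, hJ, hK, hJK⟩
      refine hH ⟨I, J, K, hI, hJ, hK, ?_⟩
      intro i hi j hj k hk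
      have := hJK j hj k hk
      rw [hG, mem_filter] at this
      exact this.2 i hi

end U78
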