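import Mathlib
import Pool.Agent.W_78bee8_h33.Df

/-!
# Definable choice
-/

namespace U78

open Set

/-- the chosen point of a bounded nonempty tame subset of the line: the midpoint of its first
component -/
def IsCh (X : Set ℝ) (y : ℝ) : Prop :=
  ∃ a b : ℝ, IsGLB X a ∧ IsGreatest {x | a ≤ x ∧ Ioo a x ⊆ X} b ∧ 2 * y = a + b

theorem IsCh.unique {X : Set ℝ} {y y' : ℝ} (h : IsCh X y) (h' : IsCh X y') : y = y' := by
  obtain ⟨a, b, h1, h2, h3⟩ := h
  obtain ⟨a', b', h1', h2', h3'⟩ := h'
  obtain rfl := h1.unique h1'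
  obtain rfl := h2.unique h2'
  linarith

/-- PROOF. `a = sInf X`, `b = sSup {x | a ≤ x ∧ Ioo a x ⊆ X}` (contains `a`; bounded above by
`max a (sSup X)`; the supremum is attained since `Ioo a b` is the union of the `Ioo a x`). If `a < b`,
the midpoint is in `Ioo a b ⊆ X`. If `a = b`: the midpoint is `a`; if `a ∉ X`, points of `X` accumulate
at `a` from the right; choose `δ > 0` such that no element of `E` is in `(a, a + δ)`; some `x ∈ X` is in
`(a, a + δ)`, so by `hE` all of `(a, a + δ)` is in `X`, contradicting `b = a`. -/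
theorem exists_isCh {X : Set ℝ} (hne : X.Nonempty) (hb : Bornology.IsBounded X) (E : Finset ℝ)
    (hE : ∀ x y : ℝ, x ≤ y → (∀ z ∈ E, z ∉ Icc x y) → (x ∈ X ↔ y ∈ X)) :
    ∃ y ∈ X, IsCh X y := by
  have hbb : BddBelow X := hb.bddBelow
  have hba : BddAbove X := hb.bddAbove
  have hglb : IsGLB X (sInf X) := isGLB_csInf hne hbb
  set a := sInf X with ha
  set S : Set ℝ := {x | a ≤ x ∧ Ioo a x ⊆ X} with hS
  have haS : a ∈ S := ⟨le_refl a, by simp⟩
  have hSb : BddAbove S := by
    refine ⟨max a (sSup X), ?_⟩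
    rintro x ⟨hx1, hx2⟩
    rcases eq_or_lt_of_le hx1 with h | h
    · rw [← h]
      exact le_max_left _ _
    · refine le_trans ?_ (le_max_right _ _)
      have h1 : sSup (Ioo a x) ≤ sSup X := csSup_le_csSup hba (nonempty_Ioo.mpr h) hx2
      rwa [csSup_Ioo h] at h1
  have hlub : IsLUB S (sSup S) := isLUB_csSup ⟨a, haS⟩ hSb
  set b := sSup S with hbdef
  have hab : a ≤ b := hlub.1 haS
  have hsub : Ioo a b ⊆ X := by
    rintro t ⟨ht1, ht2⟩
    obtain ⟨x, hx, htx⟩ := (lt_isLUB_iff hlub).mp ht2
    exact hx.2 ⟨ht1, htx⟩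
  have hg : IsGreatest S b := ⟨⟨hab, hsub⟩, hlub.1⟩
  refine ⟨(a + b) / 2, ?_, a, b, hglb, hg, by ring⟩
  rcases eq_or_lt_of_le hab with h | h
  · have e : (a + b) / 2 = a := by rw [← h]; ring
    rw [e]
    by_contra hna
    have hop : IsOpen ((E : Set ℝ) \ {a})ᶜ :=
      ((E.finite_toSet.subset sdiff_subset).isClosed).isOpen_compl
    obtain ⟨δ, hδ, hball⟩ := Metric.isOpen_iff.mp hop a (by simp)
    obtain ⟨x, hxX, hx⟩ := (isGLB_lt_iff hglb).mp (show a < a + δ by linarith)
    have hax : a < x := lt_of_le_of_ne (hglb.1 hxX) (fun h' => hna (h' ▸ hxX))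
    have key : a + δ ∈ S := by
      refine ⟨by linarith, ?_⟩
      rintro t ⟨ht1, ht2⟩
      have hz : ∀ u v : ℝ, a < u → v < a + δ → ∀ z ∈ E, z ∉ Icc u v := by
        rintro u v hu hv z hz ⟨h1, h2⟩
        have hzb : z ∈ Metric.ball a δ := by
          rw [Metric.mem_ball, Real.dist_eq, abs_lt]
          constructor <;> linarith
        exact hball hzb ⟨hz, fun h3 => by
          rw [mem_singleton_iff] at h3
          linarith⟩
      rcases le_total t x with htx | htx
      · exact (hE t x htx (hz t x ht1 hx)).mpr hxX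
      · exact (hE x t htx (hz x t hax ht2)).mp hxX
    have := hlub.1 key
    linarith
  · exact hsub ⟨by linarith, by linarith⟩

lemma Df.ex' {κ : Type} {R : (κ → ℝ) → ℝ → Prop}
    (h : Df (fun w : Option κ → ℝ => R (fun i => w (some i)) (w none))) :
    Df (fun v : κ → ℝ => ∃ t : ℝ, R v t) := Df.ex h

lemma Df.all' {κ : Type} {R : (κ → ℝ) → ℝ → Prop}
    (h : Df (fun w : Option κ → ℝ => R (fun i => w (some i)) (w none))) :
    Df (fun v : κ → ℝ => ∀ t : ℝ, R v t) := Df.all h

lemma Df.memX {κ κ' : Type} [Countable κ'] {P : (Option κ → ℝ) → Prop} (h : Df P) (i : κ')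
    (g : κ → κ') :
    Df (fun w : κ' → ℝ => P (fun o => o.elim (w i) (fun j => w (g j)))) := by
  have h1 := Df.comap h (fun o : Option κ => o.elim i g)
  have e : (fun w : κ' → ℝ => P (fun o => w (o.elim i g))) =
      (fun w : κ' → ℝ => P (fun o => o.elim (w i) (fun j => w (g j)))) := by
    funext w
    congr 1
    funext o
    cases o <;> rfl
  rw [e] at h1
  exact h1

/-- the choice relation is definable: `v none` is the chosen point of the fibre over `v ∘ some`.
PROOF: write out `IsGLB`, `IsGreatest` with real quantifiers; `Df.ex`, `Df.all`, `Df.comap`, `Df.le`... -/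
theorem df_isCh {κ : Type} [Countable κ] {P : (Option κ → ℝ) → Prop} (h : Df P) :
    Df (fun v : Option κ → ℝ =>
      IsCh {t : ℝ | P (fun o => o.elim t (fun i => v (some i)))} (v none)) := by
  have hv : ∀ {κ' : Type} (i j : κ') [Countable κ'], Df (fun w : κ' → ℝ => w i ≤ w j) :=
    fun i j => Df.le (PolyFun.var i) (PolyFun.var j)
  have hl : ∀ {κ' : Type} (i j : κ') [Countable κ'], Df (fun w : κ' → ℝ => w i < w j) :=
    fun i j => Df.lt (PolyFun.var i) (PolyFun.var j)
  unfold IsCh
  refine Df.ex' ?_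
  refine Df.ex' ?_
  refine Df.and ?_ (Df.and ?_ ?_)
  · -- IsGLB
    change Df (fun w : Option (Option (Option κ)) → ℝ => _ ∧ _)
    refine Df.and ?_ ?_
    · change Df (fun w : Option (Option (Option κ)) → ℝ => ∀ t : ℝ,
        P (fun o => o.elim t (fun i => w (some (some (some i))))) → w (some none) ≤ t)
      refine Df.all' (Df.imp (Df.memX h none (fun i => some (some (some (some i))))) ?_)
      exact hv _ _
    · change Df (fun w : Option (Option (Option κ)) → ℝ => ∀ c : ℝ,
        (∀ t : ℝ, P (fun o => o.elim t (fun i => w (some (some (some i))))) → c ≤ t) →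
          c ≤ w (some none))
      refine Df.all' (Df.imp ?_ (hv _ _))
      refine Df.all' (Df.imp (Df.memX h none
        (fun i => some (some (some (some (some i)))))) ?_)
      exact hv _ _
  · -- IsGreatest
    refine Df.and ?_ ?_
    · refine Df.and (hv _ _) ?_
      refine Df.all' (Df.imp ?_ (Df.memX h none (fun i => some (some (some (some i))))))
      exact Df.and (hl _ _) (hl _ _)
    · change Df (fun w : Option (Option (Option κ)) → ℝ => ∀ x : ℝ,
        (w (some none) ≤ x ∧ ∀ t : ℝ, (w (some none) < t ∧ t < x) →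
          P (fun o => o.elim t (fun i => w (some (some (some i)))))) → x ≤ w none)
      refine Df.all' (Df.imp (Df.and (hv _ _) ?_) (hv _ _))
      refine Df.all' (Df.imp ?_ (Df.memX h none
        (fun i => some (some (some (some (some i)))))))
      exact Df.and (hl _ _) (hl _ _)
  · have h2 : PolyFun (fun w : Option (Option (Option κ)) → ℝ => 2 * w (some (some none))) := by
      have := PolyFun.mul (PolyFun.const (κ := Option (Option (Option κ))) 2)
        (PolyFun.var (some (some none)))
      simpa using this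
    exact Df.eq h2 (PolyFun.add (PolyFun.var (some none)) (PolyFun.var none))

end U78
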