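import Mathlib

/-!
# Two functionals comparable with the norm have the same major class
-/

namespace U78

open Set

/-- the total length of ordered intervals is at most the length of the whole -/
lemma clash_intervals : ∀ (k : ℕ) (u v : Fin k → ℝ) (b T : ℝ),
    (∀ j, b ≤ u j ∧ b ≤ v j) → (∀ j, u j ≤ T ∧ v j ≤ T) →
    (∀ j j', j < j' → (u j ≤ u j' ∧ u j ≤ v j') ∧ (v j ≤ u j' ∧ v j ≤ v j')) → b ≤ T →
    ∑ j, |v j - u j| ≤ T - b := by
  intro k
  induction k with
  | zero =>
    intro u v b T _ _ _ h
    simpa using h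
  | succ k ih =>
    intro u v b T hb hT hlt hbT
    rw [Fin.sum_univ_succ]
    have h1 := ih (fun j => u j.succ) (fun j => v j.succ) (max (u 0) (v 0)) T
      (fun j => ⟨max_le (hlt 0 j.succ (Fin.succ_pos j)).1.1 (hlt 0 j.succ (Fin.succ_pos j)).2.1,
        max_le (hlt 0 j.succ (Fin.succ_pos j)).1.2 (hlt 0 j.succ (Fin.succ_pos j)).2.2⟩)
      (fun j => hT j.succ)
      (fun j j' hjj => hlt j.succ j'.succ (Fin.succ_lt_succ_iff.mpr hjj))
      (max_le (hT 0).1 (hT 0).2)
    have h2 : |v 0 - u 0| ≤ max (u 0) (v 0) - b := by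
      rw [abs_le]
      have hm1 := le_max_left (u 0) (v 0)
      have hm2 := le_max_right (u 0) (v 0)
      have hb0 := hb 0
      constructor
      · linarith [hb0.1, hb0.2]
      · linarith [hb0.1, hb0.2]
    linarith

/-- sum of the middle intervals, increasing version -/
lemma clash_inc {k : ℕ} (f : Fin (k + 2) → Fin (k + 2) → ℝ)
    (h : ∀ i i' j j', j < j' → f i j < f i' j') (i : Fin (k + 2)) :
    ∑ j : Fin k, |f (Fin.last _) j.castSucc.succ - f 0 j.castSucc.succ| ≤
      |f i (Fin.last _) - f i 0| := by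
  have hpos : ∀ j : Fin k, (0 : Fin (k + 2)) < j.castSucc.succ := fun j => Fin.succ_pos _
  have hlast : ∀ j : Fin k, j.castSucc.succ < Fin.last (k + 1) := by
    intro j
    rw [Fin.lt_def]
    simp
  have := clash_intervals k (fun j => f 0 j.castSucc.succ) (fun j => f (Fin.last _) j.castSucc.succ)
    (f i 0) (f i (Fin.last _))
    (fun j => ⟨(h _ _ _ _ (hpos j)).le, (h _ _ _ _ (hpos j)).le⟩)
    (fun j => ⟨(h _ _ _ _ (hlast j)).le, (h _ _ _ _ (hlast j)).le⟩)
    (fun j j' hjj => by
      have hlt : j.castSucc.succ < j'.castSucc.succ := by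
        rw [Fin.lt_def] at hjj ⊢
        simpa using hjj
      exact ⟨⟨(h _ _ _ _ hlt).le, (h _ _ _ _ hlt).le⟩, ⟨(h _ _ _ _ hlt).le, (h _ _ _ _ hlt).le⟩⟩)
    (h _ _ _ _ (by rw [Fin.lt_def]; simp)).le
  exact this.trans (le_abs_self _)

lemma clash_both {k : ℕ} (f : Fin (k + 2) → Fin (k + 2) → ℝ)
    (h : (∀ i i' j j', j < j' → f i j < f i' j') ∨ (∀ i i' j j', j < j' → f i' j' < f i j))
    (i : Fin (k + 2)) :
    ∑ j : Fin k, |f (Fin.last _) j.castSucc.succ - f 0 j.castSucc.succ| ≤
      |f i (Fin.last _) - f i 0| := by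
  rcases h with h | h
  · exact clash_inc f h i
  · have := clash_inc (fun i j => - f i j) (fun i i' j j' hjj => by
      have := h i i' j j' hjj
      simpa using this) i
    have e1 : ∀ x y : ℝ, |(-x) - (-y)| = |x - y| := by
      intro x y
      rw [← abs_neg]
      congr 1
      ring
    simpa only [e1] using this

/-- Let `p i j` be points of a normed group, `f`, `g` real functions on the index pairs whose
differences are comparable with the norms of the differences of the points. If `f` is ordered by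
the second index and `g` by the first index, then `t ≤ 2 + L / c`.

PROOF. Suppose `t > 2 + L / c`, in particular `t ≥ 3`; let `0` and `last` be the extreme indices and
`S i = ‖p i last - p i 0‖`, `R j = ‖p last j - p 0 j‖`. For every `i`: the numbers `f i 0`,
`f 0 j, f last j` (`0 < j < last`), `f i last` are ordered by `j`, so the intervals between `f 0 j`
and `f last j` (`0 < j < last`) are disjoint and lie between `f i 0` and `f i last`; hence
`L * S i ≥ |f i last - f i 0| ≥ ∑_{0<j<last} |f last j - f 0 j| ≥ c * ∑_{0<j<last} R j`.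
In the same way `L * R j ≥ c * ∑_{0<i<last} S i` for every `j`. Summing the first over
`0 < i < last`: `L * ΣS ≥ (t-2) c ΣR`, and `L * ΣR ≥ (t-2) c ΣS`. `ΣS > 0` (the points are distinct
since `f` is strictly ordered, so the difference of the `f`-values is nonzero, hence so is the norm).
So `L² ≥ (t-2)² c²`. (Sum of the lengths of ordered intervals: induction, or telescoping
`f 0 j, f last j ≤ ` everything of index `j+1`.) -/
theorem maj_clash {t : ℕ} {W : Type} [NormedAddCommGroup W] (p : Fin t → Fin t → W)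
    (f g : Fin t → Fin t → ℝ) (c L : ℝ) (hc : 0 < c) (hL : 0 ≤ L)
    (hf : ∀ i j i' j', c * ‖p i j - p i' j'‖ ≤ |f i j - f i' j'| ∧
      |f i j - f i' j'| ≤ L * ‖p i j - p i' j'‖)
    (hg : ∀ i j i' j', c * ‖p i j - p i' j'‖ ≤ |g i j - g i' j'| ∧
      |g i j - g i' j'| ≤ L * ‖p i j - p i' j'‖)
    (h1 : (∀ i i' j j', j < j' → f i j < f i' j') ∨ (∀ i i' j j', j < j' → f i' j' < f i j))
    (h2 : (∀ i i' j j', i < i' → g i j < g i' j') ∨ (∀ i i' j j', i < i' → g i' j' < g i j)) :
    (t : ℝ) ≤ 2 + L / c := by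
  by_contra hcon
  rw [not_le] at hcon
  have hLc : 0 ≤ L / c := div_nonneg hL hc.le
  have ht3 : 3 ≤ t := by
    have : (2 : ℝ) < t := by linarith
    have : 2 < t := by exact_mod_cast this
    omega
  obtain ⟨k, rfl⟩ : ∃ k, t = k + 2 := ⟨t - 2, by omega⟩
  have hk : 1 ≤ k := by omega
  have hkr : (1 : ℝ) ≤ k := by exact_mod_cast hk
  have hkL : L / c < k := by
    push_cast at hcon
    linarith
  have hkL' : L < k * c := by
    rwa [div_lt_iff₀ hc] at hkL
  let lst : Fin (k + 2) := Fin.last (k + 1)
  let S : Fin k → ℝ := fun i => ‖p i.castSucc.succ lst - p i.castSucc.succ 0‖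
  let R : Fin k → ℝ := fun j => ‖p lst j.castSucc.succ - p 0 j.castSucc.succ‖
  -- first family of inequalities
  have hA : ∀ i : Fin k, c * ∑ j, R j ≤ L * S i := by
    intro i
    have e1 := clash_both f h1 i.castSucc.succ
    have e2 := (hf i.castSucc.succ lst i.castSucc.succ 0).2
    have e3 : c * ∑ j, R j ≤ ∑ j : Fin k, |f lst j.castSucc.succ - f 0 j.castSucc.succ| := by
      rw [Finset.mul_sum]
      exact Finset.sum_le_sum (fun j _ => (hf lst j.castSucc.succ 0 j.castSucc.succ).1)
    exact e3.trans (e1.trans e2)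
  have hB : ∀ j : Fin k, c * ∑ i, S i ≤ L * R j := by
    intro j
    have e1 := clash_both (fun a b => g b a) (by
      rcases h2 with h | h
      · left
        intro i i' j j' hjj
        exact h _ _ _ _ hjj
      · right
        intro i i' j j' hjj
        exact h _ _ _ _ hjj) j.castSucc.succ
    have e2 := (hg lst j.castSucc.succ 0 j.castSucc.succ).2
    have e3 : c * ∑ i, S i ≤ ∑ i : Fin k, |g i.castSucc.succ lst - g i.castSucc.succ 0| := by
      rw [Finset.mul_sum]
      exact Finset.sum_le_sum (fun i _ => (hg i.castSucc.succ lst i.castSucc.succ 0).1)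
    exact e3.trans (e1.trans e2)
  have hA' : (k : ℝ) * (c * ∑ j, R j) ≤ L * ∑ i, S i := by
    have := Finset.sum_le_sum (s := (Finset.univ : Finset (Fin k))) (fun i _ => hA i)
    rw [Finset.sum_const, Finset.card_univ, Fintype.card_fin, nsmul_eq_mul, ← Finset.mul_sum] at this
    exact this
  have hB' : (k : ℝ) * (c * ∑ i, S i) ≤ L * ∑ j, R j := by
    have := Finset.sum_le_sum (s := (Finset.univ : Finset (Fin k))) (fun j _ => hB j)
    rw [Finset.sum_const, Finset.card_univ, Fintype.card_fin, nsmul_eq_mul, ← Finset.mul_sum] at this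
    exact this
  -- positivity
  have hSpos : 0 < ∑ i, S i := by
    apply Finset.sum_pos
    · intro i _
      have hne : f i.castSucc.succ 0 ≠ f i.castSucc.succ lst := by
        have hlt : (0 : Fin (k + 2)) < lst := by
          rw [Fin.lt_def]
          simp [lst]
        rcases h1 with h | h
        · exact (h _ _ _ _ hlt).ne
        · exact (h _ _ _ _ hlt).ne'
      have e2 := (hf i.castSucc.succ lst i.castSucc.succ 0).2
      have e4 : 0 < |f i.castSucc.succ lst - f i.castSucc.succ 0| :=
        abs_pos.mpr (sub_ne_zero.mpr hne.symm)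
      have e5 : 0 < L * S i := lt_of_lt_of_le e4 e2
      have h7 : 0 ≤ S i := norm_nonneg _
      rcases h7.eq_or_lt with h8 | h8
      · rw [← h8, mul_zero] at e5
        exact absurd e5 (lt_irrefl _)
      · exact h8
    · exact ⟨⟨0, hk⟩, Finset.mem_univ _⟩
  have hRpos : 0 ≤ ∑ j, R j := Finset.sum_nonneg (fun j _ => norm_nonneg _)
  set x := ∑ i, S i
  set y := ∑ j, R j
  -- L < k c, so L y ≤ k c y ≤ L x and k c x ≤ L y
  have h5 : L * y ≤ k * c * y := mul_le_mul_of_nonneg_right hkL'.le hRpos
  have h6 : L * x < k * c * x := mul_lt_mul_of_pos_right hkL' hSpos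
  nlinarith

end U78
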