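import Mathlib
import Pool.Agent.W_78bee8_h33.Defs
import Pool.Agent.W_78bee8_h33.Clash

/-!
# The major classes of two functionals on a three-dimensional array
-/

namespace U78

open Set Pointwise

/-- PROOF: fix the index of the third class (the class different from `a` and `a'`) and apply
`maj_clash` to `p i j = τ v` with `v a' = i`, `v a = j`, `f = l ∘ p` (ordered by `j`), `g = l' ∘ p`
(ordered by `i`). (If `t = 0` the claim is trivial.) -/
theorem clash3 {t : ℕ} (τ : (Fin 3 → Fin t) → V) (l l' : V →ₗ[ℝ] ℝ) (c L : ℝ) (hc : 0 < c)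
    (hL : 0 ≤ L) (h : ∀ v v', c * ‖τ v - τ v'‖ ≤ |l (τ v - τ v')|)
    (h' : ∀ v v', c * ‖τ v - τ v'‖ ≤ |l' (τ v - τ v')|) (hl : ∀ x, |l x| ≤ L * ‖x‖)
    (hl' : ∀ x, |l' x| ≤ L * ‖x‖) {a a' : Fin 3} (haa : a ≠ a') (hm : Maj a (fun v => l (τ v)))
    (hm' : Maj a' (fun v => l' (τ v))) : (t : ℝ) ≤ 2 + L / c := by
  rcases Nat.eq_zero_or_pos t with rfl | ht
  · have : 0 ≤ L / c := div_nonneg hL hc.le
    push_cast
    linarith
  · have z : Fin t := ⟨0, ht⟩
    set w : Fin t → Fin t → Fin 3 → Fin t :=
      fun i j x => if x = a then j else if x = a' then i else z with hw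
    have wa : ∀ i j, w i j a = j := fun i j => by simp [hw]
    have wa' : ∀ i j, w i j a' = i := fun i j => by simp [hw, haa.symm]
    refine maj_clash (fun i j => τ (w i j)) (fun i j => l (τ (w i j))) (fun i j => l' (τ (w i j)))
      c L hc hL ?_ ?_ ?_ ?_
    · intro i j i' j'
      rw [← map_sub]
      exact ⟨h _ _, hl _⟩
    · intro i j i' j'
      rw [← map_sub]
      exact ⟨h' _ _, hl' _⟩
    · rcases hm with hm | hm
      · left
        intro i i' j j' hj
        exact hm _ _ (by rw [wa, wa]; exact hj)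
      · right
        intro i i' j j' hj
        exact hm _ _ (by rw [wa, wa]; exact hj)
    · rcases hm' with hm | hm
      · left
        intro i i' j j' hj
        exact hm _ _ (by rw [wa', wa']; exact hj)
      · right
        intro i i' j j' hj
        exact hm _ _ (by rw [wa', wa']; exact hj)

end U78
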