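import Mathlib
import Pool.Agent.W_78bee8_h33.Defs

/-!
# The cone property of fat convex sets in a small cube
-/

namespace U78

open Set Pointwise

/-- the cone property of `K` in the ball of radius `1/192` about `x` with vector `e`: moving a point of
`K` by a (small multiple of a) vector close to `e` leads to the interior of `K` -/
def CP (K : Set V) (x e : V) : Prop :=
  ∀ w ∈ K, ‖w - x‖ ≤ 1 / 192 → ∀ v : V, ‖v - e‖ < 1 / 16 → ∀ r : ℝ, 0 < r → r ≤ 1 →
    w + r • v ∈ interior K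

/-- PROOF. Let `w₀ = a + β` with `a ∈ A`, `β ∈ B`, and `z = a + (1/4,1/4,1/4)`; `A + B` contains the
closed ball of radius `1/12` about `z` (as `closedBall b₀ (1/12) ⊆ B`). `‖z - w₀‖ = ‖b₀ - β‖ ≤ 2`.
Let `‖e - (z - x)‖ ≤ 1/192`, `w ∈ A + B`, `‖w - x‖ ≤ 1/192`, `‖v - e‖ < 1/16`. Then
`‖w + v - z‖ ≤ ‖w - x‖ + ‖v - e‖ + ‖e - (z - x)‖ < 1/192 + 1/16 + 1/192 < 1/12`, so `w + v` is in
the interior of `A + B`, and `w + r • v = (1 - r) • w + r • (w + v)` is in the interior of the convex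
set `A + B` (`Convex.combo_self_interior_mem_interior` or `Convex.add_smul_sub_mem_interior`). -/
theorem cp_of_nice {A B : Set V} (hA : Convex ℝ A) (hB : Nice B) (x : V) {w₀ : V}
    (hw₀ : w₀ ∈ A + B) : ∃ z : V, ‖z - w₀‖ ≤ 2 ∧ ∀ e : V, ‖e - (z - x)‖ ≤ 1 / 192 →
      CP (A + B) x e := by
  obtain ⟨a, ha, β, hβ, rfl⟩ := hw₀
  set b₀ : V := fun _ => (1 / 4 : ℝ) with hb₀
  have hb₀B : b₀ ∈ B := hB.fat (Metric.mem_closedBall_self (by norm_num))
  have hball : Metric.closedBall (a + b₀) (1 / 12) ⊆ A + B := by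
    intro y hy
    refine Set.mem_add.2 ⟨a, ha, y - a, hB.fat ?_, by abel⟩
    rw [mem_closedBall_iff_norm] at hy ⊢
    rwa [show y - a - b₀ = y - (a + b₀) by abel]
  refine ⟨a + b₀, ?_, ?_⟩
  · calc ‖a + b₀ - (a + β)‖ = ‖b₀ - β‖ := by rw [show a + b₀ - (a + β) = b₀ - β by abel]
      _ ≤ ‖b₀‖ + ‖β‖ := norm_sub_le _ _
      _ ≤ 1 + 1 := add_le_add (hB.le _ hb₀B) (hB.le _ hβ)
      _ = 2 := by norm_num
  · intro e he w hw hwx v hv r hr0 hr1
    have h1 : w + v ∈ interior (A + B) := by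
      refine interior_maximal (Metric.ball_subset_closedBall.trans hball) Metric.isOpen_ball ?_
      rw [mem_ball_iff_norm]
      have h2 : w + v - (a + b₀) = (w - x) + (v - e) + (e - (a + b₀ - x)) := by abel
      rw [h2]
      have h3 := norm_add_le ((w - x) + (v - e)) (e - (a + b₀ - x))
      have h4 := norm_add_le (w - x) (v - e)
      linarith
    have h5 := (hA.add hB.cvx).add_smul_sub_mem_interior hw h1 ⟨hr0, hr1⟩
    rwa [add_sub_cancel_left] at h5

/-- a finite set of vectors which is `1/192`-dense in the ball of radius `3`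
(PROOF: `closedBall 0 3` is compact, `IsCompact.finite_cover_balls`, the centres are in the ball). -/
theorem exists_grid : ∃ G : Finset V, (∀ e ∈ G, ‖e‖ ≤ 3) ∧
    ∀ u : V, ‖u‖ ≤ 3 → ∃ e ∈ G, ‖e - u‖ ≤ 1 / 192 := by
  obtain ⟨T, hT, hfin, hcov⟩ := (isCompact_closedBall (0 : V) 3).finite_cover_balls
    (show (0 : ℝ) < 1 / 192 by norm_num)
  refine ⟨hfin.toFinset, fun e he => ?_, fun u hu => ?_⟩
  · have h1 := hT (hfin.mem_toFinset.1 he)
    rwa [mem_closedBall_zero_iff] at h1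
  · have h1 := hcov (mem_closedBall_zero_iff.2 hu)
    obtain ⟨e, he, hue⟩ := Set.mem_iUnion₂.1 h1
    refine ⟨e, hfin.mem_toFinset.2 he, ?_⟩
    rw [mem_ball_iff_norm, norm_sub_rev] at hue
    exact hue.le

/-- Consequence of the cone property: the difference of two points near `x` is not a positive multiple
of a vector close to `e`, if the first point is in `K` and the second not in the interior of `K`,
and there is a frontier point of `K` near `x`.
PROOF: `0` is not within `1/16` of `e` (otherwise the frontier point `w₁ + 1 • 0` would be in the interior),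
so `‖e‖ ≥ 1/16` and `‖v‖ ≥ 1/16 - 1/24 = 1/48`; `‖w' - w‖ ≤ 1/96`, so `r = ‖w'-w‖ / ‖v‖ ≤ 1/2 ≤ 1`, and `CP`
gives `w' ∈ interior K`. -/
theorem CP.diff {K : Set V} {x e : V} (h : CP K x e) {w₁ : V} (hw₁ : w₁ ∈ frontier K)
    (hK : IsClosed K) (hw₁x : ‖w₁ - x‖ ≤ 1 / 192) {w w' : V} (hw : w ∈ K) (hw' : w' ∉ interior K)
    (hx : ‖w - x‖ ≤ 1 / 192) (hx' : ‖w' - x‖ ≤ 1 / 192) {v : V} (hv : ‖v - e‖ ≤ 1 / 24)
    {r : ℝ} (hr : 0 < r) : w' - w ≠ r • v := by
  intro heq
  have he : 1 / 16 ≤ ‖e‖ := by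
    by_contra hcon
    push Not at hcon
    have h1 := h w₁ (hK.frontier_subset hw₁) hw₁x 0 (by rwa [zero_sub, norm_neg]) 1 one_pos le_rfl
    rw [smul_zero, add_zero] at h1
    exact hw₁.2 h1
  have hvn : 1 / 48 ≤ ‖v‖ := by
    have h1 : ‖e‖ ≤ ‖v‖ + ‖v - e‖ := by
      have h2 := norm_sub_le v (v - e)
      rwa [sub_sub_cancel] at h2
    linarith
  have h2 : r * ‖v‖ ≤ 1 / 96 := by
    have h3 : ‖w' - w‖ = r * ‖v‖ := by
      rw [heq, norm_smul, Real.norm_of_nonneg hr.le]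
    rw [← h3]
    have h4 := norm_sub_le (w' - x) (w - x)
    rw [sub_sub_sub_cancel_right] at h4
    linarith
  have hr1 : r ≤ 1 := by
    by_contra hcon
    push Not at hcon
    nlinarith
  have h5 := h w hw hx v (by linarith) r hr hr1
  rw [← heq, add_sub_cancel] at h5
  exact hw' h5

end U78
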