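import Mathlib
import Pool.Agent.W_78bee8_h33.Defs
import Pool.Agent.W_78bee8_h33.Ramsey

/-!
# The product Ramsey theorem for pairs (three classes)
-/

namespace U78

/-- Product Ramsey theorem for pairs. PROOF: apply `ramsey` with `k = 6` and `3 * t` in place of `t`.
Given `χ` on pairs of index vectors, colour a `6`-subset `x_0 < ... < x_5` of `Fin N` by
`χ (x_0, x_2, x_4) (x_1, x_3, x_5)`. On the homogeneous set `e : Fin (3 * t) ↪o Fin N` let class `a`
be the `a`-th block of length `t`: `e a i := e (a * t + i)`. For `v, v'` with `v a < v' a` for all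
`a`, the six indices `v 0 < v' 0 < t + v 1 < t + v' 1 < 2 t + v 2 < 2 t + v' 2` are increasing. -/
theorem ramsey_pairs (κ : Type) [Finite κ] (t : ℕ) : ∃ N : ℕ,
    ∀ χ : (Fin 3 → Fin N) → (Fin 3 → Fin N) → κ,
      ∃ e : Emb t N, ∃ c : κ, ∀ v v' : Fin 3 → Fin t, (∀ a, v a < v' a) →
        χ (e.ap v) (e.ap v') = c := by
  classical
  obtain ⟨N, hN⟩ := ramsey 6 κ (3 * t)
  refine ⟨N + 1, fun χ => ?_⟩
  set χ6 : (Fin 6 ↪o Fin N) → κ := fun x =>
    χ ![Fin.castSucc (x 0), Fin.castSucc (x 2), Fin.castSucc (x 4)]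
      ![Fin.castSucc (x 1), Fin.castSucc (x 3), Fin.castSucc (x 5)] with hχ6
  obtain ⟨e, he⟩ := hN χ6
  have hb : ∀ (a : Fin 3) (i : Fin t), (a : ℕ) * t + i < 3 * t := by
    intro a i
    have h1 : (a : ℕ) * t ≤ 2 * t := Nat.mul_le_mul_right _ (by omega)
    have h2 := i.2
    omega
  let blk : Fin 3 → (Fin t ↪o Fin (3 * t)) := fun a =>
    OrderEmbedding.ofStrictMono (fun i => ⟨(a : ℕ) * t + i, hb a i⟩) (by
      intro i j h
      have h' : (i : ℕ) < j := h
      show (a : ℕ) * t + i < (a : ℕ) * t + j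
      omega)
  let E : Emb t (N + 1) := fun a => ((blk a).trans e).trans Fin.castSuccOrderEmb
  have key : ∀ v v' : Fin 3 → Fin t, (∀ a, v a < v' a) →
      ∃ s : Fin 6 ↪o Fin (3 * t), χ6 (s.trans e) = χ (E.ap v) (E.ap v') := by
    intro v v' h
    have h0 : (v 0 : ℕ) < v' 0 := h 0
    have h1 : (v 1 : ℕ) < v' 1 := h 1
    have h2 : (v 2 : ℕ) < v' 2 := h 2
    have h0' := (v' 0).2
    have h1' := (v' 1).2
    have h2' := (v' 2).2
    let s : Fin 6 → Fin (3 * t) := ![blk 0 (v 0), blk 0 (v' 0), blk 1 (v 1), blk 1 (v' 1),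
      blk 2 (v 2), blk 2 (v' 2)]
    have hs : StrictMono s := by
      rw [Fin.strictMono_iff_lt_succ]
      intro i
      fin_cases i
      · exact (blk 0).lt_iff_lt.2 (h 0)
      · show (⟨((0 : Fin 3) : ℕ) * t + v' 0, hb _ _⟩ : Fin (3 * t)) <
          ⟨((1 : Fin 3) : ℕ) * t + v 1, hb _ _⟩
        rw [Fin.mk_lt_mk]
        simp
        omega
      · exact (blk 1).lt_iff_lt.2 (h 1)
      · show (⟨((1 : Fin 3) : ℕ) * t + v' 1, hb _ _⟩ : Fin (3 * t)) <
          ⟨((2 : Fin 3) : ℕ) * t + v 2, hb _ _⟩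
        rw [Fin.mk_lt_mk]
        simp
        omega
      · exact (blk 2).lt_iff_lt.2 (h 2)
    refine ⟨OrderEmbedding.ofStrictMono s hs, ?_⟩
    simp only [hχ6]
    congr 1
    · funext a
      fin_cases a <;> rfl
    · funext a
      fin_cases a <;> rfl
  by_cases hne : Nonempty (Fin 6 ↪o Fin (3 * t))
  · obtain ⟨s₀⟩ := hne
    refine ⟨E, χ6 (s₀.trans e), fun v v' h => ?_⟩
    obtain ⟨s, hs⟩ := key v v' h
    rw [← hs]
    exact he s s₀
  · refine ⟨E, χ (fun _ => 0) (fun _ => 0), fun v v' h => ?_⟩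
    obtain ⟨s, hs⟩ := key v v' h
    exact absurd ⟨s⟩ hne

/-- Ramsey theorem for colourings of the points of the array. PROOF: `ramsey_pairs` with `t + 1` in
place of `t` and the colouring `χ' v v' := χ v`; drop the last index of each class (compose with
`Fin.castSuccOrderEmb`), so that every `v` has a `v'` above it (namely the last indices). -/
theorem ramsey_points (κ : Type) [Finite κ] (t : ℕ) : ∃ N : ℕ,
    ∀ χ : (Fin 3 → Fin N) → κ, ∃ e : Emb t N, ∃ c : κ, ∀ v : Fin 3 → Fin t, χ (e.ap v) = c := by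
  obtain ⟨N, hN⟩ := ramsey_pairs κ (t + 1)
  refine ⟨N, fun χ => ?_⟩
  obtain ⟨e, c, hc⟩ := hN (fun v _ => χ v)
  refine ⟨fun a => Fin.castSuccOrderEmb.trans (e a), c, fun v => ?_⟩
  exact hc (fun a => Fin.castSucc (v a)) (fun _ => Fin.last t) (fun a => Fin.castSucc_lt_last _)

/-- Pigeonhole for colourings of the bodies. PROOF: `N = |κ| * t + 1` (or `|κ| * t`): in each class
some colour is taken by at least `t` indices; enumerate `t` of them increasingly
(`Finset.orderEmbOfFin` / `Finset.orderEmbOfCardLe`). `κ` is nonempty if `N > 0`, for `t = 0` take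
`N = 0` if you like (then `κ` may be empty: state `c` through `Nonempty`). -/
theorem pigeon_bodies (κ : Type) [Finite κ] [Nonempty κ] (t : ℕ) : ∃ N : ℕ,
    ∀ χ : Fin 3 → Fin N → κ, ∃ e : Emb t N, ∃ c : Fin 3 → κ, ∀ a i, χ a (e a i) = c a := by
  classical
  haveI := Fintype.ofFinite κ
  refine ⟨Fintype.card κ * t, fun χ => ?_⟩
  have key : ∀ a : Fin 3, ∃ c : κ,
      t ≤ (Finset.univ.filter fun x : Fin (Fintype.card κ * t) => χ a x = c).card := by
    intro a
    obtain ⟨c, -, hc⟩ := Finset.exists_le_card_fiber_of_mul_le_card_of_maps_to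
      (s := (Finset.univ : Finset (Fin (Fintype.card κ * t)))) (t := (Finset.univ : Finset κ))
      (f := χ a) (n := t) (fun _ _ => Finset.mem_univ _) Finset.univ_nonempty
      (by simp [Finset.card_univ])
    exact ⟨c, hc⟩
  choose c hc using key
  refine ⟨fun a => Finset.orderEmbOfCardLe _ (hc a), c, fun a i => ?_⟩
  have := Finset.orderEmbOfCardLe_mem _ (hc a) i
  exact (Finset.mem_filter.1 this).2

end U78
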