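import Mathlib
import Pool.Agent.W_78bee8_h33.Cone
import Pool.Agent.W_78bee8_h33.RamseyP

/-!
# Class vectors
-/

namespace U78

open Set Pointwise

/-- CLASS VECTORS. There is a finite set `G` of vectors such that every local configuration has a
large subconfiguration in which all bodies of a class have the cone property with a common vector
of `G`. PROOF: `G` from `exists_grid`. For a body `A a i` choose `v` with `v a = i`; `w₀ = τ v` lies in
`A a i + B` (compact, hence closed, contains its frontier) and `‖w₀ - x‖ ≤ 1/192`, so by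
`cp_of_nice` the vector `z - x` has norm `≤ 2 + 1/192 ≤ 3`, choose `e ∈ G` close to it. Then
`pigeon_bodies` with the colours `G`. (If `T = 0` there is nothing to choose; `G` is nonempty.) -/
theorem class_vectors (F : Set (Set V)) : ∃ G : Finset V, (∀ e ∈ G, ‖e‖ ≤ 3) ∧
    ∀ t : ℕ, ∃ T : ℕ, ∀ (B : Set V), Nice B →
    ∀ (X : Cfg F B T) (x : V), (∀ v, ‖X.τ v - x‖ ≤ 1 / 192) →
      ∃ (f : Emb t T) (e : Fin 3 → V), (∀ a, e a ∈ G) ∧
        ∀ a i, CP ((X.sub f).A a i + B) x (e a) := by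
  classical
  obtain ⟨G, hG1, hG2⟩ := exists_grid
  refine ⟨G, hG1, fun t => ?_⟩
  obtain ⟨g0, hg0, -⟩ := hG2 0 (by simp)
  have : Nonempty {e : V // e ∈ G} := ⟨⟨g0, hg0⟩⟩
  obtain ⟨N, hN⟩ := pigeon_bodies {e : V // e ∈ G} t
  refine ⟨N, fun B hB X x hx => ?_⟩
  have hex : ∀ (a : Fin 3) (i : Fin N), ∃ e : {e : V // e ∈ G}, CP (X.A a i + B) x e.1 := by
    intro a i
    have h1 : X.τ (fun _ => i) ∈ X.A a i + B := by
      have hc : IsClosed (X.A a i + B) := ((X.cpt a i).add hB.cpt).isClosed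
      exact hc.frontier_subset (X.fr (fun _ => i) a)
    obtain ⟨z, hz1, hz2⟩ := cp_of_nice (X.cvx a i) hB x h1
    have h2 : ‖z - x‖ ≤ 3 := by
      have h3 : z - x = (z - X.τ (fun _ => i)) + (X.τ (fun _ => i) - x) := by abel
      rw [h3]
      refine (norm_add_le _ _).trans ?_
      have h4 := hx (fun _ => i)
      linarith
    obtain ⟨e, he, he2⟩ := hG2 (z - x) h2
    exact ⟨⟨e, he⟩, hz2 e he2⟩
  choose χ hχ using hex
  obtain ⟨f, c, hc⟩ := hN χ
  refine ⟨f, fun a => (c a).1, fun a => (c a).2, fun a i => ?_⟩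
  have h1 := hχ a (f a i)
  rw [hc a i] at h1
  exact h1

end U78
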