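import Mathlib
import Pool.Agent.W_78bee8_h33.Df
import Pool.Agent.W_78bee8_h33.Baire

/-!
# Uniform piecewise continuity
-/

namespace U78

open Set

/-- `x` is a point of discontinuity of the relation `R`. -/
def DscR (R : ℝ → ℝ → Prop) (x : ℝ) : Prop :=
  ∃ ε : Fin 1 → ℝ, 0 < ε 0 ∧ ∀ δ : Fin 1 → ℝ, 0 < δ 0 → ∃ w : Fin 3 → ℝ,
    (w 0 - x < δ 0 ∧ x - w 0 < δ 0) ∧ R x (w 1) ∧ R (w 0) (w 2) ∧
      (ε 0 ≤ w 2 - w 1 ∨ ε 0 ≤ w 1 - w 2)

theorem df_dscR {κ : Type} [Countable κ] (Γ : (κ → ℝ) → ℝ → ℝ → Prop)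
    (hΓ : Df (fun v : κ ⊕ Fin 2 → ℝ =>
      Γ (fun i => v (Sum.inl i)) (v (Sum.inr 0)) (v (Sum.inr 1)))) :
    Df (fun v : Option κ → ℝ => DscR (Γ (fun i => v (some i))) (v none)) := by
  unfold DscR
  -- innermost formula
  have h1 : Df (fun m : ((Option κ ⊕ Fin 1) ⊕ Fin 1) ⊕ Fin 3 → ℝ =>
      (m (Sum.inr 0) - m (Sum.inl (Sum.inl (Sum.inl none))) < m (Sum.inl (Sum.inr 0)) ∧
        m (Sum.inl (Sum.inl (Sum.inl none))) - m (Sum.inr 0) < m (Sum.inl (Sum.inr 0))) ∧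
      Γ (fun i => m (Sum.inl (Sum.inl (Sum.inl (some i)))))
        (m (Sum.inl (Sum.inl (Sum.inl none)))) (m (Sum.inr 1)) ∧
      Γ (fun i => m (Sum.inl (Sum.inl (Sum.inl (some i)))))
        (m (Sum.inr 0)) (m (Sum.inr 2)) ∧
      (m (Sum.inl (Sum.inl (Sum.inr 0))) ≤ m (Sum.inr 2) - m (Sum.inr 1) ∨
        m (Sum.inl (Sum.inl (Sum.inr 0))) ≤ m (Sum.inr 1) - m (Sum.inr 2))) := by
    refine Df.and (Df.and ?_ ?_) (Df.and ?_ (Df.and ?_ (Df.or ?_ ?_)))
    · exact Df.lt ((PolyFun.var _).sub (PolyFun.var _)) (PolyFun.var _)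
    · exact Df.lt ((PolyFun.var _).sub (PolyFun.var _)) (PolyFun.var _)
    · exact hΓ.comap (Sum.elim (fun i => Sum.inl (Sum.inl (Sum.inl (some i))))
        ![Sum.inl (Sum.inl (Sum.inl none)), Sum.inr 1])
    · exact hΓ.comap (Sum.elim (fun i => Sum.inl (Sum.inl (Sum.inl (some i))))
        ![Sum.inr 0, Sum.inr 2])
    · exact Df.le (PolyFun.var _) ((PolyFun.var _).sub (PolyFun.var _))
    · exact Df.le (PolyFun.var _) ((PolyFun.var _).sub (PolyFun.var _))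
  have h2 := h1.exV
  simp only [Sum.elim_inr, Sum.elim_inl] at h2
  have h3 : Df (fun m : (Option κ ⊕ Fin 1) ⊕ Fin 1 → ℝ => 0 < m (Sum.inr 0)) := by
    have := Df.lt (κ := (Option κ ⊕ Fin 1) ⊕ Fin 1) (PolyFun.const 0)
      (PolyFun.var (Sum.inr 0))
    simpa using this
  have h4 := (h3.imp h2).allV
  simp only [Sum.elim_inr, Sum.elim_inl] at h4
  have h5 : Df (fun m : Option κ ⊕ Fin 1 → ℝ => 0 < m (Sum.inr 0)) := by
    have := Df.lt (κ := Option κ ⊕ Fin 1) (PolyFun.const 0)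
      (PolyFun.var (Sum.inr 0))
    simpa using this
  have h6 := (h5.and h4).exV
  simp only [Sum.elim_inr, Sum.elim_inl] at h6
  exact h6

theorem not_dscR_of_continuousAt {R : ℝ → ℝ → Prop} {c c' : ℝ} {f : ℝ → ℝ}
    (hf : ∀ x ∈ Ioo c c', ∀ y, R x y ↔ y = f x) {x : ℝ} (hx : x ∈ Ioo c c')
    (hc : ContinuousAt f x) : ¬ DscR R x := by
  rintro ⟨ε, hε, h⟩
  rw [Metric.continuousAt_iff] at hc
  obtain ⟨δ1, hδ1, hc⟩ := hc (ε 0) hε
  have hx1 : 0 < x - c := by linarith [hx.1]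
  have hx2 : 0 < c' - x := by linarith [hx.2]
  obtain ⟨w, ⟨hw1, hw2⟩, hw3, hw4, hw5⟩ := h (fun _ => min δ1 (min (x - c) (c' - x)))
    (lt_min hδ1 (lt_min hx1 hx2))
  simp only [lt_min_iff] at hw1 hw2
  have hw0 : w 0 ∈ Ioo c c' := ⟨by linarith, by linarith⟩
  have h1 : w 1 = f x := (hf x hx _).mp hw3
  have h2 : w 2 = f (w 0) := (hf (w 0) hw0 _).mp hw4
  have h3 : dist (w 0) x < δ1 := by
    rw [Real.dist_eq, abs_lt]
    constructor <;> linarith
  have h4 := hc h3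
  rw [Real.dist_eq, abs_lt, ← h1, ← h2] at h4
  rcases hw5 with h5 | h5 <;> linarith

theorem continuousAt_of_not_dscR {R : ℝ → ℝ → Prop} {c c' : ℝ} {f : ℝ → ℝ}
    (hf : ∀ x ∈ Ioo c c', ∀ y, R x y ↔ y = f x) {x : ℝ} (hx : x ∈ Ioo c c')
    (hD : ¬ DscR R x) : ContinuousAt f x := by
  rw [Metric.continuousAt_iff]
  intro ε hε
  by_contra hcon
  push Not at hcon
  apply hD
  refine ⟨fun _ => ε, hε, ?_⟩
  intro δ hδ
  have hx1 : 0 < x - c := by linarith [hx.1]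
  have hx2 : 0 < c' - x := by linarith [hx.2]
  obtain ⟨x', hx', hd⟩ := hcon (min (δ 0) (min (x - c) (c' - x)))
    (lt_min hδ (lt_min hx1 hx2))
  rw [Real.dist_eq, abs_lt, lt_min_iff, lt_min_iff, neg_lt, lt_min_iff, lt_min_iff] at hx'
  have hx0 : x' ∈ Ioo c c' := ⟨by linarith, by linarith⟩
  refine ⟨![x', f x, f x'], ⟨?_, ?_⟩, ?_, ?_, ?_⟩
  · simp only [Matrix.cons_val_zero]
    linarith
  · simp only [Matrix.cons_val_zero]
    linarith
  · exact (hf x hx _).mpr rfl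
  · exact (hf x' hx0 _).mpr rfl
  · rw [Real.dist_eq, le_abs] at hd
    rcases hd with hd | hd
    · left
      exact hd
    · right
      have : -(f x' - f x) = f x - f x' := by ring
      rw [this] at hd
      exact hd

/-- UNIFORM PIECEWISE CONTINUITY. PROOF. Let `Dsc u x` be the relation: there is `ε > 0` such that for
all `δ > 0` there are `x', y, y'` with `|x' - x| < δ`, `Γ u x y`, `Γ u x' y'` and `ε ≤ |y' - y|`. It is
definable (`κ ⊕ Fin 2` variables for `Γ`); let `M` and `E` be from `Df.uf` for it. Let no element of `E`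
be in `(c,c')` and let `Γ u` be the graph of `f` over `(c,c')`. For `x ∈ (c,c')`, `Dsc u x` holds iff `f`
is not continuous at `x` (small `δ`). By `baire_cont` (`Df.isGδ` and the continuous embedding
`(x,y) ↦ (u,x,y)`) there is a point `x₀ ∈ (c,c')` at which `f` is continuous, so `Dsc u x₀` fails; since no
element of `E` lies between `x` and `x₀`, `Dsc u x` fails for all `x ∈ (c,c')`. -/
theorem df_cont {κ : Type} [Countable κ] (Γ : (κ → ℝ) → ℝ → ℝ → Prop)
    (hΓ : Df (fun v : κ ⊕ Fin 2 → ℝ =>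
      Γ (fun i => v (Sum.inl i)) (v (Sum.inr 0)) (v (Sum.inr 1)))) :
    ∃ M : ℕ, ∀ u : κ → ℝ, ∃ E : Finset ℝ, E.card ≤ M ∧ ∀ (c c' : ℝ) (f : ℝ → ℝ),
      (∀ z ∈ E, z ∉ Ioo c c') → (∀ x ∈ Ioo c c', ∀ y, Γ u x y ↔ y = f x) →
        ContinuousOn f (Ioo c c') := by
  obtain ⟨M, hM⟩ := (df_dscR Γ hΓ).uf
  refine ⟨M, fun u => ?_⟩
  obtain ⟨E, hE, hE'⟩ := hM u
  refine ⟨E, hE, fun c c' f hz hf => ?_⟩
  simp only [Option.elim_none, Option.elim_some] at hE'
  intro x hx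
  have hcc : c < c' := hx.1.trans hx.2
  -- a point of continuity
  obtain ⟨p', q', hp, hpq, hq, hcont⟩ := baire_cont f c c' hcc {p | Γ u p.1 p.2} (by
      have h1 := hΓ.isGδ.2
      have h2 : Continuous (fun p : ℝ × ℝ => (Sum.elim u ![p.1, p.2] : κ ⊕ Fin 2 → ℝ)) := by
        refine continuous_pi fun i => ?_
        rcases i with i | i
        · simp only [Sum.elim_inl]
          exact continuous_const
        · fin_cases i
          · simp only [Fin.zero_eta, Sum.elim_inr, Matrix.cons_val_zero]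
            exact continuous_fst
          · simp only [Fin.mk_one, Sum.elim_inr, Matrix.cons_val_one]
            exact continuous_snd
      have h3 := h1.preimage h2
      exact h3) (fun x hx y => hf x hx y)
  have hx0 : (p' + q') / 2 ∈ Ioo c c' := ⟨by linarith, by linarith⟩
  have hc0 : ContinuousAt f ((p' + q') / 2) :=
    hcont.continuousAt (Ioo_mem_nhds (by linarith) (by linarith))
  have hD0 : ¬ DscR (Γ u) ((p' + q') / 2) := not_dscR_of_continuousAt hf hx0 hc0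
  have hD : ¬ DscR (Γ u) x := by
    rcases le_total x ((p' + q') / 2) with hle | hle
    · rw [hE' x _ hle (fun z hzE hzI => hz z hzE
        ⟨hx.1.trans_le hzI.1, hzI.2.trans_lt hx0.2⟩)]
      exact hD0
    · rw [← hE' _ x hle (fun z hzE hzI => hz z hzE
        ⟨hx0.1.trans_le hzI.1, hzI.2.trans_lt hx.2⟩)]
      exact hD0
  exact (continuousAt_of_not_dscR hf hx hD).continuousWithinAt

end U78
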