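import Mathlib
import Pool.Agent.W_78bee8_h33.Defs

/-!
# The contact lemma
-/

namespace U78

open Set Pointwise

/-- CONTACT LEMMA. If `f` is continuous on `[p,q]` with values in `A + B`, then there is a continuous
`g` with values in `A` such that `f c - g c ∈ B + closedBall 0 η`.
PROOF: `exists_continuous_forall_mem_convex_of_local_const` on the space `Icc p q` (paracompact, T2),
with the convex sets `t c = A ∩ {x | f c - x ∈ B + closedBall 0 η}` (`B + closedBall 0 η` is convex):
at `c₀` take `a₀ ∈ A` with `f c₀ - a₀ ∈ B`; for `c` near `c₀`, `f c - a₀ ∈ B + closedBall 0 η`.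
Extend `g` from the subtype to `ℝ` by projection (`Set.projIcc`, `Set.IccExtend`). -/
theorem contact {A B : Set V} (hA : Convex ℝ A) (hB : Convex ℝ B) {η : ℝ} (hη : 0 < η) {p q : ℝ}
    (hpq : p ≤ q) (f : ℝ → V) (hf : ContinuousOn f (Icc p q)) (h : ∀ c ∈ Icc p q, f c ∈ A + B) :
    ∃ g : ℝ → V, ContinuousOn g (Icc p q) ∧
      ∀ c ∈ Icc p q, g c ∈ A ∧ f c - g c ∈ B + Metric.closedBall 0 η := by
  classical
  let t : Icc p q → Set V := fun c => A ∩ {x | f c - x ∈ B + Metric.closedBall (0 : V) η}
  have hconv : ∀ c, Convex ℝ (t c) := by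
    intro c
    refine hA.inter ?_
    have hBB : Convex ℝ (B + Metric.closedBall (0 : V) η) := hB.add (convex_closedBall 0 η)
    intro x hx y hy a b ha hb hab
    have h1 := hBB hx hy ha hb hab
    have h2 : f c - (a • x + b • y) = a • (f c - x) + b • (f c - y) := by
      have h3 : f c = a • f c + b • f c := by rw [← add_smul, hab, one_smul]
      calc f c - (a • x + b • y) = (a • f c + b • f c) - (a • x + b • y) := by rw [← h3]
        _ = a • (f c - x) + b • (f c - y) := by rw [smul_sub, smul_sub]; abel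
    show f c - (a • x + b • y) ∈ B + Metric.closedBall (0 : V) η
    rw [h2]
    exact h1
  have hcont : Continuous fun c : Icc p q => f c := continuousOn_iff_continuous_domRestrict.1 hf
  have hloc : ∀ c : Icc p q, ∃ e : V, ∀ᶠ c' in nhds c, e ∈ t c' := by
    intro c
    obtain ⟨a0, ha0, b0, hb0, hab⟩ := h c c.2
    refine ⟨a0, ?_⟩
    have h1 : ∀ᶠ c' : Icc p q in nhds c, f c' ∈ Metric.closedBall (f c) η :=
      hcont.continuousAt.eventually (Metric.closedBall_mem_nhds _ hη)
    filter_upwards [h1] with c' hc'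
    refine ⟨ha0, ?_⟩
    show f c' - a0 ∈ B + Metric.closedBall (0 : V) η
    refine ⟨b0, hb0, f c' - f c, ?_, ?_⟩
    · rw [mem_closedBall_zero_iff]
      rwa [mem_closedBall_iff_norm] at hc'
    · show b0 + (f c' - f c) = f c' - a0
      have hab' : a0 + b0 = f c := hab
      rw [← hab']
      abel
  obtain ⟨G, hG⟩ := exists_continuous_forall_mem_convex_of_local_const hconv hloc
  refine ⟨fun c => G (projIcc p q hpq c), ?_, ?_⟩
  · exact (G.continuous.comp continuous_projIcc).continuousOn
  · intro c hc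
    have h1 := hG ⟨c, hc⟩
    have h2 : projIcc p q hpq c = ⟨c, hc⟩ := projIcc_of_mem hpq hc
    show G (projIcc p q hpq c) ∈ A ∧ f c - G (projIcc p q hpq c) ∈ _
    rw [h2]
    exact h1

end U78
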