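import Mathlib
import Pool.Agent.W_78bee8_h33.Comp

/-!
# The number of admissible pairs
-/

namespace U78

open Set

open Classical in
/-- PROOF. If `(I ∪ J).card ≤ 2`, then (being nonempty) `I ∪ J = {a, b}` for some `a, b : Fin n`, so
`(I, J)` is in `powerset {a, b} ×ˢ powerset {a, b}`, at most 16 elements; if `I ∪ J = {i, j, k}`
with a free point, then `(I, J)` is in `powerset {i, j, k} ×ˢ powerset {i, j, k}`, at most 64 elements.
Cover the set of pairs by the union over `(a, b)` and over the triples (`Finset.card_biUnion_le`;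
the set of triples is finite, `Set.ncard_eq_toFinset_card'`). -/
theorem count_adm {n : ℕ} (K : Fin n → Set V) :
    ∑ I : Finset (Fin n), (Finset.univ.filter (fun J => Adm K I J)).card ≤
      16 * n ^ 2 + 64 * {p : Fin n × Fin n × Fin n | ∃ w, FreePoint K p.1 p.2.1 p.2.2 w}.ncard := by
  let P : Finset (Finset (Fin n) × Finset (Fin n)) :=
    Finset.univ.filter (fun p => Adm K p.1 p.2)
  have h1 : ∑ I : Finset (Fin n), (Finset.univ.filter (fun J => Adm K I J)).card = P.card := by
    rw [← Finset.card_sigma]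
    refine Finset.card_bij (fun x _ => (x.1, x.2)) ?_ ?_ ?_
    · rintro ⟨I, J⟩ hx
      rw [Finset.mem_sigma, Finset.mem_filter] at hx
      exact Finset.mem_filter.2 ⟨Finset.mem_univ _, hx.2.2⟩
    · rintro ⟨I, J⟩ _ ⟨I', J'⟩ _ h
      rw [Prod.mk.injEq] at h
      obtain ⟨h1, h2⟩ := h
      simp only at h1 h2
      subst h1 h2
      rfl
    · rintro ⟨I, J⟩ hp
      exact ⟨⟨I, J⟩, Finset.mem_sigma.2 ⟨Finset.mem_univ _, Finset.mem_filter.2
        ⟨Finset.mem_univ _, (Finset.mem_filter.1 hp).2⟩⟩, rfl⟩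
  rw [h1]
  have hTf : {p : Fin n × Fin n × Fin n | ∃ w, FreePoint K p.1 p.2.1 p.2.2 w}.Finite :=
    Set.toFinite _
  let T : Finset (Fin n × Fin n × Fin n) := hTf.toFinset
  have hT : T.card = {p : Fin n × Fin n × Fin n | ∃ w, FreePoint K p.1 p.2.1 p.2.2 w}.ncard :=
    (ncard_eq_toFinset_card _ hTf).symm
  rw [← hT]
  let Q2 : Finset (Finset (Fin n) × Finset (Fin n)) :=
    (Finset.univ : Finset (Fin n × Fin n)).biUnion fun a =>
      ({a.1, a.2} : Finset (Fin n)).powerset ×ˢ ({a.1, a.2} : Finset (Fin n)).powerset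
  let Q3 : Finset (Finset (Fin n) × Finset (Fin n)) :=
    T.biUnion fun a => ({a.1, a.2.1, a.2.2} : Finset (Fin n)).powerset ×ˢ
      ({a.1, a.2.1, a.2.2} : Finset (Fin n)).powerset
  have hQ2 : Q2.card ≤ 16 * n ^ 2 := by
    refine (Finset.card_biUnion_le_card_mul _ _ 16 fun a _ => ?_).trans ?_
    · rw [Finset.card_product, Finset.card_powerset]
      have h2 : ({a.1, a.2} : Finset (Fin n)).card ≤ 2 := Finset.card_le_two
      have h3 : 2 ^ ({a.1, a.2} : Finset (Fin n)).card ≤ 2 ^ 2 :=
        Nat.pow_le_pow_right (by norm_num) h2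
      calc _ ≤ 2 ^ 2 * 2 ^ 2 := Nat.mul_le_mul h3 h3
        _ = 16 := by norm_num
    · rw [Finset.card_univ, Fintype.card_prod, Fintype.card_fin]
      exact le_of_eq (by ring)
  have hQ3 : Q3.card ≤ 64 * T.card := by
    refine (Finset.card_biUnion_le_card_mul _ _ 64 fun a _ => ?_).trans (le_of_eq (mul_comm _ _))
    rw [Finset.card_product, Finset.card_powerset]
    have h2 : ({a.1, a.2.1, a.2.2} : Finset (Fin n)).card ≤ 3 := Finset.card_le_three
    have h3 : 2 ^ ({a.1, a.2.1, a.2.2} : Finset (Fin n)).card ≤ 2 ^ 3 :=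
      Nat.pow_le_pow_right (by norm_num) h2
    calc _ ≤ 2 ^ 3 * 2 ^ 3 := Nat.mul_le_mul h3 h3
      _ = 64 := by norm_num
  have hsub : P ⊆ Q2 ∪ Q3 := by
    rintro ⟨I, J⟩ hp
    obtain ⟨hI, -, h | ⟨i, j, k, w, hw, hIJ⟩⟩ := (Finset.mem_filter.1 hp).2
    · refine Finset.mem_union_left _ ?_
      simp only at h hI
      have hne : (I ∪ J).Nonempty := hI.mono Finset.subset_union_left
      obtain ⟨a, b, hab⟩ : ∃ a b, I ∪ J = {a, b} := by
        have h4 : 0 < (I ∪ J).card := Finset.card_pos.2 hne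
        obtain h5 | h5 : (I ∪ J).card = 1 ∨ (I ∪ J).card = 2 := by omega
        · obtain ⟨a, ha⟩ := Finset.card_eq_one.1 h5
          exact ⟨a, a, by rw [ha]; simp⟩
        · obtain ⟨a, b, -, hab⟩ := Finset.card_eq_two.1 h5
          exact ⟨a, b, hab⟩
      refine Finset.mem_biUnion.2 ⟨(a, b), Finset.mem_univ _, Finset.mem_product.2 ⟨?_, ?_⟩⟩
      · rw [Finset.mem_powerset]
        simp only
        rw [← hab]
        exact Finset.subset_union_left
      · rw [Finset.mem_powerset]
        simp only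
        rw [← hab]
        exact Finset.subset_union_right
    · refine Finset.mem_union_right _ ?_
      simp only at hIJ
      refine Finset.mem_biUnion.2 ⟨(i, j, k), hTf.mem_toFinset.2 ⟨w, hw⟩,
        Finset.mem_product.2 ⟨?_, ?_⟩⟩
      · rw [Finset.mem_powerset]
        simp only
        rw [← hIJ]
        exact Finset.subset_union_left
      · rw [Finset.mem_powerset]
        simp only
        rw [← hIJ]
        exact Finset.subset_union_right
  calc P.card ≤ (Q2 ∪ Q3).card := Finset.card_le_card hsub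
    _ ≤ Q2.card + Q3.card := Finset.card_union_le _ _
    _ ≤ _ := Nat.add_le_add hQ2 hQ3

end U78
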