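import Mathlib
import Pool.Agent.W_78bee8_h33.Defs
import Pool.Agent.W_78bee8_h33.Df

/-!
# Projections of definable families of subsets of `V`
-/

namespace U78

open Set

/-- definable relations between parameters `κ → ℝ` and points of `V` -/
def DfV {κ : Type} (R : (κ → ℝ) → V → Prop) : Prop :=
  Df (fun v : κ ⊕ Fin 3 → ℝ => R (fun i => v (Sum.inl i)) (fun j => v (Sum.inr j)))

/-- PROOF. Add the coefficients `l (e_i)` of the functional to the parameters: the relation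
`∃ w, R u w ∧ ∑ i, l i * w i = c` in the variables `κ ⊕ Fin 3` and `c` is definable (`Df.exV` with
`n = 3`); apply `Df.uf`. `l w = ∑ i, w i * l (Pi.single i 1)` (`LinearMap.pi_apply_eq_sum_univ`). -/
theorem df_proj {κ : Type} [Countable κ] (R : (κ → ℝ) → V → Prop) (hR : DfV R) : ∃ M : ℕ,
    ∀ (u : κ → ℝ) (l : V →ₗ[ℝ] ℝ), ∃ E : Finset ℝ, E.card ≤ M ∧ ∀ c c' : ℝ, c ≤ c' →
      (∀ z ∈ E, z ∉ Icc c c') → ((∃ w, R u w ∧ l w = c) ↔ (∃ w, R u w ∧ l w = c')) := by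
  let g : κ ⊕ Fin 3 → Option (κ ⊕ Fin 3) ⊕ Fin 3 :=
    Sum.elim (fun i => Sum.inl (some (Sum.inl i))) (fun j => Sum.inr j)
  have h1 : Df (fun v : Option (κ ⊕ Fin 3) ⊕ Fin 3 → ℝ =>
      R (fun i => v (Sum.inl (some (Sum.inl i)))) (fun j => v (Sum.inr j)) ∧
        ∑ j : Fin 3, v (Sum.inr j) * v (Sum.inl (some (Sum.inr j))) = v (Sum.inl none)) :=
    (Df.comap hR g).and (Df.eq (PolyFun.sum _ fun j => (PolyFun.var _).mul (PolyFun.var _))
      (PolyFun.var _))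
  obtain ⟨M, hM⟩ := h1.exV.uf
  refine ⟨M, fun u l => ?_⟩
  obtain ⟨E, hE, h2⟩ := hM (Sum.elim u (fun j => l (Pi.single j 1)))
  refine ⟨E, hE, fun c c' hc hz => ?_⟩
  have h3 := h2 c c' hc hz
  have hl : ∀ w : V, l w = ∑ j : Fin 3, w j * l (Pi.single j 1) := by
    intro w
    conv_lhs => rw [← Finset.univ_sum_single w]
    rw [map_sum]
    refine Finset.sum_congr rfl fun j _ => ?_
    rw [← smul_eq_mul, ← map_smul, ← Pi.single_smul, smul_eq_mul, mul_one]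
  have h4 : ∀ d : ℝ, (∃ w, R u w ∧ l w = d) ↔
      ∃ w : Fin 3 → ℝ, R u w ∧ ∑ j : Fin 3, w j * l (Pi.single j 1) = d :=
    fun d => exists_congr fun w => by rw [hl w]
  rw [h4, h4]
  exact h3

end U78
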