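import Mathlib
import Pool.Agent.W_78bee8_h33.Proj

/-!
# Encoding of the bodies
-/

namespace U78

open Set Pointwise

/-- the family of sets defined by a relation -/
def Rng {ι : Type} (Mem : (ι → ℝ) → V → Prop) : Set (Set V) := {S | ∃ c, S = {x | Mem c x}}

/-- the exponent vector of an index -/
noncomputable def EncA_exp {b : ℕ} (m : Fin 3 → Fin (b + 1)) : Fin 3 →₀ ℕ :=
  Finsupp.equivFunOnFinite.symm (fun j => (m j : ℕ))

theorem EncA_exp_apply {b : ℕ} (m : Fin 3 → Fin (b + 1)) (j : Fin 3) :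
    EncA_exp m j = (m j : ℕ) := rfl

theorem EncA_exp_injective {b : ℕ} :
    Function.Injective (EncA_exp : (Fin 3 → Fin (b + 1)) → Fin 3 →₀ ℕ) := by
  intro m m' h
  funext j
  apply Fin.ext
  have := DFunLike.congr_fun h j
  rwa [EncA_exp_apply, EncA_exp_apply] at this

theorem EncA_eval {b : ℕ} (p : MvPolynomial (Fin 3) ℝ) (hp : p.totalDegree ≤ b) (x : V) :
    ∑ m : Fin 3 → Fin (b + 1), MvPolynomial.coeff (EncA_exp m) p * ∏ j, x j ^ (m j : ℕ) =
      MvPolynomial.eval x p := by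
  classical
  rw [MvPolynomial.eval_eq']
  have h1 : ∑ m : Fin 3 → Fin (b + 1), MvPolynomial.coeff (EncA_exp m) p * ∏ j, x j ^ (m j : ℕ) =
      ∑ d ∈ Finset.univ.map ⟨_, EncA_exp_injective (b := b)⟩,
        MvPolynomial.coeff d p * ∏ j, x j ^ (d j) := by
    rw [Finset.sum_map]
    rfl
  rw [h1]
  symm
  apply Finset.sum_subset
  · intro d hd
    rw [Finset.mem_map]
    have h2 : (d.sum fun _ e => e) ≤ b := (MvPolynomial.le_totalDegree hd).trans hp
    have h3 : ∀ j, d j ≤ b := by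
      intro j
      refine le_trans ?_ h2
      rw [Finsupp.sum_fintype _ _ (fun _ => rfl)]
      exact Finset.single_le_sum (fun i _ => Nat.zero_le _) (Finset.mem_univ j)
    refine ⟨fun j => ⟨d j, Nat.lt_succ_of_le (h3 j)⟩, Finset.mem_univ _, ?_⟩
    ext j
    rfl
  · intro d _ hd
    rw [MvPolynomial.notMem_support_iff.1 hd, zero_mul]

/-- ENCODING. PROOF. `ι = (Fin s × (Fin 3 → Fin (b + 1))) ⊕ (Fin s → SignType)`; the coefficients
`c (inl (i, m))` of the `i`-th polynomial (monomial `x₀^{m 0} x₁^{m 1} x₂^{m 2}`) and for each sign vector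
`σ` a number `c (inr σ)`, positive iff `σ ∈ T`. `Mem c x` : there is a sign vector `σ` with
`0 < c (inr σ)` such that for all `i` the polynomial `P i = ∑ m, c (inl (i,m)) * ∏ j, x j ^ m j` has sign
`σ i` at `x`. Definable by `Df.exists_fin`, `Df.forall_fin`, `Df.lt`, `Df.eq`, `PolyFun.*`. A polynomial
of total degree `≤ b` is the sum of its monomials, all exponents are `≤ b`
(`MvPolynomial.eval_eq'`, `MvPolynomial.le_totalDegree`..). -/
theorem enc (s b : ℕ) : ∃ (ι : Type) (_ : Fintype ι) (Mem : (ι → ℝ) → V → Prop), DfV Mem ∧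
    ∀ S : Set V, IsSA s b S → S ∈ Rng Mem := by
  classical
  refine ⟨(Fin s × (Fin 3 → Fin (b + 1))) ⊕ (Fin s → SignType), inferInstance,
    fun c x => ∃ σ : Fin s → SignType, 0 < c (Sum.inr σ) ∧ ∀ i,
      SignType.sign (∑ m : Fin 3 → Fin (b + 1), c (Sum.inl (i, m)) * ∏ j, x j ^ (m j : ℕ)) = σ i,
    ?_, ?_⟩
  · show Df _
    refine Df.exists_fin (fun σ => Df.and ?_ (Df.forall_fin (fun i => ?_)))
    · have h0 : PolyFun (fun _ : ((Fin s × (Fin 3 → Fin (b + 1))) ⊕ (Fin s → SignType)) ⊕ Fin 3 → ℝ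
          => (((0 : ℤ) : ℝ))) := PolyFun.const 0
      simpa using Df.lt h0 (PolyFun.var (Sum.inl (Sum.inr σ)))
    · have h0 : PolyFun (fun _ : ((Fin s × (Fin 3 → Fin (b + 1))) ⊕ (Fin s → SignType)) ⊕ Fin 3 → ℝ
          => (((0 : ℤ) : ℝ))) := PolyFun.const 0
      have hP : PolyFun (fun v : ((Fin s × (Fin 3 → Fin (b + 1))) ⊕ (Fin s → SignType)) ⊕ Fin 3 → ℝ
          => ∑ m : Fin 3 → Fin (b + 1), v (Sum.inl (Sum.inl (i, m))) *
            ∏ j : Fin 3, v (Sum.inr j) ^ (m j : ℕ)) := by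
        refine PolyFun.sum _ (fun m => PolyFun.mul (PolyFun.var _) ?_)
        exact PolyFun.prod _ (fun j => PolyFun.pow (PolyFun.var _) _)
      rcases hσ : σ i with _ | _ | _
      · have h := Df.eq hP h0
        simp only [Int.cast_zero] at h
        have e : (fun v : ((Fin s × (Fin 3 → Fin (b + 1))) ⊕ (Fin s → SignType)) ⊕ Fin 3 → ℝ
            => SignType.sign (∑ m : Fin 3 → Fin (b + 1), v (Sum.inl (Sum.inl (i, m))) *
            ∏ j : Fin 3, v (Sum.inr j) ^ (m j : ℕ)) = SignType.zero) =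
            (fun v => (∑ m : Fin 3 → Fin (b + 1), v (Sum.inl (Sum.inl (i, m))) *
            ∏ j : Fin 3, v (Sum.inr j) ^ (m j : ℕ)) = 0) := by
          funext v
          exact propext sign_eq_zero_iff
        exact e ▸ h
      · have h := Df.lt hP h0
        simp only [Int.cast_zero] at h
        have e : (fun v : ((Fin s × (Fin 3 → Fin (b + 1))) ⊕ (Fin s → SignType)) ⊕ Fin 3 → ℝ
            => SignType.sign (∑ m : Fin 3 → Fin (b + 1), v (Sum.inl (Sum.inl (i, m))) *
            ∏ j : Fin 3, v (Sum.inr j) ^ (m j : ℕ)) = SignType.neg) =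
            (fun v => (∑ m : Fin 3 → Fin (b + 1), v (Sum.inl (Sum.inl (i, m))) *
            ∏ j : Fin 3, v (Sum.inr j) ^ (m j : ℕ)) < 0) := by
          funext v
          exact propext sign_eq_neg_one_iff
        exact e ▸ h
      · have h := Df.lt h0 hP
        simp only [Int.cast_zero] at h
        have e : (fun v : ((Fin s × (Fin 3 → Fin (b + 1))) ⊕ (Fin s → SignType)) ⊕ Fin 3 → ℝ
            => SignType.sign (∑ m : Fin 3 → Fin (b + 1), v (Sum.inl (Sum.inl (i, m))) *
            ∏ j : Fin 3, v (Sum.inr j) ^ (m j : ℕ)) = SignType.pos) =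
            (fun v => 0 < (∑ m : Fin 3 → Fin (b + 1), v (Sum.inl (Sum.inl (i, m))) *
            ∏ j : Fin 3, v (Sum.inr j) ^ (m j : ℕ))) := by
          funext v
          exact propext sign_eq_one_iff
        exact e ▸ h
  · rintro S ⟨p, T, hdeg, rfl⟩
    refine ⟨Sum.elim (fun im => MvPolynomial.coeff (EncA_exp im.2) (p im.1))
      (fun σ => if σ ∈ T then 1 else 0), ?_⟩
    ext x
    simp only [Set.mem_setOf_eq, Sum.elim_inl, Sum.elim_inr]
    constructor
    · intro hx
      refine ⟨fun i => SignType.sign (MvPolynomial.eval x (p i)), ?_, ?_⟩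
      · rw [if_pos hx]
        exact zero_lt_one
      · intro i
        rw [EncA_eval (p i) (hdeg i) x]
    · rintro ⟨σ, hσ, hs⟩
      have hT : σ ∈ T := by
        by_contra hT
        rw [if_neg hT] at hσ
        exact lt_irrefl _ hσ
      have : σ = fun i => SignType.sign (MvPolynomial.eval x (p i)) := by
        funext i
        rw [← hs i, EncA_eval (p i) (hdeg i) x]
      rwa [← this]

end U78
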