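import Mathlib
import Pool.Agent.W_78bee8_h33.EncA

/-!
# Affine closure
-/

namespace U78

open Set Pointwise

/-- AFFINE CLOSURE. PROOF. `ι' = ι ⊕ (Fin 3 × Fin 3) ⊕ Fin 3`,
`Mem' (c, L, v) x = Mem c (fun i => ∑ j, L i j * x j + v i)`; definable by `Df.subst`. The image of
`{x | Mem c (L x + v)}` under the affine bijection `x ↦ T x + u` is
`{y | Mem c (L (T⁻¹ (y - u)) + v)}`, again of this form. -/
theorem enc_aff {ι : Type} [Fintype ι] (Mem : (ι → ℝ) → V → Prop) (h : DfV Mem) :
    ∃ (ι' : Type) (_ : Fintype ι') (Mem' : (ι' → ℝ) → V → Prop), DfV Mem' ∧ Rng Mem ⊆ Rng Mem' ∧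
      ∀ S ∈ Rng Mem', ∀ (L : V ≃ₗ[ℝ] V) (v : V), (fun x => L x + v) '' S ∈ Rng Mem' := by
  classical
  refine ⟨ι ⊕ ((Fin 3 × Fin 3) ⊕ Fin 3), inferInstance, fun c x => Mem (fun i => c (Sum.inl i))
    (fun i => ∑ j, c (Sum.inr (Sum.inl (i, j))) * x j + c (Sum.inr (Sum.inr i))), ?_, ?_, ?_⟩
  · have h1 := Df.subst (κ' := (ι ⊕ ((Fin 3 × Fin 3) ⊕ Fin 3)) ⊕ Fin 3) h
      (g := fun a => Sum.elim (fun i v => v (Sum.inl (Sum.inl i)))
        (fun i v => ∑ j, v (Sum.inl (Sum.inr (Sum.inl (i, j)))) * v (Sum.inr j) +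
          v (Sum.inl (Sum.inr (Sum.inr i)))) a) (by
        rintro (i | i)
        · exact PolyFun.var _
        · exact (PolyFun.sum _ fun j => (PolyFun.var _).mul (PolyFun.var _)).add (PolyFun.var _))
    exact h1
  · rintro S ⟨c, rfl⟩
    refine ⟨Sum.elim c (Sum.elim (fun p => if p.1 = p.2 then 1 else 0) (fun _ => 0)), ?_⟩
    ext x
    simp
  · rintro S ⟨c, rfl⟩ L u
    let A : Fin 3 → Fin 3 → ℝ := fun i j => L.symm (Pi.single j 1) i
    have hA : ∀ z : V, ∀ i, L.symm z i = ∑ j, A i j * z j := by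
      intro z i
      have h1 := LinearMap.pi_apply_eq_sum_univ (L.symm : V →ₗ[ℝ] V) z
      have h2 : L.symm z = ∑ j, z j • L.symm (fun k => if j = k then 1 else 0) := h1
      rw [h2, Finset.sum_apply]
      refine Finset.sum_congr rfl fun j _ => ?_
      rw [Pi.smul_apply, smul_eq_mul, mul_comm]
      have h3 : (fun k : Fin 3 => if j = k then (1 : ℝ) else 0) = Pi.single j 1 := by
        funext k
        by_cases hk : j = k
        · subst hk; simp
        · rw [if_neg hk, Pi.single_eq_of_ne (Ne.symm hk)]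
      rw [h3]
    let B : Fin 3 → Fin 3 → ℝ := fun i j => ∑ k, c (Sum.inr (Sum.inl (i, k))) * A k j
    refine ⟨Sum.elim (fun i => c (Sum.inl i)) (Sum.elim (fun p => B p.1 p.2)
      (fun i => c (Sum.inr (Sum.inr i)) - ∑ j, B i j * u j)), ?_⟩
    have key : ∀ y : V, ∀ i, ∑ k, c (Sum.inr (Sum.inl (i, k))) * L.symm (y - u) k +
        c (Sum.inr (Sum.inr i)) =
        ∑ j, B i j * y j + (c (Sum.inr (Sum.inr i)) - ∑ j, B i j * u j) := by
      intro y i
      have h1 : ∑ k, c (Sum.inr (Sum.inl (i, k))) * L.symm (y - u) k =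
          ∑ j, B i j * (y j - u j) := by
        simp_rw [hA (y - u), Finset.mul_sum, B, Finset.sum_mul]
        rw [Finset.sum_comm]
        refine Finset.sum_congr rfl fun j _ => Finset.sum_congr rfl fun k _ => ?_
        rw [Pi.sub_apply, mul_assoc]
      rw [h1]
      simp_rw [mul_sub, Finset.sum_sub_distrib]
      ring
    ext y
    constructor
    · rintro ⟨x, hx, rfl⟩
      have h2 : L.symm (L x + u - u) = x := by simp
      have h3 := key (L x + u)
      rw [h2] at h3
      show Mem _ _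
      have h4 : (fun i => ∑ j, B i j * (L x + u) j + (c (Sum.inr (Sum.inr i)) -
          ∑ j, B i j * u j)) = fun i => ∑ k, c (Sum.inr (Sum.inl (i, k))) * x k +
          c (Sum.inr (Sum.inr i)) := funext fun i => (h3 i).symm
      have hx' : Mem (fun i => c (Sum.inl i)) (fun i => ∑ j, c (Sum.inr (Sum.inl (i, j))) * x j +
          c (Sum.inr (Sum.inr i))) := hx
      rw [← h4] at hx'
      exact hx'
    · intro hy
      refine ⟨L.symm (y - u), ?_, by simp⟩
      have hy' : Mem (fun i => c (Sum.inl i)) (fun i => ∑ j, B i j * y j +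
          (c (Sum.inr (Sum.inr i)) - ∑ j, B i j * u j)) := hy
      show Mem _ _
      have h4 : (fun i => ∑ j, B i j * y j + (c (Sum.inr (Sum.inr i)) -
          ∑ j, B i j * u j)) = fun i => ∑ k, c (Sum.inr (Sum.inl (i, k))) * L.symm (y - u) k +
          c (Sum.inr (Sum.inr i)) := funext fun i => (key y i).symm
      rw [h4] at hy'
      exact hy'

end U78
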