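import Mathlib
import Pool.Agent.W_78bee8_h33.Proj

/-!
# Sums and frontiers are definable
-/

namespace U78

open Set Pointwise

/-- sums are definable: variables `(c, c', w)`. PROOF: `∃ a b : Fin 3 → ℝ`, `Mem c a`, `Mem c' b`,
`w = a + b` coordinatewise; `Df.exV` twice. -/
theorem dfV_add {ι : Type} [Finite ι] {Mem : (ι → ℝ) → V → Prop} (h : DfV Mem) :
    DfV (fun (v : ι ⊕ ι → ℝ) (w : V) =>
      w ∈ {x | Mem (fun i => v (Sum.inl i)) x} + {x | Mem (fun i => v (Sum.inr i)) x}) := by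
  have h1 : Df (fun u : ((ι ⊕ ι) ⊕ Fin 3) ⊕ Fin 3 → ℝ =>
      Mem (fun i => u (Sum.inl (Sum.inl (Sum.inl i)))) (fun j => u (Sum.inr j))) :=
    Df.comap h (Sum.elim (fun i => Sum.inl (Sum.inl (Sum.inl i))) Sum.inr)
  have h2 : Df (fun u : ((ι ⊕ ι) ⊕ Fin 3) ⊕ Fin 3 → ℝ =>
      Mem (fun i => u (Sum.inl (Sum.inl (Sum.inr i))))
        (fun j => u (Sum.inl (Sum.inr j)) - u (Sum.inr j))) := by
    refine Df.subst (κ' := ((ι ⊕ ι) ⊕ Fin 3) ⊕ Fin 3) h (g := fun k u => Sum.elim
      (fun i => u (Sum.inl (Sum.inl (Sum.inr i))))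
      (fun j => u (Sum.inl (Sum.inr j)) - u (Sum.inr j)) k) ?_
    rintro (i | j)
    · exact PolyFun.var _
    · exact (PolyFun.var _).sub (PolyFun.var _)
  have h3 := Df.exV (h1.and h2)
  have h4 : (fun v : (ι ⊕ ι) ⊕ Fin 3 → ℝ => (fun j => v (Sum.inr j)) ∈
      {x | Mem (fun i => v (Sum.inl (Sum.inl i))) x} +
        {x | Mem (fun i => v (Sum.inl (Sum.inr i))) x}) =
      fun v : (ι ⊕ ι) ⊕ Fin 3 → ℝ => ∃ u : Fin 3 → ℝ,
        Mem (fun i => v (Sum.inl (Sum.inl i))) (fun j => u j) ∧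
        Mem (fun i => v (Sum.inl (Sum.inr i))) (fun j => v (Sum.inr j) - u j) := by
    funext v
    apply propext
    rw [Set.mem_add]
    constructor
    · rintro ⟨a, ha, b, hb, hab⟩
      refine ⟨a, ha, ?_⟩
      have : (fun j => v (Sum.inr j) - a j) = b := by
        funext j
        have := congrFun hab j
        simp only [Pi.add_apply] at this
        linarith
      rw [this]
      exact hb
    · rintro ⟨u, hu, hu'⟩
      refine ⟨u, hu, _, hu', ?_⟩
      funext j
      simp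
  have h5 : Df (fun v : (ι ⊕ ι) ⊕ Fin 3 → ℝ => (fun j => v (Sum.inr j)) ∈
      {x | Mem (fun i => v (Sum.inl (Sum.inl i))) x} +
        {x | Mem (fun i => v (Sum.inl (Sum.inr i))) x}) := by
    rw [h4]
    exact h3
  exact h5

/-- closures are definable -/
theorem dfV_closure {κ : Type} [Countable κ] {R : (κ → ℝ) → V → Prop} (h : DfV R) :
    DfV (fun (v : κ → ℝ) (w : V) => w ∈ closure {x | R v x}) := by
  have h1 : Df (fun u : Option (κ ⊕ Fin 3) ⊕ Fin 3 → ℝ =>
      R (fun i => u (Sum.inl (some (Sum.inl i)))) (fun j => u (Sum.inr j))) :=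
    Df.comap h (Sum.elim (fun i => Sum.inl (some (Sum.inl i))) Sum.inr)
  have h2 : Df (fun u : Option (κ ⊕ Fin 3) ⊕ Fin 3 → ℝ =>
      ∀ i : Fin 3, u (Sum.inl (some (Sum.inr i))) - u (Sum.inr i) < u (Sum.inl none) ∧
        u (Sum.inr i) - u (Sum.inl (some (Sum.inr i))) < u (Sum.inl none)) := by
    refine Df.forall_fin (fun i => Df.and (Df.lt ?_ ?_) (Df.lt ?_ ?_))
    · exact (PolyFun.var _).sub (PolyFun.var _)
    · exact PolyFun.var _
    · exact (PolyFun.var _).sub (PolyFun.var _)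
    · exact PolyFun.var _
  have h3 := Df.exV (h1.and h2)
  have h0 : Df (fun u : Option (κ ⊕ Fin 3) → ℝ => 0 < u none) := by
    have := Df.lt (κ := Option (κ ⊕ Fin 3)) (PolyFun.const 0) (PolyFun.var none)
    simpa using this
  have h4 := Df.all (h0.imp h3)
  have h5 : (fun v : κ ⊕ Fin 3 → ℝ => (fun j => v (Sum.inr j)) ∈
      closure {x : V | R (fun i => v (Sum.inl i)) x}) =
      fun v : κ ⊕ Fin 3 → ℝ => ∀ t : ℝ, 0 < t → ∃ u : Fin 3 → ℝ,
        R (fun i => v (Sum.inl i)) (fun j => u j) ∧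
        ∀ i : Fin 3, v (Sum.inr i) - u i < t ∧ u i - v (Sum.inr i) < t := by
    funext v
    apply propext
    rw [Metric.mem_closure_iff]
    refine forall₂_congr fun t ht => ?_
    refine exists_congr fun u => ?_
    refine and_congr Iff.rfl ?_
    rw [dist_pi_lt_iff ht]
    refine forall_congr' fun i => ?_
    rw [Real.dist_eq, abs_sub_lt_iff]
  have h6 : Df (fun v : κ ⊕ Fin 3 → ℝ => (fun j => v (Sum.inr j)) ∈
      closure {x : V | R (fun i => v (Sum.inl i)) x}) := by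
    rw [h5]
    exact h4
  exact h6

/-- frontiers are definable. PROOF: `w ∈ frontier S` iff for all `ε > 0` there are `x ∈ S` and `x' ∉ S`
with `|x i - w i| < ε`, `|x' i - w i| < ε` for all `i`. -/
theorem dfV_frontier {κ : Type} [Countable κ] {R : (κ → ℝ) → V → Prop} (h : DfV R) :
    DfV (fun (v : κ → ℝ) (w : V) => w ∈ frontier {x | R v x}) := by
  have h1 := dfV_closure h
  have h' : DfV (fun (v : κ → ℝ) (x : V) => ¬ R v x) := Df.not h
  have h2 := dfV_closure h'
  have h3 : DfV (fun (v : κ → ℝ) (w : V) => w ∈ closure {x | R v x} ∧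
      w ∈ closure {x | ¬ R v x}) := Df.and h1 h2
  have h4 : (fun (v : κ → ℝ) (w : V) => w ∈ frontier {x | R v x}) =
      fun (v : κ → ℝ) (w : V) => w ∈ closure {x | R v x} ∧ w ∈ closure {x | ¬ R v x} := by
    funext v w
    rw [frontier_eq_closure_inter_closure]
    rfl
  rw [h4]
  exact h3

end U78
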