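import Mathlib
import Pool.Agent.W_78bee8_h33.EncA
import Pool.Agent.W_78bee8_h33.EncC

/-!
# The regions are definable
-/

namespace U78

open Set Pointwise

theorem EncD_norm (w x : V) (ε : ℝ) :
    ‖w - x‖ ≤ ε ↔ 0 ≤ ε ∧ ∀ j : Fin 3, 0 - ε ≤ w j - x j ∧ w j - x j ≤ ε := by
  constructor
  · intro h
    have h0 : 0 ≤ ε := (norm_nonneg _).trans h
    refine ⟨h0, fun j => ?_⟩
    have h1 := (pi_norm_le_iff_of_nonneg h0).1 h j
    rw [Real.norm_eq_abs, abs_le, Pi.sub_apply] at h1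
    rw [zero_sub]
    exact h1
  · rintro ⟨h0, h⟩
    refine (pi_norm_le_iff_of_nonneg h0).2 fun j => ?_
    have h1 := h j
    rw [zero_sub] at h1
    rw [Real.norm_eq_abs, abs_le, Pi.sub_apply]
    exact h1

/-- THE REGIONS ARE DEFINABLE, uniformly. PROOF. Parameters: `κ = (Fin q × ι) ⊕ ι ⊕ Fin 3 ⊕ Fin 1 ⊕
Fin 3 ⊕ Fin 1` (coefficients of the `A i`, of `B`, the point `x`, the number `ε`, the coefficients of the
functional `m`, the number `e`); use `dfV_add`, `dfV_frontier`, `Df.comap`, `Df.and`, `Df.forall_fin`;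
`‖w - x‖ ≤ ε` iff `0 ≤ ε` and `-ε ≤ w i - x i ≤ ε` for all `i` (`pi_norm_le_iff_of_nonneg`; for `ε < 0` the
region is empty). `σ` is fixed. -/
theorem reg_df {ι : Type} [Finite ι] {Mem : (ι → ℝ) → V → Prop} (h : DfV Mem) (q : ℕ)
    (σ : Fin q → Fin 4) : ∃ (κ : Type) (_ : Countable κ) (R : (κ → ℝ) → V → Prop), DfV R ∧
      ∀ (A : Fin q → Set V) (B : Set V), (∀ i, A i ∈ Rng Mem) → B ∈ Rng Mem →
        ∀ (x : V) (ε : ℝ) (m : V →ₗ[ℝ] ℝ) (e : ℝ), ∃ u : κ → ℝ,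
          ∀ w, w ∈ Reg A B σ x ε m e ↔ R u w := by
  have hι : Countable ι := Finite.to_countable
  refine ⟨(Fin q × ι) ⊕ (ι ⊕ (Fin 3 ⊕ (Fin 1 ⊕ (Fin 3 ⊕ Fin 1)))), inferInstance,
    fun u w => (∀ i : Fin q, St ({x | Mem (fun k => u (Sum.inl (i, k))) x} +
        {x | Mem (fun k => u (Sum.inr (Sum.inl k))) x}) w (σ i)) ∧
      (0 ≤ u (Sum.inr (Sum.inr (Sum.inr (Sum.inl 0)))) ∧
        ∀ j : Fin 3, 0 - u (Sum.inr (Sum.inr (Sum.inr (Sum.inl 0)))) ≤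
            w j - u (Sum.inr (Sum.inr (Sum.inl j))) ∧
          w j - u (Sum.inr (Sum.inr (Sum.inl j))) ≤ u (Sum.inr (Sum.inr (Sum.inr (Sum.inl 0))))) ∧
      ∑ j : Fin 3, w j * u (Sum.inr (Sum.inr (Sum.inr (Sum.inr (Sum.inl j))))) =
        u (Sum.inr (Sum.inr (Sum.inr (Sum.inr (Sum.inr 0))))), ?_, ?_⟩
  · refine Df.and (Df.forall_fin fun i => ?_) (Df.and (Df.and ?_ (Df.forall_fin fun j =>
      Df.and ?_ ?_)) ?_)
    · have h1 := Df.comap (κ' := ((Fin q × ι) ⊕ (ι ⊕ (Fin 3 ⊕ (Fin 1 ⊕ (Fin 3 ⊕ Fin 1))))) ⊕ Fin 3)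
        (dfV_add h) (Sum.elim (Sum.elim (fun k => Sum.inl (Sum.inl (i, k)))
          (fun k => Sum.inl (Sum.inr (Sum.inl k)))) Sum.inr)
      have h2 := Df.comap (κ' := ((Fin q × ι) ⊕ (ι ⊕ (Fin 3 ⊕ (Fin 1 ⊕ (Fin 3 ⊕ Fin 1))))) ⊕ Fin 3)
        (dfV_frontier (dfV_add h)) (Sum.elim (Sum.elim (fun k => Sum.inl (Sum.inl (i, k)))
          (fun k => Sum.inl (Sum.inr (Sum.inl k)))) Sum.inr)
      exact Df.and (Df.imp (Df.const _) h1) (Df.and (Df.imp (Df.const _) (Df.not h1))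
        (Df.imp (Df.const _) h2))
    · have h1 := Df.le (κ := ((Fin q × ι) ⊕ (ι ⊕ (Fin 3 ⊕ (Fin 1 ⊕ (Fin 3 ⊕ Fin 1))))) ⊕ Fin 3)
        (PolyFun.const 0) (PolyFun.var (Sum.inl (Sum.inr (Sum.inr (Sum.inr (Sum.inl 0))))))
      simpa using h1
    · have h1 := Df.le (κ := ((Fin q × ι) ⊕ (ι ⊕ (Fin 3 ⊕ (Fin 1 ⊕ (Fin 3 ⊕ Fin 1))))) ⊕ Fin 3)
        (PolyFun.sub (PolyFun.const 0)
          (PolyFun.var (Sum.inl (Sum.inr (Sum.inr (Sum.inr (Sum.inl 0)))))))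
        (PolyFun.sub (PolyFun.var (Sum.inr j))
          (PolyFun.var (Sum.inl (Sum.inr (Sum.inr (Sum.inl j))))))
      simpa only [Int.cast_zero] using h1
    · exact Df.le (PolyFun.sub (PolyFun.var (Sum.inr j))
          (PolyFun.var (Sum.inl (Sum.inr (Sum.inr (Sum.inl j))))))
          (PolyFun.var (Sum.inl (Sum.inr (Sum.inr (Sum.inr (Sum.inl 0))))))
    · exact Df.eq (PolyFun.sum Finset.univ fun j => PolyFun.mul (PolyFun.var (Sum.inr j))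
        (PolyFun.var (Sum.inl (Sum.inr (Sum.inr (Sum.inr (Sum.inr (Sum.inl j))))))))
        (PolyFun.var (Sum.inl (Sum.inr (Sum.inr (Sum.inr (Sum.inr (Sum.inr 0)))))))
  · intro A B hA hB x ε m e
    choose c hc using hA
    obtain ⟨d, hd⟩ := hB
    refine ⟨Sum.elim (fun k => c k.1 k.2) (Sum.elim d (Sum.elim x (Sum.elim (fun _ => ε)
      (Sum.elim (fun j => m (fun j' => if j = j' then 1 else 0)) (fun _ => e))))), fun w => ?_⟩
    have h1 : w ∈ Reg A B σ x ε m e ↔ (∀ i, St (A i + B) w (σ i)) ∧ ‖w - x‖ ≤ ε ∧ m w = e :=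
      Iff.rfl
    rw [h1, EncD_norm, LinearMap.pi_apply_eq_sum_univ m w]
    have h2 : ∀ i, A i + B = {x | Mem (c i) x} + {x | Mem d x} := fun i => by rw [← hc i, ← hd]
    simp only [h2]
    rfl

end U78
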