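import Mathlib
import Pool.Agent.W_78bee8_h33.Proj
import Pool.Agent.W_78bee8_h33.Choice
import Pool.Agent.W_78bee8_h33.Cont

/-!
# Continuous selections of definable families of subsets of `V`
-/

namespace U78

open Set

/-- the slices -/
def Sel_S {κ : Type} (R : (κ → ℝ) → V → Prop) (p : κ ⊕ Fin 3 → ℝ) (c : ℝ) (w : V) : Prop :=
  R (fun i => p (Sum.inl i)) w ∧ ∑ j, w j * p (Sum.inr j) = c

/-- the first coordinates -/
def Sel_X0 {κ : Type} (R : (κ → ℝ) → V → Prop) (p : κ ⊕ Fin 3 → ℝ) (c : ℝ) : Set ℝ :=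
  {t | ∃ t₁ t₂ : ℝ, Sel_S R p c ![t, t₁, t₂]}

/-- the second coordinates -/
def Sel_X1 {κ : Type} (R : (κ → ℝ) → V → Prop) (p : κ ⊕ Fin 3 → ℝ) (c y : ℝ) : Set ℝ :=
  {t | ∃ t₂ : ℝ, Sel_S R p c ![y, t, t₂]}

/-- the third coordinates -/
def Sel_X2 {κ : Type} (R : (κ → ℝ) → V → Prop) (p : κ ⊕ Fin 3 → ℝ) (c y z : ℝ) : Set ℝ :=
  {t | Sel_S R p c ![y, z, t]}

/-- the chosen point -/
def Sel_G {κ : Type} (R : (κ → ℝ) → V → Prop) (p : κ ⊕ Fin 3 → ℝ) (c : ℝ) (w : V) : Prop :=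
  IsCh (Sel_X0 R p c) (w 0) ∧ IsCh (Sel_X1 R p c (w 0)) (w 1) ∧
    IsCh (Sel_X2 R p c (w 0) (w 1)) (w 2)

theorem Sel_eta (w : V) : ![w 0, w 1, w 2] = w := by
  funext j
  fin_cases j <;> rfl

theorem Sel_G.unique {κ : Type} {R : (κ → ℝ) → V → Prop} {p : κ ⊕ Fin 3 → ℝ} {c : ℝ} {w w' : V}
    (h : Sel_G R p c w) (h' : Sel_G R p c w') : w = w' := by
  obtain ⟨h0, h1, h2⟩ := h
  obtain ⟨h0', h1', h2'⟩ := h'
  have e0 : w 0 = w' 0 := h0.unique h0'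
  rw [← e0] at h1' h2'
  have e1 : w 1 = w' 1 := h1.unique h1'
  rw [← e1] at h2'
  have e2 : w 2 = w' 2 := h2.unique h2'
  rw [← Sel_eta w, ← Sel_eta w', e0, e1, e2]

section

variable {κ : Type} [Countable κ] {R : (κ → ℝ) → V → Prop}

theorem Sel_dS (hR : DfV R) : Df (fun v : (κ ⊕ Fin 3) ⊕ Fin 4 → ℝ =>
    Sel_S R (fun i => v (Sum.inl i)) (v (Sum.inr 0))
      ![v (Sum.inr 1), v (Sum.inr 2), v (Sum.inr 3)]) := by
  have h1 := Df.comap (κ' := (κ ⊕ Fin 3) ⊕ Fin 4) hR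
    (Sum.elim (fun i => Sum.inl (Sum.inl i)) (fun j => Sum.inr j.succ))
  have h2 : Df (fun v : (κ ⊕ Fin 3) ⊕ Fin 4 → ℝ =>
      ∑ j : Fin 3, v (Sum.inr j.succ) * v (Sum.inl (Sum.inr j)) = v (Sum.inr 0)) :=
    Df.eq (PolyFun.sum Finset.univ fun j => (PolyFun.var _).mul (PolyFun.var _)) (PolyFun.var _)
  have h3 := h1.and h2
  refine (congrArg Df ?_).mp h3
  funext v
  have e : ![v (Sum.inr 1), v (Sum.inr 2), v (Sum.inr 3)] =
      fun j : Fin 3 => v (Sum.inr j.succ) := by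
    funext j
    fin_cases j <;> rfl
  rw [e]
  rfl

/-- third coordinates, `none` is the variable -/
theorem Sel_d2 (hR : DfV R) : Df (fun v : Option ((κ ⊕ Fin 3) ⊕ Fin 3) → ℝ =>
    Sel_S R (fun i => v (some (Sum.inl i))) (v (some (Sum.inr 0)))
      ![v (some (Sum.inr 1)), v (some (Sum.inr 2)), v none]) :=
  Df.comap (Sel_dS hR) (Sum.elim (fun i => some (Sum.inl i))
    ![some (Sum.inr 0), some (Sum.inr 1), some (Sum.inr 2), none])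

theorem Sel_d1' (hR : DfV R) : Df (fun v : (κ ⊕ Fin 3) ⊕ Fin 3 → ℝ =>
    ∃ t₂ : ℝ, Sel_S R (fun i => v (Sum.inl i)) (v (Sum.inr 0))
      ![v (Sum.inr 1), v (Sum.inr 2), t₂]) :=
  Df.ex (Sel_d2 hR)

/-- second coordinates, `none` is the variable -/
theorem Sel_d1 (hR : DfV R) : Df (fun v : Option ((κ ⊕ Fin 3) ⊕ Fin 2) → ℝ =>
    ∃ t₂ : ℝ, Sel_S R (fun i => v (some (Sum.inl i))) (v (some (Sum.inr 0)))
      ![v (some (Sum.inr 1)), v none, t₂]) :=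
  Df.comap (Sel_d1' hR) (Sum.elim (fun i => some (Sum.inl i))
    ![some (Sum.inr 0), some (Sum.inr 1), none])

theorem Sel_d0' (hR : DfV R) : Df (fun v : (κ ⊕ Fin 3) ⊕ Fin 2 → ℝ =>
    ∃ t₁ t₂ : ℝ, Sel_S R (fun i => v (Sum.inl i)) (v (Sum.inr 0))
      ![v (Sum.inr 1), t₁, t₂]) :=
  Df.ex (Sel_d1 hR)

/-- first coordinates, `none` is the variable -/
theorem Sel_d0 (hR : DfV R) : Df (fun v : Option ((κ ⊕ Fin 3) ⊕ Fin 1) → ℝ =>
    ∃ t₁ t₂ : ℝ, Sel_S R (fun i => v (some (Sum.inl i))) (v (some (Sum.inr 0)))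
      ![v none, t₁, t₂]) :=
  Df.comap (Sel_d0' hR) (Sum.elim (fun i => some (Sum.inl i))
    ![some (Sum.inr 0), none])

theorem Sel_dG (hR : DfV R) : Df (fun v : (κ ⊕ Fin 3) ⊕ Fin 4 → ℝ =>
    Sel_G R (fun i => v (Sum.inl i)) (v (Sum.inr 0))
      ![v (Sum.inr 1), v (Sum.inr 2), v (Sum.inr 3)]) := by
  have h0 : Df (fun v : (κ ⊕ Fin 3) ⊕ Fin 4 → ℝ =>
      IsCh (Sel_X0 R (fun i => v (Sum.inl i)) (v (Sum.inr 0))) (v (Sum.inr 1))) :=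
    Df.comap (df_isCh (Sel_d0 hR)) (fun o : Option ((κ ⊕ Fin 3) ⊕ Fin 1) =>
      o.elim (Sum.inr 1) (Sum.elim (fun i => Sum.inl i) ![Sum.inr 0]))
  have h1 : Df (fun v : (κ ⊕ Fin 3) ⊕ Fin 4 → ℝ =>
      IsCh (Sel_X1 R (fun i => v (Sum.inl i)) (v (Sum.inr 0)) (v (Sum.inr 1)))
        (v (Sum.inr 2))) :=
    Df.comap (df_isCh (Sel_d1 hR)) (fun o : Option ((κ ⊕ Fin 3) ⊕ Fin 2) =>
      o.elim (Sum.inr 2) (Sum.elim (fun i => Sum.inl i) ![Sum.inr 0, Sum.inr 1]))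
  have h2 : Df (fun v : (κ ⊕ Fin 3) ⊕ Fin 4 → ℝ =>
      IsCh (Sel_X2 R (fun i => v (Sum.inl i)) (v (Sum.inr 0)) (v (Sum.inr 1))
        (v (Sum.inr 2))) (v (Sum.inr 3))) :=
    Df.comap (df_isCh (Sel_d2 hR)) (fun o : Option ((κ ⊕ Fin 3) ⊕ Fin 3) =>
      o.elim (Sum.inr 3) (Sum.elim (fun i => Sum.inl i) ![Sum.inr 0, Sum.inr 1, Sum.inr 2]))
  exact h0.and (h1.and h2)

theorem Sel_dΓ (hR : DfV R) (i : Fin 3) : Df (fun v : (κ ⊕ Fin 3) ⊕ Fin 2 → ℝ =>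
    ∃ w : V, Sel_G R (fun i => v (Sum.inl i)) (v (Sum.inr 0)) w ∧ w i = v (Sum.inr 1)) := by
  have h1 := Df.comap (κ' := ((κ ⊕ Fin 3) ⊕ Fin 2) ⊕ Fin 3) (Sel_dG hR)
    (Sum.elim (fun i => Sum.inl (Sum.inl i))
      ![Sum.inl (Sum.inr 0), Sum.inr 0, Sum.inr 1, Sum.inr 2])
  have h2 : Df (fun v : ((κ ⊕ Fin 3) ⊕ Fin 2) ⊕ Fin 3 → ℝ =>
      v (Sum.inr i) = v (Sum.inl (Sum.inr 1))) := Df.eq (PolyFun.var _) (PolyFun.var _)
  have h3 := Df.exV (h1.and h2)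
  refine (congrArg Df ?_).mp h3
  funext v
  refine propext (exists_congr fun w => and_congr ?_ Iff.rfl)
  conv_rhs => rw [← Sel_eta w]
  exact Iff.rfl

/-- there is a chosen point in every nonempty slice of a bounded set -/
theorem Sel_exists (hR : DfV R) (p : κ ⊕ Fin 3 → ℝ) (c : ℝ)
    (hb : Bornology.IsBounded {w | R (fun i => p (Sum.inl i)) w})
    (hne : ∃ w, Sel_S R p c w) : ∃ w, Sel_G R p c w ∧ Sel_S R p c w := by
  have hbd : ∀ (X : Set ℝ) (j : Fin 3), (∀ t ∈ X, ∃ w : V, R (fun i => p (Sum.inl i)) w ∧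
      w j = t) → Bornology.IsBounded X := by
    intro X j hX
    have h1 : Bornology.IsBounded ((fun w : V => w j) '' {w | R (fun i => p (Sum.inl i)) w}) :=
      hb.image_eval j
    refine h1.subset fun t ht => ?_
    obtain ⟨w, hw, hwt⟩ := hX t ht
    exact ⟨w, hw, hwt⟩
  obtain ⟨w, hw⟩ := hne
  obtain ⟨_, H0⟩ := (Sel_d0 hR).uf
  obtain ⟨E0, _, hE0⟩ := H0 (Sum.elim p fun _ => c)
  obtain ⟨y0, hy0, hc0⟩ := exists_isCh (X := Sel_X0 R p c)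
    ⟨w 0, w 1, w 2, by rw [Sel_eta]; exact hw⟩
    (hbd _ 0 (by rintro t ⟨t₁, t₂, ht⟩; exact ⟨_, ht.1, rfl⟩)) E0 hE0
  obtain ⟨_, H1⟩ := (Sel_d1 hR).uf
  obtain ⟨E1, _, hE1⟩ := H1 (Sum.elim p ![c, y0])
  obtain ⟨z1, z2, hz⟩ := hy0
  obtain ⟨y1, hy1, hc1⟩ := exists_isCh (X := Sel_X1 R p c y0) ⟨z1, z2, hz⟩
    (hbd _ 1 (by rintro t ⟨t₂, ht⟩; exact ⟨_, ht.1, rfl⟩)) E1 hE1
  obtain ⟨_, H2⟩ := (Sel_d2 hR).uf
  obtain ⟨E2, _, hE2⟩ := H2 (Sum.elim p ![c, y0, y1])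
  obtain ⟨z3, hz'⟩ := hy1
  obtain ⟨y2, hy2, hc2⟩ := exists_isCh (X := Sel_X2 R p c y0 y1) ⟨z3, hz'⟩
    (hbd _ 2 (by rintro t ht; exact ⟨_, ht.1, rfl⟩)) E2 hE2
  exact ⟨![y0, y1, y2], ⟨hc0, hc1, hc2⟩, hy2⟩

end

/-- CONTINUOUS SELECTION. PROOF. Parameters `u` and the coefficients of `l`; let
`S c w` mean `R u w ∧ l w = c`. Let `Gr c w` mean: `IsCh {x₀ | ∃ x₁ x₂, S c ![x₀,x₁,x₂]} (w 0)`,
`IsCh {x₁ | ∃ x₂, S c ![w 0, x₁, x₂]} (w 1)` and `IsCh {x₂ | S c ![w 0, w 1, x₂]} (w 2)`. It is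
definable by `df_isCh`. For bounded `{w | R u w}` and a `c` for which `S c` is nonempty there is exactly one
`w` with `Gr c w` (`exists_isCh` with the finite sets from `Df.uf`, `IsCh.unique`), and `S c w` holds. Let
`E` be the union of the exceptional set of `df_proj` and of those of `df_cont` for the relations
`Γ_i c y : ∃ w, Gr c w ∧ w i = y` (`i = 0,1,2`). On an interval `(c,c')` without elements of `E` in which
some slice is nonempty all slices are nonempty; let `f d` be the unique `w` with `Gr d w`; its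
coordinates are continuous by `df_cont`. -/
theorem df_sel {κ : Type} [Countable κ] (R : (κ → ℝ) → V → Prop) (hR : DfV R) : ∃ M : ℕ,
    ∀ (u : κ → ℝ) (l : V →ₗ[ℝ] ℝ), Bornology.IsBounded {w | R u w} →
      ∃ E : Finset ℝ, E.card ≤ M ∧ ∀ c c' : ℝ, (∀ z ∈ E, z ∉ Ioo c c') →
        (∃ d ∈ Ioo c c', ∃ w, R u w ∧ l w = d) →
        ∃ f : ℝ → V, ContinuousOn f (Ioo c c') ∧ ∀ d ∈ Ioo c c', R u (f d) ∧ l (f d) = d := by
  classical
  obtain ⟨M, hM⟩ := df_proj R hR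
  have hC := fun i : Fin 3 => df_cont (κ := κ ⊕ Fin 3)
    (fun p c y => ∃ w : V, Sel_G R p c w ∧ w i = y) (Sel_dΓ hR i)
  choose N hN using hC
  refine ⟨M + ∑ i, N i, fun u l hb => ?_⟩
  let p : κ ⊕ Fin 3 → ℝ := Sum.elim u fun j => l (Pi.single j 1)
  have hl : ∀ w : V, l w = ∑ j, w j * p (Sum.inr j) := by
    intro w
    have h1 := LinearMap.pi_apply_eq_sum_univ l w
    rw [h1]
    refine Finset.sum_congr rfl fun j _ => ?_
    have h2 : (fun j' : Fin 3 => if j = j' then (1 : ℝ) else 0) = Pi.single j 1 := by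
      funext j'
      by_cases h3 : j = j'
      · subst h3
        simp
      · rw [if_neg h3, Pi.single_eq_of_ne (fun h4 => h3 h4.symm)]
    rw [h2, smul_eq_mul]
    rfl
  obtain ⟨E, hE, hE'⟩ := hM u l
  choose F hF hF' using fun i => hN i p
  refine ⟨E ∪ Finset.univ.biUnion F, ?_, ?_⟩
  · refine (Finset.card_union_le _ _).trans (add_le_add hE ?_)
    exact Finset.card_biUnion_le.trans (Finset.sum_le_sum fun i _ => hF i)
  intro c c' hcc hd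
  obtain ⟨d₀, hd₀, w₀, hw₀, hlw₀⟩ := hd
  have hsl : ∀ d ∈ Ioo c c', ∃ w, Sel_S R p d w := by
    intro d hd
    have h1 : (∃ w, R u w ∧ l w = d) := by
      rcases le_total d d₀ with h2 | h2
      · refine (hE' d d₀ h2 fun z hz hz' => ?_).2 ⟨w₀, hw₀, hlw₀⟩
        exact hcc z (Finset.mem_union_left _ hz) ⟨hd.1.trans_le hz'.1, hz'.2.trans_lt hd₀.2⟩
      · refine (hE' d₀ d h2 fun z hz hz' => ?_).1 ⟨w₀, hw₀, hlw₀⟩
        exact hcc z (Finset.mem_union_left _ hz) ⟨hd₀.1.trans_le hz'.1, hz'.2.trans_lt hd.2⟩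
    obtain ⟨w, hw, hlw⟩ := h1
    exact ⟨w, hw, by rw [← hl w]; exact hlw⟩
  have hG : ∀ d ∈ Ioo c c', ∃ w, Sel_G R p d w ∧ Sel_S R p d w :=
    fun d hd => Sel_exists hR p d hb (hsl d hd)
  let f : ℝ → V := fun d => if h : ∃ w, Sel_G R p d w ∧ Sel_S R p d w then
    Classical.choose h else 0
  have hf : ∀ d ∈ Ioo c c', Sel_G R p d (f d) ∧ Sel_S R p d (f d) := by
    intro d hd
    have h1 : f d = Classical.choose (hG d hd) := dif_pos (hG d hd)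
    rw [h1]
    exact Classical.choose_spec (hG d hd)
  refine ⟨f, continuousOn_pi.2 fun i => ?_, fun d hd => ⟨(hf d hd).2.1, ?_⟩⟩
  · refine hF' i c c' (fun x => f x i) (fun z hz => hcc z (Finset.mem_union_right _
      (Finset.mem_biUnion.2 ⟨i, Finset.mem_univ _, hz⟩))) fun x hx y => ?_
    constructor
    · rintro ⟨w, hw, rfl⟩
      rw [hw.unique (hf x hx).1]
    · rintro rfl
      exact ⟨f x, (hf x hx).1, rfl⟩
  · rw [hl]
    exact (hf d hd).2.2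

end U78
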