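import Mathlib
import Pool.Agent.W_78bee8_h33.EncB
import Pool.Agent.W_78bee8_h33.EncD
import Pool.Agent.W_78bee8_h33.Sel

/-!
# Bodies of bounded description form a tame family
-/

namespace U78

open Set Pointwise

/-- TAMENESS. PROOF. `proj`: for each of the finitely many `σ : Fin q → Fin 4` take `M` from `df_proj` for
the relation of `reg_df`, and the maximum over `σ`. `sel`: the same with `df_sel` (the region is
bounded: contained in a closed ball). -/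
theorem tame_of_df {ι : Type} [Finite ι] {Mem : (ι → ℝ) → V → Prop} (h : DfV Mem)
    (haff : ∀ S ∈ Rng Mem, ∀ (L : V ≃ₗ[ℝ] V) (v : V), (fun x => L x + v) '' S ∈ Rng Mem) :
    TameFam (Rng Mem) := by
  classical
  refine ⟨haff, ?_, ?_⟩
  · intro q
    have key : ∀ σ : Fin q → Fin 4, ∃ M : ℕ, ∀ (A : Fin q → Set V) (B : Set V),
        (∀ i, A i ∈ Rng Mem) → B ∈ Rng Mem →
        ∀ (x : V) (ε : ℝ) (m : V →ₗ[ℝ] ℝ) (e : ℝ) (l : V →ₗ[ℝ] ℝ),
        ∃ E : Finset ℝ, E.card ≤ M ∧ ∀ c c' : ℝ, c ≤ c' → (∀ z ∈ E, z ∉ Icc c c') →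
          ((∃ w ∈ Reg A B σ x ε m e, l w = c) ↔ (∃ w ∈ Reg A B σ x ε m e, l w = c')) := by
      intro σ
      obtain ⟨κ, _, R, hR, henc⟩ := reg_df h q σ
      obtain ⟨M, hM⟩ := df_proj R hR
      refine ⟨M, fun A B hA hB x ε m e l => ?_⟩
      obtain ⟨u, hu⟩ := henc A B hA hB x ε m e
      obtain ⟨E, hE, h2⟩ := hM u l
      refine ⟨E, hE, fun c c' hcc hz => ?_⟩
      simp only [hu]
      exact h2 c c' hcc hz
    choose M hM using key
    refine ⟨Finset.univ.sup M, fun A B hA hB σ x ε m e l => ?_⟩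
    obtain ⟨E, hE, h2⟩ := hM σ A B hA hB x ε m e l
    exact ⟨E, hE.trans (Finset.le_sup (Finset.mem_univ σ)), h2⟩
  · intro q
    have key : ∀ σ : Fin q → Fin 4, ∃ M : ℕ, ∀ (A : Fin q → Set V) (B : Set V),
        (∀ i, A i ∈ Rng Mem) → B ∈ Rng Mem →
        ∀ (x : V) (ε : ℝ) (m : V →ₗ[ℝ] ℝ) (e : ℝ) (l : V →ₗ[ℝ] ℝ),
        ∃ E : Finset ℝ, E.card ≤ M ∧ ∀ c c' : ℝ, (∀ z ∈ E, z ∉ Ioo c c') →
          (∃ d ∈ Ioo c c', ∃ w ∈ Reg A B σ x ε m e, l w = d) →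
          ∃ f : ℝ → V, ContinuousOn f (Ioo c c') ∧
            ∀ d ∈ Ioo c c', f d ∈ Reg A B σ x ε m e ∧ l (f d) = d := by
      intro σ
      obtain ⟨κ, _, R, hR, henc⟩ := reg_df h q σ
      obtain ⟨M, hM⟩ := df_sel R hR
      refine ⟨M, fun A B hA hB x ε m e l => ?_⟩
      obtain ⟨u, hu⟩ := henc A B hA hB x ε m e
      have hbd : Bornology.IsBounded {w | R u w} := by
        refine (Metric.isBounded_closedBall (x := x) (r := ε)).subset fun w hw => ?_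
        have h3 := ((hu w).2 hw).2.1
        rw [Metric.mem_closedBall, dist_eq_norm]
        exact h3
      obtain ⟨E, hE, h2⟩ := hM u l hbd
      refine ⟨E, hE, fun c c' hz hex => ?_⟩
      simp only [hu] at hex ⊢
      exact h2 c c' hz hex
    choose M hM using key
    refine ⟨Finset.univ.sup M, fun A B hA hB σ x ε m e l => ?_⟩
    obtain ⟨E, hE, h2⟩ := hM σ A B hA hB x ε m e l
    exact ⟨E, hE.trans (Finset.le_sup (Finset.mem_univ σ)), h2⟩

/-- PROOF: `enc`, `enc_aff`, `tame_of_df`. -/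
theorem tame_sa (s b : ℕ) : ∃ F : Set (Set V), TameFam F ∧ ∀ S, IsSA s b S → S ∈ F := by
  obtain ⟨ι, _, Mem, hD, hS⟩ := enc s b
  obtain ⟨ι', _, Mem', hD', hsub, haff⟩ := enc_aff Mem hD
  exact ⟨Rng Mem', tame_of_df hD' haff, fun S hS' => hsub (hS S hS')⟩

end U78
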