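import Mathlib
import Pool.Agent.W_78bee8_h33.Comp
import Pool.Agent.W_78bee8_h33.Sel

/-!
# Local lexicographic maxima of definable families
-/

namespace U78

open Set

/-- LLM is definable. PROOF. `w ∈ S ∧ ∃ ρ > 0, ∀ w', w' ∈ S → (∀ i, |w' i - w i| < ρ) → LexLe w' w`
(for `ρ > 0`, `‖w' - w‖ < ρ` iff all `|w' i - w i| < ρ`, `pi_norm_lt_iff`); see `dfV_closure` in
`EncC.lean` for the pattern (`Df.ex`, `Df.allV`, `Df.comap`, `Df.lt`, `Df.imp`). -/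
theorem dfV_llm {κ : Type} [Countable κ] {R : (κ → ℝ) → V → Prop} (h : DfV R) :
    DfV (fun (u : κ → ℝ) (w : V) => w ∈ LLM {x | R u x}) := by
  have h1 : Df (fun u : Option (κ ⊕ Fin 3) ⊕ Fin 3 → ℝ =>
      R (fun i => u (Sum.inl (some (Sum.inl i)))) (fun j => u (Sum.inr j))) :=
    Df.comap h (Sum.elim (fun i => Sum.inl (some (Sum.inl i))) Sum.inr)
  have h2 : Df (fun u : Option (κ ⊕ Fin 3) ⊕ Fin 3 → ℝ =>
      ∀ i : Fin 3, u (Sum.inl (some (Sum.inr i))) - u (Sum.inr i) < u (Sum.inl none) ∧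
        u (Sum.inr i) - u (Sum.inl (some (Sum.inr i))) < u (Sum.inl none)) := by
    refine Df.forall_fin (fun i => Df.and (Df.lt ?_ ?_) (Df.lt ?_ ?_))
    · exact (PolyFun.var _).sub (PolyFun.var _)
    · exact PolyFun.var _
    · exact (PolyFun.var _).sub (PolyFun.var _)
    · exact PolyFun.var _
  have h3 : Df (fun u : Option (κ ⊕ Fin 3) ⊕ Fin 3 → ℝ =>
      LexLe (fun j => u (Sum.inr j)) (fun j => u (Sum.inl (some (Sum.inr j))))) := by
    refine Df.or (Df.lt (PolyFun.var _) (PolyFun.var _)) (Df.and (Df.eq (PolyFun.var _)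
      (PolyFun.var _)) (Df.or (Df.lt (PolyFun.var _) (PolyFun.var _)) (Df.and (Df.eq
      (PolyFun.var _) (PolyFun.var _)) (Df.le (PolyFun.var _) (PolyFun.var _)))))
  have h4 := Df.allV (h1.imp (h2.imp h3))
  have h0 : Df (fun u : Option (κ ⊕ Fin 3) → ℝ => 0 < u none) := by
    have := Df.lt (κ := Option (κ ⊕ Fin 3)) (PolyFun.const 0) (PolyFun.var none)
    simpa using this
  have h5 := Df.and h (Df.ex (h0.and h4))
  refine Df.congr h5 fun v => ?_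
  have hmem : (fun j => v (Sum.inr j)) ∈ LLM {x : V | R (fun i => v (Sum.inl i)) x} ↔
      (R (fun i => v (Sum.inl i)) (fun j => v (Sum.inr j)) ∧ ∃ ρ : ℝ, 0 < ρ ∧ ∀ w' : V,
        R (fun i => v (Sum.inl i)) w' → ‖w' - (fun j => v (Sum.inr j))‖ < ρ →
          LexLe w' (fun j => v (Sum.inr j))) := Iff.rfl
  refine Iff.trans ?_ hmem.symm
  refine and_congr Iff.rfl (exists_congr fun ρ => ?_)
  refine and_congr_right fun hρ => forall_congr' fun w' => imp_congr Iff.rfl ?_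
  refine imp_congr ?_ Iff.rfl
  have hρ' : (0 : ℝ) < ρ := hρ
  rw [pi_norm_lt_iff hρ']
  refine forall_congr' fun i => ?_
  rw [Real.norm_eq_abs, Pi.sub_apply, abs_sub_comm, abs_sub_lt_iff]
  rfl

/-- If every point of the bounded sets `{w | R u w}` is a local maximum of the coordinate `j` on this
set, then the values of the coordinate `j` are boundedly many. PROOF. `M`, `E` from `df_sel` with
`l = LinearMap.proj j`. If `R u w` and `d = w j ∉ E`, choose `c < d < c'` with no element of `E` in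
`(c, c')`; get `f` continuous on `(c, c')` with `R u (f d')` and `f d' j = d'`. The point `f d` is a
local maximum of the coordinate `j`, but `f d' → f d` for `d' → d`, `d' > d`, and
`f d' j = d' > d = f d j`: contradiction. -/
theorem values_finite {κ : Type} [Countable κ] (R : (κ → ℝ) → V → Prop) (hR : DfV R) (j : Fin 3) :
    ∃ M : ℕ, ∀ u : κ → ℝ, Bornology.IsBounded {w | R u w} →
      (∀ w, R u w → ∃ ρ : ℝ, 0 < ρ ∧ ∀ w', R u w' → ‖w' - w‖ < ρ → w' j ≤ w j) →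
        ∃ E : Finset ℝ, E.card ≤ M ∧ ∀ w, R u w → w j ∈ E := by
  obtain ⟨M, hM⟩ := df_sel R hR
  refine ⟨M, fun u hb hloc => ?_⟩
  obtain ⟨E, hE, h⟩ := hM u (LinearMap.proj j) hb
  refine ⟨E, hE, fun w hw => ?_⟩
  by_contra hd
  obtain ⟨δ, hδ, hball⟩ := Metric.isOpen_iff.1 (E.finite_toSet.isClosed.isOpen_compl) (w j)
    (fun h' => hd h')
  obtain ⟨f, hf, hf2⟩ := h (w j - δ) (w j + δ) (fun z hz hzI => by
    have hzb : z ∈ Metric.ball (w j) δ := by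
      rw [Metric.mem_ball, Real.dist_eq, abs_lt]
      exact ⟨by linarith [hzI.1], by linarith [hzI.2]⟩
    exact hball hzb hz)
    ⟨w j, ⟨by linarith, by linarith⟩, w, hw, rfl⟩
  have hI : w j ∈ Ioo (w j - δ) (w j + δ) := ⟨by linarith, by linarith⟩
  obtain ⟨ρ, hρ, hmax⟩ := hloc (f (w j)) (hf2 _ hI).1
  have hc : ContinuousAt f (w j) := (hf (w j) hI).continuousAt (Ioo_mem_nhds hI.1 hI.2)
  obtain ⟨ε, hε, hε2⟩ := Metric.continuousAt_iff.1 hc ρ hρ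
  obtain ⟨d, hd1, hd2, hd3⟩ : ∃ d, w j < d ∧ d < w j + δ ∧ d < w j + ε := by
    obtain ⟨d, h1, h2⟩ := exists_between (show w j < min (w j + δ) (w j + ε) by
      rw [lt_min_iff]; exact ⟨by linarith, by linarith⟩)
    exact ⟨d, h1, h2.trans_le (min_le_left _ _), h2.trans_le (min_le_right _ _)⟩
  have hId : d ∈ Ioo (w j - δ) (w j + δ) := ⟨by linarith, hd2⟩
  have h1 := hmax (f d) (hf2 d hId).1 (by
    rw [← dist_eq_norm]
    refine hε2 ?_
    rw [Real.dist_eq, abs_lt]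
    exact ⟨by linarith, by linarith⟩)
  have h2 : f d j = d := (hf2 d hId).2
  have h3 : f (w j) j = w j := (hf2 _ hI).2
  rw [h2, h3] at h1
  linarith

/-- PROOF. `values_finite` for the relations `D₀ u w : w ∈ LLM {x | R u x}`, `j = 0`;
`D₁ (u, c₀) w : D₀ u w ∧ w 0 = c₀`, `j = 1`; `D₂ (u, c₀, c₁) w : D₁ (u, c₀) w ∧ w 1 = c₁`, `j = 2`
(parameters `κ`, `κ ⊕ Fin 1`, `κ ⊕ Fin 2`, definable by `dfV_llm`, `Df.comap`, `Df.eq`). For `w`, `w'` in
`D₁` (same coordinate 0) `LexLe w' w` gives `w' 1 ≤ w 1`, and for `w`, `w'` in `D₂` it gives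
`w' 2 ≤ w 2`. So `LLM` is contained in the image of the finite sets `E₀`, `E₁ c₀`, `E₂ c₀ c₁`, with at most
`M₀ * M₁ * M₂` elements. -/
theorem df_llm {κ : Type} [Countable κ] (R : (κ → ℝ) → V → Prop) (hR : DfV R) : ∃ M : ℕ,
    ∀ u : κ → ℝ, Bornology.IsBounded {w | R u w} →
      (LLM {w | R u w}).Finite ∧ (LLM {w | R u w}).ncard ≤ M := by
  classical
  have hL := dfV_llm hR
  obtain ⟨M₀, h₀⟩ := values_finite (fun u w => w ∈ LLM {x | R u x}) hL 0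
  have hL1 : DfV (fun (p : κ ⊕ Fin 1 → ℝ) (w : V) =>
      w ∈ LLM {x | R (fun i => p (Sum.inl i)) x} ∧ w 0 = p (Sum.inr 0)) := by
    refine Df.and (Df.comap (κ' := (κ ⊕ Fin 1) ⊕ Fin 3) hL
      (Sum.elim (fun i => Sum.inl (Sum.inl i)) Sum.inr)) (Df.eq (PolyFun.var _) (PolyFun.var _))
  obtain ⟨M₁, h₁⟩ := values_finite _ hL1 1
  have hL2 : DfV (fun (p : κ ⊕ Fin 2 → ℝ) (w : V) =>
      w ∈ LLM {x | R (fun i => p (Sum.inl i)) x} ∧ w 0 = p (Sum.inr 0) ∧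
        w 1 = p (Sum.inr 1)) := by
    refine Df.and (Df.comap (κ' := (κ ⊕ Fin 2) ⊕ Fin 3) hL
      (Sum.elim (fun i => Sum.inl (Sum.inl i)) Sum.inr)) (Df.and (Df.eq (PolyFun.var _)
      (PolyFun.var _)) (Df.eq (PolyFun.var _) (PolyFun.var _)))
  obtain ⟨M₂, h₂⟩ := values_finite _ hL2 2
  refine ⟨M₀ * (M₁ * M₂), fun u hb => ?_⟩
  have hb0 : Bornology.IsBounded {w | w ∈ LLM {x | R u x}} := hb.subset fun w hw => hw.1
  obtain ⟨E₀, hE₀, k₀⟩ := h₀ u hb0 (by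
    rintro w ⟨-, ρ, hρ, hmax⟩
    refine ⟨ρ, hρ, fun w' hw' hd => ?_⟩
    rcases hmax w' hw'.1 hd with h | h
    · exact h.le
    · exact h.1.le)
  have k₁' : ∀ c₀ : ℝ, ∃ E : Finset ℝ, E.card ≤ M₁ ∧
      ∀ w, (w ∈ LLM {x | R u x} ∧ w 0 = c₀) → w 1 ∈ E := by
    intro c₀
    refine h₁ (Sum.elim u (fun _ => c₀)) (hb.subset fun w hw => hw.1.1) ?_
    rintro w ⟨⟨-, ρ, hρ, hmax⟩, h0⟩
    refine ⟨ρ, hρ, fun w' hw' hd => ?_⟩
    have e0 : w' 0 = w 0 := hw'.2.trans h0.symm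
    rcases hmax w' hw'.1.1 hd with h | ⟨-, h | h⟩
    · exact absurd h (by rw [e0]; exact lt_irrefl _)
    · exact h.le
    · exact h.1.le
  choose E₁ hE₁ k₁ using k₁'
  have k₂' : ∀ c₀ c₁ : ℝ, ∃ E : Finset ℝ, E.card ≤ M₂ ∧
      ∀ w, (w ∈ LLM {x | R u x} ∧ w 0 = c₀ ∧ w 1 = c₁) → w 2 ∈ E := by
    intro c₀ c₁
    refine h₂ (Sum.elim u ![c₀, c₁]) (hb.subset fun w hw => hw.1.1) ?_
    rintro w ⟨⟨-, ρ, hρ, hmax⟩, h0, h1⟩
    refine ⟨ρ, hρ, fun w' hw' hd => ?_⟩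
    have e0 : w' 0 = w 0 := hw'.2.1.trans h0.symm
    have e1 : w' 1 = w 1 := hw'.2.2.trans h1.symm
    rcases hmax w' hw'.1.1 hd with h | ⟨-, h | h⟩
    · exact absurd h (by rw [e0]; exact lt_irrefl _)
    · exact absurd h (by rw [e1]; exact lt_irrefl _)
    · exact h.2
  choose E₂ hE₂ k₂ using k₂'
  let T : Finset V := E₀.biUnion fun c₀ => (E₁ c₀).biUnion fun c₁ =>
    (E₂ c₀ c₁).image fun c₂ => (![c₀, c₁, c₂] : V)
  have hsub : LLM {w | R u w} ⊆ (T : Set V) := by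
    intro w hw
    refine Finset.mem_coe.2 (Finset.mem_biUnion.2 ⟨w 0, k₀ w hw, Finset.mem_biUnion.2
      ⟨w 1, k₁ _ w ⟨hw, rfl⟩, Finset.mem_image.2 ⟨w 2, k₂ _ _ w ⟨hw, rfl, rfl⟩, ?_⟩⟩⟩)
    funext j
    fin_cases j <;> rfl
  have hcard : T.card ≤ M₀ * (M₁ * M₂) := by
    refine (Finset.card_biUnion_le_card_mul _ _ (M₁ * M₂) fun c₀ _ => ?_).trans
      (Nat.mul_le_mul_right _ hE₀)
    refine (Finset.card_biUnion_le_card_mul _ _ M₂ fun c₁ _ => ?_).trans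
      (Nat.mul_le_mul_right _ (hE₁ _))
    exact Finset.card_image_le.trans (hE₂ _ _)
  refine ⟨T.finite_toSet.subset hsub, ?_⟩
  refine (ncard_le_ncard hsub T.finite_toSet).trans ?_
  rw [ncard_coe_finset]
  exact hcard

end U78
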