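import Mathlib
import Pool.Agent.W_78bee8_h33.Comp
import Pool.Agent.W_78bee8_h33.EncA
import Pool.Agent.W_78bee8_h33.EncC

/-!
# The regions `Loc` are definable
-/

namespace U78

open Set Pointwise

theorem LocDf_norm (w y : V) (η : ℝ) :
    η ≤ ‖w - y‖ ↔ (η ≤ 0 ∨ ∃ j : Fin 3, η ≤ w j - y j ∨ η ≤ y j - w j) := by
  rcases le_or_gt η 0 with h | h
  · exact ⟨fun _ => Or.inl h, fun _ => h.trans (norm_nonneg _)⟩
  · rw [← not_lt, pi_norm_lt_iff h]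
    push Not
    constructor
    · rintro ⟨j, hj⟩
      rw [Real.norm_eq_abs, Pi.sub_apply, le_abs, neg_sub] at hj
      exact Or.inr ⟨j, hj⟩
    · rintro (h' | ⟨j, hj⟩)
      · exact absurd h' (not_le.2 h)
      · refine ⟨j, ?_⟩
        rw [Real.norm_eq_abs, Pi.sub_apply, le_abs, neg_sub]
        exact hj

/-- THE REGIONS `Loc` ARE DEFINABLE, uniformly. PROOF. As `reg_df` (file `EncD.lean`), parameters
`(Fin 3 × ι) ⊕ ι ⊕ Fin 1` (coefficients of the `A i`, of `B`, the number `η`); `dfV_add`; the union of the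
bodies marked `true` is definable (`Df.exists_fin`), its frontier by `dfV_frontier`; the last
condition: for all `y` (`Df.allV`), `y ∈ A i + B` implies `η ≤ ‖w - y‖`, i.e. `η ≤ 0` or for some
coordinate `j`, `η ≤ w j - y j` or `η ≤ y j - w j` (sup norm). `σ` is fixed. -/
theorem loc_df {ι : Type} [Finite ι] {Mem : (ι → ℝ) → V → Prop} (h : DfV Mem)
    (σ : Fin 3 → Bool) : ∃ (κ : Type) (_ : Countable κ) (R : (κ → ℝ) → V → Prop), DfV R ∧
      ∀ (A : Fin 3 → Set V) (B : Set V), (∀ i, A i ∈ Rng Mem) → B ∈ Rng Mem →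
        ∀ η : ℝ, ∃ u : κ → ℝ, ∀ w, w ∈ Loc (fun i => A i + B) σ η ↔ R u w := by
  have hι : Countable ι := Finite.to_countable
  -- membership in the sum number `i`
  have hm : ∀ i : Fin 3, DfV (fun (u : (Fin 3 × ι) ⊕ (ι ⊕ Fin 1) → ℝ) (w : V) =>
      w ∈ {x | Mem (fun k => u (Sum.inl (i, k))) x} +
        {x | Mem (fun k => u (Sum.inr (Sum.inl k))) x}) := fun i =>
    Df.comap (κ' := ((Fin 3 × ι) ⊕ (ι ⊕ Fin 1)) ⊕ Fin 3)
        (dfV_add h) (Sum.elim (Sum.elim (fun k => Sum.inl (Sum.inl (i, k)))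
          (fun k => Sum.inl (Sum.inr (Sum.inl k)))) Sum.inr)
  have hun : DfV (fun (u : (Fin 3 × ι) ⊕ (ι ⊕ Fin 1) → ℝ) (w : V) =>
      ∃ i, σ i = true ∧ w ∈ {x | Mem (fun k => u (Sum.inl (i, k))) x} +
        {x | Mem (fun k => u (Sum.inr (Sum.inl k))) x}) :=
    Df.exists_fin fun i => Df.and (Df.const _) (hm i)
  refine ⟨(Fin 3 × ι) ⊕ (ι ⊕ Fin 1), inferInstance,
    fun u w => (∀ i, σ i = true → w ∈ {x | Mem (fun k => u (Sum.inl (i, k))) x} +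
        {x | Mem (fun k => u (Sum.inr (Sum.inl k))) x}) ∧
      w ∈ frontier {x | ∃ i, σ i = true ∧ x ∈ {x | Mem (fun k => u (Sum.inl (i, k))) x} +
        {x | Mem (fun k => u (Sum.inr (Sum.inl k))) x}} ∧
      ∀ i, σ i = false → ∀ y : V, (y ∈ {x | Mem (fun k => u (Sum.inl (i, k))) x} +
        {x | Mem (fun k => u (Sum.inr (Sum.inl k))) x}) → (u (Sum.inr (Sum.inr 0)) ≤ 0 ∨
          ∃ j : Fin 3, u (Sum.inr (Sum.inr 0)) ≤ w j - y j ∨
            u (Sum.inr (Sum.inr 0)) ≤ y j - w j), ?_, ?_⟩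
  · refine Df.and (Df.forall_fin fun i => Df.imp (Df.const _) (hm i)) (Df.and
      (dfV_frontier hun) (Df.forall_fin fun i => Df.imp (Df.const _) ?_))
    have h1 : Df (fun v : (((Fin 3 × ι) ⊕ (ι ⊕ Fin 1)) ⊕ Fin 3) ⊕ Fin 3 → ℝ =>
        (fun j => v (Sum.inr j)) ∈ {x | Mem (fun k => v (Sum.inl (Sum.inl (Sum.inl (i, k))))) x} +
          {x | Mem (fun k => v (Sum.inl (Sum.inl (Sum.inr (Sum.inl k))))) x}) :=
      Df.comap (κ' := (((Fin 3 × ι) ⊕ (ι ⊕ Fin 1)) ⊕ Fin 3) ⊕ Fin 3) (hm i)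
        (Sum.elim (fun k => Sum.inl (Sum.inl k)) Sum.inr)
    have h0 : PolyFun (fun _ : (((Fin 3 × ι) ⊕ (ι ⊕ Fin 1)) ⊕ Fin 3) ⊕ Fin 3 → ℝ =>
        ((0 : ℤ) : ℝ)) := PolyFun.const 0
    have h2 : Df (fun v : (((Fin 3 × ι) ⊕ (ι ⊕ Fin 1)) ⊕ Fin 3) ⊕ Fin 3 → ℝ =>
        (v (Sum.inl (Sum.inl (Sum.inr (Sum.inr 0)))) ≤ 0 ∨
          ∃ j : Fin 3, v (Sum.inl (Sum.inl (Sum.inr (Sum.inr 0)))) ≤
            v (Sum.inl (Sum.inr j)) - v (Sum.inr j) ∨
            v (Sum.inl (Sum.inl (Sum.inr (Sum.inr 0)))) ≤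
              v (Sum.inr j) - v (Sum.inl (Sum.inr j)))) := by
      refine Df.or ?_ (Df.exists_fin fun j => Df.or (Df.le (PolyFun.var _)
        ((PolyFun.var _).sub (PolyFun.var _))) (Df.le (PolyFun.var _)
        ((PolyFun.var _).sub (PolyFun.var _))))
      simpa using Df.le (PolyFun.var (Sum.inl (Sum.inl (Sum.inr (Sum.inr 0))))) h0
    exact Df.allV (h1.imp h2)
  · intro A B hA hB η
    choose c hc using hA
    obtain ⟨d, hd⟩ := hB
    refine ⟨Sum.elim (fun k => c k.1 k.2) (Sum.elim d (fun _ => η)), fun w => ?_⟩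
    have h1 : w ∈ Loc (fun i => A i + B) σ η ↔ (∀ i, σ i = true → w ∈ A i + B) ∧
        w ∈ frontier {x | ∃ i, σ i = true ∧ x ∈ A i + B} ∧
          ∀ i, σ i = false → ∀ y ∈ A i + B, η ≤ ‖w - y‖ := Iff.rfl
    rw [h1]
    have h2 : ∀ i, A i + B = {x | Mem (c i) x} + {x | Mem d x} := fun i => by rw [← hc i, ← hd]
    simp only [h2, LocDf_norm]
    rfl

end U78
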