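import Mathlib
import Pool.Agent.W_78bee8_h33.Enc
import Pool.Agent.W_78bee8_h33.LexDf
import Pool.Agent.W_78bee8_h33.LocDf

/-!
# Local lexicographic maxima for semialgebraic bodies
-/

namespace U78

open Set Pointwise

/-- PROOF. As in `tame_of_df`: for each of the finitely many `σ` take `M` from `df_llm` for the relation
of `loc_df`, and the maximum over `σ`. -/
theorem tameLex_of_df {ι : Type} [Finite ι] {Mem : (ι → ℝ) → V → Prop} (h : DfV Mem) :
    TameLex (Rng Mem) := by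
  classical
  have key : ∀ σ : Fin 3 → Bool, ∃ M : ℕ, ∀ (A : Fin 3 → Set V) (B : Set V),
      (∀ i, A i ∈ Rng Mem) → B ∈ Rng Mem →
      ∀ η : ℝ, Bornology.IsBounded (Loc (fun i => A i + B) σ η) →
        (LLM (Loc (fun i => A i + B) σ η)).Finite ∧
          (LLM (Loc (fun i => A i + B) σ η)).ncard ≤ M := by
    intro σ
    obtain ⟨κ, _, R, hR, henc⟩ := loc_df h σ
    obtain ⟨M, hM⟩ := df_llm R hR
    refine ⟨M, fun A B hA hB η hb => ?_⟩
    obtain ⟨u, hu⟩ := henc A B hA hB η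
    have h1 : Loc (fun i => A i + B) σ η = {w | R u w} := by
      ext w
      exact hu w
    rw [h1] at hb ⊢
    exact hM u hb
  choose M hM using key
  refine ⟨Finset.univ.sup M, fun A B hA hB σ η hb => ?_⟩
  obtain ⟨h1, h2⟩ := hM σ A B hA hB η hb
  exact ⟨h1, h2.trans (Finset.le_sup (Finset.mem_univ σ))⟩

theorem tame_sa2 (s b : ℕ) : ∃ F : Set (Set V), TameFam F ∧ TameLex F ∧
    ∀ S, IsSA s b S → S ∈ F := by
  obtain ⟨ι, _, Mem, hD, hS⟩ := enc s b
  obtain ⟨ι', _, Mem', hD', hsub, haff⟩ := enc_aff Mem hD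
  exact ⟨Rng Mem', tame_of_df hD' haff, tameLex_of_df hD', fun S hS' => hsub (hS S hS')⟩

end U78
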