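import Mathlib

/-!
# The epoch lemma
-/

namespace U78

open Set

/-- EPOCH LEMMA. PROOF: for each `x` let `lo x = min_y h x y`, `hi x = max_y h x y`; then
`hi x ≤ lo x'` for `x < x'`. If the claim fails, then for every `x` the interval `[lo x, hi x]` is
not a single point and contains an element of `E`. An element `z` of `E` lies in at most two of
these intervals: if `x < x' < x''` and `z` lies in all three, then
`z ≤ hi x ≤ lo x' ≤ hi x' ≤ lo x'' ≤ z`, so `lo x' = hi x'`. Hence `t ≤ 2 * E.card`. -/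
theorem epoch {t : ℕ} {κ : Type} [Finite κ] [Nonempty κ] (h : Fin t → κ → ℝ)
    (hh : ∀ x x', x < x' → ∀ y y', h x y ≤ h x' y') (E : Finset ℝ) (ht : 2 * E.card < t) :
    ∃ x, (∀ y y', h x y = h x y') ∨ (∀ y y', ∀ z ∈ E, z ∉ Icc (h x y) (h x y')) := by
  classical
  by_contra hcon
  have hc : ∀ x, (¬ ∀ y y', h x y = h x y') ∧ ∃ z, z ∈ E ∧ ∃ y y', z ∈ Icc (h x y) (h x y') := by
    intro x
    refine ⟨fun h1 => hcon ⟨x, Or.inl h1⟩, ?_⟩
    by_contra h1
    refine hcon ⟨x, Or.inr fun y y' z hz hz' => h1 ⟨z, hz, y, y', hz'⟩⟩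
  choose hne f hfE a b hab using hc
  have hmaps : ∀ x ∈ (Finset.univ : Finset (Fin t)), f x ∈ E := fun x _ => hfE x
  have hcard : E.card * 2 < (Finset.univ : Finset (Fin t)).card := by
    rw [Finset.card_univ, Fintype.card_fin]
    omega
  obtain ⟨z, _, hz⟩ := Finset.exists_lt_card_fiber_of_mul_lt_card_of_maps_to hmaps hcard
  obtain ⟨x₁, x₂, x₃, h1, h2, h3, h12, h13, h23⟩ := Finset.two_lt_card_iff.1 hz
  have g1 : f x₁ = z := (Finset.mem_filter.1 h1).2
  have g2 : f x₂ = z := (Finset.mem_filter.1 h2).2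
  have g3 : f x₃ = z := (Finset.mem_filter.1 h3).2
  have key : ∀ x x' x'', f x = z → f x'' = z → x < x' → x' < x'' → False := by
    intro x x' x'' e e' l l'
    have k : ∀ w, h x' w = z := by
      intro w
      refine le_antisymm ?_ ?_
      · have q := (hab x'').1
        rw [e'] at q
        exact (hh x' x'' l' w (a x'')).trans q
      · have q := (hab x).2
        rw [e] at q
        exact q.trans (hh x x' l (b x) w)
    exact hne x' fun y y' => (k y).trans (k y').symm
  rcases lt_or_gt_of_ne h12 with l | l <;> rcases lt_or_gt_of_ne h13 with m | m <;>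
    rcases lt_or_gt_of_ne h23 with n | n
  · exact key _ _ _ g1 g3 l n
  · exact key _ _ _ g1 g2 m n
  · exact absurd (l.trans n) (not_lt.2 m.le)
  · exact key _ _ _ g3 g2 m l
  · exact key _ _ _ g2 g3 l m
  · exact absurd (m.trans n) (not_lt.2 l.le)
  · exact key _ _ _ g2 g1 n m
  · exact key _ _ _ g3 g1 n l

end U78
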