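import Mathlib
import Pool.Agent.W_78bee8_h33.RamseyP

/-!
# Major classes (Fishburn–Graham)
-/

namespace U78


/-- mixing two vectors -/
def FG_mix {T : ℕ} (v v' : Fin 3 → Fin T) (b : Fin 3 → Bool) : Fin 3 → Fin T :=
  fun a => if b a then v' a else v a

/-- the indicator of a class -/
def FG_one (a : Fin 3) : Fin 3 → Bool := fun x => decide (x = a)

/-- comparisons of mixed vectors are homogeneous -/
def FG_hom {T : ℕ} {α : Type} [LinearOrder α] (g : (Fin 3 → Fin T) → α)
    (c : (Fin 3 → Bool) → (Fin 3 → Bool) → Bool) : Prop :=
  ∀ v v', (∀ a, v a < v' a) → ∀ b b', (g (FG_mix v v' b) < g (FG_mix v v' b') ↔ c b b' = true)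

/-- successor, if there is one -/
def FG_succ {T : ℕ} (x : Fin T) : Fin T := if h : (x : ℕ) + 1 < T then ⟨(x : ℕ) + 1, h⟩ else x

theorem FG_lt_succ {T : ℕ} (x : Fin T) (h : (x : ℕ) + 1 < T) : x < FG_succ x := by
  rw [FG_succ, dif_pos h, Fin.lt_def]
  simp

theorem FG_succ_val {T : ℕ} (x : Fin T) (h : (x : ℕ) + 1 < T) : (FG_succ x : ℕ) = (x : ℕ) + 1 := by
  rw [FG_succ, dif_pos h]

/-- comparison of two vectors which differ in one coordinate -/
theorem FG_coord {T : ℕ} {α : Type} [LinearOrder α] {g : (Fin 3 → Fin T) → α}
    {c : (Fin 3 → Bool) → (Fin 3 → Bool) → Bool} (hg : FG_hom g c) (a : Fin 3)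
    (u u' : Fin 3 → Fin T) (ha : u a < u' a)
    (hb : ∀ b, b ≠ a → u b = u' b ∧ (u b : ℕ) + 1 < T) :
    g u < g u' ↔ c (fun _ => false) (FG_one a) = true := by
  have hv : ∀ b, u b < (fun b => if b = a then u' b else FG_succ (u b)) b := by
    intro b
    by_cases h : b = a
    · subst h
      simpa using ha
    · simp only [if_neg h]
      exact FG_lt_succ _ (hb b h).2
  have h := hg u (fun b => if b = a then u' b else FG_succ (u b)) hv (fun _ => false) (FG_one a)
  have h1 : FG_mix u (fun b => if b = a then u' b else FG_succ (u b)) (fun _ => false) = u := by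
    funext b
    simp [FG_mix]
  have h2 : FG_mix u (fun b => if b = a then u' b else FG_succ (u b)) (FG_one a) = u' := by
    funext b
    by_cases h : b = a
    · simp [FG_mix, FG_one, h]
    · simp [FG_mix, FG_one, h, (hb b h).1]
  rw [h1, h2] at h
  exact h

/-- comparison of two vectors which differ in two coordinates, in opposite directions -/
theorem FG_pair {T : ℕ} {α : Type} [LinearOrder α] {g : (Fin 3 → Fin T) → α}
    {c : (Fin 3 → Bool) → (Fin 3 → Bool) → Bool} (hg : FG_hom g c) (a b : Fin 3) (hab : a ≠ b)
    (u u' : Fin 3 → Fin T) (ha : u a < u' a) (hb : u' b < u b)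
    (hx : ∀ x, x ≠ a → x ≠ b → u x = u' x ∧ (u x : ℕ) + 1 < T) :
    g u < g u' ↔ c (FG_one b) (FG_one a) = true := by
  have hv : ∀ x, (fun x => if x = a then u x else if x = b then u' x else u x) x <
      (fun x => if x = a then u' x else if x = b then u x else FG_succ (u x)) x := by
    intro x
    by_cases h : x = a
    · subst h
      simpa using ha
    · by_cases h' : x = b
      · subst h'
        simpa [h] using hb
      · simp only [if_neg h, if_neg h']
        exact FG_lt_succ _ (hx x h h').2
  have h := hg _ _ hv (FG_one b) (FG_one a)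
  have h1 : FG_mix (fun x => if x = a then u x else if x = b then u' x else u x)
      (fun x => if x = a then u' x else if x = b then u x else FG_succ (u x)) (FG_one b) = u := by
    funext x
    by_cases hxa : x = a
    · subst hxa
      simp [FG_mix, FG_one, hab]
    · by_cases h' : x = b
      · subst h'
        simp [FG_mix, FG_one, hxa]
      · simp [FG_mix, FG_one, hxa, h']
  have h2 : FG_mix (fun x => if x = a then u x else if x = b then u' x else u x)
      (fun x => if x = a then u' x else if x = b then u x else FG_succ (u x)) (FG_one a) = u' := by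
    funext x
    by_cases hxa : x = a
    · subst hxa
      simp [FG_mix, FG_one]
    · by_cases h' : x = b
      · subst h'
        simp [FG_mix, FG_one, hxa]
      · simp [FG_mix, FG_one, hxa, h', (hx x hxa h').1]
  rw [h1, h2] at h
  exact h

/-- the case in which the function is increasing in each coordinate -/
theorem FG_main {T : ℕ} {α : Type} [LinearOrder α] {g : (Fin 3 → Fin T) → α}
    (hinj : Function.Injective g) (hT : 4 ≤ T)
    {c : (Fin 3 → Bool) → (Fin 3 → Bool) → Bool} (hg : FG_hom g c)
    (hc : ∀ a, c (fun _ => false) (FG_one a) = true) :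
    ∃ a : Fin 3, ∀ v v' : Fin 3 → Fin T, (∀ b, (v b : ℕ) + 1 < T) → (∀ b, (v' b : ℕ) + 1 < T) →
      (v a : ℕ) + 1 < v' a → g v < g v' := by
  set v0 : Fin 3 → Fin T := fun _ => ⟨0, by omega⟩ with hv0
  set v1 : Fin 3 → Fin T := fun _ => ⟨1, by omega⟩ with hv1
  obtain ⟨a, hamax⟩ := Finite.exists_max (fun a : Fin 3 => g (FG_mix v0 v1 (FG_one a)))
  have htop : ∀ b, b ≠ a → c (FG_one b) (FG_one a) = true := by
    intro b hb
    rw [← hg v0 v1 (by
      intro x
      simp only [hv0, hv1, Fin.lt_def]
      omega) (FG_one b) (FG_one a)]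
    refine lt_of_le_of_ne (hamax b) ?_
    intro heq
    have h1 := congrFun (hinj heq) b
    simp only [FG_mix, FG_one, hv0, hv1, decide_true, if_true] at h1
    rw [if_neg (by simpa using hb)] at h1
    exact absurd (congrArg Fin.val h1) (by simp)
  refine ⟨a, ?_⟩
  -- the step
  have hstep : ∀ b, b ≠ a → ∀ u u' : Fin 3 → Fin T, (∀ x, (u x : ℕ) + 1 < T) →
      (∀ x, (u' x : ℕ) + 1 < T) → u a < u' a → (∀ x, x ≠ a → x ≠ b → u x = u' x) →
      g u < g u' := by
    intro b hb u u' hu hu' hlt heq
    rcases lt_trichotomy (u' b) (u b) with h | h | h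
    · exact (FG_pair hg a b (Ne.symm hb) u u' hlt h (fun x h1 h2 => ⟨heq x h1 h2, hu x⟩)).2
        (htop b hb)
    · refine (FG_coord hg a u u' hlt ?_).2 (hc a)
      intro x hx
      by_cases hxb : x = b
      · subst hxb
        exact ⟨h.symm, hu _⟩
      · exact ⟨heq x hx hxb, hu x⟩
    · set m : Fin 3 → Fin T := fun x => if x = b then u' x else u x with hm
      have h1 : g u < g m := by
        refine (FG_coord hg b u m (by simpa [hm] using h) ?_).2 (hc b)
        intro x hx
        exact ⟨by simp [hm, hx], hu x⟩
      have h2 : g m < g u' := by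
        refine (FG_coord hg a m u' (by simpa [hm, Ne.symm hb] using hlt) ?_).2 (hc a)
        intro x hx
        by_cases hxb : x = b
        · subst hxb
          simp only [hm, if_true]
          exact ⟨trivial, hu' _⟩
        · simp only [hm, if_neg hxb]
          exact ⟨heq x hx hxb, hu x⟩
      exact h1.trans h2
  intro v v' hv hv' hlt
  have hd : ∀ a x : Fin 3, x ≠ a → x ≠ a + 2 → x = a + 1 := by decide
  have hd2 : ∀ a x : Fin 3, x ≠ a → x ≠ a + 1 → x = a + 2 := by decide
  have hd3 : ∀ a : Fin 3, a + 1 ≠ a := by decide
  have hd4 : ∀ a : Fin 3, a + 2 ≠ a := by decide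
  have hd5 : ∀ a : Fin 3, a + 2 ≠ a + 1 := by decide
  set m : Fin 3 → Fin T := fun x => if x = a then FG_succ (v x) else if x = a + 1 then v x else v' x
    with hm
  have hma : m a = FG_succ (v a) := by simp [hm]
  have hmT : ∀ x, (m x : ℕ) + 1 < T := by
    intro x
    simp only [hm]
    split_ifs with h1 h2
    · subst h1
      rw [FG_succ_val _ (hv _)]
      have := hv' x
      omega
    · exact hv x
    · exact hv' x
  have h1 : g v < g m := by
    refine hstep (a + 2) (hd4 a) v m hv hmT ?_ ?_
    · rw [hma]
      exact FG_lt_succ _ (hv a)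
    · intro x hx hx2
      have := hd a x hx hx2
      subst this
      simp [hm, hd3]
  have h2 : g m < g v' := by
    refine hstep (a + 1) (hd3 a) m v' hmT hv' ?_ ?_
    · rw [hma, Fin.lt_def, FG_succ_val _ (hv a)]
      exact hlt
    · intro x hx hx2
      have := hd2 a x hx hx2
      subst this
      simp [hm, hd4, hd5]
  exact h1.trans h2

/-- reversal of the classes in `neg` -/
def FG_rho {T : ℕ} (neg : Fin 3 → Bool) (w : Fin 3 → Fin T) : Fin 3 → Fin T :=
  fun a => if neg a then Fin.rev (w a) else w a

theorem FG_rho_inj {T : ℕ} (neg : Fin 3 → Bool) : Function.Injective (FG_rho (T := T) neg) := by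
  intro w w' h
  funext a
  have h1 := congrFun h a
  simp only [FG_rho] at h1
  split_ifs at h1 with h2
  · exact Fin.rev_injective h1
  · exact h1

theorem FG_hom_rho {T : ℕ} {α : Type} [LinearOrder α] {g : (Fin 3 → Fin T) → α}
    {c : (Fin 3 → Bool) → (Fin 3 → Bool) → Bool} (hg : FG_hom g c) (neg : Fin 3 → Bool) :
    FG_hom (fun w => g (FG_rho neg w))
      (fun b b' => c (fun a => xor (b a) (neg a)) (fun a => xor (b' a) (neg a))) := by
  intro v v' hv b b'
  have hlt : ∀ a, (fun a => if neg a then Fin.rev (v' a) else v a) a <
      (fun a => if neg a then Fin.rev (v a) else v' a) a := by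
    intro a
    by_cases h : neg a = true
    · simp only [h, if_true]
      exact Fin.rev_lt_rev.2 (hv a)
    · simp only [h]
      exact hv a
  have hmix : ∀ b : Fin 3 → Bool, FG_rho neg (FG_mix v v' b) =
      FG_mix (fun a => if neg a then Fin.rev (v' a) else v a)
        (fun a => if neg a then Fin.rev (v a) else v' a) (fun a => xor (b a) (neg a)) := by
    intro b
    funext a
    simp only [FG_rho, FG_mix]
    cases hb : b a <;> cases hn : neg a <;> simp
  simp only [hmix]
  exact hg _ _ hlt _ _

/-- Every injective function from a large three-dimensional array to a linear order has a major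
class on a subarray.

PROOF. Apply `ramsey_pairs` (with `2 * t + 4` in place of `t`, or so) to the colouring which records
for `v < v'` (all coordinates) the results of the comparisons of `f` at the eight vectors with
coordinates in `{v a, v' a}` (e.g. colour = the function
`(Fin 3 → Bool) → (Fin 3 → Bool) → Bool` with value `decide (f (mix b) < f (mix b'))`).
On the homogeneous subarray (indices such that everything below has room; you may drop the first
and the last index of each class):
(1) for each class `a` there is a sign: `f` is strictly increasing in `v a` for all values of the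
other coordinates, or strictly decreasing (always). Reversing the order of the index set of a class
(as a bookkeeping device, or by considering signs `s a`), one may think that `f` is increasing in
each coordinate.
(2) for two classes `a ≠ b`: comparing `f` at the vector with `(v' a, v b)` and at the vector with
`(v a, v' b)` (third coordinate equal, `v a < v' a`, `v b < v' b`) always gives the same answer:
write `a → b` if the first is larger. There is no cycle `a → b → c → a`:
`f(i',j,k) > f(i,j',k) > f(i,j,k') > f(i',j,k)`. So there is a top class `a` with `a → b`, `a → c`.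
(3) then `f(i',j,k) > f(i'',j',k)` for `i'' < i'` and all `j, j'` (for `j < j'` by `a → b`; for
`j ≥ j'` use monotonicity in the second index first), and in the same way
`f(i'',j',k) > f(i,j',k')` for `i < i''` and all `k, k'`. Hence `f(i',j,k) > f(i,j',k')` whenever
`i < i'` are not consecutive. Take every second index of class `a`.
In the original order this says `Maj a` (the first or the second alternative, according to the sign
of class `a`). -/
theorem fg (t : ℕ) : ∃ N : ℕ, ∀ (α : Type) [LinearOrder α] (f : (Fin 3 → Fin N) → α),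
    Function.Injective f → ∃ (e : Emb t N) (a : Fin 3), Maj a (fun v => f (e.ap v)) := by
  classical
  obtain ⟨N, hN⟩ := ramsey_pairs ((Fin 3 → Bool) → (Fin 3 → Bool) → Bool) (2 * t + 4)
  refine ⟨N, ?_⟩
  intro α _ f hf
  obtain ⟨e, c, hc⟩ := hN (fun v v' b b' => decide (f (FG_mix v v' b) < f (FG_mix v v' b')))
  set g : (Fin 3 → Fin (2 * t + 4)) → α := fun v => f (e.ap v) with hgdef
  have hginj : Function.Injective g := fun v v' h => e.ap_injective (hf h)
  have hmixe : ∀ (v v' : Fin 3 → Fin (2 * t + 4)) (b : Fin 3 → Bool),
      e.ap (FG_mix v v' b) = FG_mix (e.ap v) (e.ap v') b := by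
    intro v v' b
    funext a
    simp only [FG_mix, Emb.ap]
    split_ifs <;> rfl
  have hg : FG_hom g c := by
    intro v v' hv b b'
    have h1 := congrFun (congrFun (hc v v' hv) b) b'
    simp only [hgdef, hmixe]
    rw [← h1]
    simp
  -- the signs
  set neg : Fin 3 → Bool := fun a => !(c (fun _ => false) (FG_one a)) with hneg
  set g' : (Fin 3 → Fin (2 * t + 4)) → α := fun w => g (FG_rho neg w) with hg'def
  have hg'inj : Function.Injective g' := fun w w' h => FG_rho_inj neg (hginj h)
  have hg' := FG_hom_rho hg neg
  have hc' : ∀ a, (fun b b' => c (fun a => xor (b a) (neg a)) (fun a => xor (b' a) (neg a)))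
      (fun _ => false) (FG_one a) = true := by
    intro a
    set u : Fin 3 → Fin (2 * t + 4) := fun _ => ⟨1, by omega⟩ with hu
    set u' : Fin 3 → Fin (2 * t + 4) := fun x => if x = a then ⟨2, by omega⟩ else ⟨1, by omega⟩
      with hu'
    rw [← FG_coord hg' a u u' (by simp [hu, hu', Fin.lt_def])
      (by
        intro b hb
        simp only [hu, hu', if_neg hb]
        exact ⟨trivial, by omega⟩)]
    have hoth : ∀ b, b ≠ a → FG_rho neg u b = FG_rho neg u' b ∧
        ((FG_rho neg u b : Fin (2 * t + 4)) : ℕ) + 1 < 2 * t + 4 := by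
      intro b hb
      simp only [FG_rho, hu, hu', if_neg hb]
      refine ⟨trivial, ?_⟩
      split_ifs
      · rw [Fin.val_rev]
        simp only
        omega
      · simp only
        omega
    by_cases hna : neg a = true
    · have hca : ¬ (c (fun _ => false) (FG_one a) = true) := by
        simp only [hneg] at hna
        simpa using hna
      have hlt : FG_rho neg u' a < FG_rho neg u a := by
        simp only [FG_rho, hna, if_true, hu, hu', Fin.rev_lt_rev, Fin.lt_def, Fin.val_rev]
        omega
      have h1 := (FG_coord hg a (FG_rho neg u') (FG_rho neg u) hlt (by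
        intro b hb
        obtain ⟨h2, h3⟩ := hoth b hb
        exact ⟨h2.symm, by rw [← h2]; exact h3⟩)).not.2 hca
      have h2 : g (FG_rho neg u) ≠ g (FG_rho neg u') := by
        intro h
        exact absurd (congrFun (hginj h) a) (ne_of_gt hlt)
      exact lt_of_le_of_ne (not_lt.1 h1) h2
    · have hca : c (fun _ => false) (FG_one a) = true := by
        simp only [hneg] at hna
        simpa using hna
      have hlt : FG_rho neg u a < FG_rho neg u' a := by
        simp only [FG_rho, hu, hu', if_true, Fin.lt_def]
        rw [if_neg hna, if_neg hna]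
        simp
      exact (FG_coord hg a (FG_rho neg u) (FG_rho neg u') hlt hoth).2 hca
  obtain ⟨a, ha⟩ := FG_main hg'inj (by omega) hg' hc'
  -- the subarray
  set pos : Fin t → Fin (2 * t + 4) := fun i => ⟨2 * (i : ℕ), by omega⟩ with hpos
  have hposT : ∀ i, (pos i : ℕ) + 1 < 2 * t + 4 := by
    intro i
    simp only [hpos]
    omega
  have hposlt : ∀ i i' : Fin t, i < i' → (pos i : ℕ) + 1 < pos i' := by
    intro i i' h
    rw [Fin.lt_def] at h
    simp only [hpos]
    omega
  have hposm : ∀ i i' : Fin t, i < i' → pos i < pos i' := by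
    intro i i' h
    have := hposlt i i' h
    rw [Fin.lt_def]
    omega
  set φ : Emb t (2 * t + 4) := fun b =>
    OrderEmbedding.ofStrictMono (fun i => if neg b then Fin.rev (pos (Fin.rev i)) else pos i) (by
      intro i i' h
      by_cases hn : neg b = true
      · simp only [hn, if_true]
        exact Fin.rev_lt_rev.2 (hposm _ _ (Fin.rev_lt_rev.2 h))
      · simp only [hn]
        exact hposm _ _ h) with hφ
  set W : (Fin 3 → Fin t) → (Fin 3 → Fin (2 * t + 4)) := fun v b =>
    pos (if neg b then Fin.rev (v b) else v b) with hW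
  have hφW : ∀ v, φ.ap v = FG_rho neg (W v) := by
    intro v
    funext b
    simp only [Emb.ap, hφ, FG_rho, hW, OrderEmbedding.coe_ofStrictMono]
    by_cases hn : neg b = true
    · simp [hn]
    · simp [hn]
  have hval : ∀ v, f ((φ.comp e).ap v) = g' (W v) := by
    intro v
    rw [Emb.comp_ap, hφW]
  have hWT : ∀ v b, ((W v b : Fin (2 * t + 4)) : ℕ) + 1 < 2 * t + 4 := fun v b => hposT _
  refine ⟨φ.comp e, a, ?_⟩
  by_cases hn : neg a = true
  · right
    intro v v' hv
    simp only [hval]
    refine ha (W v') (W v) (hWT v') (hWT v) ?_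
    simp only [hW, hn, if_true]
    exact hposlt _ _ (Fin.rev_lt_rev.2 hv)
  · left
    intro v v' hv
    simp only [hval]
    refine ha (W v) (W v') (hWT v) (hWT v') ?_
    simp only [hW]
    rw [if_neg hn, if_neg hn]
    exact hposlt _ _ hv

end U78
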