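import Mathlib
import Pool.Agent.W_78bee8_h33.FG

/-!
# Major classes: versions with ties and for two classes
-/

namespace U78


/-- Version for a real function with ties. PROOF: apply `fg` to the injective function
`v ↦ (f v, v)` into the lexicographic product `ℝ ×ₗ (Fin 3 → Fin N)` with a linear order on the
second factor (e.g. transport along `Fintype.equivFin`, i.e. use `ℝ ×ₗ Fin (card)`). -/
theorem fg_weak (t : ℕ) : ∃ N : ℕ, ∀ f : (Fin 3 → Fin N) → ℝ, ∃ (e : Emb t N) (a : Fin 3),
    (∀ v v', v a < v' a → f (e.ap v) ≤ f (e.ap v')) ∨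
      (∀ v v', v a < v' a → f (e.ap v') ≤ f (e.ap v)) := by
  obtain ⟨N, hN⟩ := fg t
  refine ⟨N, fun f => ?_⟩
  obtain ⟨e, a, h⟩ := hN (ℝ ×ₗ Fin (Fintype.card (Fin 3 → Fin N)))
    (fun v => toLex (f v, Fintype.equivFin _ v)) (by
      intro v v' h
      have h2 := congrArg (fun x => (ofLex x).2) h
      exact (Fintype.equivFin _).injective h2)
  refine ⟨e, a, ?_⟩
  have key : ∀ x y : (Fin 3 → Fin N),
      (toLex (f x, Fintype.equivFin _ x) : ℝ ×ₗ Fin (Fintype.card (Fin 3 → Fin N))) <
        toLex (f y, Fintype.equivFin _ y) → f x ≤ f y := by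
    intro x y hxy
    rw [Prod.Lex.toLex_lt_toLex] at hxy
    rcases hxy with h1 | h1
    · exact h1.le
    · exact h1.1.le
  rcases h with h | h
  · left
    intro v v' hv
    exact key _ _ (h v v' hv)
  · right
    intro v v' hv
    exact key _ _ (h v v' hv)

/-- Two-dimensional version. PROOF: apply `fg` to `v ↦ (f (v 0) (v 1), v 2)` in `α ×ₗ Fin N`, with
`max t 2` in place of `t`; the class `2` cannot be major, because for `v 2 < v' 2` this would give
`f (v 0) (v 1) ≤ f (v' 0) (v' 1)` for all index pairs (or always `≥`), so `f` would be constant on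
the subarray, contradicting injectivity. -/
theorem fg_two (t : ℕ) : ∃ N : ℕ, ∀ (α : Type) [LinearOrder α] (f : Fin N → Fin N → α),
    (∀ i j i' j', f i j = f i' j' → i = i' ∧ j = j') →
    ∃ e e' : Fin t ↪o Fin N,
      ((∀ i i' j j', i < i' → f (e i) (e' j) < f (e i') (e' j')) ∨
        (∀ i i' j j', i < i' → f (e i') (e' j') < f (e i) (e' j))) ∨
      ((∀ i i' j j', j < j' → f (e i) (e' j) < f (e i') (e' j')) ∨
        (∀ i i' j j', j < j' → f (e i') (e' j') < f (e i) (e' j))) := by
  obtain ⟨N, hN⟩ := fg (max t 2)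
  refine ⟨N, fun α _ f hf => ?_⟩
  obtain ⟨e, a, h⟩ := hN (α ×ₗ Fin N) (fun v => toLex (f (v 0) (v 1), v 2)) (by
      intro v v' h
      have h1 := congrArg (fun x => (ofLex x).1) h
      have h2 := congrArg (fun x => (ofLex x).2) h
      have h3 := hf _ _ _ _ h1
      funext k
      fin_cases k
      · exact h3.1
      · exact h3.2
      · exact h2)
  have ht2 : 2 ≤ max t 2 := le_max_right _ _
  let z0 : Fin (max t 2) := ⟨0, by omega⟩
  let z1 : Fin (max t 2) := ⟨1, by omega⟩
  have hz : z0 < z1 := by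
    rw [Fin.lt_def]
    exact Nat.zero_lt_one
  let c : Fin t ↪o Fin (max t 2) := Fin.castLEOrderEmb (le_max_left _ _)
  refine ⟨c.trans (e 0), c.trans (e 1), ?_⟩
  have ap0 : ∀ v : Fin 3 → Fin (max t 2), e.ap v 0 = e 0 (v 0) := fun _ => rfl
  have ap1 : ∀ v : Fin 3 → Fin (max t 2), e.ap v 1 = e 1 (v 1) := fun _ => rfl
  have ap2 : ∀ v : Fin 3 → Fin (max t 2), e.ap v 2 = e 2 (v 2) := fun _ => rfl
  -- strict comparison when the last coordinates agree
  have strict : ∀ (i i' j j' : Fin (max t 2)),
      (toLex (f (e 0 i) (e 1 j), e 2 z0) : α ×ₗ Fin N) < toLex (f (e 0 i') (e 1 j'), e 2 z0) →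
        f (e 0 i) (e 1 j) < f (e 0 i') (e 1 j') := by
    intro i i' j j' hlt
    rw [Prod.Lex.toLex_lt_toLex] at hlt
    rcases hlt with h1 | h1
    · exact h1
    · exact absurd h1.2 (lt_irrefl _)
  have weak : ∀ (i i' j j' k k' : Fin (max t 2)),
      (toLex (f (e 0 i) (e 1 j), e 2 k) : α ×ₗ Fin N) < toLex (f (e 0 i') (e 1 j'), e 2 k') →
        f (e 0 i) (e 1 j) ≤ f (e 0 i') (e 1 j') := by
    intro i i' j j' k k' hlt
    rw [Prod.Lex.toLex_lt_toLex] at hlt
    rcases hlt with h1 | h1
    · exact h1.le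
    · exact h1.1.le
  have clash : (∀ (i i' j j' : Fin (max t 2)), f (e 0 i) (e 1 j) ≤ f (e 0 i') (e 1 j')) → False := by
    intro hle
    have heq : f (e 0 z0) (e 1 z0) = f (e 0 z1) (e 1 z0) := le_antisymm (hle _ _ _ _) (hle _ _ _ _)
    have := (hf _ _ _ _ heq).1
    exact absurd ((e 0).injective this) hz.ne
  have hc : ∀ {i i' : Fin t}, i < i' → c i < c i' := fun hii => c.strictMono hii
  fin_cases a
  · left
    rcases h with h | h
    · left
      intro i i' j j' hii
      have := h ![c i, c j, z0] ![c i', c j', z0] (hc hii)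
      exact strict (c i) (c i') (c j) (c j') this
    · right
      intro i i' j j' hii
      have := h ![c i, c j, z0] ![c i', c j', z0] (hc hii)
      exact strict (c i') (c i) (c j') (c j) this
  · right
    rcases h with h | h
    · left
      intro i i' j j' hii
      have := h ![c i, c j, z0] ![c i', c j', z0] (hc hii)
      exact strict (c i) (c i') (c j) (c j') this
    · right
      intro i i' j j' hii
      have := h ![c i, c j, z0] ![c i', c j', z0] (hc hii)
      exact strict (c i') (c i) (c j') (c j) this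
  · exfalso
    rcases h with h | h
    · exact clash (fun i i' j j' => weak i i' j j' z0 z1 (h ![i, j, z0] ![i', j', z1] hz))
    · exact clash (fun i i' j j' => weak i i' j j' z1 z0 (h ![i', j', z0] ![i, j, z1] hz))

end U78
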