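import Mathlib
import Pool.Agent.W_78bee8_h33.Defs

/-!
# Finite intersections of three frontiers
-/

namespace U78

open Set Pointwise

/-- If the intersection of three frontiers is finite, its cardinality is bounded uniformly.
PROOF. `M` from `hF.proj 3`, bound `M ^ 3` (or `(M+1)^3`). For a coordinate functional `l` the set
`X = {c | ∃ w ∈ Reg .. , l w = c}` (`σ = 2` for the three bodies, `ε` large: the finite set is
bounded, no plane) is finite; every `c ∈ X` is in `E` (otherwise a small interval
`[c, c']` does not meet `E` and would be contained in `X`). So each coordinate of a point of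
the intersection is one of at most `M` numbers. -/
theorem fin_bound (F : Set (Set V)) (hF : TameFam F) : ∃ N : ℕ, ∀ (A : Fin 3 → Set V) (B : Set V),
    (∀ i, A i ∈ F) → B ∈ F →
      (frontier (A 0 + B) ∩ frontier (A 1 + B) ∩ frontier (A 2 + B)).Finite →
      (frontier (A 0 + B) ∩ frontier (A 1 + B) ∩ frontier (A 2 + B)).ncard ≤ N := by
  obtain ⟨M, hM⟩ := hF.proj 3
  refine ⟨M ^ 3, fun A B hA hB hfin => ?_⟩
  set S : Set V := frontier (A 0 + B) ∩ frontier (A 1 + B) ∩ frontier (A 2 + B) with hS
  obtain ⟨ε, hε⟩ := hfin.isBounded.exists_norm_le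
  have hreg : Reg A B (fun _ => 2) 0 ε 0 0 = S := by
    ext w
    constructor
    · rintro ⟨h1, -, -⟩
      exact ⟨⟨(h1 0).2.2 rfl, (h1 1).2.2 rfl⟩, (h1 2).2.2 rfl⟩
    · intro hw
      have hn := hε w hw
      obtain ⟨⟨h0, h1⟩, h2⟩ := hw
      refine ⟨?_, by simpa using hn, by simp⟩
      intro i
      have h20 : ¬ ((2 : Fin 4) = 0) := by decide
      have h21 : ¬ ((2 : Fin 4) = 1) := by decide
      refine ⟨fun h => absurd h h20, fun h => absurd h h21, fun _ => ?_⟩
      fin_cases i
      · exact h0
      · exact h1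
      · exact h2
  choose E hE1 hE2 using fun a : Fin 3 =>
    hM A B hA hB (fun _ => 2) 0 ε 0 0 (LinearMap.proj a : V →ₗ[ℝ] ℝ)
  have key : ∀ a : Fin 3, ∀ w ∈ S, w a ∈ E a := by
    intro a w hw
    by_contra hne
    -- a small interval to the right of `w a`
    have hopen : IsOpen (((E a : Finset ℝ) : Set ℝ)ᶜ) := (E a).finite_toSet.isClosed.isOpen_compl
    have hmem : w a ∈ (((E a : Finset ℝ) : Set ℝ)ᶜ) := by simpa using hne
    obtain ⟨δ, hδ, hball⟩ := Metric.isOpen_iff.1 hopen _ hmem
    have hsub : Icc (w a) (w a + δ / 2) ⊆ (fun v : V => v a) '' S := by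
      intro c' hc'
      have hiff := hE2 a (w a) c' hc'.1 (by
        intro z hz hzI
        have : z ∈ (((E a : Finset ℝ) : Set ℝ)ᶜ) := hball (by
          rw [Metric.mem_ball, Real.dist_eq, abs_lt]
          constructor
          · linarith [hzI.1]
          · linarith [hzI.2, hc'.2])
        exact this (by simpa using hz))
      rw [hreg] at hiff
      obtain ⟨w', hw', h'⟩ := hiff.1 ⟨w, hw, rfl⟩
      exact ⟨w', hw', h'⟩
    have hfin2 : (Icc (w a) (w a + δ / 2)).Finite := (hfin.image _).subset hsub
    exact (Set.Icc_infinite (by linarith)) hfin2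
  have hsub : S ⊆ ((Fintype.piFinset E : Finset V) : Set V) := by
    intro w hw
    simp only [Finset.mem_coe, Fintype.mem_piFinset]
    exact fun a => key a w hw
  calc S.ncard ≤ ((Fintype.piFinset E : Finset V) : Set V).ncard :=
        Set.ncard_le_ncard hsub (Finset.finite_toSet _)
    _ = (Fintype.piFinset E).card := Set.ncard_coe_finset _
    _ = ∏ a, (E a).card := Fintype.card_piFinset _
    _ ≤ ∏ _a : Fin 3, M := Finset.prod_le_prod (fun _ _ => Nat.zero_le _) (fun a _ => hE1 a)
    _ = M ^ 3 := by simp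

end U78
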