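import Mathlib
import Pool.Agent.W_78bee8_h33.Defs

/-!
# Functionals with kernel close to two given vectors
-/

namespace U78

open Set

/-- a functional adapted to the vectors `e₁`, `e₂`: its kernel is spanned by two vectors close to
`e₁`, `e₂` -/
def Adapted (l : V →ₗ[ℝ] ℝ) (e₁ e₂ : V) : Prop :=
  ∃ v₁ v₂ : V, ‖v₁ - e₁‖ ≤ 1 / 48 ∧ ‖v₂ - e₂‖ ≤ 1 / 48 ∧ l v₁ = 0 ∧ l v₂ = 0 ∧
    LinearIndependent ℝ ![v₁, v₂] ∧ l ≠ 0

/-- the list `l` of functionals is `c`-generic: no vector is nearly annihilated by more than two -/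
def Generic {N : ℕ} (l : Fin N → V →ₗ[ℝ] ℝ) (c : ℝ) : Prop :=
  ∀ x : V, (Finset.univ.filter (fun q => |l q x| < c * ‖x‖)).card ≤ 2

theorem Func_near (S : Submodule ℝ V) (hS : S ≠ ⊤) (e : V) {δ : ℝ} (hδ : 0 < δ) :
    ∃ p, p ∉ S ∧ ‖p - e‖ < δ := by
  have h1 : interior (S : Set V) = ∅ := by
    by_contra h
    exact hS (S.eq_top_of_nonempty_interior' (Set.nonempty_iff_ne_empty.2 h))
  have h2 : Dense (S : Set V)ᶜ := interior_eq_empty_iff_dense_compl.1 h1
  obtain ⟨p, hp, hd⟩ := h2.exists_dist_lt e hδ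
  refine ⟨p, hp, ?_⟩
  rw [← dist_eq_norm, dist_comm]
  exact hd

theorem Func_proper {n : ℕ} (hn : n < 3) (v : Fin n → V) :
    Submodule.span ℝ (Set.range v) ≠ ⊤ := by
  intro h
  have h1 : (Set.range v).finrank ℝ ≤ Fintype.card (Fin n) := finrank_range_le_card v
  have h2 : (Set.range v).finrank ℝ = 3 := by
    show Module.finrank ℝ (Submodule.span ℝ (Set.range v)) = 3
    rw [h, finrank_top]
    simp [V]
  rw [Fintype.card_fin] at h1
  omega

theorem Func_vdm {s₁ s₂ s₃ x y z : ℝ} (h12 : s₁ ≠ s₂) (h13 : s₁ ≠ s₃) (h23 : s₂ ≠ s₃)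
    (h1 : z + s₁ * x + s₁ ^ 2 * y = 0) (h2 : z + s₂ * x + s₂ ^ 2 * y = 0)
    (h3 : z + s₃ * x + s₃ ^ 2 * y = 0) : x = 0 ∧ y = 0 ∧ z = 0 := by
  have e1 : (s₁ - s₂) * (x + (s₁ + s₂) * y) = 0 := by linear_combination h1 - h2
  have e2 : (s₁ - s₃) * (x + (s₁ + s₃) * y) = 0 := by linear_combination h1 - h3
  have f1 : x + (s₁ + s₂) * y = 0 := (mul_eq_zero.1 e1).resolve_left (sub_ne_zero.2 h12)
  have f2 : x + (s₁ + s₃) * y = 0 := (mul_eq_zero.1 e2).resolve_left (sub_ne_zero.2 h13)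
  have e3 : (s₂ - s₃) * y = 0 := by linear_combination f1 - f2
  have hy : y = 0 := (mul_eq_zero.1 e3).resolve_left (sub_ne_zero.2 h23)
  have hx : x = 0 := by
    rw [hy] at f1
    linarith
  refine ⟨hx, hy, ?_⟩
  rw [hx, hy] at h1
  linarith

theorem Func_triple (l₁ l₂ l₃ : V →ₗ[ℝ] ℝ) (h : ∀ x, l₁ x = 0 → l₂ x = 0 → l₃ x = 0 → x = 0) :
    ∃ K : ℝ, 0 ≤ K ∧ ∀ x (c : ℝ), |l₁ x| < c → |l₂ x| < c → |l₃ x| < c → ‖x‖ ≤ K * c := by
  let f : V →ₗ[ℝ] (Fin 3 → ℝ) := LinearMap.pi ![l₁, l₂, l₃]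
  have hker : LinearMap.ker f = ⊥ := by
    rw [LinearMap.ker_eq_bot']
    intro x hx
    have h0 := congrFun hx 0
    have h1 := congrFun hx 1
    have h2 := congrFun hx 2
    exact h x h0 h1 h2
  obtain ⟨K, -, hK⟩ := LinearMap.exists_antilipschitzWith f hker
  refine ⟨K, K.2, fun x c h1 h2 h3 => ?_⟩
  have h4 := hK.le_mul_dist x 0
  rw [dist_zero_right, map_zero, dist_zero_right] at h4
  refine h4.trans (mul_le_mul_of_nonneg_left ?_ K.2)
  rw [pi_norm_le_iff_of_nonneg ((abs_nonneg _).trans h1.le)]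
  intro i
  fin_cases i
  · exact h1.le
  · exact h2.le
  · exact h3.le

/-- PROOF. Choose `p₁`, `p₂` linearly independent with `‖p_i - e_i‖ < 1/96` and complete them to a basis
`p₁, p₂, p₃` with dual basis `p₁*, p₂*, p₃*`. For `q : Fin N` let `s_q = κ (q + 1)` with a small
`κ > 0` and `l q = p₃* + s p₁* + s² p₂*`. The kernel contains `v₁ = p₁ - s p₃`, `v₂ = p₂ - s² p₃`, close to
`e₁`, `e₂` for small `κ`, linearly independent. Any three of the `l q` are linearly independent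
(Vandermonde), i.e. a vector annihilated by three of them is `0`. By compactness of the unit sphere
there is `c > 0` such that for every unit vector `x` at most two of the numbers `|l q x|` are `< c`:
for every triple `q₁ < q₂ < q₃` the continuous function `max |l q_i x|` has a positive minimum on the unit
sphere; take `c` smaller than all of them (finitely many triples). `L` from the continuity of the
`l q`. -/
theorem functionals (N : ℕ) (e₁ e₂ : V) : ∃ (l : Fin N → V →ₗ[ℝ] ℝ) (c L : ℝ), 0 < c ∧ 0 ≤ L ∧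
    (∀ q, Adapted (l q) e₁ e₂) ∧ (∀ q x, |l q x| ≤ L * ‖x‖) ∧ Generic l c := by
  classical
  obtain ⟨p₁, hp₁, hd₁⟩ := Func_near (Submodule.span ℝ (Set.range (![] : Fin 0 → V)))
    (Func_proper (by norm_num) _) e₁ (δ := 1 / 96) (by norm_num)
  obtain ⟨p₂, hp₂, hd₂⟩ := Func_near (Submodule.span ℝ (Set.range (![p₁] : Fin 1 → V)))
    (Func_proper (by norm_num) _) e₂ (δ := 1 / 96) (by norm_num)
  obtain ⟨p₃, hp₃, -⟩ := Func_near (Submodule.span ℝ (Set.range (![p₂, p₁] : Fin 2 → V)))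
    (Func_proper (by norm_num) _) 0 (δ := 1) (by norm_num)
  have hli : LinearIndependent ℝ (![p₃, p₂, p₁] : Fin 3 → V) := by
    have h0 : LinearIndependent ℝ (![] : Fin 0 → V) := linearIndependent_empty_type
    have h1 : LinearIndependent ℝ (![p₁] : Fin 1 → V) := linearIndependent_fin_cons.2 ⟨h0, hp₁⟩
    have h2 : LinearIndependent ℝ (![p₂, p₁] : Fin 2 → V) :=
      linearIndependent_fin_cons.2 ⟨h1, hp₂⟩
    exact linearIndependent_fin_cons.2 ⟨h2, hp₃⟩
  let b := basisOfLinearIndependentOfCardEqFinrank hli (by simp [V])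
  have hb : ∀ i, b i = (![p₃, p₂, p₁] : Fin 3 → V) i := fun i => by
    simp only [b, coe_basisOfLinearIndependentOfCardEqFinrank]
  have hc : ∀ i j, b.coord i (b j) = if j = i then 1 else 0 := by
    intro i j
    rw [Module.Basis.coord_apply, Module.Basis.repr_self_apply]
  have c03 : b.coord 0 p₃ = 1 := by simpa [hb] using hc 0 0
  have c02 : b.coord 0 p₂ = 0 := by simpa [hb] using hc 0 1
  have c01 : b.coord 0 p₁ = 0 := by simpa [hb] using hc 0 2
  have c13 : b.coord 1 p₃ = 0 := by simpa [hb] using hc 1 0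
  have c12 : b.coord 1 p₂ = 1 := by simpa [hb] using hc 1 1
  have c11 : b.coord 1 p₁ = 0 := by simpa [hb] using hc 1 2
  have c23 : b.coord 2 p₃ = 0 := by simpa [hb] using hc 2 0
  have c22 : b.coord 2 p₂ = 0 := by simpa [hb] using hc 2 1
  have c21 : b.coord 2 p₁ = 1 := by simpa [hb] using hc 2 2
  set κ : ℝ := 1 / (96 * (N + 1) * (‖p₃‖ + 1)) with hκ
  have hκ0 : 0 < κ := by positivity
  set s : Fin N → ℝ := fun q => κ * ((q : ℕ) + 1) with hs
  have hs0 : ∀ q, 0 < s q := fun q => by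
    simp only [hs]
    positivity
  have hs1 : ∀ q, s q * (‖p₃‖ + 1) ≤ 1 / 96 := by
    intro q
    have h1 : ((q : ℕ) : ℝ) + 1 ≤ N + 1 := by
      have := q.2.le
      have h2 : ((q : ℕ) : ℝ) ≤ N := by exact_mod_cast this
      linarith
    have h2 : s q ≤ κ * (N + 1) := mul_le_mul_of_nonneg_left h1 hκ0.le
    have h3 : κ * (N + 1) * (‖p₃‖ + 1) = 1 / 96 := by
      rw [hκ]
      have : (0 : ℝ) < N + 1 := by positivity
      have : (0 : ℝ) < ‖p₃‖ + 1 := by positivity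
      field_simp
    calc s q * (‖p₃‖ + 1) ≤ κ * (N + 1) * (‖p₃‖ + 1) :=
          mul_le_mul_of_nonneg_right h2 (by positivity)
      _ = 1 / 96 := h3
  have hsle : ∀ q, s q ≤ 1 ∧ s q * ‖p₃‖ ≤ 1 / 96 := by
    intro q
    have h1 := hs1 q
    have h2 := hs0 q
    have h3 : 0 ≤ ‖p₃‖ := norm_nonneg _
    have h4 : 0 ≤ s q * ‖p₃‖ := by positivity
    constructor <;> nlinarith
  have hsinj : ∀ q q', q ≠ q' → s q ≠ s q' := by
    intro q q' hne h
    apply hne
    have h1 : ((q : ℕ) : ℝ) + 1 = (q' : ℕ) + 1 := mul_left_cancel₀ hκ0.ne' h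
    have h2 : ((q : ℕ) : ℝ) = (q' : ℕ) := by linarith
    exact Fin.ext (by exact_mod_cast h2)
  set l : Fin N → V →ₗ[ℝ] ℝ := fun q => b.coord 0 + s q • b.coord 2 + (s q) ^ 2 • b.coord 1
    with hl
  have hlx : ∀ q x, l q x = b.coord 0 x + s q * b.coord 2 x + (s q) ^ 2 * b.coord 1 x := by
    intro q x
    simp only [hl, LinearMap.add_apply, LinearMap.smul_apply, smul_eq_mul]
  have hzero : ∀ x, b.coord 0 x = 0 → b.coord 1 x = 0 → b.coord 2 x = 0 → x = 0 := by
    intro x h0 h1 h2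
    rw [← b.forall_coord_eq_zero_iff]
    intro i
    fin_cases i
    · exact h0
    · exact h1
    · exact h2
  have key : ∀ T : Fin N × Fin N × Fin N, ∃ K : ℝ, 0 ≤ K ∧
      (T.1 ≠ T.2.1 → T.1 ≠ T.2.2 → T.2.1 ≠ T.2.2 → ∀ x (c : ℝ), |l T.1 x| < c →
        |l T.2.1 x| < c → |l T.2.2 x| < c → ‖x‖ ≤ K * c) := by
    intro T
    by_cases hT : T.1 ≠ T.2.1 ∧ T.1 ≠ T.2.2 ∧ T.2.1 ≠ T.2.2
    · obtain ⟨K, hK0, hK⟩ := Func_triple (l T.1) (l T.2.1) (l T.2.2) (by
        intro x h1 h2 h3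
        rw [hlx] at h1 h2 h3
        obtain ⟨hx, hy, hz⟩ := Func_vdm (hsinj _ _ hT.1) (hsinj _ _ hT.2.1) (hsinj _ _ hT.2.2)
          h1 h2 h3
        exact hzero x hz hy hx)
      exact ⟨K, hK0, fun _ _ _ => hK⟩
    · refine ⟨0, le_rfl, fun h1 h2 h3 => absurd ⟨h1, h2, h3⟩ hT⟩
  choose K hK0 hK using key
  set Kt : ℝ := ∑ T, K T + 1 with hKt
  have hsum : 0 ≤ ∑ T, K T := Finset.sum_nonneg fun T _ => hK0 T
  have hKt0 : 0 < Kt := by
    rw [hKt]
    linarith
  have hKle : ∀ T, K T < Kt := by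
    intro T
    have := Finset.single_le_sum (f := K) (fun T _ => hK0 T) (Finset.mem_univ T)
    rw [hKt]
    linarith
  refine ⟨l, 1 / Kt, ∑ q, ‖LinearMap.toContinuousLinearMap (l q)‖, by positivity,
    Finset.sum_nonneg fun q _ => norm_nonneg _, ?_, ?_, ?_⟩
  · intro q
    obtain ⟨hq1, hq2⟩ := hsle q
    have hq0 := hs0 q
    have hp0 : 0 ≤ ‖p₃‖ := norm_nonneg _
    refine ⟨p₁ - s q • p₃, p₂ - (s q) ^ 2 • p₃, ?_, ?_, ?_, ?_, ?_, ?_⟩
    · have h1 : p₁ - s q • p₃ - e₁ = (p₁ - e₁) - s q • p₃ := by abel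
      rw [h1]
      refine (norm_sub_le _ _).trans ?_
      rw [norm_smul, Real.norm_eq_abs, abs_of_pos hq0]
      linarith
    · have h1 : p₂ - (s q) ^ 2 • p₃ - e₂ = (p₂ - e₂) - (s q) ^ 2 • p₃ := by abel
      rw [h1]
      refine (norm_sub_le _ _).trans ?_
      rw [norm_smul, Real.norm_eq_abs, abs_of_pos (by positivity)]
      have h2 : (s q) ^ 2 * ‖p₃‖ ≤ s q * ‖p₃‖ := by
        refine mul_le_mul_of_nonneg_right ?_ hp0
        nlinarith
      linarith
    · rw [hlx]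
      simp only [map_sub, map_smul, smul_eq_mul, c03, c01, c13, c11, c23, c21]
      ring
    · rw [hlx]
      simp only [map_sub, map_smul, smul_eq_mul, c03, c02, c13, c12, c23, c22]
      ring
    · rw [LinearIndependent.pair_iff]
      intro α β h
      have h2 := congrArg (b.coord 2) h
      have h1 := congrArg (b.coord 1) h
      simp only [map_add, map_sub, map_smul, smul_eq_mul, map_zero, c23, c21, c22, c13, c12,
        c11] at h1 h2
      constructor
      · linarith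
      · linarith
    · intro h
      have h1 := hlx q p₃
      rw [h, c03, c23, c13] at h1
      simp at h1
  · intro q x
    have h1 := (LinearMap.toContinuousLinearMap (l q)).le_opNorm x
    have h2 : ‖LinearMap.toContinuousLinearMap (l q)‖ ≤
        ∑ q, ‖LinearMap.toContinuousLinearMap (l q)‖ :=
      Finset.single_le_sum (f := fun q => ‖LinearMap.toContinuousLinearMap (l q)‖)
        (fun q _ => norm_nonneg _) (Finset.mem_univ q)
    calc |l q x| = ‖LinearMap.toContinuousLinearMap (l q) x‖ := rfl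
      _ ≤ ‖LinearMap.toContinuousLinearMap (l q)‖ * ‖x‖ := h1
      _ ≤ _ := mul_le_mul_of_nonneg_right h2 (norm_nonneg _)
  · intro x
    by_contra hcon
    push Not at hcon
    obtain ⟨q₁, h1, q₂, h2, q₃, h3, h12, h13, h23⟩ := Finset.two_lt_card.1 hcon
    rw [Finset.mem_filter] at h1 h2 h3
    have h4 := hK (q₁, q₂, q₃) h12 h13 h23 x _ h1.2 h2.2 h3.2
    have h5 : 0 < 1 / Kt * ‖x‖ := (abs_nonneg _).trans_lt h1.2
    have h6 : K (q₁, q₂, q₃) * (1 / Kt * ‖x‖) < Kt * (1 / Kt * ‖x‖) :=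
      mul_lt_mul_of_pos_right (hKle _) h5
    have h7 : Kt * (1 / Kt * ‖x‖) = ‖x‖ := by
      field_simp
    linarith

end U78
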