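import Mathlib
import Pool.Agent.W_78bee8_h33.Func
import Pool.Agent.W_78bee8_h33.RamseyP

/-!
# Good functionals for an array
-/

namespace U78

open Set

/-- GOOD FUNCTIONAL. PROOF: `ramsey_pairs` with `max t 2 (+1)` in place of `t` and the colouring of
`(v, v')` (with `v a < v' a` for all `a`) by the set of bad functionals of the 8 points of the box:
colour `= fun (b b' : Fin 3 → Bool) => filter (|l q (τ (mix b) - τ (mix b'))| < c ‖..‖)`. For the constant
colour, the bad sets of the 28 unordered pairs have at most `56 < 57` elements together, so some `q` is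
in none of them. Any two different index vectors `u, u'` of the subarray are corners of a box
`v, v'` (`v a = min`, `v' a = max` if `u a ≠ u' a`; if `u a = u' a` take another index of the class as
the second corner, above or below). -/
theorem good_functional (t : ℕ) : ∃ T : ℕ, ∀ (τ : (Fin 3 → Fin T) → V)
    (l : Fin 57 → V →ₗ[ℝ] ℝ) (c : ℝ), Generic l c → ∃ (e : Emb t T) (q : Fin 57),
      ∀ v v', c * ‖τ (e.ap v) - τ (e.ap v')‖ ≤ |l q (τ (e.ap v) - τ (e.ap v'))| := by
  classical
  obtain ⟨T, hT⟩ := ramsey_pairs ((Fin 3 → Bool) → (Fin 3 → Bool) → Finset (Fin 57)) (max t 2)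
  refine ⟨T, fun τ l c hgen => ?_⟩
  let mixT : (Fin 3 → Fin T) → (Fin 3 → Fin T) → (Fin 3 → Bool) → (Fin 3 → Fin T) :=
    fun v v' b a => if b a then v' a else v a
  let bad : V → Finset (Fin 57) := fun x => Finset.univ.filter (fun q => |l q x| < c * ‖x‖)
  have hbadc : ∀ x, (bad x).card ≤ 2 := hgen
  have hbads : ∀ x, bad (-x) = bad x := by
    intro x
    simp only [bad, map_neg, abs_neg, norm_neg]
  obtain ⟨e, c0, hc0⟩ := hT (fun v v' b b' => bad (τ (mixT v v' b) - τ (mixT v v' b')))
  have h2 : 2 ≤ max t 2 := le_max_right _ _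
  -- the sample pair
  let v0 : Fin 3 → Fin (max t 2) := fun _ => ⟨0, by omega⟩
  let v1 : Fin 3 → Fin (max t 2) := fun _ => ⟨1, by omega⟩
  have h01 : ∀ a, v0 a < v1 a := fun a => by
    show (0 : ℕ) < 1
    exact Nat.zero_lt_one
  have hs := hc0 v0 v1 h01
  have hcc : ∀ b b', (c0 b b').card ≤ 2 := by
    intro b b'
    rw [← hs]
    exact hbadc _
  have hcs : ∀ b b', c0 b b' = c0 b' b := by
    intro b b'
    rw [← hs]
    show bad _ = bad _
    rw [← hbads, neg_sub]
  -- a good functional
  have hcard : Fintype.card (Fin 3 → Bool) = 8 := by simp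
  let φ : (Fin 3 → Bool) ≃ Fin 8 := Fintype.equivFinOfCardEq hcard
  let P : Finset (Fin 8 × Fin 8) := Finset.univ.filter (fun ij => ij.1 < ij.2)
  have hP : P.card = 28 := by
    show (Finset.univ.filter (fun ij : Fin 8 × Fin 8 => ij.1 < ij.2)).card = 28
    decide
  let B : Finset (Fin 57) := P.biUnion (fun ij => c0 (φ.symm ij.1) (φ.symm ij.2))
  have hB : B.card ≤ 28 * 2 := by
    rw [← hP]
    exact Finset.card_biUnion_le_card_mul _ _ _ (fun ij _ => hcc _ _)
  have hex : ∃ q : Fin 57, q ∉ B := by
    by_contra hcon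
    push Not at hcon
    have h3 : B = Finset.univ := Finset.eq_univ_of_forall hcon
    rw [h3, Finset.card_univ, Fintype.card_fin] at hB
    omega
  obtain ⟨q, hq⟩ := hex
  have hqc : ∀ b b', b ≠ b' → q ∉ c0 b b' := by
    intro b b' hne hmem
    rcases lt_trichotomy (φ b) (φ b') with h | h | h
    · apply hq
      refine Finset.mem_biUnion.2 ⟨(φ b, φ b'), Finset.mem_filter.2 ⟨Finset.mem_univ _, h⟩, ?_⟩
      simpa using hmem
    · exact hne (φ.injective h)
    · apply hq
      refine Finset.mem_biUnion.2 ⟨(φ b', φ b), Finset.mem_filter.2 ⟨Finset.mem_univ _, h⟩, ?_⟩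
      rw [hcs] at hmem
      simpa using hmem
  -- all pairs of the large subarray
  have hmain : ∀ u u' : Fin 3 → Fin (max t 2),
      c * ‖τ (e.ap u) - τ (e.ap u')‖ ≤ |l q (τ (e.ap u) - τ (e.ap u'))| := by
    intro u u'
    by_cases huu : u = u'
    · rw [huu, sub_self, norm_zero, mul_zero]
      exact abs_nonneg _
    have hcoord : ∀ a, ∃ (x y : Fin (max t 2)) (b b' : Bool), x < y ∧
        (if b then y else x) = u a ∧ (if b' then y else x) = u' a := by
      intro a
      rcases lt_trichotomy (u a) (u' a) with h | h | h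
      · exact ⟨u a, u' a, false, true, h, by simp, by simp⟩
      · by_cases h0 : (u a : ℕ) = 0
        · refine ⟨u a, ⟨1, by omega⟩, false, false, ?_, by simp, by simp [h]⟩
          show (u a : ℕ) < 1
          omega
        · refine ⟨⟨0, by omega⟩, u a, true, true, ?_, by simp, by simp [h]⟩
          show 0 < (u a : ℕ)
          omega
      · exact ⟨u' a, u a, true, false, h, by simp, by simp⟩
    choose x y b b' hxy hb hb' using hcoord
    have h3 : mixT (e.ap x) (e.ap y) b = e.ap u := by
      funext a
      show (if b a then e a (y a) else e a (x a)) = e a (u a)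
      rw [← hb a]
      split_ifs <;> rfl
    have h4 : mixT (e.ap x) (e.ap y) b' = e.ap u' := by
      funext a
      show (if b' a then e a (y a) else e a (x a)) = e a (u' a)
      rw [← hb' a]
      split_ifs <;> rfl
    have hbb : b ≠ b' := by
      intro h5
      apply huu
      funext a
      rw [← hb a, ← hb' a, h5]
    have h5 := hqc b b' hbb
    rw [← hc0 x y hxy] at h5
    have h6 : q ∉ bad (τ (mixT (e.ap x) (e.ap y) b) - τ (mixT (e.ap x) (e.ap y) b')) := h5
    rw [h3, h4] at h6
    by_contra hlt
    exact h6 (Finset.mem_filter.2 ⟨Finset.mem_univ _, not_le.1 hlt⟩)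
  refine ⟨fun a => (Fin.castLEOrderEmb (le_max_left t 2)).trans (e a), q, fun v v' => ?_⟩
  exact hmain (fun a => Fin.castLE (le_max_left t 2) (v a)) (fun a => Fin.castLE (le_max_left t 2) (v' a))

end U78
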