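import Mathlib
import Pool.Agent.W_78bee8_h33.Clash3
import Pool.Agent.W_78bee8_h33.FG
import Pool.Agent.W_78bee8_h33.Good
import Pool.Agent.W_78bee8_h33.ClassV

/-!
# Preparation of local configurations
-/

namespace U78

open Set Pointwise

lemma exists_lower {ι : Type} (S : Finset ι) (f : ι → ℝ) (hf : ∀ i, 0 < f i) :
    ∃ c : ℝ, 0 < c ∧ ∀ i ∈ S, c ≤ f i := by
  classical
  induction S using Finset.induction_on with
  | empty => exact ⟨1, one_pos, by simp⟩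
  | insert a s _ ih =>
    obtain ⟨c, hc, h⟩ := ih
    refine ⟨min c (f a), lt_min hc (hf a), fun i hi => ?_⟩
    rcases Finset.mem_insert.1 hi with rfl | hi
    · exact min_le_right _ _
    · exact (min_le_left _ _).trans (h i hi)

lemma exists_upper {ι : Type} (S : Finset ι) (f : ι → ℝ) :
    ∃ c : ℝ, 0 ≤ c ∧ ∀ i ∈ S, f i ≤ c := by
  classical
  induction S using Finset.induction_on with
  | empty => exact ⟨0, le_rfl, by simp⟩
  | insert a s _ ih =>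
    obtain ⟨c, hc, h⟩ := ih
    refine ⟨max c (f a), hc.trans (le_max_left _ _), fun i hi => ?_⟩
    rcases Finset.mem_insert.1 hi with rfl | hi
    · exact le_max_right _ _
    · exact (h i hi).trans (le_max_left _ _)

lemma generic_mono {N : ℕ} {l : Fin N → V →ₗ[ℝ] ℝ} {c c' : ℝ} (h : Generic l c') (hc : c ≤ c') :
    Generic l c := by
  intro x
  refine (Finset.card_le_card ?_).trans (h x)
  intro q hq
  rw [Finset.mem_filter] at hq ⊢
  exact ⟨hq.1, hq.2.trans_le (mul_le_mul_of_nonneg_right hc (norm_nonneg _))⟩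

lemma maj_sub {t T : ℕ} {a : Fin 3} {f : (Fin 3 → Fin T) → ℝ} (h : Maj a f) (e : Emb t T) :
    Maj a (fun v => f (e.ap v)) := by
  rcases h with h | h
  · exact Or.inl fun v v' hv => h _ _ ((e a).strictMono hv)
  · exact Or.inr fun v v' hv => h _ _ ((e a).strictMono hv)

/-- PREPARATION. PROOF. `G` from `class_vectors`. For every pair `(e₁, e₂) ∈ G × G` fix
`functionals 57 e₁ e₂` with constants; let `c > 0` be the minimum and `L` the maximum of the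
constants (finitely many pairs). Let `k > max t (2 + L / c)`, and let `T` be obtained by
`fg` three times (starting from `k`), then `good_functional` three times, then `class_vectors`.
Given `X`: class vectors `e b ∈ G`. For `a = 0,1,2` apply `good_functional` to `τ` and the list for
`(e (a+1), e (a+2))` (generic for its own constant, hence `c`-comparable) and get `l a` with
`c ‖τ v - τ v'‖ ≤ |l a (τ v - τ v')|` on the subarray. Then apply `fg` to `l a ∘ τ` (injective, since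
the `τ v` are distinct, `Cfg.τ_injective`) for `a = 0,1,2`: classes `a₀, a₁, a₂`. `clash3` shows
`a₀ = a₁ = a₂ =: a`; `l := l a`. Finally pass to a subarray of size `t ≤ k`. -/
theorem local_prep (F : Set (Set V)) (t : ℕ) : ∃ T : ℕ, ∀ B : Set V, Nice B →
    ∀ (X : Cfg F B T) (x : V), (∀ v, ‖X.τ v - x‖ ≤ 1 / 192) →
      ∃ (f : Emb t T) (a : Fin 3) (e : Fin 3 → V) (l : V →ₗ[ℝ] ℝ), (∀ b, ‖e b‖ ≤ 3) ∧
        (∀ b i, CP ((X.sub f).A b i + B) x (e b)) ∧ Adapted l (e (a + 1)) (e (a + 2)) ∧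
        Maj a (fun v => l ((X.sub f).τ v)) := by
  obtain ⟨G, hG3, hG⟩ := class_vectors F
  choose ll cc LL hcc hLL hA hb hg using fun p : V × V => functionals 57 p.1 p.2
  obtain ⟨c, hc, hcG⟩ := exists_lower (G ×ˢ G) cc hcc
  obtain ⟨L, hL, hLG⟩ := exists_upper (G ×ˢ G) LL
  obtain ⟨k, hkt, hk⟩ : ∃ k : ℕ, t ≤ k ∧ 2 + L / c < k := by
    obtain ⟨k, hk⟩ := exists_nat_gt (2 + L / c)
    refine ⟨max t k, le_max_left _ _, hk.trans_le ?_⟩
    exact_mod_cast le_max_right t k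
  obtain ⟨N₁, hN₁⟩ := fg k
  obtain ⟨N₂, hN₂⟩ := fg N₁
  obtain ⟨N₃, hN₃⟩ := fg N₂
  obtain ⟨G₁, hG₁⟩ := good_functional N₃
  obtain ⟨G₂, hG₂⟩ := good_functional G₁
  obtain ⟨G₃, hG₃⟩ := good_functional G₂
  obtain ⟨T, hT⟩ := hG G₃
  refine ⟨T, fun B hB X x hx => ?_⟩
  obtain ⟨f₀, e, heG, hcp⟩ := hT B hB X x hx
  let P : Fin 3 → V × V := fun a => (e (a + 1), e (a + 2))
  have hPG : ∀ a, P a ∈ G ×ˢ G := fun a => Finset.mem_product.2 ⟨heG _, heG _⟩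
  have hgen : ∀ a, Generic (ll (P a)) c := fun a => generic_mono (hg (P a)) (hcG _ (hPG a))
  obtain ⟨g₁, q₁, h₁⟩ := hG₃ (fun v => X.τ (f₀.ap v)) (ll (P 0)) c (hgen 0)
  obtain ⟨g₂, q₂, h₂⟩ := hG₂ (fun v => X.τ (f₀.ap (g₁.ap v))) (ll (P 1)) c (hgen 1)
  obtain ⟨g₃, q₃, h₃⟩ := hG₁ (fun v => X.τ (f₀.ap (g₁.ap (g₂.ap v)))) (ll (P 2)) c (hgen 2)
  have hτ : Function.Injective X.τ := X.τ_injective hB.cpt
  have hinj : ∀ {s : ℕ} (σ : (Fin 3 → Fin s) → V) (l : V →ₗ[ℝ] ℝ), Function.Injective σ →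
      (∀ v v', c * ‖σ v - σ v'‖ ≤ |l (σ v - σ v')|) → Function.Injective (fun v => l (σ v)) := by
    intro s σ l hσ h v v' hvv
    have h1 : l (σ v - σ v') = 0 := by
      rw [map_sub]
      exact sub_eq_zero.2 hvv
    have h2 := h v v'
    rw [h1, abs_zero] at h2
    have h3 : ‖σ v - σ v'‖ ≤ 0 := by
      by_contra h4
      push Not at h4
      have := mul_pos hc h4
      linarith
    have h4 : σ v - σ v' = 0 := norm_le_zero_iff.1 h3
    exact hσ (sub_eq_zero.1 h4)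
  let σ₃ : (Fin 3 → Fin N₃) → V := fun v => X.τ (f₀.ap (g₁.ap (g₂.ap (g₃.ap v))))
  have hσ₃ : Function.Injective σ₃ := fun v v' h =>
    g₃.ap_injective (g₂.ap_injective (g₁.ap_injective (f₀.ap_injective (hτ h))))
  have k₁ : ∀ v v', c * ‖σ₃ v - σ₃ v'‖ ≤ |ll (P 0) q₁ (σ₃ v - σ₃ v')| := fun v v' => h₁ _ _
  have k₂ : ∀ v v', c * ‖σ₃ v - σ₃ v'‖ ≤ |ll (P 1) q₂ (σ₃ v - σ₃ v')| := fun v v' => h₂ _ _
  have k₃ : ∀ v v', c * ‖σ₃ v - σ₃ v'‖ ≤ |ll (P 2) q₃ (σ₃ v - σ₃ v')| := fun v v' => h₃ _ _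
  obtain ⟨f₁, a₁, m₁⟩ := hN₃ ℝ (fun v => ll (P 0) q₁ (σ₃ v)) (hinj _ _ hσ₃ k₁)
  obtain ⟨f₂, a₂, m₂⟩ := hN₂ ℝ (fun v => ll (P 1) q₂ (σ₃ (f₁.ap v)))
    (hinj (fun v => σ₃ (f₁.ap v)) _ (hσ₃.comp f₁.ap_injective) fun v v' => k₂ _ _)
  obtain ⟨f₃, a₃, m₃⟩ := hN₁ ℝ (fun v => ll (P 2) q₃ (σ₃ (f₁.ap (f₂.ap v))))
    (hinj (fun v => σ₃ (f₁.ap (f₂.ap v))) _
      (hσ₃.comp (f₁.ap_injective.comp f₂.ap_injective)) fun v v' => k₃ _ _)
  let σ : (Fin 3 → Fin k) → V := fun v => σ₃ (f₁.ap (f₂.ap (f₃.ap v)))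
  let l : Fin 3 → V →ₗ[ℝ] ℝ := ![ll (P 0) q₁, ll (P 1) q₂, ll (P 2) q₃]
  let A : Fin 3 → Fin 3 := ![a₁, a₂, a₃]
  have hl : ∀ a, ∃ q, l a = ll (P a) q := by
    intro a
    fin_cases a
    · exact ⟨q₁, rfl⟩
    · exact ⟨q₂, rfl⟩
    · exact ⟨q₃, rfl⟩
  have hcmp : ∀ a v v', c * ‖σ v - σ v'‖ ≤ |l a (σ v - σ v')| := by
    intro a v v'
    fin_cases a
    · exact k₁ _ _
    · exact k₂ _ _
    · exact k₃ _ _
  have hmaj : ∀ a, Maj (A a) (fun v => l a (σ v)) := by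
    intro a
    fin_cases a
    · exact maj_sub (maj_sub m₁ f₂) f₃
    · exact maj_sub m₂ f₃
    · exact m₃
  have hbd : ∀ a y, |l a y| ≤ L * ‖y‖ := by
    intro a y
    obtain ⟨q, hq⟩ := hl a
    rw [hq]
    exact (hb (P a) q y).trans (mul_le_mul_of_nonneg_right (hLG _ (hPG a)) (norm_nonneg _))
  have hAA : ∀ a b, A a = A b := by
    intro a b
    by_contra hne
    have := clash3 σ (l a) (l b) c L hc hL (hcmp a) (hcmp b) (hbd a) (hbd b) hne (hmaj a) (hmaj b)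
    linarith
  obtain ⟨ι, -⟩ : ∃ ι : Emb t k, True := ⟨fun _ => Fin.castLEOrderEmb hkt, trivial⟩
  refine ⟨ι.comp (f₃.comp (f₂.comp (f₁.comp (g₃.comp (g₂.comp (g₁.comp f₀)))))), A 0, e,
    l (A 0), fun b => hG3 _ (heG b), fun b i => hcp b _, ?_, ?_⟩
  · obtain ⟨q, hq⟩ := hl (A 0)
    rw [hq]
    exact hA (P (A 0)) q
  · have h5 := hmaj (A 0)
    rw [hAA (A 0) 0] at h5
    exact maj_sub h5 ι

end U78
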