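import Mathlib
import Pool.Agent.W_78bee8_h33.Cone
import Pool.Agent.W_78bee8_h33.Func

/-!
# Slice configurations
-/

namespace U78

open Set

/-- A slice configuration: `m + m` closed sets with the cone property near `x` (vectors `eY`, `eZ`), a
functional `l` adapted to `eY`, `eZ`, and for every pair a point `p i j` of the slice `l = c` near `x` on
the frontiers of `Y i` and `Z j` and outside all others; `tY`, `tZ`: tameness. -/
structure Slice (m M : ℕ) (eY eZ : V) where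
  x : V
  l : V →ₗ[ℝ] ℝ
  c : ℝ
  Y : Fin m → Set V
  Z : Fin m → Set V
  p : Fin m → Fin m → V
  Ycl : ∀ i, IsClosed (Y i)
  Zcl : ∀ i, IsClosed (Z i)
  Ycp : ∀ i, CP (Y i) x eY
  Zcp : ∀ i, CP (Z i) x eZ
  ad : Adapted l eY eZ
  px : ∀ i j, ‖p i j - x‖ ≤ 1 / 192
  pl : ∀ i j, l (p i j) = c
  pY : ∀ i j, p i j ∈ frontier (Y i)
  pZ : ∀ i j, p i j ∈ frontier (Z j)
  pY' : ∀ i j i', i' ≠ i → p i j ∉ Y i'
  pZ' : ∀ i j j', j' ≠ j → p i j ∉ Z j'
  tY : ∀ i i' (a : V →ₗ[ℝ] ℝ), ∃ E : Finset ℝ, E.card ≤ M ∧ ∀ s s' : ℝ, s ≤ s' →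
    (∀ z ∈ E, z ∉ Icc s s') →
      ((∃ w, w ∈ Y i ∧ w ∉ Y i' ∧ ‖w - x‖ ≤ 1 / 192 ∧ l w = c ∧ a w = s) ↔
        (∃ w, w ∈ Y i ∧ w ∉ Y i' ∧ ‖w - x‖ ≤ 1 / 192 ∧ l w = c ∧ a w = s'))
  tZ : ∀ i i' (a : V →ₗ[ℝ] ℝ), ∃ E : Finset ℝ, E.card ≤ M ∧ ∀ s s' : ℝ, s ≤ s' →
    (∀ z ∈ E, z ∉ Icc s s') →
      ((∃ w, w ∈ Z i ∧ w ∉ Z i' ∧ ‖w - x‖ ≤ 1 / 192 ∧ l w = c ∧ a w = s) ↔
        (∃ w, w ∈ Z i ∧ w ∉ Z i' ∧ ‖w - x‖ ≤ 1 / 192 ∧ l w = c ∧ a w = s'))

/-- exchange the two classes (`Adapted` is symmetric: exchange `v₁`, `v₂`) -/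
def Slice.swap {m M : ℕ} {eY eZ : V} (S : Slice m M eY eZ) : Slice m M eZ eY where
  x := S.x
  l := S.l
  c := S.c
  Y := S.Z
  Z := S.Y
  p i j := S.p j i
  Ycl := S.Zcl
  Zcl := S.Ycl
  Ycp := S.Zcp
  Zcp := S.Ycp
  ad := by
    obtain ⟨v₁, v₂, h1, h2, h3, h4, h5, h6⟩ := S.ad
    refine ⟨v₂, v₁, h2, h1, h4, h3, ?_, h6⟩
    have := h5.comp ![1, 0] (by decide)
    convert this using 1
    ext i
    fin_cases i <;> rfl
  px i j := S.px j i
  pl i j := S.pl j i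
  pY i j := S.pZ j i
  pZ i j := S.pY j i
  pY' i j i' h := S.pZ' j i i' h
  pZ' i j j' h := S.pY' j i j' h
  tY := S.tZ
  tZ := S.tY

/-- subconfiguration -/
def Slice.sub {m m' M : ℕ} {eY eZ : V} (S : Slice m M eY eZ) (e e' : Fin m' ↪o Fin m) :
    Slice m' M eY eZ where
  x := S.x
  l := S.l
  c := S.c
  Y i := S.Y (e i)
  Z i := S.Z (e' i)
  p i j := S.p (e i) (e' j)
  Ycl i := S.Ycl _
  Zcl i := S.Zcl _
  Ycp i := S.Ycp _
  Zcp i := S.Zcp _
  ad := S.ad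
  px i j := S.px _ _
  pl i j := S.pl _ _
  pY i j := S.pY _ _
  pZ i j := S.pZ _ _
  pY' i j i' h := S.pY' _ _ _ (fun h' => h (e.injective h'))
  pZ' i j i' h := S.pZ' _ _ _ (fun h' => h (e'.injective h'))
  tY i i' := S.tY _ _
  tZ i i' := S.tZ _ _

/-- coordinates of the kernel of an adapted functional. PROOF: `l ≠ 0`, so its kernel has dimension
2 and is spanned by the independent vectors `v₁`, `v₂`; extend the coordinate functionals from the
kernel to `V` (e.g. complete `v₁, v₂` by `v₃` with `l v₃ ≠ 0` to a basis and take the dual basis). -/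
theorem adapted_coords {l : V →ₗ[ℝ] ℝ} {v₁ v₂ : V} (h1 : l v₁ = 0) (h2 : l v₂ = 0)
    (h : LinearIndependent ℝ ![v₁, v₂]) (hl : l ≠ 0) : ∃ a b : V →ₗ[ℝ] ℝ,
      a v₁ = 1 ∧ a v₂ = 0 ∧ b v₁ = 0 ∧ b v₂ = 1 ∧ ∀ u, l u = 0 → u = a u • v₁ + b u • v₂ := by
  obtain ⟨v₃, h3⟩ : ∃ v₃, l v₃ ≠ 0 := by
    by_contra h4
    push Not at h4
    exact hl (LinearMap.ext h4)
  have hli : LinearIndependent ℝ ![v₁, v₂, v₃] := by
    rw [Fintype.linearIndependent_iff]
    intro g hg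
    rw [Fin.sum_univ_three] at hg
    have hg' : g 0 • v₁ + g 1 • v₂ + g 2 • v₃ = 0 := hg
    have h5 : g 2 = 0 := by
      have h6 := congrArg l hg'
      rw [map_add, map_add, map_smul, map_smul, map_smul, h1, h2, map_zero, smul_zero, smul_zero,
        zero_add, zero_add, smul_eq_mul] at h6
      exact (mul_eq_zero.1 h6).resolve_right h3
    rw [h5, zero_smul, add_zero] at hg'
    rw [LinearIndependent.pair_iff] at h
    obtain ⟨h6, h7⟩ := h _ _ hg'
    intro i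
    fin_cases i
    · exact h6
    · exact h7
    · exact h5
  let B := basisOfLinearIndependentOfCardEqFinrank hli (by simp)
  have hB : ∀ i, B i = ![v₁, v₂, v₃] i := fun i => by
    simp [B]
  have hB0 : B 0 = v₁ := hB 0
  have hB1 : B 1 = v₂ := hB 1
  have hB2 : B 2 = v₃ := hB 2
  refine ⟨B.coord 0, B.coord 1, ?_, ?_, ?_, ?_, ?_⟩
  · rw [← hB0, B.coord_apply, B.repr_self]
    simp
  · rw [← hB1, B.coord_apply, B.repr_self]
    simp
  · rw [← hB0, B.coord_apply, B.repr_self]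
    simp
  · rw [← hB1, B.coord_apply, B.repr_self]
    simp
  · intro u hu
    have h5 := B.sum_repr u
    rw [Fin.sum_univ_three, hB0, hB1, hB2] at h5
    have h6 : B.repr u 2 = 0 := by
      have h7 := congrArg l h5
      rw [map_add, map_add, map_smul, map_smul, map_smul, h1, h2, hu, smul_zero, smul_zero,
        zero_add, zero_add, smul_eq_mul] at h7
      exact (mul_eq_zero.1 h7).resolve_right h3
    rw [h6, zero_smul, add_zero] at h5
    exact h5.symm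

theorem Slice_aux {K : Set V} {x e v₁ v₂ w w' : V} (hcp : CP K x e) (hK : IsClosed K)
    (hw : w ∈ frontier K) (hw' : w' ∉ interior K) (hx : ‖w - x‖ ≤ 1 / 192)
    (hx' : ‖w' - x‖ ≤ 1 / 192) {α β : ℝ} (hΔ : w' - w = α • v₁ + β • v₂)
    (hv₁ : ‖v₁‖ ≤ 3 + 1 / 48) (hv₂ : ‖v₂ - e‖ ≤ 1 / 48) (hβ : 0 < β) : β ≤ 200 * |α| := by
  by_contra h
  push Not at h
  have h1 : ‖(v₂ + (α / β) • v₁) - e‖ ≤ 1 / 24 := by
    have h2 : (v₂ + (α / β) • v₁) - e = (v₂ - e) + (α / β) • v₁ := by abel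
    rw [h2]
    refine (norm_add_le _ _).trans ?_
    rw [norm_smul, Real.norm_eq_abs, abs_div, abs_of_pos hβ]
    have h3 : |α| / β ≤ 1 / 200 := by
      rw [div_le_div_iff₀ hβ (by norm_num)]
      linarith
    have h4 : |α| / β * ‖v₁‖ ≤ 1 / 200 * (3 + 1 / 48) :=
      mul_le_mul h3 hv₁ (norm_nonneg _) (by norm_num)
    linarith
  refine hcp.diff hw hK hx (hK.frontier_subset hw) hw' hx hx' h1 hβ ?_
  rw [hΔ, smul_add, smul_smul, mul_div_cancel₀ _ hβ.ne']
  abel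

/-- THE POINTS OF A SLICE. `a` is the coordinate of `v₁ ≈ eY`, `b` the coordinate of `v₂ ≈ eZ`.
(1) For two different points the coordinates of the difference are comparable.
(2) If the sets `Y` and `Z` have `m ≥ 2` members and `a` is ordered by the first index then `m ≤ M`.

PROOF of (1): let `Δ = p i j - p i' j' = a v₁ + b v₂` with `(i,j) ≠ (i',j')`; `Δ ≠ 0` (a point determines
`(i,j)`: it lies in `Y i` and not in the others). Suppose `|a| < |b| / 200`. Then `b ≠ 0` and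
`Δ = b • v` with `v = v₂ + (a/b) • v₁`, `‖v - eZ‖ ≤ 1/48 + (1/200) (3 + 1/48) ≤ 1/24`.
If `b > 0`, apply `CP.diff` to `K = Z j'`, `w = p i' j' ∈ K`, `w' = p i j ∉ interior K` (if `j ≠ j'`
since `p i j ∉ Z j'`, if `j = j'` since it is a frontier point), `w₁ = w`. If `b < 0`, exchange the two
points. The other inequality by symmetry (`Slice.swap`, or the same proof with `Y`). -/
theorem Slice.comparable {m M : ℕ} {eY eZ : V} (hY : ‖eY‖ ≤ 3) (hZ : ‖eZ‖ ≤ 3)
    (S : Slice m M eY eZ) : ∃ (v₁ v₂ : V) (a b : V →ₗ[ℝ] ℝ),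
      ‖v₁ - eY‖ ≤ 1 / 48 ∧ ‖v₂ - eZ‖ ≤ 1 / 48 ∧ a v₁ = 1 ∧ a v₂ = 0 ∧ b v₁ = 0 ∧ b v₂ = 1 ∧
      (∀ u, S.l u = 0 → u = a u • v₁ + b u • v₂) ∧
      (∀ i j i' j', |b (S.p i j) - b (S.p i' j')| ≤ 200 * |a (S.p i j) - a (S.p i' j')| ∧
        |a (S.p i j) - a (S.p i' j')| ≤ 200 * |b (S.p i j) - b (S.p i' j')|) ∧
      (∀ i j i' j', a (S.p i j) = a (S.p i' j') → i = i' ∧ j = j') ∧
      (∀ i j i' j', b (S.p i j) = b (S.p i' j') → i = i' ∧ j = j') := by
  obtain ⟨v₁, v₂, h1, h2, h3, h4, h5, h6⟩ := S.ad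
  obtain ⟨a, b, h7, h8, h9, h10, h11⟩ := adapted_coords h3 h4 h5 h6
  have hn1 : ‖v₁‖ ≤ 3 + 1 / 48 := by
    have h12 : v₁ = eY + (v₁ - eY) := by abel
    rw [h12]
    exact (norm_add_le _ _).trans (by linarith)
  have hn2 : ‖v₂‖ ≤ 3 + 1 / 48 := by
    have h12 : v₂ = eZ + (v₂ - eZ) := by abel
    rw [h12]
    exact (norm_add_le _ _).trans (by linarith)
  have hΔ : ∀ i j i' j', S.p i j - S.p i' j' = (a (S.p i j) - a (S.p i' j')) • v₁ +
      (b (S.p i j) - b (S.p i' j')) • v₂ := by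
    intro i j i' j'
    have h12 := h11 (S.p i j - S.p i' j') (by rw [map_sub, S.pl, S.pl, sub_self])
    rw [map_sub, map_sub] at h12
    exact h12
  have hZi : ∀ i j j', S.p i j ∉ interior (S.Z j') := by
    intro i j j'
    by_cases hj : j' = j
    · rw [hj]
      exact (S.pZ i j).2
    · exact fun h12 => S.pZ' i j j' hj (interior_subset h12)
  have hYi : ∀ i j i', S.p i j ∉ interior (S.Y i') := by
    intro i j i'
    by_cases hi : i' = i
    · rw [hi]
      exact (S.pY i j).2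
    · exact fun h12 => S.pY' i j i' hi (interior_subset h12)
  have kb : ∀ i j i' j', 0 < b (S.p i j) - b (S.p i' j') →
      b (S.p i j) - b (S.p i' j') ≤ 200 * |a (S.p i j) - a (S.p i' j')| := by
    intro i j i' j' hpos
    exact Slice_aux (S.Zcp j') (S.Zcl j') (S.pZ i' j') (hZi i j j') (S.px i' j') (S.px i j)
      (hΔ i j i' j') hn1 h2 hpos
  have ka : ∀ i j i' j', 0 < a (S.p i j) - a (S.p i' j') →
      a (S.p i j) - a (S.p i' j') ≤ 200 * |b (S.p i j) - b (S.p i' j')| := by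
    intro i j i' j' hpos
    refine Slice_aux (S.Ycp i') (S.Ycl i') (S.pY i' j') (hYi i j i') (S.px i' j') (S.px i j)
      (v₁ := v₂) (v₂ := v₁) ?_ hn2 h1 hpos
    rw [hΔ i j i' j']
    abel
  have kb' : ∀ i j i' j', |b (S.p i j) - b (S.p i' j')| ≤ 200 * |a (S.p i j) - a (S.p i' j')| := by
    intro i j i' j'
    rcases lt_trichotomy (b (S.p i j) - b (S.p i' j')) 0 with h12 | h12 | h12
    · rw [abs_of_neg h12, abs_sub_comm (a (S.p i j))]
      have := kb i' j' i j (by linarith)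
      linarith
    · rw [h12, abs_zero]
      positivity
    · rw [abs_of_pos h12]
      exact kb i j i' j' h12
  have ka' : ∀ i j i' j', |a (S.p i j) - a (S.p i' j')| ≤ 200 * |b (S.p i j) - b (S.p i' j')| := by
    intro i j i' j'
    rcases lt_trichotomy (a (S.p i j) - a (S.p i' j')) 0 with h12 | h12 | h12
    · rw [abs_of_neg h12, abs_sub_comm (b (S.p i j))]
      have := ka i' j' i j (by linarith)
      linarith
    · rw [h12, abs_zero]
      positivity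
    · rw [abs_of_pos h12]
      exact ka i j i' j' h12
  have hinj : ∀ i j i' j', S.p i j = S.p i' j' → i = i' ∧ j = j' := by
    intro i j i' j' hp
    constructor
    · by_contra hne
      refine S.pY' i' j' i hne ?_
      rw [← hp]
      exact (S.Ycl i).frontier_subset (S.pY i j)
    · by_contra hne
      refine S.pZ' i' j' j hne ?_
      rw [← hp]
      exact (S.Zcl j).frontier_subset (S.pZ i j)
  refine ⟨v₁, v₂, a, b, h1, h2, h7, h8, h9, h10, h11,
    fun i j i' j' => ⟨kb' i j i' j', ka' i j i' j'⟩, ?_, ?_⟩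
  · intro i j i' j' h
    refine hinj i j i' j' (sub_eq_zero.1 ?_)
    have h12 := kb' i j i' j'
    rw [h, sub_self, abs_zero, mul_zero] at h12
    rw [hΔ i j i' j', abs_nonpos_iff.1 h12, h, sub_self, zero_smul, zero_smul, add_zero]
  · intro i j i' j' h
    refine hinj i j i' j' (sub_eq_zero.1 ?_)
    have h12 := ka' i j i' j'
    rw [h, sub_self, abs_zero, mul_zero] at h12
    rw [hΔ i j i' j', abs_nonpos_iff.1 h12, h, sub_self, zero_smul, zero_smul, add_zero]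

end U78
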