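import Mathlib
import Pool.Agent.W_78bee8_h33.Slice

/-!
# Alternation in a slice
-/

namespace U78

open Set

/-- ALTERNATION. If `a` (the coordinate of `v₁ ≈ eY`) is ordered by the first index, then `m ≤ max M 1`.
PROOF. Let `m ≥ 2`, `Z₀ = Z 0`, `Z₁ = Z 1` (the first two sets) and `E` from `tZ 0 1 a`. The predicate
`P s : ∃ w ∈ Z₀ \ Z₁` near `x` with `l w = c`, `a w = s` holds for `s = a (p i 0)` and fails for
`s = a (p i 1)`: suppose `w ∈ Z₀ \ Z₁`, `l w = c`, `a w = a w'` where `w' = p i 1 ∈ Z₁ \ Z₀`; then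
`w' - w` is in the kernel of `l` and has `a`-coordinate 0, so `w' - w = r • v₂` with `r = b (w' - w)`;
`r > 0` contradicts `CP.diff` for `K = Z₀` (`w ∈ Z₀`, `w' ∉ Z₀`; frontier point `w₁ = p i 0`), `r < 0`
contradicts `CP.diff` for `K = Z₁` (`w' ∈ Z₁`, `w ∉ Z₁`, `w - w' = (-r) • v₂`, `w₁ = p i 1`), `r = 0`
gives `w = w'`, absurd. Hence the closed interval between `a (p i 0)` and `a (p i 1)` contains an
element of `E` for every `i`; these intervals are disjoint for different `i` by the ordering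
hypothesis, so `m ≤ E.card ≤ M`. -/
theorem Slice.alternate {m M : ℕ} {eY eZ : V} (S : Slice m M eY eZ) {v₁ v₂ : V}
    {a b : V →ₗ[ℝ] ℝ} (hv₂ : ‖v₂ - eZ‖ ≤ 1 / 48)
    (hab : ∀ u, S.l u = 0 → u = a u • v₁ + b u • v₂)
    (h : (∀ i i' j j', i < i' → a (S.p i j) < a (S.p i' j')) ∨
      (∀ i i' j j', i < i' → a (S.p i' j') < a (S.p i j))) : m ≤ max M 1 := by
  classical
  rcases Nat.lt_or_ge m 2 with hm | hm
  · exact le_trans (by omega) (le_max_right M 1)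
  obtain ⟨j₀, j₁, hj⟩ : ∃ j₀ j₁ : Fin m, j₀ ≠ j₁ :=
    ⟨⟨0, by omega⟩, ⟨1, by omega⟩, fun h => by simpa using congrArg Fin.val h⟩
  obtain ⟨E, hE, hE'⟩ := S.tZ j₀ j₁ a
  have hv : ‖v₂ - eZ‖ ≤ 1 / 24 := hv₂.trans (by norm_num)
  have hex : ∀ i, ∃ z ∈ E, z ∈ Icc (min (a (S.p i j₀)) (a (S.p i j₁)))
      (max (a (S.p i j₀)) (a (S.p i j₁))) := by
    intro i
    by_contra hcon
    have h1 := hE' (min (a (S.p i j₀)) (a (S.p i j₁))) (max (a (S.p i j₀)) (a (S.p i j₁)))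
      min_le_max (fun z hz hz' => hcon ⟨z, hz, hz'⟩)
    have h0 : ∃ w, w ∈ S.Z j₀ ∧ w ∉ S.Z j₁ ∧ ‖w - S.x‖ ≤ 1 / 192 ∧ S.l w = S.c ∧
        a w = a (S.p i j₀) :=
      ⟨S.p i j₀, (S.Zcl j₀).frontier_subset (S.pZ i j₀), S.pZ' i j₀ j₁ hj.symm, S.px i j₀,
        S.pl i j₀, rfl⟩
    have h2 : ∃ w, w ∈ S.Z j₀ ∧ w ∉ S.Z j₁ ∧ ‖w - S.x‖ ≤ 1 / 192 ∧ S.l w = S.c ∧
        a w = a (S.p i j₁) := by
      rcases le_total (a (S.p i j₀)) (a (S.p i j₁)) with hle | hle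
      · rw [min_eq_left hle, max_eq_right hle] at h1
        exact h1.1 h0
      · rw [min_eq_right hle, max_eq_left hle] at h1
        exact h1.2 h0
    obtain ⟨w, hw0, hw1, hwx, hwl, hwa⟩ := h2
    have hu : S.l (S.p i j₁ - w) = 0 := by
      rw [map_sub, S.pl, hwl, sub_self]
    have hua : a (S.p i j₁ - w) = 0 := by
      rw [map_sub, hwa, sub_self]
    have hue : S.p i j₁ - w = b (S.p i j₁ - w) • v₂ := by
      have h3 := hab _ hu
      rw [hua, zero_smul, zero_add] at h3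
      exact h3
    have hnot : S.p i j₁ ∉ S.Z j₀ := S.pZ' i j₁ j₀ hj
    rcases lt_trichotomy (b (S.p i j₁ - w)) 0 with hr | hr | hr
    · refine CP.diff (S.Zcp j₁) (S.pZ i j₁) (S.Zcl j₁) (S.px i j₁)
        ((S.Zcl j₁).frontier_subset (S.pZ i j₁)) (fun h4 => hw1 (interior_subset h4)) (S.px i j₁)
        hwx hv (neg_pos.2 hr) ?_
      rw [neg_smul, ← hue, neg_sub]
    · rw [hr, zero_smul, sub_eq_zero] at hue
      rw [hue] at hnot
      exact hnot hw0
    · exact CP.diff (S.Zcp j₀) (S.pZ i j₀) (S.Zcl j₀) (S.px i j₀) hw0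
        (fun h4 => hnot (interior_subset h4)) hwx (S.px i j₁) hv hr hue
  choose z hzE hz using hex
  have hlt : ∀ i i', i < i' → z i ≠ z i' := by
    intro i i' hii
    rcases h with h | h
    · have h1 : max (a (S.p i j₀)) (a (S.p i j₁)) < min (a (S.p i' j₀)) (a (S.p i' j₁)) :=
        max_lt (lt_min (h _ _ _ _ hii) (h _ _ _ _ hii)) (lt_min (h _ _ _ _ hii) (h _ _ _ _ hii))
      exact (lt_of_le_of_lt (hz i).2 (lt_of_lt_of_le h1 (hz i').1)).ne
    · have h1 : max (a (S.p i' j₀)) (a (S.p i' j₁)) < min (a (S.p i j₀)) (a (S.p i j₁)) :=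
        max_lt (lt_min (h _ _ _ _ hii) (h _ _ _ _ hii)) (lt_min (h _ _ _ _ hii) (h _ _ _ _ hii))
      exact (lt_of_le_of_lt (hz i').2 (lt_of_lt_of_le h1 (hz i).1)).ne'
  have hinj : Function.Injective z := by
    intro i i' hii
    by_contra hne
    rcases lt_or_gt_of_ne hne with h1 | h1
    · exact hlt i i' h1 hii
    · exact hlt i' i h1 hii.symm
  have hcard : m ≤ E.card := by
    have h1 := Finset.card_le_card_of_injOn (s := (Finset.univ : Finset (Fin m))) (t := E) z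
      (fun i _ => hzE i) hinj.injOn
    rwa [Finset.card_univ, Fintype.card_fin] at h1
  exact (hcard.trans hE).trans (le_max_left M 1)

end U78
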