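import Mathlib
import Pool.Agent.W_78bee8_h33.SliceB
import Pool.Agent.W_78bee8_h33.FGW
import Pool.Agent.W_78bee8_h33.Clash

/-!
# No large slices
-/

namespace U78

open Set

theorem SliceC_norm (A B : ℝ) (h1 : |B| ≤ 200 * |A|) (h2 : |A| ≤ 200 * |B|) :
    (1 / 200 * ‖(A, B)‖ ≤ |A| ∧ |A| ≤ 1 * ‖(A, B)‖) ∧
      (1 / 200 * ‖(A, B)‖ ≤ |B| ∧ |B| ≤ 1 * ‖(A, B)‖) := by
  rw [Prod.norm_def]
  simp only [Real.norm_eq_abs]
  have hA := abs_nonneg A
  have hB := abs_nonneg B
  have h3 : max |A| |B| ≤ 200 * |A| := max_le (by linarith) h1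
  have h4 : max |A| |B| ≤ 200 * |B| := max_le h2 (by linarith)
  have h5 := le_max_left |A| |B|
  have h6 := le_max_right |A| |B|
  refine ⟨⟨?_, ?_⟩, ?_, ?_⟩ <;> linarith

/-- NO LARGE SLICES. PROOF. Let `k = max M 202 + 1`, `N₁` from `fg_two k`, `m₀` from `fg_two N₁`. Given a
slice configuration of size `m₀`, take `a`, `b` from `Slice.comparable`; apply `fg_two` to
`a (p i j)`, then to `b (p i j)` on the subconfiguration (`Slice.sub`). If `a` is ordered by the first
index: `Slice.alternate`. If `b` is ordered by the second index: `Slice.alternate` for `Slice.swap`.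
Otherwise `a` is ordered by the second and `b` by the first index: `maj_clash` with `W = ℝ × ℝ`,
`p' i j = (a (p i j), b (p i j))`, `f = a ∘ p`, `g = b ∘ p`, `c = 1/200`, `L = 1` gives `k ≤ 202`. -/
theorem no_slice (M : ℕ) : ∃ m₀ : ℕ, 2 ≤ m₀ ∧ ∀ eY eZ : V, ‖eY‖ ≤ 3 → ‖eZ‖ ≤ 3 →
    IsEmpty (Slice m₀ M eY eZ) := by
  obtain ⟨N₁, hN₁⟩ := fg_two (max M 202 + 1)
  obtain ⟨m₁, hm₁⟩ := fg_two N₁
  refine ⟨max m₁ 2, le_max_right _ _, fun eY eZ hY hZ => ⟨fun S₀ => ?_⟩⟩
  set S : Slice m₁ M eY eZ := S₀.sub (Fin.castLEOrderEmb (le_max_left m₁ 2))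
    (Fin.castLEOrderEmb (le_max_left m₁ 2)) with hS
  obtain ⟨v₁, v₂, a, b, hv₁, hv₂, -, -, -, -, hab, hcomp, hia, hib⟩ :=
    Slice.comparable hY hZ S
  obtain ⟨e, e', hmaj⟩ := hm₁ ℝ (fun i j => a (S.p i j)) hia
  set S' : Slice N₁ M eY eZ := S.sub e e' with hS'
  obtain ⟨g, g', hmaj'⟩ := hN₁ ℝ (fun i j => b (S'.p i j)) (by
    intro i j i' j' h
    obtain ⟨h1, h2⟩ := hib (e i) (e' j) (e i') (e' j') h
    exact ⟨e.injective h1, e'.injective h2⟩)
  set S'' : Slice (max M 202 + 1) M eY eZ := S'.sub g g' with hS''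
  have hp : ∀ i j, S''.p i j = S.p (e (g i)) (e' (g' j)) := fun i j => rfl
  have hl : S''.l = S.l := rfl
  rcases hmaj with hmaj | hmaj
  · have h1 := S''.alternate (v₁ := v₁) (v₂ := v₂) (a := a) (b := b) hv₂ hab (by
      rcases hmaj with h | h
      · exact Or.inl fun i i' j j' hi => h (g i) (g i') (g' j) (g' j') (g.lt_iff_lt.2 hi)
      · exact Or.inr fun i i' j j' hi => h (g i) (g i') (g' j) (g' j') (g.lt_iff_lt.2 hi))
    omega
  rcases hmaj' with hmaj' | hmaj'
  · have h1 : ((max M 202 + 1 : ℕ) : ℝ) ≤ 2 + 1 / (1 / 200 : ℝ) := by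
      refine maj_clash (W := ℝ × ℝ) (fun i j => (a (S''.p i j), b (S''.p i j)))
        (fun i j => a (S''.p i j)) (fun i j => b (S''.p i j)) (1 / 200) 1 (by norm_num)
        zero_le_one ?_ ?_ ?_ ?_
      · intro i j i' j'
        obtain ⟨h1, h2⟩ := hcomp (e (g i)) (e' (g' j)) (e (g i')) (e' (g' j'))
        exact (SliceC_norm _ _ h1 h2).1
      · intro i j i' j'
        obtain ⟨h1, h2⟩ := hcomp (e (g i)) (e' (g' j)) (e (g i')) (e' (g' j'))
        exact (SliceC_norm _ _ h1 h2).2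
      · rcases hmaj with h | h
        · exact Or.inl fun i i' j j' hj => h (g i) (g i') (g' j) (g' j') (g'.lt_iff_lt.2 hj)
        · exact Or.inr fun i i' j j' hj => h (g i) (g i') (g' j) (g' j') (g'.lt_iff_lt.2 hj)
      · rcases hmaj' with h | h
        · exact Or.inl fun i i' j j' hi => h i i' j j' hi
        · exact Or.inr fun i i' j j' hi => h i i' j j' hi
    have h2 : (202 : ℝ) + 1 ≤ ((max M 202 + 1 : ℕ) : ℝ) := by
      have : 202 + 1 ≤ max M 202 + 1 := Nat.succ_le_succ (le_max_right _ _)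
      exact_mod_cast this
    norm_num at h1
    push_cast at h2
    norm_num at h2
    linarith
  · have h1 := S''.swap.alternate (v₁ := v₂) (v₂ := v₁) (a := b) (b := a) hv₁
      (fun u hu => by
        rw [add_comm]
        exact hab u hu)
      (by
        rcases hmaj' with h | h
        · exact Or.inl fun i i' j j' hi => h j j' i i' hi
        · exact Or.inr fun i i' j j' hi => h j j' i i' hi)
    omega

end U78
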