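import Mathlib
import Pool.Agent.W_78bee8_h33.Prep
import Pool.Agent.W_78bee8_h33.SliceC
import Pool.Agent.W_78bee8_h33.Epoch

/-!
# No local configurations
-/

namespace U78

open Set Pointwise

/-- index vector with entries `x`, `i`, `j` in the classes `a`, `a+1`, `a+2` -/
def idx3 {t : ℕ} (a : Fin 3) (x i j : Fin t) : Fin 3 → Fin t :=
  fun b => if b = a then x else if b = a + 1 then i else j

lemma idx3_a {t : ℕ} (a : Fin 3) (x i j : Fin t) : idx3 a x i j a = x := by
  simp [idx3]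

lemma idx3_b {t : ℕ} (a : Fin 3) (x i j : Fin t) : idx3 a x i j (a + 1) = i := by
  have : a + 1 ≠ a := by fin_cases a <;> decide
  simp [idx3, this]

lemma idx3_c {t : ℕ} (a : Fin 3) (x i j : Fin t) : idx3 a x i j (a + 2) = j := by
  have h1 : a + 2 ≠ a := by fin_cases a <;> decide
  have h2 : a + 2 ≠ a + 1 := by fin_cases a <;> decide
  simp [idx3, h1, h2]

/-- the region for two marked bodies of two groups of `m` bodies -/
lemma reg_mark {m : ℕ} (Y Z : Fin m → Set V) (B : Set V) (i j : Fin m) (x : V) (ε : ℝ) (s : Fin 4)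
    (w : V) :
    w ∈ Reg (Fin.append Y Z) B (Fin.append (fun i' => if i' = i then s else 1)
      (fun j' => if j' = j then s else 1)) x ε 0 0 ↔
      (St (Y i + B) w s ∧ St (Z j + B) w s ∧ (∀ i', i' ≠ i → w ∉ Y i' + B) ∧
        (∀ j', j' ≠ j → w ∉ Z j' + B) ∧ ‖w - x‖ ≤ ε) := by
  constructor
  · rintro ⟨h1, h2, -⟩
    refine ⟨?_, ?_, ?_, ?_, h2⟩
    · have := h1 (Fin.castAdd m i)
      simpa only [Fin.append_left, if_true] using this
    · have := h1 (Fin.natAdd m j)
      simpa only [Fin.append_right, if_true] using this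
    · intro i' hi'
      have := h1 (Fin.castAdd m i')
      simp only [Fin.append_left, if_neg hi'] at this
      exact this.2.1 rfl
    · intro i' hi'
      have := h1 (Fin.natAdd m i')
      simp only [Fin.append_right, if_neg hi'] at this
      exact this.2.1 rfl
  · rintro ⟨h1, h2, h3, h4, h5⟩
    refine ⟨fun k => ?_, h5, by simp⟩
    refine Fin.addCases (fun i' => ?_) (fun j' => ?_) k
    · simp only [Fin.append_left]
      by_cases h : i' = i
      · subst h
        simpa using h1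
      · rw [if_neg h]
        exact ⟨by simp, fun _ => h3 _ h, by simp⟩
    · simp only [Fin.append_right]
      by_cases h : j' = j
      · subst h
        simpa using h2
      · rw [if_neg h]
        exact ⟨by simp, fun _ => h4 _ h, by simp⟩

/-- NO LOCAL CONFIGURATIONS. PROOF. `M₁` from `hF.proj 2`, `m` from `no_slice M₁`, `M₂` from
`hF.proj (2 * m)` (or `hF.proj (m + m)`), `t = max m (2 * (m * m * M₂) + 1)`, `T` from `local_prep`.
Given `X` of size `T`; pass to the subconfiguration of `local_prep`, with `a`, `e`, `l`. Let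
`Y i = A (a+1) i + B`, `Z j = A (a+2) j + B` for `i, j < m` (`m ≤ t`). For a pair `(i,j)` let
`E i j` be the exceptional set of `hF.proj` for the `2 m` bodies, `σ = 2` (frontier) for `Y i` and
`Z j` and `σ = 1` (outside) for the others, `ε = 1/192`, no plane (`m = 0`, `e = 0`), functional `l`;
`E` = union of the `E i j`, `E.card ≤ m² M₂`. `epoch` for `h x (i,j) = l (τ v)`, `v a = x`,
`v (a+1) = i`, `v (a+2) = j` (if `l` is decreasing in the class `a`, use `h (rev x)`): there is `x`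
such that all values `h x (i,j)` are equal or no element of `E` lies between any two of them. Put
`c = h x (0,0)`. Since `τ v` is in the region for `(i,j)` at height `h x (i,j)`, there is a point
`p i j` of this region with `l (p i j) = c`. This is a `Slice m M₁ (e (a+1)) (e (a+2))`: `tY`, `tZ` are
`hF.proj` for the two bodies with `σ = (0,1)`, the plane `l = c` and the functional `a`. Contradiction
to `no_slice`. -/
theorem no_local (F : Set (Set V)) (hF : TameFam F) : ∃ T : ℕ, ∀ B : Set V, B ∈ F → Nice B →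
    ∀ (X : Cfg F B T) (x : V), ¬ ∀ v, ‖X.τ v - x‖ ≤ 1 / 192 := by
  obtain ⟨M₁, hM₁⟩ := hF.proj 2
  obtain ⟨m, hm2, hm⟩ := no_slice M₁
  obtain ⟨M₂, hM₂⟩ := hF.proj (m + m)
  obtain ⟨t, ht⟩ : ∃ t, t = max m (2 * (m * m * M₂) + 1) := ⟨_, rfl⟩
  have htm : m ≤ t := ht ▸ le_max_left _ _
  have htM : 2 * (m * m * M₂) < t := by
    have := le_max_right m (2 * (m * m * M₂) + 1)
    omega
  obtain ⟨T, hT⟩ := local_prep F t
  refine ⟨T, fun B hBF hB X x hx => ?_⟩
  obtain ⟨f, a, e, l, he, hcp, had, hmaj⟩ := hT B hB X x hx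
  obtain ⟨W, hW⟩ : ∃ W, W = X.sub f := ⟨_, rfl⟩
  rw [← hW] at hcp hmaj
  have hx' : ∀ v, ‖W.τ v - x‖ ≤ 1 / 192 := fun v => by
    rw [hW]
    exact hx _
  have hab : a + 1 ≠ a := by fin_cases a <;> decide
  have hac : a + 2 ≠ a := by fin_cases a <;> decide
  have hbc : a + 2 ≠ a + 1 := by fin_cases a <;> decide
  let em : Fin m → Fin t := Fin.castLE htm
  have hem : Function.Injective em := Fin.castLE_injective htm
  let Y : Fin m → Set V := fun i => W.A (a + 1) (em i)
  let Z : Fin m → Set V := fun i => W.A (a + 2) (em i)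
  have hmem : ∀ k, Fin.append Y Z k ∈ F := fun k => by
    refine Fin.addCases (fun i => ?_) (fun i => ?_) k
    · rw [Fin.append_left]; exact W.mem _ _
    · rw [Fin.append_right]; exact W.mem _ _
  choose E hEc hE using fun p : Fin m × Fin m =>
    hM₂ (Fin.append Y Z) B hmem hBF (Fin.append (fun i' => if i' = p.1 then 2 else 1)
      (fun j' => if j' = p.2 then 2 else 1)) x (1 / 192) 0 0 l
  let EE : Finset ℝ := Finset.univ.biUnion E
  have hEE : EE.card ≤ m * m * M₂ := by
    refine Finset.card_biUnion_le.trans ?_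
    refine (Finset.sum_le_sum fun p _ => hEc p).trans ?_
    simp
  let h : Fin t → Fin m × Fin m → ℝ := fun y p => l (W.τ (idx3 a y (em p.1) (em p.2)))
  have hm0 : 0 < m := by omega
  have : Nonempty (Fin m × Fin m) := ⟨(⟨0, hm0⟩, ⟨0, hm0⟩)⟩
  have hepoch : ∃ y, (∀ p p', h y p = h y p') ∨ (∀ p p', ∀ z ∈ EE, z ∉ Icc (h y p) (h y p')) := by
    rcases hmaj with hmaj | hmaj
    · refine epoch h (fun y y' hy p p' => (hmaj _ _ ?_).le) EE (by omega)
      rw [idx3_a, idx3_a]
      exact hy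
    · have hmono : ∀ y y' : Fin t, y < y' → ∀ p p' : Fin m × Fin m,
          h (Fin.rev y) p ≤ h (Fin.rev y') p' := by
        intro y y' hy p p'
        refine (hmaj _ _ ?_).le
        rw [idx3_a, idx3_a]
        exact Fin.rev_lt_rev.2 hy
      obtain ⟨y, hy⟩ := epoch (fun y => h (Fin.rev y)) hmono EE (by omega)
      exact ⟨Fin.rev y, hy⟩
  obtain ⟨y, hy⟩ := hepoch
  let p₀ : Fin m × Fin m := (⟨0, hm0⟩, ⟨0, hm0⟩)
  let c := h y p₀
  have hex : ∀ p : Fin m × Fin m, ∃ w, (w ∈ frontier (Y p.1 + B) ∧ w ∈ frontier (Z p.2 + B) ∧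
      (∀ i', i' ≠ p.1 → w ∉ Y i' + B) ∧ (∀ j', j' ≠ p.2 → w ∉ Z j' + B) ∧
        ‖w - x‖ ≤ 1 / 192) ∧ l w = c := by
    intro p
    have h1 : ∃ w ∈ Reg (Fin.append Y Z) B (Fin.append (fun i' => if i' = p.1 then 2 else 1)
      (fun j' => if j' = p.2 then 2 else 1)) x (1 / 192) 0 0, l w = h y p := by
      refine ⟨W.τ (idx3 a y (em p.1) (em p.2)), ?_, rfl⟩
      rw [reg_mark]
      refine ⟨⟨by simp, by simp, fun _ => ?_⟩, ⟨by simp, by simp, fun _ => ?_⟩, ?_, ?_, hx' _⟩
      · have := W.fr (idx3 a y (em p.1) (em p.2)) (a + 1)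
        rwa [idx3_b] at this
      · have := W.fr (idx3 a y (em p.1) (em p.2)) (a + 2)
        rwa [idx3_c] at this
      · intro i' hi'
        refine W.out _ (a + 1) (em i') ?_
        rw [idx3_b]
        exact fun h' => hi' (hem h').symm
      · intro i' hi'
        refine W.out _ (a + 2) (em i') ?_
        rw [idx3_c]
        exact fun h' => hi' (hem h').symm
    have h2 : ∃ w ∈ Reg (Fin.append Y Z) B (Fin.append (fun i' => if i' = p.1 then 2 else 1)
      (fun j' => if j' = p.2 then 2 else 1)) x (1 / 192) 0 0, l w = c := by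
      rcases hy with hy | hy
      · rw [hy p p₀] at h1
        exact h1
      · rcases le_total (h y p) (h y p₀) with hle | hle
        · refine (hE p _ _ hle fun z hz => hy p p₀ z ?_).1 h1
          exact Finset.mem_biUnion.2 ⟨p, Finset.mem_univ _, hz⟩
        · refine (hE p _ _ hle fun z hz => hy p₀ p z ?_).2 h1
          exact Finset.mem_biUnion.2 ⟨p, Finset.mem_univ _, hz⟩
    obtain ⟨w, hw, hwc⟩ := h2
    rw [reg_mark] at hw
    exact ⟨w, ⟨hw.1.2.2 rfl, hw.2.1.2.2 rfl, hw.2.2⟩, hwc⟩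
  choose q hq hqc using hex
  have tame : ∀ (b : Fin 3) (i i' : Fin m) (r : V →ₗ[ℝ] ℝ), ∃ E : Finset ℝ, E.card ≤ M₁ ∧
      ∀ s s' : ℝ, s ≤ s' → (∀ z ∈ E, z ∉ Icc s s') →
      ((∃ w, w ∈ W.A b (em i) + B ∧ w ∉ W.A b (em i') + B ∧ ‖w - x‖ ≤ 1 / 192 ∧ l w = c ∧
          r w = s) ↔
        (∃ w, w ∈ W.A b (em i) + B ∧ w ∉ W.A b (em i') + B ∧ ‖w - x‖ ≤ 1 / 192 ∧ l w = c ∧
          r w = s')) := by
    intro b i i' r
    obtain ⟨E', h1, h2⟩ := hM₁ ![W.A b (em i), W.A b (em i')] B
      (fun k => by fin_cases k <;> exact W.mem _ _) hBF ![0, 1] x (1 / 192) l c r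
    refine ⟨E', h1, fun s s' hs hz => ?_⟩
    have h3 := h2 s s' hs hz
    have h4 : ∀ w, w ∈ Reg ![W.A b (em i), W.A b (em i')] B ![0, 1] x (1 / 192) l c ↔
        (w ∈ W.A b (em i) + B ∧ w ∉ W.A b (em i') + B ∧ ‖w - x‖ ≤ 1 / 192 ∧ l w = c) := by
      intro w
      constructor
      · rintro ⟨k1, k2, k3⟩
        exact ⟨(k1 0).1 rfl, (k1 1).2.1 rfl, k2, k3⟩
      · rintro ⟨k1, k2, k3, k4⟩
        refine ⟨fun k => ?_, k3, k4⟩
        fin_cases k
        · exact ⟨fun _ => k1, by simp, by simp⟩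
        · exact ⟨by simp, fun _ => k2, by simp⟩
    simp only [h4] at h3
    constructor
    · rintro ⟨w, k1, k2, k3, k4, k5⟩
      obtain ⟨w', ⟨k1, k2, k3, k4⟩, k5⟩ := h3.1 ⟨w, ⟨k1, k2, k3, k4⟩, k5⟩
      exact ⟨w', k1, k2, k3, k4, k5⟩
    · rintro ⟨w, k1, k2, k3, k4, k5⟩
      obtain ⟨w', ⟨k1, k2, k3, k4⟩, k5⟩ := h3.2 ⟨w, ⟨k1, k2, k3, k4⟩, k5⟩
      exact ⟨w', k1, k2, k3, k4, k5⟩
  refine (hm (e (a + 1)) (e (a + 2)) (he _) (he _)).elim
    { x := x
      l := l
      c := c
      Y := fun i => Y i + B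
      Z := fun i => Z i + B
      p := fun i j => q (i, j)
      Ycl := fun i => ((W.cpt _ _).add hB.cpt).isClosed
      Zcl := fun i => ((W.cpt _ _).add hB.cpt).isClosed
      Ycp := fun i => hcp _ _
      Zcp := fun i => hcp _ _
      ad := had
      px := fun i j => (hq (i, j)).2.2.2.2
      pl := fun i j => hqc _
      pY := fun i j => (hq (i, j)).1
      pZ := fun i j => (hq (i, j)).2.1
      pY' := fun i j i' hi' => (hq (i, j)).2.2.1 i' hi'
      pZ' := fun i j j' hj' => (hq (i, j)).2.2.2.1 j' hj'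
      tY := fun i i' r => tame (a + 1) i i' r
      tZ := fun i i' r => tame (a + 2) i i' r }

end U78
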