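import Mathlib
import Pool.Agent.W_78bee8_h33.Defs

/-!
# Legs of placements
-/

namespace U78

open Set Pointwise

lemma leg_aux {B : Set V} (hB : Convex ℝ B) (h0 : (0 : V) ∈ B) {a a' w w' x : V} (h1 : w - a ∈ B)
    (h2 : w' - a' ∈ B) (h3 : w - a' ∉ B) {s s' : ℝ} (hs1 : s ≤ 1) (hs'0 : 0 ≤ s')
    (hss : s' ≤ s) (hx : (1 - s) • a + s • w = x) (hx' : (1 - s') • a' + s' • w' = x) : False := by
  apply h3
  have hmem : (1 - s) • (w - a) + s' • (w' - a') + (s - s') • (0 : V) ∈ B := by
    have := hB.sum_mem (t := (Finset.univ : Finset (Fin 3))) (w := ![1 - s, s', s - s'])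
      (z := ![w - a, w' - a', 0]) ?_ ?_ ?_
    · simpa [Fin.sum_univ_three] using this
    · intro i _
      fin_cases i
      · simpa using hs1
      · simpa using hs'0
      · simpa using hss
    · simp [Fin.sum_univ_three]
    · intro i _
      fin_cases i
      · simpa using h1
      · simpa using h2
      · simpa using h0
  have heq : w - a' = (1 - s) • (w - a) + s' • (w' - a') + (s - s') • (0 : V) := by
    have h : (1 - s) • a + s • w = (1 - s') • a' + s' • w' := hx.trans hx'.symm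
    funext i
    have hi := congrFun h i
    simp only [Pi.add_apply, Pi.smul_apply, Pi.sub_apply, Pi.zero_apply, smul_eq_mul] at hi ⊢
    linarith
  rw [heq]
  exact hmem

/-- LEG LEMMA. PROOF: let `β = w - a`, `β' = w' - a'`, and suppose
`a + s β = a' + s' β'` with `s, s' ∈ [0,1]`. By symmetry `s' ≤ s`. Then
`w - a' = (a + s β) + (1 - s) β - a' = s' β' + (1 - s) β + (s - s') 0 ∈ B`, a contradiction. -/
theorem leg {B : Set V} (hB : Convex ℝ B) (h0 : (0 : V) ∈ B) {a a' w w' : V} (h1 : w - a ∈ B)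
    (h2 : w' - a' ∈ B) (h3 : w - a' ∉ B) (h4 : w' - a ∉ B) :
    Disjoint (segment ℝ a w) (segment ℝ a' w') := by
  rw [Set.disjoint_left]
  intro x hx hx'
  rw [segment_eq_image] at hx hx'
  obtain ⟨s, hs, hx⟩ := hx
  obtain ⟨s', hs', hx'⟩ := hx'
  rcases le_total s' s with h | h
  · exact leg_aux hB h0 h1 h2 h3 hs.2 hs'.1 h hx hx'
  · exact leg_aux hB h0 h2 h1 h4 hs'.2 hs.1 h hx' hx

end U78
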