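import Mathlib

/-!
# Continuous logarithms on the square
-/

namespace U78

open Set Complex

/-- A continuous nonvanishing function on the unit square has a continuous logarithm.
PROOF. By uniform continuity and `|F| ≥ μ > 0` choose `n` such that `|F p - F p'| < μ` for
`dist p p' ≤ 2 / n`; then define the logarithm on small squares successively; or: use the covering
map `Complex.exp : ℂ → ℂˣ`/`{z // z ≠ 0}` and the lifting theorem for simply connected spaces
(Mathlib: `IsCoveringMap...liftPath`, `existsUnique_continuousMap_lifts`, homotopy lifting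
`IsCoveringMap.exists_path_lifts`, `IsCoveringMap.monodromy...`), or: homotopy
`G s' (s,t) = F (s' * s, s' * t)` and the ODE/partition `F = F (0,0) * ∏ (quotients close to 1)`,
`L p = log F 0 + ∑_{k<n} log (F ((k+1)/n • p) / F (k/n • p))` where all quotients lie in the disc
`|z - 1| < 1` on which `Complex.log` is continuous. (The last one is short: the square is
star-shaped about `(0,0)`.) -/
theorem exists_log_square (F : ℝ × ℝ → ℂ) (hF : ContinuousOn F (Icc 0 1 ×ˢ Icc 0 1))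
    (h0 : ∀ p ∈ (Icc 0 1 ×ˢ Icc 0 1 : Set (ℝ × ℝ)), F p ≠ 0) :
    ∃ L : ℝ × ℝ → ℂ, ContinuousOn L (Icc 0 1 ×ˢ Icc 0 1) ∧
      ∀ p ∈ (Icc 0 1 ×ˢ Icc 0 1 : Set (ℝ × ℝ)), Complex.exp (L p) = F p := by
  set K : Set (ℝ × ℝ) := Icc 0 1 ×ˢ Icc 0 1 with hK
  have hKc : IsCompact K := isCompact_Icc.prod isCompact_Icc
  have hK0 : (0 : ℝ × ℝ) ∈ K := ⟨⟨le_rfl, zero_le_one⟩, ⟨le_rfl, zero_le_one⟩⟩
  -- lower bound
  obtain ⟨p0, hp0, hmin⟩ := hKc.exists_isMinOn ⟨0, hK0⟩ hF.norm
  have hμ : 0 < ‖F p0‖ := norm_pos_iff.mpr (h0 p0 hp0)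
  have hmin' : ∀ p ∈ K, ‖F p0‖ ≤ ‖F p‖ := fun p hp => hmin hp
  -- uniform continuity
  have huc := hKc.uniformContinuousOn_of_continuous hF
  rw [Metric.uniformContinuousOn_iff] at huc
  obtain ⟨δ, hδ, huc⟩ := huc ‖F p0‖ hμ
  obtain ⟨n, hn⟩ := exists_nat_one_div_lt hδ
  set N : ℝ := (n : ℝ) + 1 with hN
  have hN0 : 0 < N := by positivity
  -- scaling stays in `K`
  have hsc : ∀ (k : ℕ), k ≤ n + 1 → ∀ p ∈ K, ((k : ℝ) / N) • p ∈ K := by
    intro k hk p hp
    have hk1 : (k : ℝ) / N ≤ 1 := by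
      rw [div_le_one hN0, hN]
      exact_mod_cast hk
    have hk0 : 0 ≤ (k : ℝ) / N := by positivity
    simp only [hK, mem_prod, mem_Icc] at hp ⊢
    obtain ⟨⟨h1, h2⟩, ⟨h3, h4⟩⟩ := hp
    simp only [Prod.smul_fst, Prod.smul_snd, smul_eq_mul]
    exact ⟨⟨by positivity, mul_le_one₀ hk1 h1 h2⟩, ⟨by positivity, mul_le_one₀ hk1 h3 h4⟩⟩
  have hcont : ∀ (k : ℕ), k ≤ n + 1 → ContinuousOn (fun p => F (((k : ℝ) / N) • p)) K := by
    intro k hk
    exact hF.comp (by fun_prop) (fun p hp => hsc k hk p hp)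
  have hslit : ∀ (k : ℕ), k < n + 1 → ∀ p ∈ K,
      F ((((k + 1 : ℕ) : ℝ) / N) • p) / F (((k : ℝ) / N) • p) ∈ slitPlane := by
    intro k hk p hp
    have h1 := hsc k hk.le p hp
    have h2 := hsc (k + 1) hk p hp
    have hd : dist ((((k + 1 : ℕ) : ℝ) / N) • p) (((k : ℝ) / N) • p) < δ := by
      rw [dist_eq_norm, ← sub_smul, norm_smul]
      have h3 : ((k + 1 : ℕ) : ℝ) / N - (k : ℝ) / N = 1 / N := by
        push_cast
        ring
      rw [h3, Real.norm_of_nonneg (by positivity)]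
      have h4 : ‖p‖ ≤ 1 := by
        simp only [hK, mem_prod, mem_Icc] at hp
        rw [Prod.norm_def, max_le_iff, Real.norm_eq_abs, Real.norm_eq_abs, abs_le, abs_le]
        obtain ⟨⟨h1, h2⟩, ⟨h3, h4⟩⟩ := hp
        exact ⟨⟨by linarith, h2⟩, ⟨by linarith, h4⟩⟩
      calc 1 / N * ‖p‖ ≤ 1 / N * 1 := by gcongr
        _ = 1 / ((n : ℝ) + 1) := by rw [mul_one]
        _ < δ := hn
    have h5 := huc _ h2 _ h1 hd
    rw [dist_eq_norm] at h5
    have h6 : F (((k : ℝ) / N) • p) ≠ 0 := h0 _ h1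
    have h7 : F ((((k + 1 : ℕ) : ℝ) / N) • p) / F (((k : ℝ) / N) • p) =
        1 + (F ((((k + 1 : ℕ) : ℝ) / N) • p) - F (((k : ℝ) / N) • p)) /
          F (((k : ℝ) / N) • p) := by
      field_simp
      ring
    rw [h7]
    apply mem_slitPlane_of_norm_lt_one
    rw [norm_div, div_lt_one (norm_pos_iff.mpr h6)]
    exact h5.trans_le (hmin' _ h1)
  refine ⟨fun p => Complex.log (F 0) + ∑ k ∈ Finset.range (n + 1),
    Complex.log (F ((((k + 1 : ℕ) : ℝ) / N) • p) / F (((k : ℝ) / N) • p)), ?_, ?_⟩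
  · refine continuousOn_const.add (continuousOn_finsetSum _ fun k hk => ?_)
    rw [Finset.mem_range] at hk
    refine ContinuousOn.clog ((hcont (k + 1) hk).div (hcont k hk.le) fun p hp => ?_)
      (hslit k hk)
    exact h0 _ (hsc k hk.le p hp)
  · intro p hp
    have key : ∀ m : ℕ, m ≤ n + 1 → Complex.exp (Complex.log (F 0) + ∑ k ∈ Finset.range m,
        Complex.log (F ((((k + 1 : ℕ) : ℝ) / N) • p) / F (((k : ℝ) / N) • p))) =
        F (((m : ℝ) / N) • p) := by
      intro m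
      induction m with
      | zero =>
        intro _
        simp [Complex.exp_log (h0 0 hK0)]
      | succ m ih =>
        intro hm
        rw [Finset.sum_range_succ, ← add_assoc, Complex.exp_add, ih (by omega),
          Complex.exp_log (slitPlane_ne_zero (hslit m (by omega) p hp))]
        have := h0 _ (hsc m (by omega) p hp)
        field_simp
    have := key (n + 1) le_rfl
    rw [this]
    have h8 : (((n + 1 : ℕ) : ℝ) / N) = 1 := by
      rw [hN]
      push_cast
      exact div_self (by positivity)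
    rw [h8, one_smul]

end U78
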