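import Mathlib
import Pool.Agent.W_78bee8_h33.LogSq

/-!
# `K_{3,3}` is not planar: winding number argument
-/

namespace U78

open Set Complex

/-- `r` is the variation of the argument of `γ - q` along the path `γ`. -/
def IsW {u v : ℂ} (γ : Path u v) (q : ℂ) (r : ℝ) : Prop :=
  ∃ l : ℝ → ℂ, ContinuousOn l (Icc 0 1) ∧
    (∀ s ∈ Icc (0 : ℝ) 1, Complex.exp (l s) = γ.extend s - q) ∧ r = (l 1 - l 0).im

/-- A continuous integer valued function on `[0,1]` takes the same value at the ends. -/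
theorem int_valued_const {h : ℝ → ℝ} (hc : ContinuousOn h (Icc 0 1))
    (hi : ∀ s ∈ Icc (0 : ℝ) 1, ∃ m : ℤ, h s = m) : h 0 = h 1 := by
  obtain ⟨m0, hm0⟩ := hi 0 ⟨le_rfl, zero_le_one⟩
  obtain ⟨m1, hm1⟩ := hi 1 ⟨zero_le_one, le_rfl⟩
  by_contra hne
  rcases lt_or_gt_of_ne hne with hlt | hlt
  · have hm : m0 < m1 := by
      rw [hm0, hm1] at hlt
      exact_mod_cast hlt
    have hm' : (m0 : ℝ) + 1 ≤ m1 := by exact_mod_cast hm
    have hmem : (m0 : ℝ) + 1 / 2 ∈ Icc (h 0) (h 1) := by
      rw [hm0, hm1]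
      constructor <;> linarith
    obtain ⟨s, hs, hs'⟩ := intermediate_value_Icc zero_le_one hc hmem
    obtain ⟨m, hm2⟩ := hi s hs
    rw [hm2] at hs'
    have h3 : (2 * m : ℝ) = 2 * m0 + 1 := by linarith
    have h4 : 2 * m = 2 * m0 + 1 := by exact_mod_cast h3
    omega
  · have hm : m1 < m0 := by
      rw [hm0, hm1] at hlt
      exact_mod_cast hlt
    have hm' : (m1 : ℝ) + 1 ≤ m0 := by exact_mod_cast hm
    have hmem : (m1 : ℝ) + 1 / 2 ∈ Icc (h 1) (h 0) := by
      rw [hm0, hm1]
      constructor <;> linarith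
    obtain ⟨s, hs, hs'⟩ := intermediate_value_Icc' zero_le_one hc hmem
    obtain ⟨m, hm2⟩ := hi s hs
    rw [hm2] at hs'
    have h3 : (2 * m : ℝ) = 2 * m1 + 1 := by linarith
    have h4 : 2 * m = 2 * m1 + 1 := by exact_mod_cast h3
    omega

theorem IsW.unique {u v : ℂ} {γ : Path u v} {q : ℂ} {r r' : ℝ} (h : IsW γ q r)
    (h' : IsW γ q r') : r = r' := by
  obtain ⟨l, hl, hle, rfl⟩ := h
  obtain ⟨l', hl', hle', rfl⟩ := h'
  have hpi : (2 * Real.pi) ≠ 0 := by positivity
  have key := int_valued_const (h := fun s => (l s - l' s).im / (2 * Real.pi)) (by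
      have : ContinuousOn (fun s => l s - l' s) (Icc 0 1) := hl.sub hl'
      exact (Complex.continuous_im.comp_continuousOn this).div_const _) (by
      intro s hs
      have h1 : Complex.exp (l s) = Complex.exp (l' s) := by rw [hle s hs, hle' s hs]
      rw [Complex.exp_eq_exp_iff_exists_int] at h1
      obtain ⟨n, hn⟩ := h1
      refine ⟨n, ?_⟩
      have h2 : l s - l' s = n * (2 * Real.pi * I) := by rw [hn]; ring
      have h3 : (l s - l' s).im = n * (2 * Real.pi) := by
        rw [h2]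
        simp
      rw [h3]
      field_simp)
  have key' : (l 0 - l' 0).im / (2 * Real.pi) = (l 1 - l' 1).im / (2 * Real.pi) := key
  rw [div_left_inj' hpi] at key'
  simp only [Complex.sub_im] at key' ⊢
  linarith

theorem four_term {u v x w : ℂ} (γ : Path u v) (η : Path x w)
    (hd : Disjoint (range γ) (range η)) :
    ∃ a b c d : ℝ, IsW γ x a ∧ IsW η v b ∧ IsW γ w c ∧ IsW η u d ∧ a + b - c - d = 0 := by
  have hne : ∀ s t : ℝ, γ.extend s - η.extend t ≠ 0 := by
    intro s t h
    rw [sub_eq_zero] at h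
    have h1 : γ.extend s ∈ range γ := by
      rw [← γ.extend_range]
      exact mem_range_self s
    have h2 : η.extend t ∈ range η := by
      rw [← η.extend_range]
      exact mem_range_self t
    rw [h] at h1
    exact Set.disjoint_left.mp hd h1 h2
  obtain ⟨L, hL, hLe⟩ := exists_log_square (fun p => γ.extend p.1 - η.extend p.2)
    (by
      apply Continuous.continuousOn
      exact (γ.continuous_extend.comp continuous_fst).sub
        (η.continuous_extend.comp continuous_snd)) (fun p _ => hne _ _)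
  have hm : ∀ s ∈ Icc (0 : ℝ) 1, ∀ t ∈ Icc (0 : ℝ) 1,
      (s, t) ∈ (Icc 0 1 ×ˢ Icc 0 1 : Set (ℝ × ℝ)) := fun s hs t ht => ⟨hs, ht⟩
  have h0 : (0 : ℝ) ∈ Icc (0 : ℝ) 1 := ⟨le_rfl, zero_le_one⟩
  have h1 : (1 : ℝ) ∈ Icc (0 : ℝ) 1 := ⟨zero_le_one, le_rfl⟩
  have hpi : Complex.exp (Real.pi * I) = -1 := Complex.exp_pi_mul_I
  refine ⟨(L (1, 0) - L (0, 0)).im, (L (1, 1) - L (1, 0)).im, (L (1, 1) - L (0, 1)).im,
    (L (0, 1) - L (0, 0)).im, ?_, ?_, ?_, ?_, ?_⟩
  · refine ⟨fun s => L (s, 0), ?_, ?_, rfl⟩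
    · exact hL.comp (by fun_prop) (fun s hs => hm s hs 0 h0)
    · intro s hs
      have := hLe _ (hm s hs 0 h0)
      simpa using this
  · refine ⟨fun t => L (1, t) + Real.pi * I, ?_, ?_, ?_⟩
    · exact (hL.comp (by fun_prop) (fun s hs => hm 1 h1 s hs)).add continuousOn_const
    · intro s hs
      have := hLe _ (hm 1 h1 s hs)
      rw [Complex.exp_add, hpi, this]
      simp
    · congr 1
      ring
  · refine ⟨fun s => L (s, 1), ?_, ?_, rfl⟩
    · exact hL.comp (by fun_prop) (fun s hs => hm s hs 1 h1)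
    · intro s hs
      have := hLe _ (hm s hs 1 h1)
      simpa using this
  · refine ⟨fun t => L (0, t) + Real.pi * I, ?_, ?_, ?_⟩
    · exact (hL.comp (by fun_prop) (fun s hs => hm 0 h0 s hs)).add continuousOn_const
    · intro s hs
      have := hLe _ (hm 0 h0 s hs)
      rw [Complex.exp_add, hpi, this]
      simp
    · congr 1
      ring
  · simp only [Complex.sub_im]
    ring

theorem exists_isW {u v : ℂ} (γ : Path u v) {q : ℂ} (hq : q ∉ range γ) : ∃ r, IsW γ q r := by
  obtain ⟨a, _, _, _, ha, _⟩ := four_term γ (Path.refl q) (by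
    rw [Path.refl_range, Set.disjoint_singleton_right]
    exact hq)
  exact ⟨a, ha⟩

theorem log_of_exp {l z : ℂ} (h : Complex.exp l = z) :
    ∃ n : ℤ, l.im = z.arg + 2 * Real.pi * n := by
  have hz : z ≠ 0 := by rw [← h]; exact Complex.exp_ne_zero _
  have h1 : Complex.exp l = Complex.exp (Complex.log z) := by rw [h, Complex.exp_log hz]
  rw [Complex.exp_eq_exp_iff_exists_int] at h1
  obtain ⟨n, hn⟩ := h1
  refine ⟨n, ?_⟩
  have h2 : l.im = (Complex.log z).im + n * (2 * Real.pi) := by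
    rw [hn]
    simp
  rw [h2, Complex.log_im]
  ring

theorem IsW.arg {u v : ℂ} {γ : Path u v} {q : ℂ} {r : ℝ} (h : IsW γ q r) :
    ∃ n : ℤ, r = (v - q).arg - (u - q).arg + 2 * Real.pi * n := by
  obtain ⟨l, hl, hle, rfl⟩ := h
  have h0 := hle 0 ⟨le_rfl, zero_le_one⟩
  have h1 := hle 1 ⟨zero_le_one, le_rfl⟩
  rw [γ.extend_zero] at h0
  rw [γ.extend_one] at h1
  obtain ⟨n0, hn0⟩ := log_of_exp h0
  obtain ⟨n1, hn1⟩ := log_of_exp h1
  refine ⟨n1 - n0, ?_⟩
  rw [Complex.sub_im, hn0, hn1]
  push_cast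
  ring

theorem arg_swap {p q : ℂ} (h : p ≠ q) :
    ∃ m : ℤ, (p - q).arg - (q - p).arg = Real.pi * (1 + 2 * m) := by
  have hz : q - p ≠ 0 := sub_ne_zero.mpr h.symm
  have h1 : Complex.exp (Complex.log (q - p) + Real.pi * I) = p - q := by
    rw [Complex.exp_add, Complex.exp_log hz, Complex.exp_pi_mul_I]
    ring
  obtain ⟨n, hn⟩ := log_of_exp h1
  refine ⟨-n, ?_⟩
  have h2 : (Complex.log (q - p) + Real.pi * I).im = (q - p).arg + Real.pi := by
    simp [Complex.log_im]
  rw [h2] at hn
  push_cast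
  linarith

/-- There are no nine paths joining three points `y i` to three points `z j` such that paths
without common end points are disjoint.

PROOF. All six points are distinct (e.g. `y i ∈ range (e i j)`, `y i' ∈ range (e i' j')`; `y i` is
the source of `e i j'` and `z j` is the target of `e i' j`). For an edge `e = e i j` and a vertex
`q` different from its ends, `q` is not on `e` (it is an end of an edge disjoint from `e`), so
`s ↦ e s - q` has a continuous logarithm `λ` on `[0,1]`; let `W e q = Im (λ 1 - λ 0)`. It does not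
depend on the logarithm (two continuous logarithms differ by a constant).
(1) For disjoint edges `e : u → v`, `f : x → y` apply `exists_log_square` to `F(s,t) = e s - f t`:
`s ↦ L(s,0)` is a logarithm of `e s - x`, `s ↦ L(s,1)` of `e s - y`, `t ↦ L(0,t) + iπ` of
`f t - u`, `t ↦ L(1,t) + iπ` of `f t - v`. Hence
`W e x + W f v - W e y - W f u = 0`.
(2) Let `θ p q = arg (p - q)` for distinct vertices; `W e q = θ v q - θ u q + 2π n(e,q)` with an
integer `n(e,q)`, since `exp (λ 1) = v - q` and `exp (λ 0) = u - q`. And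
`θ p q - θ q p = π (1 - 2 β(p,q))` with `β(p,q) ∈ {0,1}`, `β(p,q) + β(q,p) = 1` (`arg (-z)` is
`arg z ± π`; `Complex.arg_neg_eq_arg_sub_pi_iff` etc. or through `exp`).
(3) Inserting (2) in (1) and dividing by `2π`:
`-β(v,x) + β(u,x) + β(v,y) - β(u,y) + n(e,x) - n(e,y) + n(f,v) - n(f,u) = 0`.
(4) Modulo 2, summed over the 18 pairs `e = e i j`, `f = e i' j'` with `i < i'`, `j ≠ j'`
(`u = y i`, `v = z j`, `x = y i'`, `y = z j'`):
every `n(e i j, y i')` (`i' ≠ i`) occurs twice (the two values of the other index), every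
`n(e i j, z j')` (`j' ≠ j`) occurs twice (the two values of `i' ≠ i`, once as first and once as
second edge, or twice in the same role), `β(z j, y i')` and `β(y i, z j')` occur twice,
`β(y i, y i')` occurs 6 times, `β(z j, z j')` is summed over all ordered pairs `j ≠ j'`
(sum `= 3`) and over three pairs `i < i'`: contribution `9`. So `9 = 0` modulo 2.
(In Lean: get all integer relations, then `omega`, or sum them up with `decide`-style bookkeeping:
`n : Fin 3 → Fin 3 → (Fin 3 ⊕ Fin 3) → ℤ`, `β : (Fin 3 ⊕ Fin 3) → (Fin 3 ⊕ Fin 3) → ℤ`;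
18 relations, `omega` does it.) -/
theorem k33 (y z : Fin 3 → ℂ) (e : ∀ i j, Path (y i) (z j))
    (h : ∀ i j i' j', i ≠ i' → j ≠ j' → Disjoint (range (e i j)) (range (e i' j'))) : False := by
  classical
  have hother : ∀ i : Fin 3, ∃ i' : Fin 3, i ≠ i' := by decide
  have hys : ∀ i j, y i ∈ range (e i j) := fun i j => ⟨0, (e i j).source⟩
  have hzs : ∀ i j, z j ∈ range (e i j) := fun i j => ⟨1, (e i j).target⟩
  -- vertices off edges
  have hyoff : ∀ i j i', i ≠ i' → y i' ∉ range (e i j) := by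
    intro i j i' hi hmem
    obtain ⟨j', hj'⟩ := hother j
    exact Set.disjoint_left.mp (h i j i' j' hi hj') hmem (hys i' j')
  have hzoff : ∀ i j j', j ≠ j' → z j' ∉ range (e i j) := by
    intro i j j' hj hmem
    obtain ⟨i', hi'⟩ := hother i
    exact Set.disjoint_left.mp (h i j i' j' hi' hj) hmem (hzs i' j')
  have hyy : ∀ i i', i ≠ i' → y i ≠ y i' := by
    intro i i' hi heq
    exact hyoff i 0 i' hi (heq ▸ hys i 0)
  have hzz : ∀ j j', j ≠ j' → z j ≠ z j' := by
    intro j j' hj heq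
    exact hzoff 0 j j' hj (heq ▸ hzs 0 j)
  have hyz : ∀ i j, y i ≠ z j := by
    intro i j heq
    obtain ⟨j', hj'⟩ := hother j
    exact hzoff i j' j hj'.symm (heq ▸ hys i j')
  -- winding numbers
  have hWy : ∀ i j i', ∃ r : ℝ, ∃ n : ℤ, i ≠ i' → (IsW (e i j) (y i') r ∧
      r = (z j - y i').arg - (y i - y i').arg + 2 * Real.pi * n) := by
    intro i j i'
    by_cases hi : i = i'
    · exact ⟨0, 0, fun h => absurd hi h⟩
    · obtain ⟨r, hr⟩ := exists_isW (e i j) (hyoff i j i' hi)
      obtain ⟨n, hn⟩ := hr.arg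
      exact ⟨r, n, fun _ => ⟨hr, hn⟩⟩
  have hWz : ∀ i j j', ∃ r : ℝ, ∃ n : ℤ, j ≠ j' → (IsW (e i j) (z j') r ∧
      r = (z j - z j').arg - (y i - z j').arg + 2 * Real.pi * n) := by
    intro i j j'
    by_cases hj : j = j'
    · exact ⟨0, 0, fun h => absurd hj h⟩
    · obtain ⟨r, hr⟩ := exists_isW (e i j) (hzoff i j j' hj)
      obtain ⟨n, hn⟩ := hr.arg
      exact ⟨r, n, fun _ => ⟨hr, hn⟩⟩
  choose Wy ny hy using hWy
  choose Wz nz hz using hWz
  have hkyy : ∀ i i', ∃ m : ℤ, i ≠ i' → (y i - y i').arg - (y i' - y i).arg =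
      Real.pi * (1 + 2 * m) := by
    intro i i'
    by_cases hi : i = i'
    · exact ⟨0, fun h => absurd hi h⟩
    · obtain ⟨m, hm⟩ := arg_swap (hyy i i' hi)
      exact ⟨m, fun _ => hm⟩
  have hkzz : ∀ i i', ∃ m : ℤ, i ≠ i' → (z i - z i').arg - (z i' - z i).arg =
      Real.pi * (1 + 2 * m) := by
    intro i i'
    by_cases hi : i = i'
    · exact ⟨0, fun h => absurd hi h⟩
    · obtain ⟨m, hm⟩ := arg_swap (hzz i i' hi)
      exact ⟨m, fun _ => hm⟩
  have hkyz : ∀ i j, ∃ m : ℤ, (y i - z j).arg - (z j - y i).arg =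
      Real.pi * (1 + 2 * m) := fun i j => arg_swap (hyz i j)
  choose kyy hkyy using hkyy
  choose kzz hkzz using hkzz
  choose kyz hkyz using hkyz
  have hpi := Real.pi_pos
  -- the antisymmetry relations
  have akzz : ∀ i i', i ≠ i' → kzz i i' + kzz i' i = -1 := by
    intro i i' hi
    have h1 := hkzz i i' hi
    have h2 := hkzz i' i hi.symm
    have h3 : Real.pi * ((kzz i i' : ℝ) + kzz i' i + 1) = 0 := by linarith
    have h4 : (kzz i i' : ℝ) + kzz i' i + 1 = 0 := by
      rcases mul_eq_zero.mp h3 with h5 | h5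
      · exact absurd h5 hpi.ne'
      · exact h5
    have h5 : kzz i i' + kzz i' i + 1 = 0 := by exact_mod_cast h4
    omega
  -- the main relation
  have rel : ∀ i j i' j', i ≠ i' → j ≠ j' →
      (-1 - kyz i' j) - kyy i i' - kzz j j' + kyz i j' + ny i j i' + nz i' j' j
        - nz i j j' - ny i' j' i = 0 := by
    intro i j i' j' hi hj
    obtain ⟨a, b, c, d, ha, hb, hc, hd, habcd⟩ := four_term (e i j) (e i' j') (h i j i' j' hi hj)
    obtain ⟨h1, h1'⟩ := hy i j i' hi
    obtain ⟨h2, h2'⟩ := hz i' j' j hj.symm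
    obtain ⟨h3, h3'⟩ := hz i j j' hj
    obtain ⟨h4, h4'⟩ := hy i' j' i hi.symm
    have e1 := ha.unique h1
    have e2 := hb.unique h2
    have e3 := hc.unique h3
    have e4 := hd.unique h4
    have k1 := hkyz i' j
    have k2 := hkyy i i' hi
    have k3 := hkzz j j' hj
    have k4 := hkyz i j'
    have key : Real.pi * (2 * ((-1 - (kyz i' j : ℝ)) - kyy i i' - kzz j j' + kyz i j' +
        ny i j i' + nz i' j' j - nz i j j' - ny i' j' i)) = 0 := by
      rw [e1, e2, e3, e4, h1', h2', h3', h4'] at habcd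
      linarith
    have key2 : (-1 - (kyz i' j : ℝ)) - kyy i i' - kzz j j' + kyz i j' +
        ny i j i' + nz i' j' j - nz i j j' - ny i' j' i = 0 := by
      rcases mul_eq_zero.mp key with h5 | h5
      · exact absurd h5 hpi.ne'
      · linarith
    exact_mod_cast key2
  have r1 := rel 0 0 1 1 (by decide) (by decide)
  have r2 := rel 0 0 1 2 (by decide) (by decide)
  have r3 := rel 0 1 1 0 (by decide) (by decide)
  have r4 := rel 0 1 1 2 (by decide) (by decide)
  have r5 := rel 0 2 1 0 (by decide) (by decide)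
  have r6 := rel 0 2 1 1 (by decide) (by decide)
  have r7 := rel 0 0 2 1 (by decide) (by decide)
  have r8 := rel 0 0 2 2 (by decide) (by decide)
  have r9 := rel 0 1 2 0 (by decide) (by decide)
  have r10 := rel 0 1 2 2 (by decide) (by decide)
  have r11 := rel 0 2 2 0 (by decide) (by decide)
  have r12 := rel 0 2 2 1 (by decide) (by decide)
  have r13 := rel 1 0 2 1 (by decide) (by decide)
  have r14 := rel 1 0 2 2 (by decide) (by decide)
  have r15 := rel 1 1 2 0 (by decide) (by decide)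
  have r16 := rel 1 1 2 2 (by decide) (by decide)
  have r17 := rel 1 2 2 0 (by decide) (by decide)
  have r18 := rel 1 2 2 1 (by decide) (by decide)
  have a1 := akzz 0 1 (by decide)
  have a2 := akzz 0 2 (by decide)
  have a3 := akzz 1 2 (by decide)
  clear rel akzz hy hz hkyy hkzz hkyz
  omega

end U78
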