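import Mathlib
import Pool.Agent.W_78bee8_h33.Defs
import Pool.Agent.W_78bee8_h33.K33

/-!
# `K_{3,3}` in a plane of `V`
-/

namespace U78

open Set Pointwise

/-- a linear map to the complex plane which is injective on the planes `l = c` -/
lemma plane_proj (l : V →ₗ[ℝ] ℝ) (hl : l ≠ 0) :
    ∃ T : V →ₗ[ℝ] ℂ, ∀ v v' : V, l v = l v' → T v = T v' → v = v' := by
  have h1 : Module.finrank ℝ (LinearMap.ker l) + 1 = Module.finrank ℝ V :=
    Module.Dual.finrank_ker_add_one_of_ne_zero hl
  have h2 : Module.finrank ℝ V = 3 := by simp [V]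
  have h3 : Module.finrank ℝ (LinearMap.ker l) = Module.finrank ℝ ℂ := by
    rw [Complex.finrank_real_complex]
    omega
  let φ : LinearMap.ker l ≃ₗ[ℝ] ℂ := LinearEquiv.ofFinrankEq _ _ h3
  obtain ⟨T, hT⟩ := LinearMap.exists_extend (φ : LinearMap.ker l →ₗ[ℝ] ℂ)
  refine ⟨T, fun v v' hv hT' => ?_⟩
  have hk : v - v' ∈ LinearMap.ker l := by
    rw [LinearMap.mem_ker, map_sub, hv, sub_self]
  have h4 : φ ⟨v - v', hk⟩ = 0 := by
    have := LinearMap.congr_fun hT ⟨v - v', hk⟩
    simp only [LinearMap.comp_apply, Submodule.subtype_apply, map_sub] at this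
    rw [hT', sub_self] at this
    exact this.symm
  have h5 : (⟨v - v', hk⟩ : LinearMap.ker l) = 0 := by
    rw [← φ.map_eq_zero_iff]
    exact h4
  exact sub_eq_zero.mp (congrArg Subtype.val h5)

/-- the straight path -/
noncomputable def segPath (x y : V) : Path x y where
  toFun t := AffineMap.lineMap x y (t : ℝ)
  continuous_toFun := by
    simp only [AffineMap.lineMap_apply_module]
    fun_prop
  source' := by simp
  target' := by simp

lemma segPath_mem {S : Set V} (hS : Convex ℝ S) {x y : V} (hx : x ∈ S) (hy : y ∈ S)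
    (t : unitInterval) : segPath x y t ∈ S := by
  have h : AffineMap.lineMap x y (t : ℝ) ∈ segment ℝ x y := by
    rw [segment_eq_image_lineMap]
    exact ⟨(t : ℝ), t.2, rfl⟩
  exact hS.segment_subset hx hy h

lemma segPath_plane (l : V →ₗ[ℝ] ℝ) {c : ℝ} {x y : V} (hx : l x = c) (hy : l y = c)
    (t : unitInterval) : l (segPath x y t) = c := by
  change l (AffineMap.lineMap x y (t : ℝ)) = c
  rw [AffineMap.lineMap_apply_module, map_add, map_smul, map_smul, hx, hy]
  simp only [smul_eq_mul]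
  ring

/-- `K_{3,3}` in a plane of `V`, with disjoint convex sets as vertices.

The data for the pair `(i,j)`: a point `w i j`, a path `α i j` from a point of `Y i` to `w i j` and a
path `γ i j` from a point of `Z j` to `w i j`; everything in the plane `l = c`.
PROOF. Choose base points `y₀ i ∈ Y i` and `z₀ j ∈ Z j` in the plane (`Y i` contains the starting
point of `α i 0`). The path `y₀ i → start (α i j)` (segment, in `Y i`), `α i j`, reverse of `γ i j`,
`start (γ i j) → z₀ j` (segment in `Z j`) lies in the plane; compose with an (affine) injection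
of the plane into `ℂ` (a real linear map `T : V → ℂ` such that `(l, T)` is injective, exists since
`l ≠ 0`). For `i ≠ i'`, `j ≠ j'` the paths are disjoint by the hypotheses (`Y i`, `Y i'`, `Z j`, `Z j'`
are disjoint, the paths of the pair `(i,j)` avoid `Y i'`, `Z j'` and the paths of `(i',j')`).
Contradiction to `k33`. -/
theorem k33_plane (Y Z : Fin 3 → Set V) (hYc : ∀ i, Convex ℝ (Y i)) (hZc : ∀ i, Convex ℝ (Z i))
    (hYY : ∀ i i', i ≠ i' → Disjoint (Y i) (Y i')) (hZZ : ∀ i i', i ≠ i' → Disjoint (Z i) (Z i'))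
    (hYZ : ∀ i j, Disjoint (Y i) (Z j)) (l : V →ₗ[ℝ] ℝ) (hl : l ≠ 0) (c : ℝ)
    (w a b : Fin 3 → Fin 3 → V) (ha : ∀ i j, a i j ∈ Y i) (hb : ∀ i j, b i j ∈ Z j)
    (α : ∀ i j, Path (a i j) (w i j)) (γ : ∀ i j, Path (b i j) (w i j))
    (hα : ∀ i j t, l (α i j t) = c) (hγ : ∀ i j t, l (γ i j t) = c)
    (hY : ∀ i j i', i' ≠ i → Disjoint (range (α i j) ∪ range (γ i j)) (Y i'))
    (hZ : ∀ i j j', j' ≠ j → Disjoint (range (α i j) ∪ range (γ i j)) (Z j'))
    (hd : ∀ i j i' j', i ≠ i' → j ≠ j' →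
      Disjoint (range (α i j) ∪ range (γ i j)) (range (α i' j') ∪ range (γ i' j'))) :
    False := by
  obtain ⟨T, hT⟩ := plane_proj l hl
  have hTc : Continuous T := T.continuous_of_finiteDimensional
  have hac : ∀ i j, l (a i j) = c := fun i j => by
    have := hα i j 0
    rwa [(α i j).source] at this
  have hbc : ∀ i j, l (b i j) = c := fun i j => by
    have := hγ i j 0
    rwa [(γ i j).source] at this
  let E : ∀ i j, Path (a i 0) (b 0 j) := fun i j =>
    ((segPath (a i 0) (a i j)).trans (α i j)).trans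
      ((γ i j).symm.trans (segPath (b i j) (b 0 j)))
  have hE1 : ∀ i j, range (E i j) =
      (range (segPath (a i 0) (a i j)) ∪ range (α i j)) ∪
      (range (γ i j) ∪ range (segPath (b i j) (b 0 j))) := by
    intro i j
    simp only [E, Path.trans_range, Path.symm_range]
  have hEp : ∀ i j, ∀ x ∈ range (E i j), l x = c := by
    intro i j x hx
    rw [hE1] at hx
    rcases hx with (⟨t, rfl⟩ | ⟨t, rfl⟩) | (⟨t, rfl⟩ | ⟨t, rfl⟩)
    · exact segPath_plane l (hac _ _) (hac _ _) t
    · exact hα i j t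
    · exact hγ i j t
    · exact segPath_plane l (hbc _ _) (hbc _ _) t
  have hEs : ∀ i j, range (E i j) ⊆ (Y i ∪ Z j) ∪ (range (α i j) ∪ range (γ i j)) := by
    intro i j x hx
    rw [hE1] at hx
    rcases hx with (⟨t, rfl⟩ | ⟨t, rfl⟩) | (⟨t, rfl⟩ | ⟨t, rfl⟩)
    · exact Or.inl (Or.inl (segPath_mem (hYc i) (ha _ _) (ha _ _) t))
    · exact Or.inr (Or.inl ⟨t, rfl⟩)
    · exact Or.inr (Or.inr ⟨t, rfl⟩)
    · exact Or.inl (Or.inr (segPath_mem (hZc j) (hb _ _) (hb _ _) t))
  refine k33 (fun i => T (a i 0)) (fun j => T (b 0 j)) (fun i j => (E i j).map hTc) ?_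
  intro i j i' j' hi hj
  rw [Set.disjoint_left]
  rintro _ ⟨s, rfl⟩ ⟨t, ht⟩
  have hst : E i j s = E i' j' t := by
    apply hT
    · rw [hEp i j _ ⟨s, rfl⟩, hEp i' j' _ ⟨t, rfl⟩]
    · exact ht.symm
  have h1 := hEs i j ⟨s, rfl⟩
  have h2 := hEs i' j' ⟨t, rfl⟩
  rw [← hst] at h2
  generalize E i j s = x at h1 h2
  rcases h1 with (h1 | h1) | h1 <;> rcases h2 with (h2 | h2) | h2
  · exact Set.disjoint_left.mp (hYY i i' hi) h1 h2
  · exact Set.disjoint_left.mp (hYZ i j') h1 h2
  · exact Set.disjoint_left.mp (hY i' j' i hi) h2 h1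
  · exact Set.disjoint_left.mp (hYZ i' j) h2 h1
  · exact Set.disjoint_left.mp (hZZ j j' hj) h1 h2
  · exact Set.disjoint_left.mp (hZ i' j' j hj) h2 h1
  · exact Set.disjoint_left.mp (hY i j i' (Ne.symm hi)) h1 h2
  · exact Set.disjoint_left.mp (hZ i j j' (Ne.symm hj)) h1 h2
  · exact Set.disjoint_left.mp (hd i j i' j' hi hj) h1 h2

end U78
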