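import Mathlib
import Pool.Agent.W_78bee8_h33.Defs

/-!
# The ribbon lemma
-/

namespace U78

open Set Pointwise

theorem Ribbon_one {A : Set V} (l : V →ₗ[ℝ] ℝ) (c₀ r : ℝ) (hr : 0 < r) (f g : ℝ → V)
    (hf : ContinuousOn f (Icc (c₀ - r) c₀)) (hg : ContinuousOn g (Icc (c₀ - r) c₀))
    (hfl : ∀ c ∈ Icc (c₀ - r) c₀, l (f c) = c)
    (hgA : ∀ c ∈ Icc (c₀ - r) c₀, g c ∈ A)
    (hfg : ∀ c ∈ Icc (c₀ - r) c₀, |l (f c) - l (g c)| < r) (h0 : c₀ ≤ l (g c₀)) :
    ∃ a ∈ A, ∃ α : Path a (f c₀), ∀ t, l (α t) = c₀ ∧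
      ∃ c ∈ Icc (c₀ - r) c₀, α t ∈ segment ℝ (g c) (f c) := by
  have hl : Continuous l := l.continuous_of_finiteDimensional
  have hm0 : c₀ ∈ Icc (c₀ - r) c₀ := ⟨by linarith, le_rfl⟩
  have hmr : c₀ - r ∈ Icc (c₀ - r) c₀ := ⟨le_rfl, by linarith⟩
  rcases h0.eq_or_lt with h0 | h0
  · refine ⟨g c₀, hgA c₀ hm0, ⟨⟨fun t => AffineMap.lineMap (g c₀) (f c₀) (t : ℝ), ?_⟩, ?_, ?_⟩, ?_⟩
    · exact AffineMap.lineMap_continuous.comp continuous_subtype_val
    · simp
    · simp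
    · intro t
      have ht : ((AffineMap.lineMap (g c₀) (f c₀) : ℝ →ᵃ[ℝ] V) (t : ℝ)) =
          (1 - (t : ℝ)) • g c₀ + (t : ℝ) • f c₀ := AffineMap.lineMap_apply_module _ _ _
      refine ⟨?_, c₀, hm0, ?_⟩
      · show l (AffineMap.lineMap (g c₀) (f c₀) (t : ℝ)) = c₀
        rw [ht, map_add, map_smul, map_smul, hfl c₀ hm0, ← h0, smul_eq_mul, smul_eq_mul]
        ring
      · show (AffineMap.lineMap (g c₀) (f c₀) (t : ℝ)) ∈ segment ℝ (g c₀) (f c₀)
        rw [ht]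
        exact ⟨1 - (t : ℝ), (t : ℝ), by linarith [t.2.2], t.2.1, by ring, rfl⟩
  · have hφ : ContinuousOn (fun c => l (g c)) (Icc (c₀ - r) c₀) := hl.comp_continuousOn hg
    have hneg : l (g (c₀ - r)) < c₀ := by
      have h1 := hfg _ hmr
      rw [hfl _ hmr, abs_lt] at h1
      linarith [h1.1]
    have hcomp : IsCompact {c ∈ Icc (c₀ - r) c₀ | l (g c) ≤ c₀} := by
      have h1 : IsClosed ({c ∈ Icc (c₀ - r) c₀ | l (g c) ≤ c₀}) := by
        have h2 := hφ.preimage_isClosed_of_isClosed isClosed_Icc (isClosed_Iic (a := c₀))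
        exact h2
      exact isCompact_Icc.of_isClosed_subset h1 fun c hc => hc.1
    obtain ⟨cs, hcs, hmax⟩ := hcomp.exists_isGreatest ⟨c₀ - r, hmr, hneg.le⟩
    obtain ⟨hcsI, hcs0⟩ := hcs
    have hlt : cs < c₀ := by
      refine lt_of_le_of_ne hcsI.2 ?_
      rintro rfl
      exact absurd hcs0 (not_le.2 h0)
    have hsub : Icc cs c₀ ⊆ Icc (c₀ - r) c₀ := Icc_subset_Icc_left hcsI.1
    have heq : l (g cs) = c₀ := by
      have h1 := intermediate_value_Icc hcsI.2 (hφ.mono hsub)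
      obtain ⟨c', hc', hc0⟩ := h1 ⟨hcs0, h0.le⟩
      have h2 : c' ≤ cs := hmax ⟨hsub hc', le_of_eq hc0⟩
      have h3 : c' = cs := le_antisymm h2 hc'.1
      rw [← h3]
      exact hc0
    have hpos : ∀ c ∈ Icc cs c₀, c₀ ≤ l (g c) ∧ 0 < l (g c) - c := by
      intro c hc
      rcases hc.1.eq_or_lt with h1 | h1
      · rw [← h1, heq]
        exact ⟨le_rfl, by linarith⟩
      · have h2 : c₀ < l (g c) := by
          by_contra h3
          push Not at h3
          have h4 : c ≤ cs := hmax ⟨hsub hc, h3⟩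
          linarith
        exact ⟨h2.le, by linarith [hc.2]⟩
    let X : ℝ → V := fun c => f c + ((c₀ - c) / (l (g c) - c)) • (g c - f c)
    have hX : ContinuousOn X (Icc cs c₀) := by
      have hf' := hf.mono hsub
      have hg' := hg.mono hsub
      have hφ' := hφ.mono hsub
      have h1 : ContinuousOn (fun c => (c₀ - c) / (l (g c) - c)) (Icc cs c₀) :=
        (continuousOn_const.sub continuousOn_id).div (hφ'.sub continuousOn_id)
          fun c hc => (hpos c hc).2.ne'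
      have h2 : ContinuousOn (fun c => g c - f c) (Icc cs c₀) := hg'.sub hf'
      exact hf'.add (h1.smul h2)
    have hmem : ∀ t : unitInterval, cs + (t : ℝ) * (c₀ - cs) ∈ Icc cs c₀ := by
      intro t
      have h1 := t.2.1
      have h2 := t.2.2
      constructor
      · nlinarith
      · nlinarith
    refine ⟨g cs, hgA _ hcsI, ⟨⟨fun t => X (cs + (t : ℝ) * (c₀ - cs)), ?_⟩, ?_, ?_⟩, ?_⟩
    · exact hX.comp_continuous (by fun_prop) hmem
    · show X (cs + ((0 : unitInterval) : ℝ) * (c₀ - cs)) = g cs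
      have h1 : cs + ((0 : unitInterval) : ℝ) * (c₀ - cs) = cs := by simp
      rw [h1]
      show f cs + ((c₀ - cs) / (l (g cs) - cs)) • (g cs - f cs) = g cs
      rw [heq, div_self (by linarith), one_smul]
      abel
    · show X (cs + ((1 : unitInterval) : ℝ) * (c₀ - cs)) = f c₀
      have h1 : cs + ((1 : unitInterval) : ℝ) * (c₀ - cs) = c₀ := by simp
      rw [h1]
      show f c₀ + ((c₀ - c₀) / (l (g c₀) - c₀)) • (g c₀ - f c₀) = f c₀
      simp
    · intro t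
      have hc := hmem t
      obtain ⟨c, hcdef⟩ : ∃ c, c = cs + (t : ℝ) * (c₀ - cs) := ⟨_, rfl⟩
      rw [← hcdef] at hc
      obtain ⟨h1, h2⟩ := hpos c hc
      have hfc := hfl c (hsub hc)
      refine ⟨?_, c, hsub hc, ?_⟩
      · show l (X (cs + (t : ℝ) * (c₀ - cs))) = c₀
        rw [← hcdef]
        show l (f c + ((c₀ - c) / (l (g c) - c)) • (g c - f c)) = c₀
        rw [map_add, map_smul, map_sub, hfc, smul_eq_mul, div_mul_cancel₀ _ h2.ne']
        ring
      · show X (cs + (t : ℝ) * (c₀ - cs)) ∈ segment ℝ (g c) (f c)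
        rw [← hcdef]
        refine ⟨(c₀ - c) / (l (g c) - c), 1 - (c₀ - c) / (l (g c) - c), ?_, ?_, by ring, ?_⟩
        · exact div_nonneg (by linarith [hc.2]) h2.le
        · rw [sub_nonneg, div_le_one h2]
          linarith
        · show _ = f c + ((c₀ - c) / (l (g c) - c)) • (g c - f c)
          rw [smul_sub, sub_smul, one_smul]
          abel

/-- RIBBON LEMMA. Let `f, g` be continuous on `[c₀ - r, c₀ + r]`, `l (f c) = c`, `g c ∈ A`, and
`|l (f c) - l (g c)| < r`. Then there is a path from a point of `A` to `f c₀` in the plane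
`l = c₀`, all of whose points lie on segments `[g c, f c]`.

PROOF. If `l (g c₀) ≥ c₀`: let `φ c = l (g c) - c₀` on `[c₀ - r, c₀]`; `φ c₀ ≥ 0` and
`φ (c₀ - r) = l (g (c₀ - r)) - (c₀ - r) - r < 0`. Let `c*` be the supremum of the `c ≤ c₀` with
`φ c ≤ 0` if `φ c₀ > 0`; then `φ c* = 0` and `φ > 0` on `(c*, c₀]`, `c* < c₀`. (If `φ c₀ = 0` take the
straight segment from `g c₀` to `f c₀`.) For `c ∈ [c*, c₀]` we have `l (g c) ≥ c₀ ≥ c`, and
`l (g c) > c` (if `c < c₀` because `l (g c) ≥ c₀`, if `c = c₀` because `φ c₀ > 0`); put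
`X c = f c + ((c₀ - c) / (l (g c) - c)) • (g c - f c)`, the point of `[f c, g c]` with `l = c₀`;
it is continuous, `X c* = g c*` (as `l (g c*) = c₀`, the quotient is 1; note `c* < c₀`) and
`X c₀ = f c₀`. Reparametrise `[c*, c₀]` by `[0,1]` affinely.
If `l (g c₀) < c₀` argue in the same way on `[c₀, c₀ + r]` (or apply the first case to `-l`,
`c ↦ f (-c)`, ...). -/
theorem ribbon {A : Set V} (l : V →ₗ[ℝ] ℝ) (c₀ r : ℝ) (hr : 0 < r) (f g : ℝ → V)
    (hf : ContinuousOn f (Icc (c₀ - r) (c₀ + r))) (hg : ContinuousOn g (Icc (c₀ - r) (c₀ + r)))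
    (hfl : ∀ c ∈ Icc (c₀ - r) (c₀ + r), l (f c) = c)
    (hgA : ∀ c ∈ Icc (c₀ - r) (c₀ + r), g c ∈ A)
    (hfg : ∀ c ∈ Icc (c₀ - r) (c₀ + r), |l (f c) - l (g c)| < r) :
    ∃ a ∈ A, ∃ α : Path a (f c₀), ∀ t, l (α t) = c₀ ∧
      ∃ c ∈ Icc (c₀ - r) (c₀ + r), α t ∈ segment ℝ (g c) (f c) := by
  rcases le_total c₀ (l (g c₀)) with h0 | h0
  · have hsub : Icc (c₀ - r) c₀ ⊆ Icc (c₀ - r) (c₀ + r) := Icc_subset_Icc_right (by linarith)
    obtain ⟨a, ha, α, h⟩ := Ribbon_one l c₀ r hr f g (hf.mono hsub) (hg.mono hsub)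
      (fun c hc => hfl c (hsub hc)) (fun c hc => hgA c (hsub hc)) (fun c hc => hfg c (hsub hc)) h0
    refine ⟨a, ha, α, fun t => ?_⟩
    obtain ⟨h1, c, hc, h2⟩ := h t
    exact ⟨h1, c, hsub hc, h2⟩
  · have hsub : ∀ c ∈ Icc (-c₀ - r) (-c₀), -c ∈ Icc (c₀ - r) (c₀ + r) := by
      rintro c ⟨h1, h2⟩
      exact ⟨by linarith, by linarith⟩
    obtain ⟨a, ha, α, h⟩ := Ribbon_one (A := A) (-l) (-c₀) r hr (fun c => f (-c)) (fun c => g (-c))
      (hf.comp continuousOn_neg hsub) (hg.comp continuousOn_neg hsub)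
      (fun c hc => by
        rw [LinearMap.neg_apply, hfl _ (hsub c hc), neg_neg])
      (fun c hc => hgA _ (hsub c hc))
      (fun c hc => by
        have h1 := hfg _ (hsub c hc)
        rw [LinearMap.neg_apply, LinearMap.neg_apply, ← abs_neg]
        have h2 : -(-l (f (-c)) - -l (g (-c))) = l (f (-c)) - l (g (-c)) := by ring
        rw [h2]
        exact h1)
      (by
        show -c₀ ≤ (-l) (g (- -c₀))
        rw [LinearMap.neg_apply, neg_neg]
        linarith)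
    have he : f (- -c₀) = f c₀ := by rw [neg_neg]
    refine ⟨a, ha, α.cast rfl he.symm, fun t => ?_⟩
    obtain ⟨h1, c, hc, h2⟩ := h t
    refine ⟨?_, -c, hsub c hc, h2⟩
    rw [LinearMap.neg_apply] at h1
    show l (α t) = c₀
    linarith

end U78
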