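import Mathlib
import Pool.Agent.W_78bee8_h33.Leg
import Pool.Agent.W_78bee8_h33.Plane
import Pool.Agent.W_78bee8_h33.Contact
import Pool.Agent.W_78bee8_h33.Ribbon

/-!
# Long bundles of free arcs: no `K_{3,3}`
-/

namespace U78

open Set Pointwise

/-- a curve which avoids a closed set avoids its small neighbourhoods -/
lemma Long_gap {I : Set ℝ} (hI : IsCompact I) {f : ℝ → V} (hf : ContinuousOn f I) {S B : Set V}
    (hS : IsClosed (S + B)) (h : ∀ c ∈ I, f c ∉ S + B) :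
    ∀ᶠ η in nhdsWithin (0 : ℝ) (Ioi 0), ∀ c ∈ I, f c ∉ S + (B + Metric.closedBall (0 : V) η) := by
  have h1 : Disjoint (f '' I) (S + B) := by
    rw [Set.disjoint_left]
    rintro _ ⟨c, hc, rfl⟩ h2
    exact h c hc h2
  obtain ⟨δ, hδ, h2⟩ := h1.exists_thickenings (hI.image_of_continuousOn hf) hS
  filter_upwards [Ioo_mem_nhdsGT hδ] with η hη c hc hmem
  rw [← add_assoc] at hmem
  obtain ⟨s, hs, b, hb, hsb⟩ := Set.mem_add.1 hmem
  refine Set.disjoint_left.1 h2 (Metric.self_subset_thickening hδ _ ⟨c, hc, rfl⟩) ?_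
  rw [Metric.mem_thickening_iff]
  refine ⟨s, hs, ?_⟩
  rw [← hsb, dist_eq_norm, add_sub_cancel_left]
  rw [mem_closedBall_zero_iff] at hb
  exact lt_of_le_of_lt hb hη.2

/-- the difference to a point of the segment -/
lemma Long_seg {B : Set V} (hB : Convex ℝ B) (h0 : (0 : V) ∈ B) {u w x : V} (h : w - u ∈ B)
    (hx : x ∈ segment ℝ u w) : w - x ∈ B := by
  obtain ⟨a, b, ha, hb, hab, rfl⟩ := hx
  have h1 : a • (w - u) + b • (0 : V) ∈ B := hB h h0 ha hb hab
  have h2 : w - (a • u + b • w) = a • (w - u) + b • (0 : V) := by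
    have h3 : w = (a + b) • w := by rw [hab, one_smul]
    calc w - (a • u + b • w) = (a + b) • w - (a • u + b • w) := by rw [← h3]
      _ = a • (w - u) + b • (0 : V) := by
        rw [add_smul, smul_sub, smul_zero]
        abel
  rw [h2]
  exact h1

/-- Let `0 ∈ B ⊆ [-1,1]³`, `|l x| ≤ ‖x‖`. For `3 + 3` disjoint compact convex sets there are no nine
continuous families of placements `w i j c`, `|c - c₀| ≤ 5/4`, at height `l = c`, which lie in
`Y i + B` and `Z j + B` and in none of the other four sums.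

PROOF. By compactness (the images of the curves are compact, the sums are closed, finitely many
pairs) there is `η ∈ (0, 1/8)` such that the distance of `w i j c` from the four other sums is
`> 2 η`; put `B' = B + closedBall 0 η` (convex, contains `0`); then `w i j c ∉ Y i' + B'` for
`i' ≠ i` and `∉ Z j' + B'` for `j' ≠ j`. `contact` gives continuous `a i j c ∈ Y i` and
`b i j c ∈ Z j` with `w i j c - a i j c ∈ B'`, `w i j c - b i j c ∈ B'`; the elements of `B'` have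
norm `≤ 1 + η < 5/4`, so `|l (w - a)| < 5/4`. `ribbon` (`r = 5/4`) gives the paths for `k33_plane`,
`w i j := w i j c₀`. The hypotheses: a point `x` of a path of the pair `(i,j)` is in a segment
`[a i j c, w i j c]` (or with `b`), so `w i j c - x ∈ B'` (`0 ∈ B'`), hence `x ∉ Y i'`, `x ∉ Z j'`;
the disjointness of the paths of `(i,j)` and `(i',j')` is `leg` for `B'`: for `a' = a i' j' c'` or
`b i' j' c'` we have `w i j c - a' ∉ B'`. -/
theorem long33 (Y Z : Fin 3 → Set V) (B : Set V) (hYk : ∀ i, IsCompact (Y i))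
    (hZk : ∀ i, IsCompact (Z i)) (hBk : IsCompact B) (hYc : ∀ i, Convex ℝ (Y i))
    (hZc : ∀ i, Convex ℝ (Z i)) (hB : Convex ℝ B) (h0 : (0 : V) ∈ B) (hB1 : ∀ b ∈ B, ‖b‖ ≤ 1)
    (hYY : ∀ i i', i ≠ i' → Disjoint (Y i) (Y i')) (hZZ : ∀ i i', i ≠ i' → Disjoint (Z i) (Z i'))
    (hYZ : ∀ i j, Disjoint (Y i) (Z j)) (l : V →ₗ[ℝ] ℝ) (hl : l ≠ 0) (hl1 : ∀ x, |l x| ≤ ‖x‖)
    (c₀ : ℝ) (w : Fin 3 → Fin 3 → ℝ → V)
    (hwc : ∀ i j, ContinuousOn (w i j) (Icc (c₀ - 5 / 4) (c₀ + 5 / 4)))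
    (hw : ∀ i j, ∀ c ∈ Icc (c₀ - 5 / 4) (c₀ + 5 / 4), l (w i j c) = c ∧ w i j c ∈ Y i + B ∧
      w i j c ∈ Z j + B ∧ (∀ i', i' ≠ i → w i j c ∉ Y i' + B) ∧
      (∀ j', j' ≠ j → w i j c ∉ Z j' + B)) : False := by
  have hI : IsCompact (Icc (c₀ - 5 / 4) (c₀ + 5 / 4)) := isCompact_Icc
  have hle : c₀ - 5 / 4 ≤ c₀ + 5 / 4 := by linarith
  -- the gap
  have e1 : ∀ᶠ η in nhdsWithin (0 : ℝ) (Ioi 0), ∀ i j i' : Fin 3, i' ≠ i →
      ∀ c ∈ Icc (c₀ - 5 / 4) (c₀ + 5 / 4), w i j c ∉ Y i' + (B + Metric.closedBall (0 : V) η) := by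
    rw [Filter.eventually_all]; intro i
    rw [Filter.eventually_all]; intro j
    rw [Filter.eventually_all]; intro i'
    rw [Filter.eventually_imp_distrib_left]
    intro hi
    exact Long_gap hI (hwc i j) ((hYk i').add hBk).isClosed fun c hc =>
      (hw i j c hc).2.2.2.1 i' hi
  have e2 : ∀ᶠ η in nhdsWithin (0 : ℝ) (Ioi 0), ∀ i j j' : Fin 3, j' ≠ j →
      ∀ c ∈ Icc (c₀ - 5 / 4) (c₀ + 5 / 4), w i j c ∉ Z j' + (B + Metric.closedBall (0 : V) η) := by
    rw [Filter.eventually_all]; intro i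
    rw [Filter.eventually_all]; intro j
    rw [Filter.eventually_all]; intro j'
    rw [Filter.eventually_imp_distrib_left]
    intro hj
    exact Long_gap hI (hwc i j) ((hZk j').add hBk).isClosed fun c hc =>
      (hw i j c hc).2.2.2.2 j' hj
  have e3 : ∀ᶠ η in nhdsWithin (0 : ℝ) (Ioi 0), η ∈ Ioo (0 : ℝ) (1 / 8) :=
    Ioo_mem_nhdsGT (by norm_num)
  obtain ⟨η, hη1, hη2, hη3, hη4⟩ := (e1.and (e2.and e3)).exists
  generalize hB' : B + Metric.closedBall (0 : V) η = B' at hη1 hη2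
  have hB'c : Convex ℝ B' := by
    rw [← hB']
    exact hB.add (convex_closedBall 0 η)
  have hB'0 : (0 : V) ∈ B' := by
    rw [← hB']
    exact Set.mem_add.2 ⟨0, h0, 0, Metric.mem_closedBall_self hη3.le, add_zero 0⟩
  have hB'n : ∀ b ∈ B', ‖b‖ < 5 / 4 := by
    intro b hb
    rw [← hB'] at hb
    obtain ⟨x, hx, y, hy, rfl⟩ := Set.mem_add.1 hb
    rw [mem_closedBall_zero_iff] at hy
    have h3 := norm_add_le x y
    have h4 := hB1 x hx
    linarith
  -- contact points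
  have hca : ∀ i j, ∃ g : ℝ → V, ContinuousOn g (Icc (c₀ - 5 / 4) (c₀ + 5 / 4)) ∧
      ∀ c ∈ Icc (c₀ - 5 / 4) (c₀ + 5 / 4), g c ∈ Y i ∧ w i j c - g c ∈ B' := by
    intro i j
    have := contact (hYc i) hB hη3 hle (w i j) (hwc i j) fun c hc => (hw i j c hc).2.1
    rwa [hB'] at this
  have hcb : ∀ i j, ∃ g : ℝ → V, ContinuousOn g (Icc (c₀ - 5 / 4) (c₀ + 5 / 4)) ∧
      ∀ c ∈ Icc (c₀ - 5 / 4) (c₀ + 5 / 4), g c ∈ Z j ∧ w i j c - g c ∈ B' := by
    intro i j
    have := contact (hZc j) hB hη3 hle (w i j) (hwc i j) fun c hc => (hw i j c hc).2.2.1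
    rwa [hB'] at this
  choose ga hga1 hga2 using hca
  choose gb hgb1 hgb2 using hcb
  have hll : ∀ x y : V, x - y ∈ B' → |l x - l y| < 5 / 4 := by
    intro x y h
    rw [← map_sub]
    exact (hl1 _).trans_lt (hB'n _ h)
  have hra := fun i j => ribbon (A := Y i) l c₀ (5 / 4) (by norm_num) (w i j) (ga i j) (hwc i j)
    (hga1 i j) (fun c hc => (hw i j c hc).1) (fun c hc => (hga2 i j c hc).1)
    (fun c hc => hll _ _ (hga2 i j c hc).2)
  have hrb := fun i j => ribbon (A := Z j) l c₀ (5 / 4) (by norm_num) (w i j) (gb i j) (hwc i j)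
    (hgb1 i j) (fun c hc => (hw i j c hc).1) (fun c hc => (hgb2 i j c hc).1)
    (fun c hc => hll _ _ (hgb2 i j c hc).2)
  choose a ha α hα using hra
  choose b hb γ hγ using hrb
  -- points of the paths
  have key : ∀ i j, ∀ x ∈ range (α i j) ∪ range (γ i j), ∃ c ∈ Icc (c₀ - 5 / 4) (c₀ + 5 / 4),
      ∃ u, (u ∈ Y i ∨ u ∈ Z j) ∧ w i j c - u ∈ B' ∧ x ∈ segment ℝ u (w i j c) := by
    rintro i j x (⟨t, rfl⟩ | ⟨t, rfl⟩)
    · obtain ⟨-, c, hc, h⟩ := hα i j t
      exact ⟨c, hc, ga i j c, Or.inl (hga2 i j c hc).1, (hga2 i j c hc).2, h⟩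
    · obtain ⟨-, c, hc, h⟩ := hγ i j t
      exact ⟨c, hc, gb i j c, Or.inr (hgb2 i j c hc).1, (hgb2 i j c hc).2, h⟩
  refine k33_plane Y Z hYc hZc hYY hZZ hYZ l hl c₀ (fun i j => w i j c₀) a b ha hb α γ
    (fun i j t => (hα i j t).1) (fun i j t => (hγ i j t).1) ?_ ?_ ?_
  · intro i j i' hi
    rw [Set.disjoint_left]
    intro x hx hxY
    obtain ⟨c, hc, u, -, h1, h2⟩ := key i j x hx
    exact hη1 i j i' hi c hc (Set.mem_add.2 ⟨x, hxY, _, Long_seg hB'c hB'0 h1 h2,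
      add_sub_cancel x _⟩)
  · intro i j j' hj
    rw [Set.disjoint_left]
    intro x hx hxZ
    obtain ⟨c, hc, u, -, h1, h2⟩ := key i j x hx
    exact hη2 i j j' hj c hc (Set.mem_add.2 ⟨x, hxZ, _, Long_seg hB'c hB'0 h1 h2,
      add_sub_cancel x _⟩)
  · intro i j i' j' hi hj
    rw [Set.disjoint_left]
    intro x hx hx'
    obtain ⟨c, hc, u, hu, h1, h2⟩ := key i j x hx
    obtain ⟨c', hc', u', hu', h1', h2'⟩ := key i' j' x hx'
    have h3 : w i j c - u' ∉ B' := by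
      intro h4
      rcases hu' with hu' | hu'
      · exact hη1 i j i' (Ne.symm hi) c hc (Set.mem_add.2 ⟨u', hu', _, h4, add_sub_cancel u' _⟩)
      · exact hη2 i j j' (Ne.symm hj) c hc (Set.mem_add.2 ⟨u', hu', _, h4, add_sub_cancel u' _⟩)
    have h3' : w i' j' c' - u ∉ B' := by
      intro h4
      rcases hu with hu | hu
      · exact hη1 i' j' i hi c' hc' (Set.mem_add.2 ⟨u, hu, _, h4, add_sub_cancel u _⟩)
      · exact hη2 i' j' j hj c' hc' (Set.mem_add.2 ⟨u, hu, _, h4, add_sub_cancel u _⟩)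
    exact Set.disjoint_left.1 (leg hB'c hB'0 h1 h1' h3 h3') h2 h2'

end U78
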