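import Mathlib

/-!
# The run lemma
-/

namespace U78

open Set

/-- a monotone sequence with values at most `M` is constant on one of `M + 1` consecutive steps -/
theorem Run_pigeon (M : ℕ) (k : ℕ → ℕ) (hk : ∀ i, i ≤ M → k i ≤ k (i + 1)) (hM : k (M + 1) ≤ M) :
    ∃ i, i ≤ M ∧ k i = k (i + 1) := by
  by_contra hcon
  push Not at hcon
  have h : ∀ i, i ≤ M + 1 → i ≤ k i := by
    intro i
    induction i with
    | zero => intro _; exact Nat.zero_le _
    | succ i ih =>
      intro hi
      have h1 := ih (by omega)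
      have h2 := hk i (by omega)
      have h3 := hcon i (by omega)
      omega
  have := h (M + 1) le_rfl
  omega

/-- RUN LEMMA. For large `t` (depending on `M` and `r` only): if the values of the epochs are ordered
and `E` has at most `M` elements, then either there is an open interval `(p, q)` disjoint from `E`,
of length `> 3`, which contains a value for every `y`, or there are `r` consecutive
epochs whose values differ by at most `3`.

PROOF. Let `lo x = min_y h x y` (monotone) and `k x = #{z ∈ E : z < lo x}`, a monotone function with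
values in `{0..M}`. For `t ≥ (M + 1) * (2 * r + 8)` there are `x₁ < x₂` with
`x₂ = x₁ + 2 * r + 6` and `k x₁ = k x₂`, so no element of `E` lies in `[lo x₁, lo x₂)`. Put
`p = lo x₁`, `q = lo x₂`. All values of the epochs `x₁ ≤ x < x₂` are in `[p, q]` (a value `h x y`
with `x < x₂` is `≤ h x₂ y'` for all `y'`). If `q - p ≤ 3` take `r` of them. If `q - p > 3` and for
every `y` some `h x y` lies in `(p, q)`, the first alternative holds. Otherwise there is `y` such
that `h x y ∈ {p, q}` for all `x₁ ≤ x < x₂`; by monotonicity the value is `p` on an initial segment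
and `q` on the rest, one of the two has at least `r + 3` elements; all epochs strictly between two
epochs `x' < x''` with `h x' y = h x'' y` have only the value `h x' y`. -/
theorem run (M r : ℕ) : ∃ t₀ : ℕ, ∀ t : ℕ, t₀ ≤ t → ∀ (κ : Type) [Finite κ] [Nonempty κ]
    (h : Fin t → κ → ℝ) (_ : ∀ x x', x < x' → ∀ y y', h x y ≤ h x' y') (E : Finset ℝ),
    E.card ≤ M →
    (∃ p q : ℝ, p + 3 < q ∧ (∀ z ∈ E, z ∉ Ioo p q) ∧ ∀ y, ∃ x, h x y ∈ Ioo p q) ∨
    (∃ x₀ : ℕ, x₀ + r ≤ t ∧ ∀ x x' : Fin t, x₀ ≤ (x : ℕ) → (x : ℕ) < x₀ + r →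
      x₀ ≤ (x' : ℕ) → (x' : ℕ) < x₀ + r → ∀ y y', |h x y - h x' y'| ≤ 3) := by
  classical
  refine ⟨(M + 1) * (2 * r + 8), ?_⟩
  intro t ht κ _ _ h hh E hE
  -- the minimum of an epoch
  have hlo : ∀ x : Fin t, ∃ y, ∀ y', h x y ≤ h x y' := fun x => Finite.exists_min (h x)
  choose ym hym using hlo
  set lo : Fin t → ℝ := fun x => h x (ym x) with hlodef
  have hlo_le : ∀ x y, lo x ≤ h x y := fun x y => hym x y
  have hlo_mono : ∀ x x', x < x' → ∀ y, h x y ≤ lo x' := fun x x' hx y => hh x x' hx y _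
  set k : Fin t → ℕ := fun x => (E.filter (fun z => z < lo x)).card with hk
  have hlom : ∀ x x' : Fin t, x ≤ x' → lo x ≤ lo x' := by
    intro x x' hx
    rcases hx.eq_or_lt with rfl | hx
    · exact le_rfl
    · exact hlo_mono x x' hx _
  -- pigeonhole
  have hL : ∀ i, i ≤ M + 1 → i * (2 * r + 6) < t := by
    intro i hi
    have h1 : i * (2 * r + 6) ≤ (M + 1) * (2 * r + 6) := Nat.mul_le_mul_right _ hi
    have h2 : (M + 1) * (2 * r + 8) = (M + 1) * (2 * r + 6) + (M + 1) * 2 := by ring
    omega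
  obtain ⟨i, hiM, hi⟩ := Run_pigeon M
    (fun i => if hi : i * (2 * r + 6) < t then k ⟨i * (2 * r + 6), hi⟩ else 0)
    (by
      intro i hi
      rw [dif_pos (hL i (by omega)), dif_pos (hL (i + 1) (by omega))]
      apply Finset.card_le_card
      intro z hz
      rw [Finset.mem_filter] at hz ⊢
      refine ⟨hz.1, lt_of_lt_of_le hz.2 (hlom _ _ ?_)⟩
      rw [Fin.le_def]
      simp only
      exact Nat.mul_le_mul_right _ (by omega))
    (by
      split_ifs with h1
      · exact le_trans (Finset.card_filter_le _ _) hE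
      · omega)
  rw [dif_pos (hL i (by omega)), dif_pos (hL (i + 1) (by omega))] at hi
  set n₁ := i * (2 * r + 6) with hn₁
  have hn₂ : (i + 1) * (2 * r + 6) = n₁ + (2 * r + 6) := by rw [hn₁]; ring
  have hn₂t : n₁ + (2 * r + 6) < t := by rw [← hn₂]; exact hL _ (by omega)
  have hn₁t : n₁ < t := by omega
  set x₁ : Fin t := ⟨n₁, hn₁t⟩ with hx₁
  set x₂ : Fin t := ⟨n₁ + (2 * r + 6), hn₂t⟩ with hx₂
  have hkk : k x₁ = k x₂ := by
    rw [hi]
    congr 1
    exact Fin.ext hn₂
  have hx12 : x₁ < x₂ := by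
    rw [Fin.lt_def]
    simp only [hx₁, hx₂]
    omega
  have hEno : ∀ z ∈ E, z ∉ Ioo (lo x₁) (lo x₂) := by
    intro z hz hz'
    have hsub : E.filter (fun z => z < lo x₁) ⊆ E.filter (fun z => z < lo x₂) := by
      intro z hz
      rw [Finset.mem_filter] at hz ⊢
      exact ⟨hz.1, lt_of_lt_of_le hz.2 (hlom _ _ hx12.le)⟩
    have heq := Finset.eq_of_subset_of_card_le hsub hkk.ge
    have : z ∈ E.filter (fun z => z < lo x₁) := by
      rw [heq, Finset.mem_filter]
      exact ⟨hz, hz'.2⟩
    exact lt_asymm (Finset.mem_filter.1 this).2 hz'.1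
  have hlow : ∀ x : Fin t, x₁ ≤ x → ∀ y, lo x₁ ≤ h x y := fun x hx y =>
    (hlom _ _ hx).trans (hlo_le x y)
  have hupp : ∀ x : Fin t, x < x₂ → ∀ y, h x y ≤ lo x₂ := fun x hx y => hlo_mono x x₂ hx y
  by_cases hpq : lo x₂ - lo x₁ ≤ 3
  · right
    refine ⟨n₁, by omega, ?_⟩
    intro x x' hx1 hx2 hx1' hx2' y y'
    have a1 : x₁ ≤ x := by rw [Fin.le_def]; exact hx1
    have a2 : x < x₂ := by rw [Fin.lt_def]; simp only [hx₂]; omega
    have b1 : x₁ ≤ x' := by rw [Fin.le_def]; exact hx1'
    have b2 : x' < x₂ := by rw [Fin.lt_def]; simp only [hx₂]; omega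
    have c1 := hlow x a1 y
    have c2 := hupp x a2 y
    have c3 := hlow x' b1 y'
    have c4 := hupp x' b2 y'
    rw [abs_le]
    constructor <;> linarith
  · by_cases hall : ∀ y, ∃ x, h x y ∈ Ioo (lo x₁) (lo x₂)
    · left
      exact ⟨lo x₁, lo x₂, by linarith, hEno, hall⟩
    · push Not at hall
      obtain ⟨y₀, hy₀⟩ := hall
      right
      have hnm : n₁ + (r + 2) < t := by omega
      have hnl : n₁ + (2 * r + 5) < t := by omega
      set xm : Fin t := ⟨n₁ + (r + 2), hnm⟩ with hxm
      set xl : Fin t := ⟨n₁ + (2 * r + 5), hnl⟩ with hxl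
      have hm1 : x₁ < xm := by rw [Fin.lt_def]; simp only [hx₁, hxm]; omega
      have hm2 : xm < x₂ := by rw [Fin.lt_def]; simp only [hx₂, hxm]; omega
      have hl1 : xm < xl := by rw [Fin.lt_def]; simp only [hxl, hxm]; omega
      have hl2 : xl < x₂ := by rw [Fin.lt_def]; simp only [hx₂, hxl]; omega
      have hcase : h xm y₀ = lo x₁ ∨ h xm y₀ = lo x₂ := by
        have c1 := hlow xm hm1.le y₀
        have c2 := hupp xm hm2 y₀
        by_contra hcon
        push Not at hcon
        exact hy₀ xm ⟨lt_of_le_of_ne c1 (Ne.symm hcon.1), lt_of_le_of_ne c2 hcon.2⟩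
      rcases hcase with hc | hc
      · -- everything before `xm` has the value `lo x₁`
        refine ⟨n₁ + 1, by omega, ?_⟩
        have hval : ∀ x : Fin t, n₁ + 1 ≤ (x : ℕ) → (x : ℕ) < n₁ + 1 + r → ∀ y,
            h x y = lo x₁ := by
          intro x hx1 hx2 y
          have a1 : x₁ ≤ x := by rw [Fin.le_def]; simp only [hx₁]; omega
          have a2 : x < xm := by rw [Fin.lt_def]; simp only [hxm]; omega
          have c1 := hlow x a1 y
          have c2 := hh x xm a2 y y₀
          rw [hc] at c2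
          exact le_antisymm c2 c1
        intro x x' hx1 hx2 hx1' hx2' y y'
        rw [hval x hx1 hx2 y, hval x' hx1' hx2' y']
        simp
      · refine ⟨n₁ + (r + 3), by omega, ?_⟩
        have hval : ∀ x : Fin t, n₁ + (r + 3) ≤ (x : ℕ) → (x : ℕ) < n₁ + (r + 3) + r → ∀ y,
            h x y = lo x₂ := by
          intro x hx1 hx2 y
          have a1 : xm < x := by rw [Fin.lt_def]; simp only [hxm]; omega
          have a2 : x < x₂ := by rw [Fin.lt_def]; simp only [hx₂]; omega
          have c1 := hh xm x a1 y₀ y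
          have c2 := hupp x a2 y
          rw [hc] at c1
          exact le_antisymm c2 c1
        intro x x' hx1 hx2 hx1' hx2' y y'
        rw [hval x hx1 hx2 y, hval x' hx1' hx2' y']
        simp

end U78
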