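import Mathlib
import Pool.Agent.W_78bee8_h33.Long
import Pool.Agent.W_78bee8_h33.FGW
import Pool.Agent.W_78bee8_h33.Run
import Pool.Agent.W_78bee8_h33.Local

/-!
# Localisation in one coordinate
-/

namespace U78

open Set Pointwise

lemma idx3_self {t : ℕ} (a : Fin 3) (u : Fin 3 → Fin t) : idx3 a (u a) (u (a + 1)) (u (a + 2)) = u := by
  funext b
  fin_cases a <;> fin_cases b <;> simp [idx3]

/-- ONE COORDINATE. PROOF. `M` from `hF.sel 6`; `t₀` from `run (9 * M) r`; `t = max t₀ (max r 3)`; `T` from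
`fg_weak t`. Given `X`, pass to the subarray on which `l ∘ τ` is weakly ordered by the class `a`.
Let `h x (i,j) = l (τ v)` with `v a = x`, `v (a+1) = i`, `v (a+2) = j`, for all `i, j < t` (if the order is
decreasing use `h (rev x)`). For the six bodies `Y i = A (a+1) i`, `Z j = A (a+2) j`, `i, j < 3`, and a
pair `(i,j)`, let `E i j` be the exceptional set of `hF.sel` with `σ = 0` (inside) for `Y i + B` and
`Z j + B` and `σ = 1` (outside) for the other four, `x = 0`, `ε` so large that it bounds all the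
(compact) sums, no plane (`m = 0`, `e = 0`), functional `l`. `E` = union, at most `9 M` elements.
Apply `run` with the index type `Fin t × Fin t`. First alternative `(p,q)`: for each of the nine pairs
there is `d = h x (i,j) ∈ (p,q)`, and the point `τ v` is in the region at height `d`; so `hF.sel` gives
a continuous `w i j` on `(p,q)`. Since `q - p > 3`, the interval `[c₀ - 5/4, c₀ + 5/4]` with
`c₀ = (p+q)/2` is contained in `(p,q)`: contradiction to `long33` (`Nice B` gives `0 ∈ B`,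
`‖b‖ ≤ 1`). Second alternative: `r` consecutive indices of class `a` and the first `r` indices of the
other classes form the desired subarray. -/
theorem localise1 (F : Set (Set V)) (hF : TameFam F) (r : ℕ) (l : V →ₗ[ℝ] ℝ) (hl : l ≠ 0)
    (hl1 : ∀ x, |l x| ≤ ‖x‖) : ∃ T : ℕ, ∀ B : Set V, B ∈ F → Nice B → ∀ X : Cfg F B T,
      ∃ e : Emb r T, ∀ v v', |l (X.τ (e.ap v)) - l (X.τ (e.ap v'))| ≤ 3 := by
  obtain ⟨M, hM⟩ := hF.sel (3 + 3)
  obtain ⟨t₀, ht₀⟩ := run (9 * M) r
  obtain ⟨t, ht⟩ : ∃ t, t = max t₀ (max r 3) := ⟨_, rfl⟩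
  have htt : t₀ ≤ t := ht ▸ le_max_left _ _
  have htr : r ≤ t := by
    rw [ht]
    exact (le_max_left r 3).trans (le_max_right _ _)
  have ht3 : 3 ≤ t := by
    rw [ht]
    exact (le_max_right r 3).trans (le_max_right _ _)
  obtain ⟨T, hT⟩ := fg_weak t
  refine ⟨T, fun B hBF hB X => ?_⟩
  obtain ⟨e, a, hea⟩ := hT fun v => l (X.τ v)
  obtain ⟨W, hW⟩ : ∃ W, W = X.sub e := ⟨_, rfl⟩
  have hWτ : ∀ v, W.τ v = X.τ (e.ap v) := fun v => by rw [hW]; rfl
  obtain ⟨ρ, hmono, hρ⟩ : ∃ ρ : Fin t → Fin t, (∀ x x' : Fin t, x < x' →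
      ∀ p p' : Fin t × Fin t, l (W.τ (idx3 a (ρ x) p.1 p.2)) ≤
        l (W.τ (idx3 a (ρ x') p'.1 p'.2))) ∧ (ρ = id ∨ ρ = Fin.rev) := by
    rcases hea with hea | hea
    · refine ⟨id, fun x x' hx p p' => ?_, Or.inl rfl⟩
      rw [hWτ, hWτ]
      refine hea _ _ ?_
      rw [idx3_a, idx3_a]
      exact hx
    · refine ⟨Fin.rev, fun x x' hx p p' => ?_, Or.inr rfl⟩
      rw [hWτ, hWτ]
      refine hea _ _ ?_
      rw [idx3_a, idx3_a]
      exact Fin.rev_lt_rev.2 hx
  have hab : a + 1 ≠ a := by fin_cases a <;> decide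
  have hac : a + 2 ≠ a := by fin_cases a <;> decide
  have hbc : a + 2 ≠ a + 1 := by fin_cases a <;> decide
  let em : Fin 3 → Fin t := Fin.castLE ht3
  have hem : Function.Injective em := Fin.castLE_injective ht3
  let Y : Fin 3 → Set V := fun i => W.A (a + 1) (em i)
  let Z : Fin 3 → Set V := fun i => W.A (a + 2) (em i)
  have hmem : ∀ k, Fin.append Y Z k ∈ F := fun k => by
    refine Fin.addCases (fun i => ?_) (fun i => ?_) k
    · rw [Fin.append_left]; exact W.mem _ _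
    · rw [Fin.append_right]; exact W.mem _ _
  have hcl : ∀ b i, IsClosed (W.A b i + B) := fun b i => ((W.cpt b i).add hB.cpt).isClosed
  obtain ⟨R, hR⟩ : ∃ R : ℝ, ∀ w ∈ ⋃ i, (Y i + B), ‖w‖ ≤ R := by
    have : Bornology.IsBounded (⋃ i, (Y i + B)) := by
      rw [Bornology.isBounded_iUnion]
      exact fun i => ((W.cpt _ _).add hB.cpt).isBounded
    obtain ⟨R, hR⟩ := this.exists_norm_le
    exact ⟨R, hR⟩
  choose E hEc hE using fun p : Fin 3 × Fin 3 =>
    hM (Fin.append Y Z) B hmem hBF (Fin.append (fun i' => if i' = p.1 then 0 else 1)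
      (fun j' => if j' = p.2 then 0 else 1)) 0 R 0 0 l
  let EE : Finset ℝ := Finset.univ.biUnion E
  have hEE : EE.card ≤ 9 * M := by
    refine Finset.card_biUnion_le.trans ?_
    refine (Finset.sum_le_sum fun p _ => hEc p).trans ?_
    simp
  have ht0 : 0 < t := by omega
  have : Nonempty (Fin t × Fin t) := ⟨(⟨0, ht0⟩, ⟨0, ht0⟩)⟩
  rcases ht₀ t htt (Fin t × Fin t) (fun x p => l (W.τ (idx3 a (ρ x) p.1 p.2))) hmono EE hEE with
    ⟨p, q, hpq, hpE, hval⟩ | ⟨x₀, hx₀, hx⟩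
  · exfalso
    have hsel : ∀ ij : Fin 3 × Fin 3, ∃ f : ℝ → V, ContinuousOn f (Ioo p q) ∧
        ∀ d ∈ Ioo p q, (f d ∈ Y ij.1 + B ∧ f d ∈ Z ij.2 + B ∧ (∀ i', i' ≠ ij.1 → f d ∉ Y i' + B) ∧
          (∀ j', j' ≠ ij.2 → f d ∉ Z j' + B)) ∧ l (f d) = d := by
      intro ij
      obtain ⟨x, hx⟩ := hval (em ij.1, em ij.2)
      have hin : W.τ (idx3 a (ρ x) (em ij.1) (em ij.2)) ∈ Y ij.1 + B := by
        have h1 := W.fr (idx3 a (ρ x) (em ij.1) (em ij.2)) (a + 1)
        rw [idx3_b] at h1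
        exact (hcl _ _).frontier_subset h1
      have hin' : W.τ (idx3 a (ρ x) (em ij.1) (em ij.2)) ∈ Z ij.2 + B := by
        have h1 := W.fr (idx3 a (ρ x) (em ij.1) (em ij.2)) (a + 2)
        rw [idx3_c] at h1
        exact (hcl _ _).frontier_subset h1
      obtain ⟨f, hf, hf2⟩ := hE ij p q (fun z hz =>
        hpE z (Finset.mem_biUnion.2 ⟨ij, Finset.mem_univ _, hz⟩))
        ⟨_, hx, W.τ (idx3 a (ρ x) (em ij.1) (em ij.2)), by
          rw [reg_mark]
          refine ⟨⟨fun _ => hin, by simp, by simp⟩, ⟨fun _ => hin', by simp, by simp⟩, ?_, ?_, ?_⟩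
          · intro i' hi'
            refine W.out _ (a + 1) (em i') ?_
            rw [idx3_b]
            exact fun h' => hi' (hem h').symm
          · intro i' hi'
            refine W.out _ (a + 2) (em i') ?_
            rw [idx3_c]
            exact fun h' => hi' (hem h').symm
          · rw [sub_zero]
            exact hR _ (mem_iUnion.2 ⟨_, hin⟩), rfl⟩
      refine ⟨f, hf, fun d hd => ?_⟩
      obtain ⟨h1, h2⟩ := hf2 d hd
      rw [reg_mark] at h1
      exact ⟨⟨h1.1.1 rfl, h1.2.1.1 rfl, h1.2.2.1, h1.2.2.2.1⟩, h2⟩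
    choose f hf hfd using hsel
    have hsub : Icc ((p + q) / 2 - 5 / 4) ((p + q) / 2 + 5 / 4) ⊆ Ioo p q := by
      intro c hc
      rw [mem_Icc] at hc
      exact ⟨by linarith [hc.1], by linarith [hc.2]⟩
    refine long33 Y Z B (fun i => W.cpt _ _) (fun i => W.cpt _ _) hB.cpt (fun i => W.cvx _ _)
      (fun i => W.cvx _ _) hB.cvx hB.zero hB.le (fun i i' h => W.disj _ _ _ _ ?_)
      (fun i i' h => W.disj _ _ _ _ ?_) (fun i j => W.disj _ _ _ _ ?_) l hl hl1 ((p + q) / 2)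
      (fun i j => f (i, j)) (fun i j => (hf (i, j)).mono hsub) ?_
    · intro h'
      exact h (hem (Prod.mk.inj h').2)
    · intro h'
      exact h (hem (Prod.mk.inj h').2)
    · intro h'
      exact hbc (Prod.mk.inj h').1.symm
    · intro i j c hc
      obtain ⟨h1, h2⟩ := hfd (i, j) c (hsub hc)
      exact ⟨h2, h1⟩
  · obtain ⟨g, hg⟩ : ∃ g : Fin r ↪o Fin t, ∀ i, ∃ x : Fin t, g i = ρ x ∧ x₀ ≤ (x : ℕ) ∧
        (x : ℕ) < x₀ + r := by
      rcases hρ with rfl | rfl
      · refine ⟨OrderEmbedding.ofStrictMono (fun i => ⟨x₀ + i, by omega⟩) ?_, fun i =>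
          ⟨⟨x₀ + i, by omega⟩, rfl, by simp, by simp⟩⟩
        intro i j hij
        rw [Fin.mk_lt_mk]
        have : (i : ℕ) < j := hij
        omega
      · refine ⟨OrderEmbedding.ofStrictMono (fun i => ⟨t - x₀ - r + i, by omega⟩) ?_, fun i =>
          ⟨⟨x₀ + r - 1 - i, by omega⟩, ?_, ?_, ?_⟩⟩
        · intro i j hij
          rw [Fin.mk_lt_mk]
          have : (i : ℕ) < j := hij
          omega
        · rw [OrderEmbedding.coe_ofStrictMono, Fin.ext_iff, Fin.val_rev]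
          simp only
          omega
        · simp only
          omega
        · simp only
          omega
    let e' : Emb r t := fun b => if b = a then g else Fin.castLEOrderEmb htr
    refine ⟨e'.comp e, fun v v' => ?_⟩
    have hu : ∀ u : Fin 3 → Fin r, ∃ x : Fin t, (∃ p : Fin t × Fin t,
        X.τ ((e'.comp e).ap u) = W.τ (idx3 a (ρ x) p.1 p.2)) ∧ x₀ ≤ (x : ℕ) ∧
          (x : ℕ) < x₀ + r := by
      intro u
      obtain ⟨x, h1, h2⟩ := hg (u a)
      refine ⟨x, ⟨((e'.ap u) (a + 1), (e'.ap u) (a + 2)), ?_⟩, h2⟩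
      rw [Emb.comp_ap, hWτ]
      congr 2
      have h3 : (e'.ap u) a = ρ x := by
        rw [← h1]
        simp [Emb.ap, e']
      rw [← h3, idx3_self]
    obtain ⟨x, ⟨p, hp⟩, h1, h2⟩ := hu v
    obtain ⟨x', ⟨p', hp'⟩, h1', h2'⟩ := hu v'
    rw [hp, hp']
    exact hx x x' h1 h2 h1' h2' p p'

end U78
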