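import Mathlib
import Pool.Agent.W_78bee8_h33.Localise1
import Pool.Agent.W_78bee8_h33.RamseyP

/-!
# Localisation
-/

namespace U78

open Set Pointwise

/-- LOCALISATION. PROOF. `localise1` for the three coordinates (`LinearMap.proj i`), one after the
other, gives a subarray with `‖τ v - τ v'‖ ≤ 3` for all `v, v'`. Colour `v` by the vector
`fun i => ⌊192 * (τ v i - τ v₀ i)⌋`, with values in `[-576, 576]`, and apply `ramsey_points`; on a
monochromatic subarray any two points have distance `≤ 1/192`; take `x = τ v₁` for some `v₁` in it.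
(For `t = 0` there is nothing to prove: with `T = 0`, any `x`; note that `Fin 3 → Fin 0` is empty.) -/
theorem localise (F : Set (Set V)) (hF : TameFam F) (t : ℕ) : ∃ T : ℕ, ∀ B : Set V, B ∈ F →
    Nice B → ∀ X : Cfg F B T, ∃ (e : Emb t T) (x : V), ∀ v, ‖X.τ (e.ap v) - x‖ ≤ 1 / 192 := by
  have hp : ∀ i : Fin 3, (LinearMap.proj i : V →ₗ[ℝ] ℝ) ≠ 0 := by
    intro i h
    have h1 : (LinearMap.proj i : V →ₗ[ℝ] ℝ) (fun _ => 1) = 0 := by rw [h]; rfl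
    simp at h1
  have hp1 : ∀ (i : Fin 3) (x : V), |(LinearMap.proj i : V →ₗ[ℝ] ℝ) x| ≤ ‖x‖ := by
    intro i x
    exact norm_le_pi_norm x i
  obtain ⟨N, hN⟩ := ramsey_points (Fin 3 → Set.Icc (-576 : ℤ) 576) t
  obtain ⟨T2, h2⟩ := localise1 F hF N (LinearMap.proj 2) (hp 2) (hp1 2)
  obtain ⟨T1, h1⟩ := localise1 F hF T2 (LinearMap.proj 1) (hp 1) (hp1 1)
  obtain ⟨T0, h0⟩ := localise1 F hF T1 (LinearMap.proj 0) (hp 0) (hp1 0)
  refine ⟨T0, fun B hBF hB X => ?_⟩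
  obtain ⟨e0, he0⟩ := h0 B hBF hB X
  obtain ⟨e1, he1⟩ := h1 B hBF hB (X.sub e0)
  obtain ⟨e2, he2⟩ := h2 B hBF hB ((X.sub e0).sub e1)
  let e' : Emb N T0 := e2.comp (e1.comp e0)
  have hb : ∀ (v v' : Fin 3 → Fin N) (i : Fin 3), |X.τ (e'.ap v) i - X.τ (e'.ap v') i| ≤ 3 := by
    intro v v' i
    fin_cases i
    · exact he0 (e1.ap (e2.ap v)) (e1.ap (e2.ap v'))
    · exact he1 (e2.ap v) (e2.ap v')
    · exact he2 v v'
  obtain ⟨a, ha⟩ : ∃ a : V, ∀ (v : Fin 3 → Fin N) (i : Fin 3), |X.τ (e'.ap v) i - a i| ≤ 3 := by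
    rcases isEmpty_or_nonempty (Fin 3 → Fin N) with h | ⟨⟨v0⟩⟩
    · exact ⟨0, fun v => h.elim v⟩
    · exact ⟨X.τ (e'.ap v0), fun v i => hb v v0 i⟩
  have hfl : ∀ (v : Fin 3 → Fin N) (i : Fin 3),
      ⌊192 * (X.τ (e'.ap v) i - a i)⌋ ∈ Set.Icc (-576 : ℤ) 576 := by
    intro v i
    have h3 := abs_le.1 (ha v i)
    constructor
    · rw [Int.le_floor]
      push_cast
      linarith [h3.1]
    · have h4 : ⌊192 * (X.τ (e'.ap v) i - a i)⌋ ≤ ⌊(576 : ℝ)⌋ := Int.floor_le_floor (by linarith [h3.2])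
      have h5 : ⌊(576 : ℝ)⌋ = 576 := by norm_num
      rwa [h5] at h4
  obtain ⟨e3, c, hc⟩ := hN fun v i => ⟨_, hfl v i⟩
  rcases isEmpty_or_nonempty (Fin 3 → Fin t) with h | ⟨⟨v1⟩⟩
  · exact ⟨e3.comp e', 0, fun v => h.elim v⟩
  · refine ⟨e3.comp e', X.τ ((e3.comp e').ap v1), fun v => ?_⟩
    rw [pi_norm_le_iff_of_nonneg (by norm_num)]
    intro i
    have h5 := congrArg Subtype.val (congrFun ((hc v).trans (hc v1).symm) i)
    have h6 := Int.abs_sub_lt_one_of_floor_eq_floor h5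
    have h7 : 192 * (X.τ (e'.ap (e3.ap v)) i - a i) - 192 * (X.τ (e'.ap (e3.ap v1)) i - a i) =
        192 * (X.τ (e'.ap (e3.ap v)) i - X.τ (e'.ap (e3.ap v1)) i) := by ring
    rw [h7, abs_mul, abs_of_pos (by norm_num : (0 : ℝ) < 192)] at h6
    change |X.τ (e'.ap (e3.ap v)) i - X.τ (e'.ap (e3.ap v1)) i| ≤ 1 / 192
    linarith

end U78
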