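import Mathlib
import Pool.Agent.W_78bee8_h33.Defs

/-!
# Affine images of configurations
-/

namespace U78

open Set Pointwise

/-- The image of a configuration under an affine bijection.
PROOF: take `A' a i = L '' A a i`, `τ' v = L (τ v) + u`; note
`(fun x => L x + u) '' (A + B) = (L '' A) + (fun x => L x + u) '' B`, a homeomorphism maps frontiers to
frontiers (`Homeomorph.image_frontier`), and `L '' A = (fun x => L x + 0) '' A` is in `F` by
`hF.aff`. -/
theorem Cfg.map {F : Set (Set V)} (hF : TameFam F) {B : Set V} {t : ℕ} (X : Cfg F B t)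
    (L : V ≃ₗ[ℝ] V) (u : V) : Nonempty (Cfg F ((fun x => L x + u) '' B) t) := by
  classical
  let h : V ≃ₜ V := L.toContinuousLinearEquiv.toHomeomorph.trans (Homeomorph.addRight u)
  have hh : ∀ x, h x = L x + u := fun x => rfl
  have hcont : Continuous (L : V → V) := L.toContinuousLinearEquiv.continuous
  have key : ∀ A : Set V, (L '' A) + ((fun x => L x + u) '' B) = h '' (A + B) := by
    intro A
    ext y
    constructor
    · rintro ⟨_, ⟨a, ha, rfl⟩, _, ⟨b, hb, rfl⟩, rfl⟩
      refine ⟨a + b, Set.add_mem_add ha hb, ?_⟩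
      show L (a + b) + u = L a + (L b + u)
      rw [map_add, add_assoc]
    · rintro ⟨_, ⟨a, ha, b, hb, rfl⟩, rfl⟩
      refine ⟨L a, ⟨a, ha, rfl⟩, L b + u, ⟨b, hb, rfl⟩, ?_⟩
      show L a + (L b + u) = L (a + b) + u
      rw [map_add, add_assoc]
  refine ⟨{
    A := fun a i => L '' X.A a i
    τ := fun v => h (X.τ v)
    mem := ?_
    cpt := fun a i => (X.cpt a i).image hcont
    cvx := fun a i => (X.cvx a i).linear_image L.toLinearMap
    disj := fun a i a' i' hne => (Set.disjoint_image_iff L.injective).2 (X.disj a i a' i' hne)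
    fr := ?_
    out := ?_ }⟩
  · intro a i
    have h1 := hF.aff _ (X.mem a i) L 0
    simpa using h1
  · intro v a
    rw [key, ← h.image_frontier]
    exact mem_image_of_mem _ (X.fr v a)
  · intro v a i hne
    rw [key, h.injective.mem_set_image]
    exact X.out v a i hne

end U78
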