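import Mathlib
import Pool.Agent.W_78bee8_h33.Leg
import Pool.Agent.W_78bee8_h33.Plane

/-!
# Flat bodies `B`: no `K_{3,3}` in a slice
-/

namespace U78

open Set Pointwise

/-- points of a leg -/
lemma leg_mem {B : Set V} (hB : Convex ℝ B) (h0 : (0 : V) ∈ B) {a w x : V} (h : w - a ∈ B)
    (hx : x ∈ segment ℝ a w) : w - x ∈ B := by
  obtain ⟨s, t, hs, ht, hst, rfl⟩ := hx
  have h1 : w - (s • a + t • w) = s • (w - a) + t • (0 : V) := by
    have : s = 1 - t := by linarith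
    subst this
    module
  rw [h1]
  exact hB h h0 hs ht hst

lemma segPath_range {x y : V} : range (segPath x y) ⊆ segment ℝ x y := by
  rintro _ ⟨t, rfl⟩
  exact segPath_mem (convex_segment x y) (left_mem_segment ℝ x y) (right_mem_segment ℝ x y) t

/-- the case `0 ∈ B`, `l = 0` on `B` -/
theorem flat33_aux (Y Z : Fin 3 → Set V) (B : Set V) (hYc : ∀ i, Convex ℝ (Y i))
    (hZc : ∀ i, Convex ℝ (Z i)) (hB : Convex ℝ B) (h0 : (0 : V) ∈ B)
    (hYY : ∀ i i', i ≠ i' → Disjoint (Y i) (Y i')) (hZZ : ∀ i i', i ≠ i' → Disjoint (Z i) (Z i'))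
    (hYZ : ∀ i j, Disjoint (Y i) (Z j)) (l : V →ₗ[ℝ] ℝ) (hl : l ≠ 0)
    (hlB : ∀ b ∈ B, l b = 0) (c : ℝ) (w : Fin 3 → Fin 3 → V)
    (hw : ∀ i j, l (w i j) = c ∧ w i j ∈ Y i + B ∧ w i j ∈ Z j + B ∧
      (∀ i', i' ≠ i → w i j ∉ Y i' + B) ∧ (∀ j', j' ≠ j → w i j ∉ Z j' + B)) : False := by
  have hA : ∀ i j, ∃ a ∈ Y i, w i j - a ∈ B := fun i j => by
    obtain ⟨a, ha, β, hβ, h⟩ := Set.mem_add.mp (hw i j).2.1
    exact ⟨a, ha, by rw [← h]; simpa using hβ⟩
  have hA' : ∀ i j, ∃ b ∈ Z j, w i j - b ∈ B := fun i j => by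
    obtain ⟨a, ha, β, hβ, h⟩ := Set.mem_add.mp (hw i j).2.2.1
    exact ⟨a, ha, by rw [← h]; simpa using hβ⟩
  choose a ha haw using hA
  choose b hb hbw using hA'
  have hlw : ∀ x w : V, w - x ∈ B → l x = l w := fun x w h => by
    have := hlB _ h
    rw [map_sub, sub_eq_zero] at this
    exact this.symm
  have hnY : ∀ i j i', i' ≠ i → ∀ x ∈ Y i', w i j - x ∉ B := fun i j i' hi x hx h => by
    refine (hw i j).2.2.2.1 i' hi (Set.mem_add.mpr ⟨x, hx, w i j - x, h, by abel⟩)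
  have hnZ : ∀ i j j', j' ≠ j → ∀ x ∈ Z j', w i j - x ∉ B := fun i j j' hj x hx h => by
    refine (hw i j).2.2.2.2 j' hj (Set.mem_add.mpr ⟨x, hx, w i j - x, h, by abel⟩)
  have hmem : ∀ i j, ∀ x ∈ range (segPath (a i j) (w i j)) ∪ range (segPath (b i j) (w i j)),
      w i j - x ∈ B := by
    rintro i j x (hx | hx)
    · exact leg_mem hB h0 (haw i j) (segPath_range hx)
    · exact leg_mem hB h0 (hbw i j) (segPath_range hx)
  refine k33_plane Y Z hYc hZc hYY hZZ hYZ l hl c w a b ha hb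
    (fun i j => segPath (a i j) (w i j)) (fun i j => segPath (b i j) (w i j)) ?_ ?_ ?_ ?_ ?_
  · intro i j t
    exact segPath_plane l (by rw [hlw _ _ (haw i j)]; exact (hw i j).1) (hw i j).1 t
  · intro i j t
    exact segPath_plane l (by rw [hlw _ _ (hbw i j)]; exact (hw i j).1) (hw i j).1 t
  · intro i j i' hi
    rw [Set.disjoint_left]
    intro x hx hx'
    exact hnY i j i' hi x hx' (hmem i j x hx)
  · intro i j j' hj
    rw [Set.disjoint_left]
    intro x hx hx'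
    exact hnZ i j j' hj x hx' (hmem i j x hx)
  · intro i j i' j' hi hj
    rw [Set.disjoint_left]
    rintro x (hx | hx) (hx' | hx')
    · exact Set.disjoint_left.mp (leg hB h0 (haw i j) (haw i' j')
        (hnY i j i' (Ne.symm hi) _ (ha i' j')) (hnY i' j' i hi _ (ha i j)))
        (segPath_range hx) (segPath_range hx')
    · exact Set.disjoint_left.mp (leg hB h0 (haw i j) (hbw i' j')
        (hnZ i j j' (Ne.symm hj) _ (hb i' j')) (hnY i' j' i hi _ (ha i j)))
        (segPath_range hx) (segPath_range hx')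
    · exact Set.disjoint_left.mp (leg hB h0 (hbw i j) (haw i' j')
        (hnY i j i' (Ne.symm hi) _ (ha i' j')) (hnZ i' j' j hj _ (hb i j)))
        (segPath_range hx) (segPath_range hx')
    · exact Set.disjoint_left.mp (leg hB h0 (hbw i j) (hbw i' j')
        (hnZ i j j' (Ne.symm hj) _ (hb i' j')) (hnZ i' j' j hj _ (hb i j)))
        (segPath_range hx) (segPath_range hx')

/-- Let `l ≠ 0` be constant on `B`. For `3 + 3` disjoint convex sets there is no `c` such that for all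
nine pairs there is a point of the slice `l = c` which lies in `Y i + B` and `Z j + B` but in none
of the other four sums.

PROOF. Replacing `B` by `B - b₀` and `w` by `w - b₀`, `c` by `c - l b₀` (`b₀ ∈ B`; `B` is nonempty as
`w 0 0 ∈ Y 0 + B`) we may assume `0 ∈ B` and `l = 0` on `B`. Write `w i j = a i j + β`,
`w i j = b i j + β'` with `a i j ∈ Y i`, `b i j ∈ Z j`, `β, β' ∈ B`. Apply `k33_plane` with the
straight paths from `a i j` to `w i j` and from `b i j` to `w i j` (range = segment). They are in the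
plane since `l (a i j) = l (w i j) = c`. A segment `[a, w]`, `w - a ∈ B`, consists of points
`a + s β` and `w - (a + s β) = (1 - s) β ∈ B` (as `0 ∈ B`), so if it met `Y i'` then `w ∈ Y i' + B`.
The disjointness of the legs of `(i,j)` and `(i',j')` is `leg` (`w i j - a' ∉ B` since
`a' ∈ Y i' ∪ Z j'` and `w i j` is not in `Y i' + B`, `Z j' + B`). -/
theorem flat33 (Y Z : Fin 3 → Set V) (B : Set V) (hYc : ∀ i, Convex ℝ (Y i))
    (hZc : ∀ i, Convex ℝ (Z i)) (hB : Convex ℝ B)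
    (hYY : ∀ i i', i ≠ i' → Disjoint (Y i) (Y i')) (hZZ : ∀ i i', i ≠ i' → Disjoint (Z i) (Z i'))
    (hYZ : ∀ i j, Disjoint (Y i) (Z j)) (l : V →ₗ[ℝ] ℝ) (hl : l ≠ 0) (κ : ℝ)
    (hlB : ∀ b ∈ B, l b = κ) (c : ℝ) (w : Fin 3 → Fin 3 → V)
    (hw : ∀ i j, l (w i j) = c ∧ w i j ∈ Y i + B ∧ w i j ∈ Z j + B ∧
      (∀ i', i' ≠ i → w i j ∉ Y i' + B) ∧ (∀ j', j' ≠ j → w i j ∉ Z j' + B)) : False := by
  obtain ⟨y, hy, b₀, hb₀, hyb⟩ := Set.mem_add.mp (hw 0 0).2.1
  have htr : ∀ (S : Set V) (x : V), x - b₀ ∈ S + (fun z => z - b₀) '' B ↔ x ∈ S + B := by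
    intro S x
    constructor
    · intro h
      obtain ⟨s, hs, _, ⟨z, hz, rfl⟩, h⟩ := Set.mem_add.mp h
      refine Set.mem_add.mpr ⟨s, hs, z, hz, ?_⟩
      have : s + z = (s + (z - b₀)) + b₀ := by abel
      rw [this, h]
      abel
    · intro h
      obtain ⟨s, hs, z, hz, h⟩ := Set.mem_add.mp h
      refine Set.mem_add.mpr ⟨s, hs, z - b₀, ⟨z, hz, rfl⟩, ?_⟩
      rw [← h]
      abel
  refine flat33_aux Y Z ((fun z => z - b₀) '' B) hYc hZc ?_ ⟨b₀, hb₀, sub_self _⟩ hYY hZZ hYZ l hl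
    ?_ (c - l b₀) (fun i j => w i j - b₀) ?_
  · have h := hB.translate (-b₀)
    have e : (fun z => z - b₀) = fun z => -b₀ + z := by
      funext z
      abel
    rw [e]
    exact h
  · rintro _ ⟨z, hz, rfl⟩
    rw [map_sub, hlB z hz, hlB b₀ hb₀, sub_self]
  · intro i j
    obtain ⟨h1, h2, h3, h4, h5⟩ := hw i j
    refine ⟨by rw [map_sub, h1], (htr _ _).mpr h2, (htr _ _).mpr h3, ?_, ?_⟩
    · intro i' hi h
      exact h4 i' hi ((htr _ _).mp h)
    · intro j' hj h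
      exact h5 j' hj ((htr _ _).mp h)

end U78
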