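import Mathlib
import Pool.Agent.W_78bee8_h33.Defs

/-!
# Convex sets without interior
-/

namespace U78

open Set Pointwise

/-- A convex set with empty interior is contained in a plane. PROOF: the affine span of `B` is not
everything (`Convex.interior_nonempty_iff_affineSpan_eq_top` / `interior_convexHull_nonempty_iff_affineSpan_eq_top`);
if `B` is empty take any `l ≠ 0`; otherwise the direction of the affine span is a proper subspace
and some nonzero linear functional vanishes on it (`Submodule.exists_le_ker_of_lt_top`). -/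
theorem flat_functional (B : Set V) (hB : Convex ℝ B) (hi : interior B = ∅) :
    ∃ (l : V →ₗ[ℝ] ℝ) (κ : ℝ), l ≠ 0 ∧ ∀ b ∈ B, l b = κ := by
  have htop : affineSpan ℝ B ≠ ⊤ := by
    intro h
    have := (hB.interior_nonempty_iff_affineSpan_eq_top).2 h
    rw [hi] at this
    exact Set.not_nonempty_empty this
  rcases B.eq_empty_or_nonempty with he | ⟨b₀, hb₀⟩
  · subst he
    have hlt : (⊥ : Submodule ℝ V) < ⊤ := bot_lt_top
    obtain ⟨f, hf, -⟩ := Submodule.exists_le_ker_of_lt_top _ hlt
    exact ⟨f, 0, hf, fun b hb => absurd hb (Set.notMem_empty b)⟩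
  · have hne : (affineSpan ℝ B : Set V).Nonempty := ⟨b₀, subset_affineSpan ℝ B hb₀⟩
    have hdir : (affineSpan ℝ B).direction < ⊤ := by
      refine lt_top_iff_ne_top.2 fun h => htop ?_
      exact (AffineSubspace.direction_eq_top_iff_of_nonempty hne).1 h
    obtain ⟨f, hf, hk⟩ := Submodule.exists_le_ker_of_lt_top _ hdir
    refine ⟨f, f b₀, hf, fun b hb => ?_⟩
    have h1 : b - b₀ ∈ (affineSpan ℝ B).direction :=
      AffineSubspace.vsub_mem_direction (subset_affineSpan ℝ B hb) (subset_affineSpan ℝ B hb₀)
    have h2 : f (b - b₀) = 0 := LinearMap.mem_ker.1 (hk h1)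
    rw [map_sub] at h2
    linarith

end U78
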