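import Mathlib
import Pool.Agent.W_78bee8_h33.Flat
import Pool.Agent.W_78bee8_h33.FlatF
import Pool.Agent.W_78bee8_h33.FGW
import Pool.Agent.W_78bee8_h33.Epoch

/-!
# The flat case
-/

namespace U78

open Set Pointwise

/-- the index vector with value `x` at `a`, `i` at `a + 1`, `j` at `a + 2` -/
private def vec {t : ℕ} (a : Fin 3) (x i j : Fin t) : Fin 3 → Fin t := fun b =>
  if b = a then x else if b = a + 1 then i else j

private lemma vec_a {t : ℕ} (a : Fin 3) (x i j : Fin t) : vec a x i j a = x := by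
  simp [vec]

private lemma vec_b {t : ℕ} (a : Fin 3) (x i j : Fin t) : vec a x i j (a + 1) = i := by
  have h : a + 1 ≠ a := by fin_cases a <;> decide
  simp [vec]

private lemma vec_c {t : ℕ} (a : Fin 3) (x i j : Fin t) : vec a x i j (a + 2) = j := by
  have h : a + 2 ≠ a := by fin_cases a <;> decide
  have h' : a + 2 ≠ a + 1 := by fin_cases a <;> decide
  simp only [vec, h, h', if_false]

/-- FLAT CASE. PROOF. `flat_functional` gives `l ≠ 0` constant on `B`. `M` from `hF.proj 6`,
`t = 18 * M + 3`, `T` from `fg_weak t`. On the subarray `l ∘ τ` is weakly ordered by class `a`; six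
bodies `Y i = A (a+1) i`, `Z j = A (a+2) j` (`i, j < 3`); `E` = union of the nine exceptional sets of
`hF.proj` (inside `Y i + B`, `Z j + B`, outside the other four; `ε` large, no plane), `epoch` for
`h x (i,j)`, `i, j < 3` gives `x` and as in `no_local` a common height `c` and points `w i j`:
contradiction to `flat33`. -/
theorem no_flat (F : Set (Set V)) (hF : TameFam F) : ∃ T : ℕ, ∀ B : Set V, B ∈ F → IsCompact B →
    Convex ℝ B → interior B = ∅ → IsEmpty (Cfg F B T) := by
  classical
  obtain ⟨M, hM⟩ := hF.proj (3 + 3)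
  obtain ⟨t, ht⟩ : ∃ t, t = 18 * M + 3 := ⟨_, rfl⟩
  obtain ⟨T, hT⟩ := fg_weak t
  refine ⟨T, fun B hBF hBc hBv hi => ⟨fun X₀ => ?_⟩⟩
  obtain ⟨l, κ, hl, hlB⟩ := flat_functional B hBv hi
  obtain ⟨e, a, hea⟩ := hT (fun v => l (X₀.τ v))
  let X : Cfg F B t := X₀.sub e
  -- the monotone parametrisation of class `a`
  obtain ⟨s, hs⟩ : ∃ s : Fin t → Fin t, ∀ x x', x < x' → ∀ v v' : Fin 3 → Fin t, v a = s x →
      v' a = s x' → l (X.τ v) ≤ l (X.τ v') := by
    rcases hea with h | h
    · exact ⟨id, fun x x' hx v v' hv hv' => h v v' (by rw [hv, hv']; exact hx)⟩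
    · exact ⟨Fin.rev, fun x x' hx v v' hv hv' => h v' v (by
        rw [hv, hv']; exact Fin.rev_lt_rev.2 hx)⟩
  have h3 : 3 ≤ t := by omega
  let ι : Fin 3 → Fin t := Fin.castLE h3
  have hι : ∀ i i', ι i = ι i' → i = i' := fun i i' h => Fin.castLE_injective h3 h
  let w : Fin t → Fin 3 × Fin 3 → V := fun x y => X.τ (vec a (s x) (ι y.1) (ι y.2))
  let Y : Fin 3 → Set V := fun i => X.A (a + 1) (ι i)
  let Z : Fin 3 → Set V := fun j => X.A (a + 2) (ι j)
  let bod : Fin (3 + 3) → Set V := fun k => Sum.elim Y Z (finSumFinEquiv.symm k)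
  let σ : Fin 3 × Fin 3 → Fin (3 + 3) → Fin 4 := fun y k =>
    Sum.elim (fun i => if i = y.1 then 0 else 1) (fun j => if j = y.2 then 0 else 1)
      (finSumFinEquiv.symm k)
  obtain ⟨R, hR⟩ : ∃ R, ∀ v, ‖X.τ v‖ ≤ R := by
    obtain ⟨R, hR⟩ := (Set.finite_range (fun v => ‖X.τ v‖)).bddAbove
    exact ⟨R, fun v => hR (Set.mem_range_self v)⟩
  have hbod : ∀ k, bod k ∈ F := by
    intro k
    show Sum.elim Y Z (finSumFinEquiv.symm k) ∈ F
    rcases finSumFinEquiv.symm k with i | j
    · exact X.mem _ _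
    · exact X.mem _ _
  choose E hEc hE using fun y : Fin 3 × Fin 3 => hM bod B hbod hBF (σ y) 0 R 0 0 l
  -- regions
  have hin : ∀ v b, X.τ v ∈ X.A b (v b) + B := fun v b =>
    ((X.cpt b _).add hBc).isClosed.frontier_subset (X.fr v b)
  have hreg : ∀ x y, w x y ∈ Reg bod B (σ y) 0 R 0 0 := by
    intro x y
    refine ⟨fun k => ?_, ?_, ?_⟩
    · show St (Sum.elim Y Z (finSumFinEquiv.symm k) + B) (w x y)
        (Sum.elim (fun i => if i = y.1 then 0 else 1) (fun j => if j = y.2 then 0 else 1)
          (finSumFinEquiv.symm k))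
      rcases finSumFinEquiv.symm k with i | j
      · simp only [Sum.elim_inl]
        by_cases hi : i = y.1
        · rw [if_pos hi]
          refine ⟨fun _ => ?_, fun h => absurd h (by decide), fun h => absurd h (by decide)⟩
          have := hin (vec a (s x) (ι y.1) (ι y.2)) (a + 1)
          rw [vec_b] at this
          rw [hi]
          exact this
        · rw [if_neg hi]
          refine ⟨fun h => absurd h (by decide), fun _ => ?_, fun h => absurd h (by decide)⟩
          refine X.out _ (a + 1) (ι i) ?_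
          rw [vec_b]
          exact fun h => hi (hι _ _ h).symm
      · simp only [Sum.elim_inr]
        by_cases hj : j = y.2
        · rw [if_pos hj]
          refine ⟨fun _ => ?_, fun h => absurd h (by decide), fun h => absurd h (by decide)⟩
          have := hin (vec a (s x) (ι y.1) (ι y.2)) (a + 2)
          rw [vec_c] at this
          rw [hj]
          exact this
        · rw [if_neg hj]
          refine ⟨fun h => absurd h (by decide), fun _ => ?_, fun h => absurd h (by decide)⟩
          refine X.out _ (a + 2) (ι j) ?_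
          rw [vec_c]
          exact fun h => hj (hι _ _ h).symm
    · rw [sub_zero]
      exact hR _
    · simp
  obtain ⟨x, hx⟩ := epoch (fun x y => l (w x y)) (fun x x' hxx y y' =>
      hs x x' hxx _ _ (vec_a _ _ _ _) (vec_a _ _ _ _)) (Finset.univ.biUnion E) (by
    have h1 : (Finset.univ.biUnion E).card ≤ ∑ y : Fin 3 × Fin 3, (E y).card :=
      Finset.card_biUnion_le
    have h2 : ∑ y : Fin 3 × Fin 3, (E y).card ≤ ∑ _y : Fin 3 × Fin 3, M :=
      Finset.sum_le_sum fun y _ => hEc y
    have h3 : ∑ _y : Fin 3 × Fin 3, M = 9 * M := by simp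
    omega)
  set c := l (w x (0, 0)) with hc
  have hp : ∀ y, ∃ p ∈ Reg bod B (σ y) 0 R 0 0, l p = c := by
    intro y
    rcases hx with hx | hx
    · exact ⟨w x y, hreg x y, hx _ _⟩
    · rcases le_total (l (w x y)) c with hle | hle
      · refine (hE y _ _ hle ?_).1 ⟨w x y, hreg x y, rfl⟩
        intro z hz
        exact hx y (0, 0) z (Finset.mem_biUnion.2 ⟨y, Finset.mem_univ _, hz⟩)
      · refine (hE y _ _ hle ?_).2 ⟨w x y, hreg x y, rfl⟩
        intro z hz
        exact hx (0, 0) y z (Finset.mem_biUnion.2 ⟨y, Finset.mem_univ _, hz⟩)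
  choose p hpR hpc using hp
  have key1 : ∀ y i, St (Y i + B) (p y) (if i = y.1 then 0 else 1) := by
    intro y i
    have := (hpR y).1 (finSumFinEquiv (Sum.inl i))
    simpa [bod, σ] using this
  have key2 : ∀ y j, St (Z j + B) (p y) (if j = y.2 then 0 else 1) := by
    intro y j
    have := (hpR y).1 (finSumFinEquiv (Sum.inr j))
    simpa [bod, σ] using this
  have hne : ∀ b b' : Fin 3, ∀ i i' : Fin 3, (b, i) ≠ (b', i') →
      (b, ι i) ≠ (b', ι i') := by
    intro b b' i i' h h'
    rw [Prod.mk.injEq] at h'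
    exact h (Prod.ext h'.1 (hι _ _ h'.2))
  have hab : a + 1 ≠ a + 2 := by fin_cases a <;> decide
  refine flat33 Y Z B (fun i => X.cvx _ _) (fun i => X.cvx _ _) hBv
    (fun i i' h => X.disj _ _ _ _ (hne _ _ _ _ (fun h' => h (Prod.mk.inj h').2)))
    (fun i i' h => X.disj _ _ _ _ (hne _ _ _ _ (fun h' => h (Prod.mk.inj h').2)))
    (fun i j => X.disj _ _ _ _ (hne _ _ _ _ (fun h' => hab (Prod.mk.inj h').1)))
    l hl κ hlB c (fun i j => p (i, j)) (fun i j => ⟨hpc _, ?_, ?_, ?_, ?_⟩)
  · have := key1 (i, j) i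
    rw [if_pos rfl] at this
    exact this.1 rfl
  · have := key2 (i, j) j
    rw [if_pos rfl] at this
    exact this.1 rfl
  · intro i' hi'
    have := key1 (i, j) i'
    rw [if_neg hi'] at this
    exact this.2.1 rfl
  · intro j' hj'
    have := key2 (i, j) j'
    rw [if_neg hj'] at this
    exact this.2.1 rfl

end U78
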