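import Mathlib
import Pool.Agent.W_78bee8_h33.Defs

/-!
# Normalisation of `B` by an affine map
-/

namespace U78

open Set Pointwise

/-- A compact convex set with nonempty interior is affinely equivalent to a `Nice` one.

PROOF. Let `D (b₀,b₁,b₂,b₃) = |det (b₁ - b₀, b₂ - b₀, b₃ - b₀)|` (`Matrix.det (Matrix.of ![..])`), a
continuous function on the compact set `B⁴`; it is positive somewhere since `B` has interior (take
`b₀ = x`, `b_i = x + ε e_i` in a small ball). Let the maximum be attained at `(b₀,..,b₃)`. Let `L` be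
the inverse of the linear map with `e_i ↦ b_i - b₀` and `x ↦ L x + v` with `v = - L b₀`, i.e.
`x ↦ L (x - b₀)`; it maps `b₀ ↦ 0`, `b_i ↦ e_i`. Let `B'` be the image of `B`: compact, convex,
contains `0` and the `e_i`. By maximality, for `x ∈ B'`, replacing `e_i` by `x` multiplies the
determinant by `x i`, so `|x i| ≤ 1`, i.e. `‖x‖ ≤ 1` in the sup norm. `B'` contains the simplex
`{x | 0 ≤ x i, ∑ x i ≤ 1}` (`x = ∑ x i • e_i + (1 - ∑ x i) • 0`), which contains the closed ball
(cube) of radius `1/12` about `(1/4,1/4,1/4)`. -/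
theorem normalise (B : Set V) (hc : IsCompact B) (hv : Convex ℝ B) (hi : (interior B).Nonempty) :
    ∃ (L : V ≃ₗ[ℝ] V) (v : V), Nice ((fun x => L x + v) '' B) := by
  classical
  obtain ⟨D, hD⟩ : ∃ D : (Fin 4 → V) → ℝ, ∀ b, D b =
      |(Matrix.of fun i : Fin 3 => b i.succ - b 0).det| := ⟨_, fun _ => rfl⟩
  have hDc : Continuous D := by
    have h1 : D = fun b => |(Matrix.of fun i : Fin 3 => b i.succ - b 0).det| := funext hD
    rw [h1]
    refine continuous_abs.comp (Continuous.matrix_det ?_)
    refine continuous_matrix fun i j => ?_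
    show Continuous fun b : Fin 4 → V => b i.succ j - b 0 j
    fun_prop
  obtain ⟨x0, hx0⟩ := hi
  obtain ⟨ε, hε, hball⟩ := Metric.isOpen_iff.1 isOpen_interior x0 hx0
  have hxB : x0 ∈ B := interior_subset hx0
  have hcpt : IsCompact (Set.univ.pi fun _ : Fin 4 => B) := isCompact_univ_pi fun _ => hc
  obtain ⟨b, hb, hmax⟩ := hcpt.exists_isMaxOn ⟨fun _ => x0, fun _ _ => hxB⟩ hDc.continuousOn
  have hbB : ∀ i, b i ∈ B := fun i => hb i (Set.mem_univ i)
  have hmax' : ∀ b' : Fin 4 → V, (∀ i, b' i ∈ B) → D b' ≤ D b := fun b' hb' =>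
    hmax (fun i _ => hb' i)
  -- positivity
  have hpos : 0 < D b := by
    obtain ⟨b', hb'⟩ : ∃ b' : Fin 4 → V, b' = Fin.cons x0 fun i => x0 + Pi.single i (ε / 2) :=
      ⟨_, rfl⟩
    have h0 : b' 0 = x0 := by rw [hb']; rfl
    have hs : ∀ i : Fin 3, b' i.succ = x0 + Pi.single i (ε / 2) := by
      intro i
      rw [hb']
      rfl
    have h1 : ∀ i, b' i ∈ B := by
      intro i
      refine Fin.cases ?_ (fun j => ?_) i
      · rw [h0]
        exact hxB
      · rw [hs]
        refine interior_subset (hball ?_)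
        rw [Metric.mem_ball, dist_eq_norm, add_sub_cancel_left, Pi.norm_single,
          Real.norm_eq_abs, abs_of_pos (by linarith)]
        linarith
    refine lt_of_lt_of_le ?_ (hmax' b' h1)
    rw [hD]
    have h2 : (Matrix.of fun i : Fin 3 => b' i.succ - b' 0) =
        Matrix.diagonal fun _ : Fin 3 => ε / 2 := by
      ext i j
      rw [Matrix.of_apply, hs, h0, add_sub_cancel_left, Matrix.diagonal_apply, Pi.single_apply]
      simp only [eq_comm]
    rw [h2, Matrix.det_diagonal, Finset.prod_const]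
    exact abs_pos.2 (pow_ne_zero _ (by linarith))
  obtain ⟨M, hM⟩ : ∃ M : Matrix (Fin 3) (Fin 3) ℝ, M = Matrix.of fun i : Fin 3 => b i.succ - b 0 :=
    ⟨_, rfl⟩
  have hMr : ∀ i, M i = b i.succ - b 0 := by
    intro i
    rw [hM]
    rfl
  have hdet : M.det ≠ 0 := by
    rw [hD, ← hM] at hpos
    exact abs_pos.1 hpos
  have hdetT : IsUnit M.transpose.det := by
    rw [Matrix.det_transpose]
    exact isUnit_iff_ne_zero.2 hdet
  obtain ⟨T, hT⟩ : ∃ T : V ≃ₗ[ℝ] V, ∀ y, T y = ∑ i, y i • (b i.succ - b 0) := by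
    refine ⟨Matrix.toLinearEquiv' M.transpose (Matrix.invertibleOfIsUnitDet _ hdetT), fun y => ?_⟩
    show M.transpose.mulVec y = _
    rw [Matrix.mulVec_transpose]
    funext j
    rw [Matrix.vecMul, dotProduct, Finset.sum_apply]
    refine Finset.sum_congr rfl fun i _ => ?_
    rw [hMr]
    rfl
  have hL : ∀ x, T.symm x + -T.symm (b 0) = T.symm (x - b 0) := by
    intro x
    rw [map_sub, sub_eq_add_neg]
  refine ⟨T.symm, -T.symm (b 0), ?_, ?_, ?_, ?_, ?_⟩
  · refine hc.image ?_
    have h1 : Continuous T.symm := LinearMap.continuous_of_finiteDimensional (T.symm : V →ₗ[ℝ] V)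
    exact h1.add continuous_const
  · rintro _ ⟨x, hx, rfl⟩ _ ⟨y, hy, rfl⟩ α β hα hβ hαβ
    refine ⟨α • x + β • y, hv hx hy hα hβ hαβ, ?_⟩
    show T.symm (α • x + β • y) + -T.symm (b 0) =
      α • (T.symm x + -T.symm (b 0)) + β • (T.symm y + -T.symm (b 0))
    have h1 : ∀ w : V, α • w + β • w = w := by
      intro w
      rw [← add_smul, hαβ, one_smul]
    rw [map_add, map_smul, map_smul, smul_add, smul_add]
    generalize -T.symm (b 0) = c
    rw [add_add_add_comm, h1]
  · exact ⟨b 0, hbB 0, add_neg_cancel _⟩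
  · rintro _ ⟨x, hx, rfl⟩
    show ‖T.symm x + -T.symm (b 0)‖ ≤ 1
    rw [hL]
    obtain ⟨y, hy⟩ : ∃ y, y = T.symm (x - b 0) := ⟨_, rfl⟩
    rw [← hy]
    have hTy : x - b 0 = ∑ i, y i • M i := by
      have h1 : T y = x - b 0 := by rw [hy, LinearEquiv.apply_symm_apply]
      rw [← h1, hT]
      exact Finset.sum_congr rfl fun i _ => by rw [hMr]
    rw [pi_norm_le_iff_of_nonneg zero_le_one]
    intro i
    rw [Real.norm_eq_abs]
    have h1 : ∀ j, (Function.update b i.succ x) j ∈ B := by
      intro j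
      by_cases hj : j = i.succ
      · rw [hj, Function.update_self]
        exact hx
      · rw [Function.update_of_ne hj]
        exact hbB j
    have h2 := hmax' _ h1
    have h3 : (Matrix.of fun j : Fin 3 => Function.update b i.succ x j.succ -
        Function.update b i.succ x 0) = M.updateRow i (∑ k, y k • M k) := by
      ext j k
      rw [Matrix.of_apply, Function.update_of_ne (Fin.succ_ne_zero i).symm, ← hTy]
      by_cases hj : j = i
      · rw [hj, Function.update_self, Matrix.updateRow_self]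
      · rw [Matrix.updateRow_ne hj, hMr, Function.update_of_ne]
        exact fun h => hj (Fin.succ_injective _ h)
    rw [hD, hD, h3, Matrix.det_updateRow_sum, ← hM, smul_eq_mul, abs_mul] at h2
    have h4 : 0 < |M.det| := abs_pos.2 hdet
    by_contra h5
    push Not at h5
    nlinarith
  · intro y hy
    rw [Metric.mem_closedBall, dist_eq_norm, pi_norm_le_iff_of_nonneg (by norm_num)] at hy
    have hy1 : ∀ i, 0 ≤ y i ∧ y i ≤ 1 / 3 := by
      intro i
      have h1 := hy i
      rw [Real.norm_eq_abs, abs_le] at h1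
      have h2 : -(1 / 12) ≤ y i - 1 / 4 := h1.1
      have h3 : y i - 1 / 4 ≤ 1 / 12 := h1.2
      constructor <;> linarith
    have hsum : ∑ i, y i ≤ 1 := by
      rw [Fin.sum_univ_three]
      linarith [(hy1 0).2, (hy1 1).2, (hy1 2).2]
    have hx : b 0 + T y ∈ B := by
      have h1 := hv.sum_mem (t := Finset.univ)
        (w := (Fin.cons (1 - ∑ i, y i) y : Fin 4 → ℝ)) (z := b) ?_ ?_ (fun i _ => hbB i)
      · rw [Fin.sum_univ_succ] at h1
        have h2 : b 0 + T y = (Fin.cons (1 - ∑ i, y i) y : Fin 4 → ℝ) 0 • b 0 +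
            ∑ i : Fin 3, (Fin.cons (1 - ∑ i, y i) y : Fin 4 → ℝ) i.succ • b i.succ := by
          rw [hT]
          simp only [Fin.cons_zero, Fin.cons_succ, smul_sub, Finset.sum_sub_distrib, sub_smul,
            one_smul, Finset.sum_smul]
          abel
        rw [h2]
        exact h1
      · intro i _
        refine Fin.cases ?_ (fun j => ?_) i
        · show 0 ≤ 1 - ∑ i, y i
          linarith
        · exact (hy1 j).1
      · rw [Fin.sum_univ_succ]
        show (1 - ∑ i, y i) + ∑ i : Fin 3, y i = 1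
        ring
    refine ⟨b 0 + T y, hx, ?_⟩
    show T.symm (b 0 + T y) + -T.symm (b 0) = y
    rw [hL, add_sub_cancel_left, LinearEquiv.symm_apply_apply]

end U78
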