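import Mathlib
import Pool.Agent.W_78bee8_h33.NoFlat
import Pool.Agent.W_78bee8_h33.Norm
import Pool.Agent.W_78bee8_h33.MapCfg
import Pool.Agent.W_78bee8_h33.Local
import Pool.Agent.W_78bee8_h33.Localise

/-!
# No large complete tripartite configurations
-/

namespace U78

open Set Pointwise

/-- PROOF. `T = max` of the number of `no_flat` and of the number `T₂` obtained from `localise` with
`t` = the number of `no_local`. A configuration of size `T` has subconfigurations of both sizes
(`Fin.castLEOrderEmb`). If `interior B = ∅` use `no_flat`. Otherwise `normalise` and `Cfg.map` give a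
configuration for a `Nice` set `B' ∈ F` (`hF.aff`); `localise` and `no_local`. -/
theorem no_cfg (F : Set (Set V)) (hF : TameFam F) : ∃ T : ℕ, ∀ B : Set V, B ∈ F → IsCompact B →
    Convex ℝ B → IsEmpty (Cfg F B T) := by
  obtain ⟨T1, h1⟩ := no_flat F hF
  obtain ⟨t, h2⟩ := no_local F hF
  obtain ⟨T2, h3⟩ := localise F hF t
  refine ⟨max T1 T2, fun B hBF hBc hBv => ⟨fun X => ?_⟩⟩
  by_cases hi : interior B = ∅
  · exact (h1 B hBF hBc hBv hi).false
      (X.sub (fun _ => Fin.castLEOrderEmb (le_max_left T1 T2)))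
  · obtain ⟨L, v, hN⟩ := normalise B hBc hBv (Set.nonempty_iff_ne_empty.2 hi)
    obtain ⟨X'⟩ := (X.sub (fun _ => Fin.castLEOrderEmb (le_max_right T1 T2))).map hF L v
    have hB' : ((fun x => L x + v) '' B) ∈ F := hF.aff B hBF L v
    obtain ⟨e, x, hx⟩ := h3 _ hB' hN X'
    exact h2 _ hB' hN (X'.sub e) x hx

end U78
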