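import Mathlib
import Pool.Agent.W_78bee8_h33.NoCfg
import Pool.Agent.W_78bee8_h33.Box

/-!
# The bound for the number of triples
-/

namespace U78

open Set Pointwise

/-- THE BOUND FOR THE NUMBER OF TRIPLES. PROOF. `T` from `no_cfg`, `C, δ` from `box T`. Let `H` be the
(finite) set of triples. If `I × J × K ⊆ H` with `|I| = |J| = |K| = T`, enumerate
`I, J, K` increasingly (`Finset.orderEmbOfFin`) and let `A' 0 i`, `A' 1 j`, `A' 2 k` be the bodies, `τ v` a
free point of the triple. The three classes are pairwise disjoint (`(i,i,k)` is not in `H`; if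
`T ≥ 1`), so all `3 T` bodies are distinct members of the family and disjoint, and `FreePoint` gives
`fr` and `out`. This is a `Cfg F B T`, contradiction. (`T = 0`: `Cfg F B 0` is inhabited, so `T ≠ 0`.) -/
theorem triples_bound (F : Set (Set V)) (hF : TameFam F) : ∃ C δ : ℝ, 0 < C ∧ 0 < δ ∧
    ∀ (n : ℕ) (A : Fin n → Set V) (B : Set V), (∀ i, A i ∈ F) → (∀ i, IsCompact (A i)) →
      (∀ i, Convex ℝ (A i)) → B ∈ F → IsCompact B → Convex ℝ B →
      (∀ i j, i ≠ j → Disjoint (A i) (A j)) →
      (({p : Fin n × Fin n × Fin n | ∃ w, FreePoint (fun i => A i + B) p.1 p.2.1 p.2.2 w}.ncard : ℕ)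
        : ℝ) ≤ C * (n : ℝ) ^ (3 - δ) := by
  classical
  obtain ⟨T, hT⟩ := no_cfg F hF
  obtain ⟨C, δ, hC, hδ, hbox⟩ := box T
  refine ⟨C, δ, hC, hδ, ?_⟩
  intro n A B hAF hAc hAx hBF hBc hBx hdis
  rw [Set.ncard_eq_toFinset_card']
  refine hbox n _ ?_
  rintro ⟨I, J, K, hI, hJ, hK, hall⟩
  -- the three classes
  let idx : Fin 3 → Fin T → Fin n :=
    ![I.orderEmbOfFin hI, J.orderEmbOfFin hJ, K.orderEmbOfFin hK]
  have hinj : ∀ a, Function.Injective (idx a) := by
    intro a
    fin_cases a
    · exact (I.orderEmbOfFin hI).injective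
    · exact (J.orderEmbOfFin hJ).injective
    · exact (K.orderEmbOfFin hK).injective
  have hFP : ∀ v : Fin 3 → Fin T, ∃ w, (∀ a a', a ≠ a' → idx a (v a) ≠ idx a' (v a')) ∧
      (∀ a, w ∈ frontier (A (idx a (v a)) + B)) ∧
      ∀ l, (∀ a, l ≠ idx a (v a)) → w ∉ A l + B := by
    intro v
    have h1 := hall (idx 0 (v 0)) (I.orderEmbOfFin_mem hI _) (idx 1 (v 1))
      (J.orderEmbOfFin_mem hJ _) (idx 2 (v 2)) (K.orderEmbOfFin_mem hK _)
    rw [Set.mem_toFinset] at h1
    obtain ⟨w, h01, h02, h12, f0, f1, f2, hout⟩ := h1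
    refine ⟨w, ?_, ?_, ?_⟩
    · intro a a' haa
      fin_cases a <;> fin_cases a'
      · exact absurd rfl haa
      · exact h01
      · exact h02
      · exact h01.symm
      · exact absurd rfl haa
      · exact h12
      · exact h02.symm
      · exact h12.symm
      · exact absurd rfl haa
    · intro a
      fin_cases a
      · exact f0
      · exact f1
      · exact f2
    · intro l hl
      exact hout l (hl 0) (hl 1) (hl 2)
  choose τ h1 h2 h3 using hFP
  have hcls : ∀ a a', a ≠ a' → ∀ i i', idx a i ≠ idx a' i' := by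
    intro a a' haa i i'
    have h4 := h1 (Function.update (fun _ => i) a' i') a a' haa
    rwa [Function.update_self, Function.update_of_ne haa] at h4
  have X : Cfg F B T :=
    { A := fun a i => A (idx a i)
      τ := τ
      mem := fun a i => hAF _
      cpt := fun a i => hAc _
      cvx := fun a i => hAx _
      disj := by
        intro a i a' i' hne
        refine hdis _ _ ?_
        by_cases haa : a = a'
        · subst haa
          intro h4
          exact hne (by rw [hinj a h4])
        · exact hcls a a' haa i i'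
      fr := h2
      out := by
        intro v a i hvi
        refine h3 v _ fun a' => ?_
        by_cases haa : a = a'
        · subst haa
          intro h4
          exact hvi (hinj a h4).symm
        · exact hcls a a' haa i (v a') }
  exact (hT B hBF hBc hBx).false X

end U78
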