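import Mathlib
import Pool.Agent.W_78bee8_h33.Triples
import Pool.Agent.W_78bee8_h33.Fin3

/-!
# The bound for the number of vertices
-/

namespace U78

open Set Pointwise

/-- the vertices of the union: points of the frontier of the union which lie in exactly three of the
sets (in general position these are all the vertices) -/
def vertices {n : ℕ} (K : Fin n → Set V) : Set V :=
  {w | w ∈ frontier (⋃ i, K i) ∧ {i | w ∈ K i}.ncard = 3}

/-- THE BOUND FOR THE NUMBER OF VERTICES. PROOF. A vertex `w` with `{i | w ∈ K i} = {i, j, k}` is a free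
point of the triple (`w ∈ K i` and `w ∉ interior (⋃ K)`, hence `w ∉ interior (K i)`; `w ∈ K i ⊆ closure`).
So the vertices are covered by the intersections of three frontiers over the triples of
`triples_bound`, each of which has at most `N` points by `fin_bound`. -/
theorem vertices_bound (F : Set (Set V)) (hF : TameFam F) : ∃ C δ : ℝ, 0 < C ∧ 0 < δ ∧
    ∀ (n : ℕ) (A : Fin n → Set V) (B : Set V), (∀ i, A i ∈ F) → (∀ i, IsCompact (A i)) →
      (∀ i, Convex ℝ (A i)) → B ∈ F → IsCompact B → Convex ℝ B →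
      (∀ i j, i ≠ j → Disjoint (A i) (A j)) →
      (∀ i j k, i ≠ j → i ≠ k → j ≠ k →
        (frontier (A i + B) ∩ frontier (A j + B) ∩ frontier (A k + B)).Finite) →
      (vertices (fun i => A i + B)).Finite ∧
        ((vertices (fun i => A i + B)).ncard : ℝ) ≤ C * (n : ℝ) ^ (3 - δ) := by
  obtain ⟨C, δ, hC, hδ, hT⟩ := triples_bound F hF
  obtain ⟨N, hN⟩ := fin_bound F hF
  refine ⟨C * ((N : ℝ) + 1), δ, by positivity, hδ, ?_⟩
  intro n A B hAF hAc hAv hBF hBc hBv hdis hfin
  have hTr := hT n A B hAF hAc hAv hBF hBc hBv hdis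
  set K : Fin n → Set V := fun i => A i + B with hK
  set P : Set (Fin n × Fin n × Fin n) := {p | ∃ w, FreePoint K p.1 p.2.1 p.2.2 w} with hP
  have hPf : P.Finite := Set.toFinite P
  set W : Fin n × Fin n × Fin n → Set V := fun p =>
    frontier (K p.1) ∩ frontier (K p.2.1) ∩ frontier (K p.2.2) with hW
  have hWf : ∀ p ∈ P, (W p).Finite := by
    rintro ⟨i, j, k⟩ ⟨w, hij, hik, hjk, -⟩
    exact hfin i j k hij hik hjk
  have hWc : ∀ p ∈ P, (W p).ncard ≤ N := by
    intro p hp
    have h := hN ![A p.1, A p.2.1, A p.2.2] B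
      (by
        intro a
        fin_cases a
        · exact hAF p.1
        · exact hAF p.2.1
        · exact hAF p.2.2) hBF
    exact h (hWf p hp)
  have hsub : vertices K ⊆ ⋃ p ∈ hPf.toFinset, W p := by
    rintro w ⟨hw, hw3⟩
    rw [Set.ncard_eq_three] at hw3
    obtain ⟨i, j, k, hij, hik, hjk, hset⟩ := hw3
    have hmem : ∀ l, w ∈ K l ↔ l = i ∨ l = j ∨ l = k := by
      intro l
      have : l ∈ {i | w ∈ K i} ↔ l ∈ ({i, j, k} : Set (Fin n)) := by rw [hset]
      simpa using this
    have hfr : ∀ l, w ∈ K l → w ∈ frontier (K l) := by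
      intro l hl
      refine ⟨subset_closure hl, fun hint => ?_⟩
      exact hw.2 (interior_mono (Set.subset_iUnion K l) hint)
    have h1 := hfr i ((hmem i).2 (Or.inl rfl))
    have h2 := hfr j ((hmem j).2 (Or.inr (Or.inl rfl)))
    have h3 := hfr k ((hmem k).2 (Or.inr (Or.inr rfl)))
    rw [Set.mem_iUnion₂]
    refine ⟨(i, j, k), ?_, ⟨h1, h2⟩, h3⟩
    rw [Set.Finite.mem_toFinset]
    refine ⟨w, hij, hik, hjk, h1, h2, h3, ?_⟩
    intro l hli hlj hlk hl
    rcases (hmem l).1 hl with h | h | h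
    · exact hli h
    · exact hlj h
    · exact hlk h
  have hUf : (⋃ p ∈ hPf.toFinset, W p).Finite := by
    refine Set.Finite.biUnion (Finset.finite_toSet _) ?_
    intro p hp
    refine hWf p ?_
    simpa using hp
  refine ⟨hUf.subset hsub, ?_⟩
  have h1 : (vertices K).ncard ≤ P.ncard * N := by
    refine (Set.ncard_le_ncard hsub hUf).trans ?_
    refine (Finset.set_ncard_biUnion_le hPf.toFinset W).trans ?_
    rw [Set.ncard_eq_toFinset_card P hPf]
    rw [← smul_eq_mul]
    refine Finset.sum_le_card_nsmul _ _ _ ?_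
    intro p hp
    refine hWc p ?_
    simpa using hp
  have h2 : ((vertices K).ncard : ℝ) ≤ (P.ncard : ℝ) * N := by exact_mod_cast h1
  have h3 : (P.ncard : ℝ) * N ≤ (P.ncard : ℝ) * ((N : ℝ) + 1) :=
    mul_le_mul_of_nonneg_left (by linarith) (Nat.cast_nonneg _)
  have h4 : (P.ncard : ℝ) * ((N : ℝ) + 1) ≤ (C * (n : ℝ) ^ (3 - δ)) * ((N : ℝ) + 1) :=
    mul_le_mul_of_nonneg_right hTr (by positivity)
  calc ((vertices K).ncard : ℝ) ≤ (C * (n : ℝ) ^ (3 - δ)) * ((N : ℝ) + 1) := by linarith
    _ = C * ((N : ℝ) + 1) * (n : ℝ) ^ (3 - δ) := by ring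

end U78
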