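import Mathlib
import Pool.Agent.W_78bee8_h33.Main
import Pool.Agent.W_78bee8_h33.Enc

/-!
# Subcubic bound for unions of Minkowski sums of disjoint convex bodies
-/

namespace U78

open Set Pointwise

theorem final_triples (s b : ℕ) : ∃ C δ : ℝ, 0 < C ∧ 0 < δ ∧
    ∀ (n : ℕ) (A : Fin n → Set V) (B : Set V), (∀ i, IsSA s b (A i)) → (∀ i, IsCompact (A i)) →
      (∀ i, Convex ℝ (A i)) → IsSA s b B → IsCompact B → Convex ℝ B →
      (∀ i j, i ≠ j → Disjoint (A i) (A j)) →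
      (({p : Fin n × Fin n × Fin n | ∃ w, FreePoint (fun i => A i + B) p.1 p.2.1 p.2.2 w}.ncard : ℕ)
        : ℝ) ≤ C * (n : ℝ) ^ (3 - δ) := by
  obtain ⟨F, hF, hS⟩ := tame_sa s b
  obtain ⟨C, δ, hC, hδ, h⟩ := triples_bound F hF
  exact ⟨C, δ, hC, hδ, fun n A B h1 h2 h3 h4 h5 h6 h7 =>
    h n A B (fun i => hS _ (h1 i)) h2 h3 (hS _ h4) h5 h6 h7⟩

theorem final_vertices (s b : ℕ) : ∃ C δ : ℝ, 0 < C ∧ 0 < δ ∧
    ∀ (n : ℕ) (A : Fin n → Set V) (B : Set V), (∀ i, IsSA s b (A i)) → (∀ i, IsCompact (A i)) →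
      (∀ i, Convex ℝ (A i)) → IsSA s b B → IsCompact B → Convex ℝ B →
      (∀ i j, i ≠ j → Disjoint (A i) (A j)) →
      (∀ i j k, i ≠ j → i ≠ k → j ≠ k →
        (frontier (A i + B) ∩ frontier (A j + B) ∩ frontier (A k + B)).Finite) →
      (vertices (fun i => A i + B)).Finite ∧
        ((vertices (fun i => A i + B)).ncard : ℝ) ≤ C * (n : ℝ) ^ (3 - δ) := by
  obtain ⟨F, hF, hS⟩ := tame_sa s b
  obtain ⟨C, δ, hC, hδ, h⟩ := vertices_bound F hF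
  exact ⟨C, δ, hC, hδ, fun n A B h1 h2 h3 h4 h5 h6 h7 h8 =>
    h n A B (fun i => hS _ (h1 i)) h2 h3 (hS _ h4) h5 h6 h7 h8⟩

end U78
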