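import Mathlib
import Pool.Agent.W_78bee8_h33.Comp

/-!
# Lexicographic maxima
-/

namespace U78

open Set

/-- a compact nonempty set has points with maximal `j`-th coordinate, and they form a compact
nonempty subset -/
theorem LexMax_step (D : Set V) (hD : IsCompact D) (hne : D.Nonempty) (j : Fin 3) :
    ∃ D' : Set V, D' ⊆ D ∧ IsCompact D' ∧ D'.Nonempty ∧ ∀ w ∈ D', ∀ w' ∈ D,
      w' j ≤ w j ∧ (w' j = w j → w' ∈ D') := by
  obtain ⟨m, hm, hmax⟩ := hD.exists_isMaxOn hne (f := fun w : V => w j)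
    (continuous_apply j).continuousOn
  refine ⟨D ∩ {w : V | w j = m j}, inter_subset_left, ?_, ⟨m, hm, rfl⟩, ?_⟩
  · exact hD.inter_right (isClosed_eq (continuous_apply j) continuous_const)
  · rintro w ⟨_, hw2⟩ w' hw'
    have h1 : w' j ≤ m j := hmax hw'
    have h2 : w j = m j := hw2
    refine ⟨by rw [h2]; exact h1, fun h => ⟨hw', ?_⟩⟩
    show w' j = m j
    rw [h, h2]

/-- PROOF. `D₀` = the points of `D` with maximal coordinate `0` (`IsCompact.exists_isMaxOn`), nonempty and
compact; `D₁` = the points of `D₀` with maximal coordinate `1`; a point of `D₁` with maximal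
coordinate `2`. -/
theorem exists_lexmax (D : Set V) (hD : IsCompact D) (hne : D.Nonempty) :
    ∃ w ∈ D, ∀ w' ∈ D, LexLe w' w := by
  obtain ⟨D0, hs0, hc0, hn0, h0⟩ := LexMax_step D hD hne 0
  obtain ⟨D1, hs1, hc1, hn1, h1⟩ := LexMax_step D0 hc0 hn0 1
  obtain ⟨D2, hs2, hc2, hn2, h2⟩ := LexMax_step D1 hc1 hn1 2
  obtain ⟨w, hw⟩ := hn2
  refine ⟨w, hs0 (hs1 (hs2 hw)), fun w' hw' => ?_⟩
  obtain ⟨a1, a2⟩ := h0 w (hs1 (hs2 hw)) w' hw'
  rcases a1.lt_or_eq with h | h
  · exact Or.inl h
  · refine Or.inr ⟨h, ?_⟩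
    obtain ⟨b1, b2⟩ := h1 w (hs2 hw) w' (a2 h)
    rcases b1.lt_or_eq with h' | h'
    · exact Or.inl h'
    · exact Or.inr ⟨h', (h2 w hw w' (b2 h')).1⟩

/-- A compact set which splits into `N` clopen nonempty parts has at least `N` local lexicographic
maxima. PROOF. The part `D p = {w | ∃ h : w ∈ S, f ⟨w, h⟩ = p}` is compact (image under
`Subtype.val` of a closed subset of the compact space `S`), nonempty; let `w p` be its
lexicographic maximum. It is a local lexicographic maximum of `S`, since the part is open in `S`.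
The map `p ↦ w p` is injective (`f (w p) = p`). -/
theorem parts_le (S : Set V) (hS : IsCompact S) (hfin : (LLM S).Finite) (N : ℕ) (f : S → Fin N)
    (hf : Continuous f) (hs : Function.Surjective f) : N ≤ (LLM S).ncard := by
  have : CompactSpace S := isCompact_iff_compactSpace.mp hS
  have hmain : ∀ p : Fin N, ∃ w : V, ∃ h : w ∈ S, f ⟨w, h⟩ = p ∧ w ∈ LLM S := by
    intro p
    have hc : IsCompact (Subtype.val '' (f ⁻¹' {p})) :=
      ((isClosed_discrete ({p} : Set (Fin N))).preimage hf).isCompact.image continuous_subtype_val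
    have hn : (Subtype.val '' (f ⁻¹' {p})).Nonempty := by
      obtain ⟨x, hx⟩ := hs p
      exact ⟨x.1, x, hx, rfl⟩
    obtain ⟨w, ⟨x, hx, rfl⟩, hmax⟩ := exists_lexmax _ hc hn
    have hx' : f x = p := hx
    refine ⟨x.1, x.2, hx', x.2, ?_⟩
    have hopen : IsOpen (f ⁻¹' {p}) := (isOpen_discrete ({p} : Set (Fin N))).preimage hf
    obtain ⟨ρ, hρ, hball⟩ := Metric.isOpen_iff.mp hopen x hx
    refine ⟨ρ, hρ, fun w' hw' hd => ?_⟩
    apply hmax
    refine ⟨⟨w', hw'⟩, hball ?_, rfl⟩
    rw [Metric.mem_ball, Subtype.dist_eq, dist_eq_norm]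
    exact hd
  choose w hw hfw hl using hmain
  have hinj : Function.Injective w := by
    intro p q hpq
    rw [← hfw p, ← hfw q]
    congr 1
    exact Subtype.ext hpq
  have h1 : (w '' univ).ncard = N := by
    rw [ncard_image_of_injective _ hinj, ncard_univ, Nat.card_eq_fintype_card, Fintype.card_fin]
  rw [← h1]
  apply ncard_le_ncard _ hfin
  rintro _ ⟨p, _, rfl⟩
  exact hl p

end U78
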