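import Mathlib
import Pool.Agent.W_78bee8_h33.Comp

/-!
# The strata and the regions `LocF`
-/

namespace U78

open Set

theorem LocA_frontier {A B : Set V} {w : V} (h : ∀ᶠ x in nhds w, (x ∈ A ↔ x ∈ B)) :
    w ∈ frontier A ↔ w ∈ frontier B := by
  rw [frontier_eq_closure_inter_closure, frontier_eq_closure_inter_closure, mem_inter_iff,
    mem_inter_iff, mem_closure_iff_frequently, mem_closure_iff_frequently,
    mem_closure_iff_frequently, mem_closure_iff_frequently]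
  have h2 : ∀ᶠ x in nhds w, (x ∈ Aᶜ ↔ x ∈ Bᶜ) := by
    filter_upwards [h] with x hx
    rw [mem_compl_iff, mem_compl_iff, hx]
  rw [Filter.frequently_congr h, Filter.frequently_congr h2]

theorem LocA_unions {n : ℕ} (K : Fin n → Set V) (I : Finset (Fin n)) (η : ℝ) (hη : 0 < η) (w : V)
    (h : ∀ l, l ∉ I → ∀ y ∈ K l, η ≤ ‖w - y‖) :
    w ∈ frontier (⋃ i, K i) ↔ w ∈ frontier {x | ∃ i ∈ I, x ∈ K i} := by
  apply LocA_frontier
  filter_upwards [Metric.ball_mem_nhds w hη] with x hx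
  rw [Metric.mem_ball, dist_comm, dist_eq_norm] at hx
  rw [mem_iUnion]
  constructor
  · rintro ⟨i, hi⟩
    refine ⟨i, ?_, hi⟩
    by_contra hI
    exact absurd (h i hI x hi) (not_le.mpr hx)
  · rintro ⟨i, _, hi⟩
    exact ⟨i, hi⟩

/-- PROOF. `w ∉ K l` for `l ∉ I` (otherwise `η ≤ ‖w - w‖ = 0`); in the ball of radius `η` around `w` the
union of all `K i` and the union of the `K i` with `i ∈ I` coincide, so `w` is in the frontier of the
first because it is in the frontier of the second (`mem_closure`/`interior` are local; e.g.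
`frontier_inter_open_inter` or `Metric.mem_closure_iff`, `mem_interior_iff_mem_nhds` and
`Filter.EventuallyEq`). -/
theorem locF_subset {n : ℕ} (K : Fin n → Set V) (I : Finset (Fin n)) (η : ℝ) (hη : 0 < η) :
    LocF K I Iᶜ η ⊆ stratum K I := by
  rintro w ⟨h1, h2, h3⟩
  have h4 : ∀ l, l ∉ I → ∀ y ∈ K l, η ≤ ‖w - y‖ := fun l hl =>
    h3 l (Finset.mem_compl.mpr hl)
  refine ⟨(LocA_unions K I η hη w h4).mpr h2, fun i => ⟨fun hi => ?_, fun hi => h1 i hi⟩⟩
  by_contra hI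
  have := h4 i hI w hi
  rw [sub_self, norm_zero] at this
  linarith

/-- PROOF. `w ∉ K l` for `l ∉ I`, `K l` is closed, so there is `ρ l > 0` with `ρ l ≤ ‖w - y‖` for all
`y ∈ K l` (if `K l` is empty take `1`); `η₁` = minimum over the finitely many `l`. The unions
coincide in a small ball around `w` as before. -/
theorem stratum_locF {n : ℕ} (K : Fin n → Set V) (hK : ∀ i, IsClosed (K i)) (I : Finset (Fin n))
    (w : V) (hw : w ∈ stratum K I) :
    ∃ η₁ : ℝ, 0 < η₁ ∧ ∀ η : ℝ, η ≤ η₁ → w ∈ LocF K I Iᶜ η := by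
  obtain ⟨hw1, hw2⟩ := hw
  have hc : IsClosed (⋃ l ∈ Iᶜ, K l) := isClosed_biUnion_finset fun i _ => hK i
  have hn : w ∉ ⋃ l ∈ Iᶜ, K l := by
    intro h
    obtain ⟨l, hl, hwl⟩ := mem_iUnion₂.mp h
    exact (Finset.mem_compl.mp hl) ((hw2 l).mp hwl)
  obtain ⟨ρ, hρ, hball⟩ := Metric.isOpen_iff.mp hc.isOpen_compl w hn
  have hd : ∀ l, l ∉ I → ∀ y ∈ K l, ρ ≤ ‖w - y‖ := by
    intro l hl y hy
    by_contra hlt
    rw [not_le] at hlt
    have hyb : y ∈ Metric.ball w ρ := by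
      rw [Metric.mem_ball, dist_comm, dist_eq_norm]
      exact hlt
    exact hball hyb (mem_iUnion₂.mpr ⟨l, Finset.mem_compl.mpr hl, hy⟩)
  refine ⟨ρ, hρ, fun η hη => ⟨fun i hi => (hw2 i).mpr hi,
    (LocA_unions K I ρ hρ w hd).mp hw1, fun l hl y hy => ?_⟩⟩
  exact hη.trans (hd l (Finset.mem_compl.mp hl) y hy)

/-- PROOF. A closed subset of `K i`, `i ∈ I`. -/
theorem locF_compact {n : ℕ} (K : Fin n → Set V) (hK : ∀ i, IsCompact (K i)) (I J : Finset (Fin n))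
    (hI : I.Nonempty) (η : ℝ) : IsCompact (LocF K I J η) := by
  obtain ⟨i, hi⟩ := hI
  have e : LocF K I J η = (⋂ i ∈ I, K i) ∩ (frontier {x | ∃ i ∈ I, x ∈ K i} ∩
      ⋂ l ∈ J, ⋂ y ∈ K l, {w : V | η ≤ ‖w - y‖}) := by
    ext w
    simp only [LocF, mem_ofPred_eq, mem_inter_iff, mem_iInter]
  have hcl : IsClosed (LocF K I J η) := by
    rw [e]
    apply IsClosed.inter
    · exact isClosed_biInter fun i _ => (hK i).isClosed
    · apply IsClosed.inter isClosed_frontier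
      apply isClosed_biInter fun l _ => ?_
      apply isClosed_biInter fun y _ => ?_
      exact isClosed_le continuous_const (continuous_id.sub continuous_const).norm
  exact (hK i).of_isClosed_subset hcl fun w hw => hw.1 i hi

/-- a local lexicographic maximum only feels the bodies at distance exactly `η`.
PROOF. For `l ∉ I ∪ J` all `y ∈ K l` have `η < ‖w - y‖`; by compactness there is `ρ l > 0` with
`η + ρ l ≤ ‖w - y‖` for all `y ∈ K l`. For `ρ' = min (ρ, ρ l)` every point of `LocF K I J η` at distance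
`< ρ'` from `w` is in `LocF K I Iᶜ η`. -/
theorem llm_local {n : ℕ} (K : Fin n → Set V) (hK : ∀ i, IsCompact (K i)) (I J : Finset (Fin n))
    (η : ℝ) (w : V) (hw : w ∈ LLM (LocF K I Iᶜ η)) (hIJ : Disjoint I J)
    (hJ : ∀ l, l ∉ I → (∃ y ∈ K l, ‖w - y‖ ≤ η) → l ∈ J) : w ∈ LLM (LocF K I J η) := by
  obtain ⟨⟨h1, h2, h3⟩, ρ₀, hρ₀, hmax⟩ := hw
  have hcU : IsCompact (⋃ l ∈ (I ∪ J)ᶜ, K l) := Finset.isCompact_biUnion _ fun i _ => hK i
  have hU : ∀ y ∈ ⋃ l ∈ (I ∪ J)ᶜ, K l, η < ‖w - y‖ := by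
    intro y hy
    obtain ⟨l, hl, hyl⟩ := mem_iUnion₂.mp hy
    rw [Finset.mem_compl, Finset.mem_union, not_or] at hl
    by_contra hlt
    rw [not_lt] at hlt
    exact hl.2 (hJ l hl.1 ⟨y, hyl, hlt⟩)
  have hex : ∃ ρ : ℝ, 0 < ρ ∧ ∀ y ∈ ⋃ l ∈ (I ∪ J)ᶜ, K l, η + ρ ≤ ‖w - y‖ := by
    rcases (⋃ l ∈ (I ∪ J)ᶜ, K l).eq_empty_or_nonempty with he | hne
    · exact ⟨1, one_pos, fun y hy => by rw [he] at hy; exact absurd hy (notMem_empty y)⟩
    · obtain ⟨y₀, hy₀, hmin⟩ := hcU.exists_isMinOn hne (f := fun y : V => ‖w - y‖)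
        (continuous_const.sub continuous_id).norm.continuousOn
      refine ⟨‖w - y₀‖ - η, sub_pos.mpr (hU y₀ hy₀), fun y hy => ?_⟩
      have : ‖w - y₀‖ ≤ ‖w - y‖ := hmin hy
      linarith
  obtain ⟨ρ, hρ, hd⟩ := hex
  refine ⟨⟨h1, h2, fun l hl => h3 l (Finset.mem_compl.mpr fun hI =>
    (Finset.disjoint_left.mp hIJ hI) hl)⟩, min ρ₀ ρ, lt_min hρ₀ hρ, ?_⟩
  rintro w' ⟨g1, g2, g3⟩ hlt
  refine hmax w' ⟨g1, g2, fun l hl y hy => ?_⟩ (hlt.trans_le (min_le_left _ _))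
  by_cases hlJ : l ∈ J
  · exact g3 l hlJ y hy
  · have hy' : y ∈ ⋃ l ∈ (I ∪ J)ᶜ, K l := by
      refine mem_iUnion₂.mpr ⟨l, ?_, hy⟩
      rw [Finset.mem_compl, Finset.mem_union, not_or]
      exact ⟨Finset.mem_compl.mp hl, hlJ⟩
    have a1 := hd y hy'
    have a2 : ‖w - y‖ ≤ ‖w - w'‖ + ‖w' - y‖ := by
      have : w - y = (w - w') + (w' - y) := by abel
      rw [this]
      exact norm_add_le _ _
    rw [norm_sub_rev w w'] at a2
    have a3 : ‖w' - w‖ < ρ := hlt.trans_le (min_le_right _ _)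
    linarith

end U78
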