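import Mathlib
import Pool.Agent.W_78bee8_h33.Comp

/-!
# From three bodies to subsets of the family
-/

namespace U78

open Set Pointwise

theorem LocB_param {n : ℕ} (S : Finset (Fin n)) (hne : S.Nonempty) (hc : S.card ≤ 3) :
    ∃ g : Fin 3 → Fin n, ∀ i, i ∈ S ↔ ∃ k, g k = i := by
  have hcard : Fintype.card S ≤ Fintype.card (Fin 3) := by
    rw [Fintype.card_coe, Fintype.card_fin]
    exact hc
  obtain ⟨f⟩ := Function.Embedding.nonempty_of_card_le hcard
  have : Nonempty S := ⟨⟨hne.choose, hne.choose_spec⟩⟩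
  refine ⟨fun k => (Function.invFun f k).1, fun i => ⟨fun hi => ?_, ?_⟩⟩
  · obtain ⟨k, hk⟩ := Function.invFun_surjective f.injective ⟨i, hi⟩
    exact ⟨k, congrArg Subtype.val hk⟩
  · rintro ⟨k, rfl⟩
    exact (Function.invFun f k).2

theorem LocB_card {n : ℕ} (K : Fin n → Set V) (I J : Finset (Fin n)) (h : Adm K I J) :
    (I ∪ J).card ≤ 3 := by
  rcases h.2.2 with h2 | ⟨i, j, k, w, _, h3⟩
  · omega
  · rw [h3]
    exact Finset.card_le_three

/-- PROOF. `I ∪ J` is a nonempty finset with at most three elements (`Adm`: `FreePoint` gives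
`(I ∪ J).card ≤ 3`), so there is `g : Fin 3 → Fin n` with range `I ∪ J`; with
`σ k = decide (g k ∈ I)` we have `LocF (fun i => A i + B) I J η = Loc (fun k => A (g k) + B) σ η`
(`σ k = false` iff `g k ∈ J`, since `I`, `J` are disjoint). The region is bounded, being contained in
the compact set `A i + B` for `i ∈ I`. -/
theorem llm_locF (F : Set (Set V)) (M : ℕ) (hM : ∀ (A : Fin 3 → Set V) (B : Set V),
    (∀ i, A i ∈ F) → B ∈ F → ∀ (σ : Fin 3 → Bool) (η : ℝ),
      Bornology.IsBounded (Loc (fun i => A i + B) σ η) →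
      (LLM (Loc (fun i => A i + B) σ η)).Finite ∧ (LLM (Loc (fun i => A i + B) σ η)).ncard ≤ M)
    {n : ℕ} (A : Fin n → Set V) (B : Set V) (hA : ∀ i, A i ∈ F) (hB : B ∈ F)
    (hAc : ∀ i, IsCompact (A i)) (hBc : IsCompact B) (I J : Finset (Fin n))
    (h : Adm (fun i => A i + B) I J) (η : ℝ) :
    (LLM (LocF (fun i => A i + B) I J η)).Finite ∧
      (LLM (LocF (fun i => A i + B) I J η)).ncard ≤ M := by
  obtain ⟨g, hg⟩ := LocB_param (I ∪ J) (h.1.mono Finset.subset_union_left) (LocB_card _ I J h)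
  have hdis := h.2.1
  have hI : ∀ k, decide (g k ∈ I) = true ↔ g k ∈ I := fun k => decide_eq_true_iff
  have hJ : ∀ k, decide (g k ∈ I) = false ↔ g k ∈ J := by
    intro k
    rw [decide_eq_false_iff_not]
    have hk : g k ∈ I ∪ J := (hg (g k)).mpr ⟨k, rfl⟩
    constructor
    · intro hn
      exact (Finset.mem_union.mp hk).resolve_left hn
    · intro hn hi
      exact (Finset.disjoint_left.mp hdis hi) hn
  have hset : {x : V | ∃ i ∈ I, x ∈ A i + B} =
      {x : V | ∃ k, decide (g k ∈ I) = true ∧ x ∈ A (g k) + B} := by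
    ext x
    constructor
    · rintro ⟨i, hi, hx⟩
      obtain ⟨k, rfl⟩ := (hg i).mp (Finset.mem_union_left _ hi)
      exact ⟨k, (hI k).mpr hi, hx⟩
    · rintro ⟨k, hk, hx⟩
      exact ⟨g k, (hI k).mp hk, hx⟩
  have e : LocF (fun i => A i + B) I J η =
      Loc (fun k => A (g k) + B) (fun k => decide (g k ∈ I)) η := by
    ext w
    constructor
    · rintro ⟨h1, h2, h3⟩
      refine ⟨fun k hk => h1 (g k) ((hI k).mp hk), ?_, fun k hk => h3 (g k) ((hJ k).mp hk)⟩
      rw [← hset]
      exact h2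
    · rintro ⟨h1, h2, h3⟩
      refine ⟨fun i hi => ?_, ?_, fun i hi => ?_⟩
      · obtain ⟨k, rfl⟩ := (hg i).mp (Finset.mem_union_left _ hi)
        exact h1 k ((hI k).mpr hi)
      · rw [← hset] at h2
        exact h2
      · obtain ⟨k, rfl⟩ := (hg i).mp (Finset.mem_union_right _ hi)
        exact h3 k ((hJ k).mpr hi)
  rw [e]
  apply hM (fun k => A (g k)) B (fun k => hA (g k)) hB
  rw [← e]
  obtain ⟨i, hi⟩ := h.1
  exact ((hAc i).add hBc).isBounded.subset fun w hw => hw.1 i hi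

end U78
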