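import Mathlib

/-!
# Bounding the number of connected components
-/

namespace U78

open Set

/-- PROOF. If `X` is empty there are no components. Otherwise let `N` be the largest number such that
there is a continuous surjection `f : X → Fin N` (it exists: `N = 1` occurs and all are `≤ M`). Every
fibre of `f` is preconnected: otherwise it is the disjoint union of two nonempty relatively clopen
subsets, which are clopen in `X` since the fibre is clopen, and this gives a continuous surjection
to `Fin (N + 1)`. So points of the same fibre are in the same component, and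
`ConnectedComponents X` is the image of `Fin N`: at most `N ≤ M` components. -/
theorem components_le (X : Type) [TopologicalSpace X] (M : ℕ)
    (h : ∀ (N : ℕ) (f : X → Fin N), Continuous f → Function.Surjective f → N ≤ M) :
    ENat.card (ConnectedComponents X) ≤ M := by
  classical
  rcases isEmpty_or_nonempty X with hX | hX
  · have : IsEmpty (ConnectedComponents X) := by
      constructor
      intro c
      obtain ⟨x, -⟩ := ConnectedComponents.surjective_coe c
      exact hX.false x
    rw [ENat.card_eq_zero_iff_empty _ |>.2 this]
    exact zero_le
  · let P : ℕ → Prop := fun N => ∃ f : X → Fin N, Continuous f ∧ Function.Surjective f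
    have h1 : P 1 := ⟨fun _ => 0, continuous_const, fun p => ⟨hX.some, (Subsingleton.elim _ _)⟩⟩
    have hM1 : 1 ≤ M := by
      obtain ⟨f, hf, hs⟩ := h1
      exact h 1 f hf hs
    have hPN : P (Nat.findGreatest P M) := Nat.findGreatest_spec hM1 h1
    have hmax : ∀ k, P k → k ≤ Nat.findGreatest P M := by
      intro k hk
      obtain ⟨f, hf, hs⟩ := hk
      exact Nat.le_findGreatest (h k f hf hs) ⟨f, hf, hs⟩
    obtain ⟨N, hN⟩ : ∃ N, N = Nat.findGreatest P M := ⟨_, rfl⟩
    rw [← hN] at hPN hmax
    obtain ⟨f, hf, hs⟩ := hPN
    have hNM : N ≤ M := h N f hf hs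
    -- the fibres are preconnected
    have hpre : ∀ p : Fin N, IsPreconnected (f ⁻¹' {p}) := by
      intro p
      have hopen : IsOpen (f ⁻¹' {p}) := (isOpen_discrete {p}).preimage hf
      intro u v hu hv hsub ⟨x, hxp, hxu⟩ ⟨y, hyp, hyv⟩
      by_contra hne
      rw [not_nonempty_iff_eq_empty] at hne
      -- split the fibre
      let g : X → Fin (N + 1) := fun z => if z ∈ f ⁻¹' {p} ∩ v then Fin.last N else (f z).castSucc
      have hvo : IsOpen (f ⁻¹' {p} ∩ v) := hopen.inter hv
      have hvc : IsClosed (f ⁻¹' {p} ∩ v) := by
        have h2 : (f ⁻¹' {p} ∩ v)ᶜ = (f ⁻¹' {p})ᶜ ∪ (f ⁻¹' {p} ∩ u) := by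
          ext z
          simp only [mem_compl_iff, mem_inter_iff, mem_union]
          constructor
          · intro hz
            by_cases hzp : z ∈ f ⁻¹' {p}
            · refine Or.inr ⟨hzp, ?_⟩
              rcases hsub hzp with h3 | h3
              · exact h3
              · exact absurd ⟨hzp, h3⟩ hz
            · exact Or.inl hzp
          · rintro (hz | hz) ⟨h3, h4⟩
            · exact hz h3
            · have : z ∈ f ⁻¹' {p} ∩ (u ∩ v) := ⟨h3, hz.2, h4⟩
              rw [hne] at this
              exact this
        rw [← isOpen_compl_iff, h2]
        exact ((isClosed_discrete {p}).preimage hf).isOpen_compl.union (hopen.inter hu)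
      have hg : Continuous g := by
        refine continuous_const.if ?_ ?_
        · intro a ha
          exfalso
          have : frontier {z | z ∈ f ⁻¹' {p} ∩ v} = ∅ := (show IsClopen (f ⁻¹' {p} ∩ v) from ⟨hvc, hvo⟩).frontier_eq
          rw [this] at ha
          exact ha
        · exact (continuous_of_discreteTopology (f := Fin.castSucc)).comp hf
      have hgs : Function.Surjective g := by
        intro q
        refine Fin.lastCases ?_ (fun q' => ?_) q
        · exact ⟨y, if_pos ⟨hyp, hyv⟩⟩
        · by_cases hq : q' = p
          · refine ⟨x, ?_⟩
            have hx' : x ∉ f ⁻¹' {p} ∩ v := by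
              intro hx2
              have : x ∈ f ⁻¹' {p} ∩ (u ∩ v) := ⟨hxp, hxu, hx2.2⟩
              rw [hne] at this
              exact this
            show (if _ then _ else _) = _
            rw [if_neg hx', hq]
            have : f x = p := hxp
            rw [this]
          · obtain ⟨z, hz⟩ := hs q'
            refine ⟨z, ?_⟩
            have hz' : z ∉ f ⁻¹' {p} ∩ v := fun hz2 => hq (hz.symm.trans hz2.1)
            show (if _ then _ else _) = _
            rw [if_neg hz', hz]
      have := hmax (N + 1) ⟨g, hg, hgs⟩
      omega
    -- the components are the images of the fibres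
    choose x hx using hs
    have hsurj : Function.Surjective (fun p : Fin N => (ConnectedComponents.mk (x p))) := by
      intro c
      obtain ⟨y, rfl⟩ := ConnectedComponents.surjective_coe c
      refine ⟨f y, ?_⟩
      rw [ConnectedComponents.coe_eq_coe']
      exact (hpre (f y)).subset_connectedComponent (show y ∈ _ from rfl) (hx (f y))
    have hfin : Finite (ConnectedComponents X) := Finite.of_surjective _ hsurj
    have hle := Nat.card_le_card_of_surjective _ hsurj
    rw [Nat.card_fin] at hle
    rw [ENat.card_eq_coe_natCard]
    exact_mod_cast hle.trans hNM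

end U78
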