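import Mathlib
import Pool.Agent.W_78bee8_h33.LexMax
import Pool.Agent.W_78bee8_h33.NComp
import Pool.Agent.W_78bee8_h33.LocA
import Pool.Agent.W_78bee8_h33.AdmA
import Pool.Agent.W_78bee8_h33.LocB

/-!
# The components of a stratum
-/

namespace U78

open Set Pointwise

lemma exists_lower' {ι : Type} (S : Finset ι) (f : ι → ℝ) (hf : ∀ i, 0 < f i) :
    ∃ c : ℝ, 0 < c ∧ ∀ i ∈ S, c ≤ f i := by
  classical
  induction S using Finset.induction_on with
  | empty => exact ⟨1, one_pos, by simp⟩
  | insert a s _ ih =>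
    obtain ⟨c, hc, h⟩ := ih
    refine ⟨min c (f a), lt_min hc (hf a), fun i hi => ?_⟩
    rcases Finset.mem_insert.1 hi with rfl | hi
    · exact min_le_right _ _
    · exact (min_le_left _ _).trans (h i hi)

lemma ncard_biUnion_le' {α β : Type} (s : Finset α) (t : α → Set β) {M : ℕ}
    (h : ∀ a ∈ s, (t a).Finite ∧ (t a).ncard ≤ M) : (⋃ a ∈ s, t a).ncard ≤ s.card * M := by
  classical
  induction s using Finset.induction_on with
  | empty => simp
  | insert a s ha ih =>
    rw [Finset.set_biUnion_insert, Finset.card_insert_of_notMem ha]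
    refine (ncard_union_le _ _).trans ?_
    have h1 := ih fun b hb => h b (Finset.mem_insert_of_mem hb)
    have h2 := (h a (Finset.mem_insert_self a s)).2
    rw [add_mul, one_mul]
    omega

open Classical in
/-- THE COMPONENTS OF A STRATUM. PROOF. If `I` is empty, the stratum is empty (the union of finitely many
closed sets is closed, so a point of its frontier is in some `K i`) and there are no components.
Otherwise use `components_le`: let `f` be a continuous surjection of the stratum onto
`Fin N`. Choose preimages `x p` (`p : Fin N`), and `η > 0` so small that all `x p` are in `LocF K I Iᶜ η`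
(`stratum_locF`) and `η ≤ η₀` (`small_eta`). `S = LocF K I Iᶜ η` is compact (`locF_compact`) and contained
in the stratum (`locF_subset`), and the restriction of `f` to `S` is a continuous surjection onto
`Fin N`. `LLM S` is contained in the union over the `J` with `Adm K I J` of `LLM (LocF K I J η)`: for
`w ∈ LLM S` let `J` be the set of the `l ∉ I` such that `K l` has a point at distance `≤ η` from `w`,
and use `llm_local` and `small_eta`. By `llm_locF` it is finite with at most
`M * #{J | Adm K I J}` elements, and `parts_le` gives the claim. -/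
theorem stratum_components (F : Set (Set V)) (M : ℕ) (hM : ∀ (A : Fin 3 → Set V) (B : Set V),
    (∀ i, A i ∈ F) → B ∈ F → ∀ (σ : Fin 3 → Bool) (η : ℝ),
      Bornology.IsBounded (Loc (fun i => A i + B) σ η) →
      (LLM (Loc (fun i => A i + B) σ η)).Finite ∧ (LLM (Loc (fun i => A i + B) σ η)).ncard ≤ M)
    {n : ℕ} (A : Fin n → Set V) (B : Set V) (hA : ∀ i, A i ∈ F) (hB : B ∈ F)
    (hAc : ∀ i, IsCompact (A i)) (hBc : IsCompact B)
    (hgp : ∀ w, {i | w ∈ frontier (A i + B)}.ncard ≤ 3) (I : Finset (Fin n)) :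
    ENat.card (ConnectedComponents (stratum (fun i => A i + B) I)) ≤
      ((M * (Finset.univ.filter (fun J => Adm (fun i => A i + B) I J)).card : ℕ) : ℕ∞) := by
  have hKc : ∀ i, IsCompact (A i + B) := fun i => (hAc i).add hBc
  refine components_le _ _ fun N f hf hs => ?_
  rcases I.eq_empty_or_nonempty with hI | hI
  · -- the stratum is empty
    rcases Nat.eq_zero_or_pos N with hN | hN
    · omega
    · exfalso
      obtain ⟨⟨w, hw, hw2⟩, -⟩ := hs ⟨0, hN⟩
      have hcl : IsClosed (⋃ i, (A i + B)) := isClosed_iUnion_of_finite fun i => (hKc i).isClosed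
      obtain ⟨i, hi⟩ := mem_iUnion.1 (hcl.frontier_subset hw)
      have := (hw2 i).1 hi
      rw [hI] at this
      exact absurd this (Finset.notMem_empty i)
  · obtain ⟨η₀, hη₀, hsm⟩ := small_eta (fun i => A i + B) hKc hgp
    choose x hx using hs
    have h1 : ∀ p : Fin N, ∃ η₁ : ℝ, 0 < η₁ ∧ ∀ η : ℝ, η ≤ η₁ →
        (x p : V) ∈ LocF (fun i => A i + B) I Iᶜ η := fun p =>
      stratum_locF (fun i => A i + B) (fun i => (hKc i).isClosed) I (x p) (x p).2
    choose η₁ hη₁ hx₁ using h1
    obtain ⟨η, hη, hηη₀, hηη₁⟩ : ∃ η : ℝ, 0 < η ∧ η ≤ η₀ ∧ ∀ p, η ≤ η₁ p := by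
      obtain ⟨c, hc, h⟩ := exists_lower' (Finset.univ : Finset (Fin N)) η₁ hη₁
      exact ⟨min c η₀, lt_min hc hη₀, min_le_right _ _, fun p =>
        (min_le_left _ _).trans (h p (Finset.mem_univ p))⟩
    obtain ⟨S, hS⟩ : ∃ S, S = LocF (fun i => A i + B) I Iᶜ η := ⟨_, rfl⟩
    have hSsub : S ⊆ stratum (fun i => A i + B) I := by
      rw [hS]
      exact locF_subset _ I η hη
    have hSc : IsCompact S := by
      rw [hS]
      exact locF_compact _ hKc I Iᶜ hI η
    have hcov : LLM S ⊆ ⋃ J ∈ (Finset.univ.filter (fun J => Adm (fun i => A i + B) I J)),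
        LLM (LocF (fun i => A i + B) I J η) := by
      intro w hw
      let J : Finset (Fin n) := Finset.univ.filter (fun l => l ∉ I ∧ ∃ y ∈ A l + B, ‖w - y‖ ≤ η)
      have hdis : Disjoint I J := by
        rw [Finset.disjoint_left]
        intro i hi hiJ
        exact (Finset.mem_filter.1 hiJ).2.1 hi
      have hwS : w ∈ LocF (fun i => A i + B) I Iᶜ η := by
        rw [← hS]
        exact hw.1
      have hAdm : Adm (fun i => A i + B) I J := hsm η hη hηη₀ I J hI hdis w hwS fun l hl =>
        (Finset.mem_filter.1 hl).2.2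
      refine mem_iUnion₂.2 ⟨J, Finset.mem_filter.2 ⟨Finset.mem_univ _, hAdm⟩, ?_⟩
      rw [hS] at hw
      exact llm_local _ hKc I J η w hw hdis fun l hl hy =>
        Finset.mem_filter.2 ⟨Finset.mem_univ _, hl, hy⟩
    have hloc : ∀ J ∈ (Finset.univ.filter (fun J => Adm (fun i => A i + B) I J)),
        (LLM (LocF (fun i => A i + B) I J η)).Finite ∧
          (LLM (LocF (fun i => A i + B) I J η)).ncard ≤ M := fun J hJ =>
      llm_locF F M hM A B hA hB hAc hBc I J (Finset.mem_filter.1 hJ).2 η
    have hfin : (⋃ J ∈ (Finset.univ.filter (fun J => Adm (fun i => A i + B) I J)),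
        LLM (LocF (fun i => A i + B) I J η)).Finite :=
      Set.Finite.biUnion (Finset.finite_toSet _) fun J hJ => (hloc J hJ).1
    have hcard : (LLM S).ncard ≤
        M * (Finset.univ.filter (fun J => Adm (fun i => A i + B) I J)).card := by
      refine (ncard_le_ncard hcov hfin).trans ?_
      refine (ncard_biUnion_le' _ _ hloc).trans ?_
      rw [mul_comm]
    refine (parts_le S hSc (hfin.subset hcov) N (fun w => f ⟨w, hSsub w.2⟩) ?_ ?_).trans hcard
    · exact hf.comp (Continuous.subtype_mk continuous_subtype_val _)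
    · intro p
      refine ⟨⟨x p, ?_⟩, ?_⟩
      · rw [hS]
        exact hx₁ p η (hηη₁ p)
      · exact hx p

end U78
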