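import Mathlib
import Pool.Agent.W_78bee8_h33.Triples
import Pool.Agent.W_78bee8_h33.StratB
import Pool.Agent.W_78bee8_h33.CountAdm
import Pool.Agent.W_78bee8_h33.EncL

/-!
# Subcubic bound for the complexity of the union
-/

namespace U78

open Set Pointwise

/-- THE BOUND FOR THE COMPLEXITY. PROOF. `C, δ` from `triples_bound`, `M` from `hL`. By `stratum_components`
and `count_adm` the complexity is at most `M * (16 n² + 64 t)`, `t` = number of triples with a free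
point `≤ C n^(3-δ)`. With `δ' = min δ 1` and `n ≥ 1`: `n² ≤ n^(3-δ')` and `n^(3-δ) ≤ n^(3-δ')`; the constant
is `M * (16 + 64 C) + 1`. For `n = 0` the complexity is `0`. -/
theorem complexity_bound (F : Set (Set V)) (hF : TameFam F) (hL : TameLex F) :
    ∃ C δ : ℝ, 0 < C ∧ 0 < δ ∧ ∀ (n : ℕ) (A : Fin n → Set V) (B : Set V), (∀ i, A i ∈ F) →
      (∀ i, IsCompact (A i)) → (∀ i, Convex ℝ (A i)) → B ∈ F → IsCompact B → Convex ℝ B →
      (∀ i j, i ≠ j → Disjoint (A i) (A j)) → (∀ w, {i | w ∈ frontier (A i + B)}.ncard ≤ 3) →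
      ∃ m : ℕ, complexity (fun i => A i + B) = m ∧ (m : ℝ) ≤ C * (n : ℝ) ^ (3 - δ) := by
  classical
  obtain ⟨C, δ, hC, hδ, h⟩ := triples_bound F hF
  obtain ⟨M, hM⟩ := hL
  refine ⟨M * (16 + 64 * C) + 1, min δ 1, by positivity, lt_min hδ one_pos, ?_⟩
  intro n A B hA hAc hAv hB hBc hBv hd hgp
  have h1 : complexity (fun i => A i + B) ≤
      ((∑ I : Finset (Fin n), M * (Finset.univ.filter (fun J =>
        Adm (fun i => A i + B) I J)).card : ℕ) : ℕ∞) := by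
    rw [Nat.cast_sum]
    exact Finset.sum_le_sum fun I _ => stratum_components F M hM A B hA hB hAc hBc hgp I
  rw [← Finset.mul_sum] at h1
  have h2 := count_adm (fun i => A i + B)
  have h3 := h n A B hA hAc hAv hB hBc hBv hd
  obtain ⟨t, ht⟩ : ∃ t, t = {p : Fin n × Fin n × Fin n |
    ∃ w, FreePoint (fun i => A i + B) p.1 p.2.1 p.2.2 w}.ncard := ⟨_, rfl⟩
  rw [← ht] at h2 h3
  obtain ⟨m, hm⟩ : ∃ m : ℕ, complexity (fun i => A i + B) = m := by
    have : complexity (fun i => A i + B) ≠ ⊤ := ne_top_of_le_ne_top (ENat.natCast_ne_top _) h1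
    obtain ⟨m, hm⟩ := ENat.ne_top_iff_exists.1 this
    exact ⟨m, hm.symm⟩
  refine ⟨m, hm, ?_⟩
  rw [hm] at h1
  have h4 : m ≤ M * (16 * n ^ 2 + 64 * t) := by
    have h5 : m ≤ M * ∑ I : Finset (Fin n), (Finset.univ.filter (fun J =>
        Adm (fun i => A i + B) I J)).card := by exact_mod_cast h1
    exact h5.trans (Nat.mul_le_mul_left _ h2)
  have h6 : (m : ℝ) ≤ M * (16 * (n : ℝ) ^ 2 + 64 * t) := by exact_mod_cast h4
  rcases Nat.eq_zero_or_pos n with rfl | hn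
  · have ht0 : t = 0 := by
      rw [ht]
      have : {p : Fin 0 × Fin 0 × Fin 0 |
        ∃ w, FreePoint (fun i => A i + B) p.1 p.2.1 p.2.2 w} = ∅ := by
        ext p
        exact p.1.elim0
      rw [this, ncard_empty]
    rw [ht0] at h6
    have h7 : (m : ℝ) ≤ 0 := by simpa using h6
    refine h7.trans ?_
    positivity
  · have hn1 : (1 : ℝ) ≤ n := by exact_mod_cast hn
    have h8 : (n : ℝ) ^ 2 ≤ (n : ℝ) ^ (3 - min δ 1) := by
      rw [← Real.rpow_natCast]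
      refine Real.rpow_le_rpow_of_exponent_le hn1 ?_
      have := min_le_right δ 1
      push_cast
      linarith
    have h9 : (n : ℝ) ^ (3 - δ) ≤ (n : ℝ) ^ (3 - min δ 1) := by
      refine Real.rpow_le_rpow_of_exponent_le hn1 ?_
      have := min_le_left δ 1
      linarith
    have h10 : (0 : ℝ) ≤ (n : ℝ) ^ (3 - min δ 1) := by positivity
    have h11 : (t : ℝ) ≤ C * (n : ℝ) ^ (3 - min δ 1) :=
      h3.trans (mul_le_mul_of_nonneg_left h9 hC.le)
    have h12 : (16 * (n : ℝ) ^ 2 + 64 * t) ≤ (16 + 64 * C) * (n : ℝ) ^ (3 - min δ 1) := by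
      nlinarith
    have h13 : (M : ℝ) * (16 * (n : ℝ) ^ 2 + 64 * t) ≤
        M * ((16 + 64 * C) * (n : ℝ) ^ (3 - min δ 1)) :=
      mul_le_mul_of_nonneg_left h12 (Nat.cast_nonneg _)
    nlinarith

theorem final_complexity (s b : ℕ) : ∃ C δ : ℝ, 0 < C ∧ 0 < δ ∧
    ∀ (n : ℕ) (A : Fin n → Set V) (B : Set V), (∀ i, IsSA s b (A i)) → (∀ i, IsCompact (A i)) →
      (∀ i, Convex ℝ (A i)) → IsSA s b B → IsCompact B → Convex ℝ B →
      (∀ i j, i ≠ j → Disjoint (A i) (A j)) → (∀ w, {i | w ∈ frontier (A i + B)}.ncard ≤ 3) →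
      ∃ m : ℕ, complexity (fun i => A i + B) = m ∧ (m : ℝ) ≤ C * (n : ℝ) ^ (3 - δ) := by
  obtain ⟨F, hF, hL, hS⟩ := tame_sa2 s b
  obtain ⟨C, δ, hC, hδ, h⟩ := complexity_bound F hF hL
  exact ⟨C, δ, hC, hδ, fun n A B h1 h2 h3 h4 h5 h6 h7 h8 =>
    h n A B (fun i => hS _ (h1 i)) h2 h3 (hS _ h4) h5 h6 h7 h8⟩

end U78
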